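import Pool.Agent.QUS.Defs

/-!
# QUS/Bas: bases, fundamental vectors, pivots (general ring)

Everything is elementary linear algebra over a noncommutative ring `H`.
`fv_mem, fv_self, fv_oth`: `dif_pos`, `choose_spec`.  `fv_uniq`: the difference vanishes on `S`.
`expand`: both sides agree on `S`.  `piv`: put `u = fv S b e` (unit), `x = u⁻¹ • fv S b` and `y_a = fv S a - (fv S a e * u⁻¹) • fv S b`; these are
the new fundamental vectors; if `v` vanishes on `pv S b e` then `v = v b • fv S b` by `expand`, its value at `e` is `v b * u = 0`, so `v b = 0`.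
`unit_of_piv`: `fv (pv S b e) e = z • fv S b`, `z = fv (pv S b e) e b`, so `z * u = 1`; and `fv S b = u • fv (pv S b e) e`, so `u * z = 1`.
`exch`: otherwise `v = fv T e` satisfies `v = ∑ b ∈ S \ T, v b • fv S b` and `v e = 0`.  `exch'`: otherwise `fv S b` vanishes on `T`.
`piv_ind`: induction on `(T \ S).card` with `exch`.  `card_eq`: from `piv_ind`.
-/

set_option autoImplicit false

noncomputable section

open scoped Classical

namespace Pool.Agent.QUS

variable {H : Type} [Ring H] {E : Type} {Λ : Submodule H (E → H)} {S T G : Finset E} {a b e : E}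

theorem fv_mem (hS : IsB Λ S) (hb : b ∈ S) : fv Λ S b ∈ Λ := by
  unfold fv
  rw [dif_pos (hS.2 b hb)]
  exact (hS.2 b hb).choose_spec.1

theorem fv_self (hS : IsB Λ S) (hb : b ∈ S) : fv Λ S b b = 1 := by
  unfold fv
  rw [dif_pos (hS.2 b hb)]
  exact (hS.2 b hb).choose_spec.2.1

theorem fv_oth (hS : IsB Λ S) (hb : b ∈ S) {s : E} (hs : s ∈ S) (h : s ≠ b) : fv Λ S b s = 0 := by
  unfold fv
  rw [dif_pos (hS.2 b hb)]
  exact (hS.2 b hb).choose_spec.2.2 s hs h

theorem fv_uniq (hS : IsB Λ S) (hb : b ∈ S) {x : E → H} (hx : x ∈ Λ) (h1 : x b = 1) (h0 : ∀ s ∈ S, s ≠ b → x s = 0) :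
    fv Λ S b = x := by
  refine sub_eq_zero.1 (hS.1 _ (Submodule.sub_mem _ (fv_mem hS hb) hx) ?_)
  intro s hs
  show fv Λ S b s - x s = 0
  by_cases h : s = b
  · rw [h, fv_self hS hb, h1, sub_self]
  · rw [fv_oth hS hb hs h, h0 s hs h, sub_self]

theorem eq_of_on (hS : IsB Λ S) {v w : E → H} (hv : v ∈ Λ) (hw : w ∈ Λ) (h : ∀ s ∈ S, v s = w s) : v = w := by
  refine sub_eq_zero.1 (hS.1 _ (Submodule.sub_mem _ hv hw) ?_)
  intro s hs
  show v s - w s = 0
  rw [h s hs, sub_self]

theorem expand (hS : IsB Λ S) {v : E → H} (hv : v ∈ Λ) : v = ∑ c ∈ S, v c • fv Λ S c := by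
  refine eq_of_on hS hv (Submodule.sum_mem _ fun c hc => Submodule.smul_mem _ _ (fv_mem hS hc)) ?_
  intro s hs
  rw [Finset.sum_apply, Finset.sum_eq_single s]
  · show v s = v s * fv Λ S s s
    rw [fv_self hS hs, mul_one]
  · intro c hc hcs
    show v c * fv Λ S c s = 0
    rw [fv_oth hS hc hs (Ne.symm hcs), mul_zero]
  · intro h
    exact absurd hs h

/-- `S - b + e` -/
def pv (S : Finset E) (b e : E) : Finset E := insert e (S.erase b)

theorem mem_pv {x : E} : x ∈ pv S b e ↔ x = e ∨ (x ≠ b ∧ x ∈ S) := by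
  unfold pv
  rw [Finset.mem_insert, Finset.mem_erase]

theorem pv_pv (hb : b ∈ S) (he : e ∉ S) : pv (pv S b e) e b = S := by
  unfold pv
  rw [Finset.erase_insert (fun h => he (Finset.mem_of_mem_erase h)), Finset.insert_erase hb]

theorem pv_card (hb : b ∈ S) (he : e ∉ S) : (pv S b e).card = S.card := by
  unfold pv
  rw [Finset.card_insert_of_notMem (fun h => he (Finset.mem_of_mem_erase h)),
    Finset.card_erase_add_one hb]

theorem piv (hS : IsB Λ S) (hb : b ∈ S) (he : e ∉ S) (hu : IsUnit (fv Λ S b e)) : IsB Λ (pv S b e) := by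
  have h1 := Ring.inverse_mul_cancel _ hu
  constructor
  · intro v hv h0
    have h2 : v = v b • fv Λ S b := by
      have h3 := expand hS hv
      rw [Finset.sum_eq_single b] at h3
      · exact h3
      · intro c hc hcb
        rw [h0 c (mem_pv.2 (Or.inr ⟨hcb, hc⟩)), zero_smul]
      · intro h
        exact absurd hb h
    have h4 : v b * fv Λ S b e = 0 := by
      have h5 := congrFun h2 e
      rw [h0 e (mem_pv.2 (Or.inl rfl))] at h5
      exact h5.symm
    have h6 : v b = 0 := by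
      obtain ⟨w, hw⟩ := hu
      rw [← hw] at h4
      exact (Units.mul_left_eq_zero w).1 h4
    rw [h2, h6, zero_smul]
  · intro c hc
    rcases mem_pv.1 hc with rfl | ⟨hcb, hcS⟩
    · refine ⟨Ring.inverse (fv Λ S b c) • fv Λ S b, Submodule.smul_mem _ _ (fv_mem hS hb), h1, ?_⟩
      intro s hs hsc
      rcases mem_pv.1 hs with h | ⟨hsb, hsS⟩
      · exact absurd h hsc
      · show Ring.inverse (fv Λ S b c) * fv Λ S b s = 0
        rw [fv_oth hS hb hsS hsb, mul_zero]
    · refine ⟨fv Λ S c - (fv Λ S c e * Ring.inverse (fv Λ S b e)) • fv Λ S b,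
        Submodule.sub_mem _ (fv_mem hS hcS) (Submodule.smul_mem _ _ (fv_mem hS hb)), ?_, ?_⟩
      · show fv Λ S c c - (fv Λ S c e * Ring.inverse (fv Λ S b e)) * fv Λ S b c = 1
        rw [fv_self hS hcS, fv_oth hS hb hcS hcb, mul_zero, sub_zero]
      · intro s hs hsc
        show fv Λ S c s - (fv Λ S c e * Ring.inverse (fv Λ S b e)) * fv Λ S b s = 0
        rcases mem_pv.1 hs with h | ⟨hsb, hsS⟩
        · rw [h, mul_assoc, h1, mul_one, sub_self]
        · rw [fv_oth hS hcS hsS hsc, fv_oth hS hb hsS hsb, mul_zero, sub_zero]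

theorem piv_new (hS : IsB Λ S) (hb : b ∈ S) (he : e ∉ S) (hu : IsUnit (fv Λ S b e)) :
    fv Λ (pv S b e) e = Ring.inverse (fv Λ S b e) • fv Λ S b := by
  have h1 := Ring.inverse_mul_cancel _ hu
  refine fv_uniq (piv hS hb he hu) (mem_pv.2 (Or.inl rfl)) (Submodule.smul_mem _ _ (fv_mem hS hb)) h1 ?_
  intro s hs hse
  rcases mem_pv.1 hs with h | ⟨hsb, hsS⟩
  · exact absurd h hse
  · show Ring.inverse (fv Λ S b e) * fv Λ S b s = 0
    rw [fv_oth hS hb hsS hsb, mul_zero]

theorem piv_old (hS : IsB Λ S) (hb : b ∈ S) (he : e ∉ S) (hu : IsUnit (fv Λ S b e)) (ha : a ∈ S) (hab : a ≠ b) :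
    fv Λ (pv S b e) a = fv Λ S a - (fv Λ S a e * Ring.inverse (fv Λ S b e)) • fv Λ S b := by
  have h1 := Ring.inverse_mul_cancel _ hu
  refine fv_uniq (piv hS hb he hu) (mem_pv.2 (Or.inr ⟨hab, ha⟩))
    (Submodule.sub_mem _ (fv_mem hS ha) (Submodule.smul_mem _ _ (fv_mem hS hb))) ?_ ?_
  · show fv Λ S a a - (fv Λ S a e * Ring.inverse (fv Λ S b e)) * fv Λ S b a = 1
    rw [fv_self hS ha, fv_oth hS hb ha hab, mul_zero, sub_zero]
  · intro s hs hsa
    show fv Λ S a s - (fv Λ S a e * Ring.inverse (fv Λ S b e)) * fv Λ S b s = 0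
    rcases mem_pv.1 hs with h | ⟨hsb, hsS⟩
    · rw [h, mul_assoc, h1, mul_one, sub_self]
    · rw [fv_oth hS ha hsS hsa, fv_oth hS hb hsS hsb, mul_zero, sub_zero]

theorem piv_old_apply (hS : IsB Λ S) (hb : b ∈ S) (he : e ∉ S) (hu : IsUnit (fv Λ S b e)) (ha : a ∈ S) (hab : a ≠ b)
    (f : E) : fv Λ (pv S b e) a f = sc Λ S b a e f := by
  rw [piv_old hS hb he hu ha hab]
  rfl

theorem unit_of_piv (hS : IsB Λ S) (hb : b ∈ S) (he : e ∉ S) (h : IsB Λ (pv S b e)) : IsUnit (fv Λ S b e) := by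
  have hbe : b ≠ e := fun h => he (h ▸ hb)
  have he' : e ∈ pv S b e := mem_pv.2 (Or.inl rfl)
  have h1 : fv Λ (pv S b e) e = fv Λ (pv S b e) e b • fv Λ S b := by
    have h3 := expand hS (fv_mem h he')
    rw [Finset.sum_eq_single b] at h3
    · exact h3
    · intro c hc hcb
      rw [fv_oth h he' (mem_pv.2 (Or.inr ⟨hcb, hc⟩)) (fun h' => he (h' ▸ hc)), zero_smul]
    · intro h'
      exact absurd hb h'
  have h2 : fv Λ S b = fv Λ S b e • fv Λ (pv S b e) e := by
    have h3 := expand h (fv_mem hS hb)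
    rw [Finset.sum_eq_single e] at h3
    · exact h3
    · intro c hc hce
      rcases mem_pv.1 hc with h' | ⟨hcb, hcS⟩
      · exact absurd h' hce
      · rw [fv_oth hS hb hcS hcb, zero_smul]
    · intro h'
      exact absurd he' h'
  have h4 : 1 = fv Λ (pv S b e) e b * fv Λ S b e := by
    have h5 := congrFun h1 e
    rw [fv_self h he'] at h5
    exact h5
  have h6 : 1 = fv Λ S b e * fv Λ (pv S b e) e b := by
    have h5 := congrFun h2 b
    rw [fv_self hS hb] at h5
    exact h5
  exact ⟨⟨fv Λ S b e, fv Λ (pv S b e) e b, h6.symm, h4.symm⟩, rfl⟩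

theorem sub_of_sup [Nontrivial H] (hS : IsB Λ S) (hG : Sup Λ G) : S ⊆ G := by
  intro b hb
  by_contra h
  have h1 := hG _ (fv_mem hS hb) b h
  rw [fv_self hS hb] at h1
  exact one_ne_zero h1

theorem fv_out (hG : Sup Λ G) (hS : IsB Λ S) (hb : b ∈ S) (he : e ∉ G) : fv Λ S b e = 0 := by
  exact hG _ (fv_mem hS hb) e he

theorem exch [Nontrivial H] (hS : IsB Λ S) (hT : IsB Λ T) (he : e ∈ T) (heS : e ∉ S) :
    ∃ b ∈ S, b ∉ T ∧ fv Λ S b e ≠ 0 := by
  by_contra hcon
  have h1 : fv Λ T e e = 0 := by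
    have h2 := congrFun (expand hS (fv_mem hT he)) e
    rw [h2, Finset.sum_apply]
    refine Finset.sum_eq_zero fun c hc => ?_
    show fv Λ T e c * fv Λ S c e = 0
    by_cases hcT : c ∈ T
    · rw [fv_oth hT he hcT (fun h' => heS (h' ▸ hc)), zero_mul]
    · by_cases h3 : fv Λ S c e = 0
      · rw [h3, mul_zero]
      · exact absurd ⟨c, hc, hcT, h3⟩ hcon
  rw [fv_self hT he] at h1
  exact one_ne_zero h1

theorem exch' [Nontrivial H] (hS : IsB Λ S) (hT : IsB Λ T) (hb : b ∈ S) (hbT : b ∉ T) :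
    ∃ e ∈ T, e ∉ S ∧ fv Λ S b e ≠ 0 := by
  by_contra hcon
  have h1 : fv Λ S b = 0 := by
    refine hT.1 _ (fv_mem hS hb) fun e he => ?_
    by_cases heS : e ∈ S
    · exact fv_oth hS hb heS (fun h' => hbT (h' ▸ he))
    · by_contra h3
      exact hcon ⟨e, he, heS, h3⟩
  have h2 := congrFun h1 b
  rw [fv_self hS hb] at h2
  exact one_ne_zero h2

/-- induction along pivots which stay inside `S ∪ T` -/
theorem piv_ind [Nontrivial H] (hU : ∀ S, IsB Λ S → ∀ b ∈ S, ∀ e, UZ (fv Λ S b e)) (P : Finset E → Prop)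
    (hS : IsB Λ S) (h0 : P S)
    (step : ∀ S', IsB Λ S' → S' ⊆ S ∪ T → P S' → ∀ b ∈ S', ∀ e ∈ T, e ∉ S' → IsUnit (fv Λ S' b e) → P (pv S' b e))
    (hT : IsB Λ T) : P T := by
  have key : ∀ n : ℕ, ∀ S', IsB Λ S' → S' ⊆ S ∪ T → P S' → (T \ S').card = n → P T := by
    intro n
    induction n with
    | zero =>
      intro S' hS' hsub hP hc
      have h1 : T ⊆ S' := Finset.sdiff_eq_empty_iff_subset.1 (Finset.card_eq_zero.1 hc)
      have h2 : S' ⊆ T := by
        intro b hb
        by_contra hbT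
        obtain ⟨e, he, heS, -⟩ := exch' hS' hT hb hbT
        exact heS (h1 he)
      rw [Finset.Subset.antisymm h1 h2]
      exact hP
    | succ n ih =>
      intro S' hS' hsub hP hc
      obtain ⟨e, he⟩ := Finset.card_pos.1 (by rw [hc]; exact Nat.succ_pos n)
      rw [Finset.mem_sdiff] at he
      obtain ⟨b, hb, hbT, hne⟩ := exch hS' hT he.1 he.2
      have hu : IsUnit (fv Λ S' b e) := (hU S' hS' b hb e).resolve_left hne
      refine ih (pv S' b e) (piv hS' hb he.2 hu) ?_ (step S' hS' hsub hP b hb e he.1 he.2 hu) ?_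
      · intro x hx
        rcases mem_pv.1 hx with h | ⟨-, hxS⟩
        · rw [h]
          exact Finset.mem_union_right _ he.1
        · exact hsub hxS
      · have h3 : T \ pv S' b e = (T \ S').erase e := by
          ext x
          rw [Finset.mem_sdiff, mem_pv, Finset.mem_erase, Finset.mem_sdiff]
          constructor
          · rintro ⟨hxT, hx⟩
            refine ⟨fun h => hx (Or.inl h), hxT, fun h => hx (Or.inr ⟨fun h' => hbT (h' ▸ hxT), h⟩)⟩
          · rintro ⟨hxe, hxT, hxS⟩
            exact ⟨hxT, fun h => h.elim hxe fun h' => hxS h'.2⟩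
        rw [h3, Finset.card_erase_of_mem (Finset.mem_sdiff.2 he), hc]
        rfl
  exact key _ S hS Finset.subset_union_left h0 rfl

theorem card_eq [Nontrivial H] (hU : ∀ S, IsB Λ S → ∀ b ∈ S, ∀ e, UZ (fv Λ S b e)) (hS : IsB Λ S) (hT : IsB Λ T) :
    S.card = T.card := by
  refine piv_ind hU (fun X => S.card = X.card) hS rfl ?_ hT
  intro S' _ _ hP b hb e _ he _
  rw [pv_card hb he]
  exact hP

theorem uz_neg {x : H} (h : UZ x) : UZ (-x) := by
  rcases h with h | h
  · exact Or.inl (by rw [h, neg_zero])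
  · exact Or.inr h.neg

theorem uz_mul {x y : H} (hx : UZ x) (hy : UZ y) : UZ (x * y) := by
  rcases hx with hx | hx
  · exact Or.inl (by rw [hx, zero_mul])
  · rcases hy with hy | hy
    · exact Or.inl (by rw [hy, mul_zero])
    · exact Or.inr (hx.mul hy)

theorem uz_inv {x : H} (hx : UZ x) : UZ (Ring.inverse x) := by
  rcases hx with hx | hx
  · exact Or.inl (by rw [hx, Ring.inverse_zero])
  · exact Or.inr hx.ringInverse

/-- two pivots in the same row of a block -/
theorem sc_row {x y z t : H} (hx : IsUnit x) (hy : IsUnit y) (h : UZ (t - z * Ring.inverse x * y)) :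
    UZ (z - t * Ring.inverse y * x) := by
  have e1 : z - t * Ring.inverse y * x = -((t - z * Ring.inverse x * y) * Ring.inverse y * x) := by
    have h1 : z * Ring.inverse x * y * Ring.inverse y * x = z := by
      rw [mul_assoc (z * Ring.inverse x), Ring.mul_inverse_cancel _ hy, mul_one, mul_assoc,
        Ring.inverse_mul_cancel _ hx, mul_one]
    rw [sub_mul, sub_mul, h1, neg_sub]
  rw [e1]
  exact uz_neg (uz_mul (uz_mul h (Or.inr hy.ringInverse)) (Or.inr hx))

/-- two pivots in the same column of a block -/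
theorem sc_col {x y z t : H} (hx : IsUnit x) (hz : IsUnit z) (h : UZ (t - z * Ring.inverse x * y)) :
    UZ (y - x * Ring.inverse z * t) := by
  have e1 : y - x * Ring.inverse z * t = -(x * Ring.inverse z * (t - z * Ring.inverse x * y)) := by
    have h1 : x * Ring.inverse z * (z * Ring.inverse x * y) = y := by
      rw [mul_assoc, ← mul_assoc (Ring.inverse z), ← mul_assoc (Ring.inverse z), Ring.inverse_mul_cancel _ hz,
        one_mul, ← mul_assoc, Ring.mul_inverse_cancel _ hx, one_mul]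
    rw [mul_sub, h1, neg_sub]
  rw [e1]
  exact uz_neg (uz_mul (uz_mul (Or.inr hx) (Or.inr hz.ringInverse)) h)

/-- two opposite pivots of a block -/
theorem sc_diag {x y z t : H} (hx : IsUnit x) (ht : IsUnit t) (hy : UZ y) (hz : UZ z)
    (h : UZ (t - z * Ring.inverse x * y)) : UZ (x - y * Ring.inverse t * z) := by
  rcases hy with hy | hy
  · rw [hy, zero_mul, zero_mul, sub_zero]
    exact Or.inr hx
  · have e1 : x - y * Ring.inverse t * z =
        y * Ring.inverse t * (t - z * Ring.inverse x * y) * Ring.inverse y * x := by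
      have h1 : y * Ring.inverse t * t * Ring.inverse y * x = x := by
        rw [mul_assoc y, Ring.inverse_mul_cancel _ ht, mul_one, Ring.mul_inverse_cancel _ hy, one_mul]
      have h2 : y * Ring.inverse t * (z * Ring.inverse x * y) * Ring.inverse y * x =
          y * Ring.inverse t * z := by
        rw [← mul_assoc (y * Ring.inverse t), mul_assoc _ y (Ring.inverse y), Ring.mul_inverse_cancel _ hy,
          mul_one, ← mul_assoc, mul_assoc _ (Ring.inverse x) x, Ring.inverse_mul_cancel _ hx, mul_one]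
      rw [mul_sub, sub_mul, sub_mul, h1, h2]
    rw [e1]
    exact uz_mul (uz_mul (uz_mul (uz_mul (Or.inr hy) (Or.inr ht.ringInverse)) h)
      (Or.inr hy.ringInverse)) (Or.inr hx)

end Pool.Agent.QUS
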