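import Pool.Agent.QUS.Bas

/-!
# QUS/Rd: facts about `Rq`, `Hz` and the reduction (no finite search except for the 24 units)

`Rq`: units = elements with `a ≠ 0` (inverse `⟨a⁻¹, ..⟩` by `decide` over the 16 elements or explicit).
`Hz`: `N` is multiplicative (`N x = normSq (emb x)`, or `ring`), `x * star x = N x`, unit iff `N = 1`; `N x = 1` bounds the coordinates:
`4 N = (2a-d)^2 + (2b+d)^2 + (2c+d)^2 + d^2`, so `|d| <= 2` and the other coordinates are at most `1` in absolute value; `unitsL` = explicit list of 24 quadruples.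
`N x` is odd iff `red x` is a unit.
-/

set_option autoImplicit false

noncomputable section

open scoped Classical

namespace Pool.Agent.QUS

open Pool.Agent.FRM

instance : Nontrivial Rq := ⟨0, 1, by decide⟩

instance : Nontrivial Hz := ⟨0, 1, by decide⟩

private theorem Rd_inv : ∀ a b : F4, a ≠ 0 → a * a⁻¹ = 1 ∧ a⁻¹ * a = 1 ∧
    a * (a⁻¹ * b * a⁻¹ ^ 2) + b * a⁻¹ ^ 2 = 0 ∧ a⁻¹ * b + (a⁻¹ * b * a⁻¹ ^ 2) * a ^ 2 = 0 := by
  decide

private theorem Rd_cast (n : ℤ) : (n : Hz) = ⟨n, 0, 0, 0⟩ := by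
  induction n using Int.induction_on with
  | zero =>
    rw [Int.cast_zero]
    rfl
  | succ n ih =>
    rw [Int.cast_add, ih, Int.cast_one]
    ext <;> simp
  | pred n ih =>
    rw [Int.cast_sub, ih, Int.cast_one, sub_eq_add_neg]
    ext <;> simp [sub_eq_add_neg]

private theorem Rd_four (x : Hz) : 4 * x.N = (2 * x.a - x.d) ^ 2 + (2 * x.b + x.d) ^ 2 + (2 * x.c + x.d) ^ 2 + x.d ^ 2 := by
  unfold Hz.N
  ring

private theorem Rd_two : (2 : F4) = 0 := by decide

private theorem Rd_even {n : ℤ} (h : Even n) : (n : F4) = 0 := by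
  obtain ⟨k, rfl⟩ := h
  rw [← two_mul]
  push_cast
  rw [Rd_two, zero_mul]

private theorem Rd_odd {n : ℤ} (h : Odd n) : (n : F4) = 1 := by
  obtain ⟨k, rfl⟩ := h
  push_cast
  rw [Rd_two, zero_mul, zero_add]

private theorem Rd_lin (m n : ℤ) : (m : F4) + (n : F4) * F4.w = 0 ↔ Even m ∧ Even n := by
  rcases Int.even_or_odd m with hm | hm <;> rcases Int.even_or_odd n with hn | hn
  · rw [Rd_even hm, Rd_even hn]
    exact ⟨fun _ => ⟨hm, hn⟩, fun _ => by decide⟩
  · rw [Rd_even hm, Rd_odd hn]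
    exact ⟨fun h => absurd h (by decide), fun h => absurd h.2 (Int.not_even_iff_odd.2 hn)⟩
  · rw [Rd_odd hm, Rd_even hn]
    exact ⟨fun h => absurd h (by decide), fun h => absurd h.1 (Int.not_even_iff_odd.2 hm)⟩
  · rw [Rd_odd hm, Rd_odd hn]
    exact ⟨fun h => absurd h (by decide), fun h => absurd h.1 (Int.not_even_iff_odd.2 hm)⟩

private theorem Rd_star_N (x : Hz) : (star x).N = x.N := by
  rw [Hz.star_def]
  unfold Hz.N
  ring

private theorem Rd_mulstar (x : Hz) : x * star x = (x.N : Hz) := by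
  rw [Rd_cast, Hz.star_def, Hz.mul_def]
  unfold Hz.N
  ext <;> simp only <;> ring

theorem rq_unit {x : Rq} : IsUnit x ↔ x.a ≠ 0 := by
  constructor
  · rintro ⟨u, rfl⟩ h
    have h1 := congrArg Rq.a u.mul_inv
    rw [Rq.mul_a, h, zero_mul, Rq.one_a] at h1
    exact absurd h1 (by decide)
  · intro h
    obtain ⟨h1, h2, h3, h4⟩ := Rd_inv x.a x.b h
    refine ⟨⟨x, ⟨x.a⁻¹, x.a⁻¹ * x.b * x.a⁻¹ ^ 2⟩, ?_, ?_⟩, rfl⟩
    · ext
      · exact h1
      · exact h3
    · ext
      · exact h2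
      · exact h4

theorem N_mul (x y : Hz) : (x * y).N = x.N * y.N := by
  rw [Hz.mul_def]
  unfold Hz.N
  ring

theorem N_nonneg (x : Hz) : 0 ≤ x.N := by
  have h := Rd_four x
  nlinarith [sq_nonneg (2 * x.a - x.d), sq_nonneg (2 * x.b + x.d), sq_nonneg (2 * x.c + x.d), sq_nonneg x.d]

theorem N_eq_zero {x : Hz} : x.N = 0 ↔ x = 0 := by
  constructor
  · intro h
    have h4 := Rd_four x
    rw [h, mul_zero] at h4
    have h1 := sq_nonneg (2 * x.a - x.d)
    have h2 := sq_nonneg (2 * x.b + x.d)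
    have h3 := sq_nonneg (2 * x.c + x.d)
    have h5 := sq_nonneg x.d
    have e1 : x.d = 0 := pow_eq_zero_iff (two_ne_zero) |>.1 (by linarith)
    have e2 : 2 * x.a - x.d = 0 := pow_eq_zero_iff (two_ne_zero) |>.1 (by linarith)
    have e3 : 2 * x.b + x.d = 0 := pow_eq_zero_iff (two_ne_zero) |>.1 (by linarith)
    have e4 : 2 * x.c + x.d = 0 := pow_eq_zero_iff (two_ne_zero) |>.1 (by linarith)
    ext
    · show x.a = 0
      omega
    · show x.b = 0
      omega
    · show x.c = 0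
      omega
    · exact e1
  · rintro rfl
    rfl

theorem hz_unit {x : Hz} : IsUnit x ↔ x.N = 1 := by
  constructor
  · rintro ⟨u, rfl⟩
    have h1 := congrArg Hz.N u.mul_inv
    rw [N_mul] at h1
    have h2 : Hz.N 1 = 1 := rfl
    rw [h2] at h1
    rcases Int.eq_one_or_neg_one_of_mul_eq_one h1 with h | h
    · exact h
    · have h3 := N_nonneg (u : Hz)
      rw [h] at h3
      exact absurd h3 (by decide)
  · intro h
    refine ⟨⟨x, star x, ?_, ?_⟩, rfl⟩
    · rw [Rd_mulstar, h, Int.cast_one]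
    · have h1 := Rd_mulstar (star x)
      rw [star_star, Rd_star_N, h, Int.cast_one] at h1
      exact h1

theorem mul_star_self' (x : Hz) : x * star x = (x.N : Hz) := by
  exact Rd_mulstar x

/-- the 24 units -/
def unitsL : List Hz :=
  [⟨1, 0, 0, 0⟩, ⟨-1, 0, 0, 0⟩, ⟨0, 1, 0, 0⟩, ⟨0, -1, 0, 0⟩, ⟨0, 0, 1, 0⟩, ⟨0, 0, -1, 0⟩,
   ⟨1, -1, -1, 2⟩, ⟨-1, 1, 1, -2⟩,
   ⟨0, 0, 0, 1⟩, ⟨1, 0, 0, 1⟩, ⟨0, -1, 0, 1⟩, ⟨1, -1, 0, 1⟩, ⟨0, 0, -1, 1⟩, ⟨1, 0, -1, 1⟩, ⟨0, -1, -1, 1⟩, ⟨1, -1, -1, 1⟩,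
   ⟨0, 0, 0, -1⟩, ⟨-1, 0, 0, -1⟩, ⟨0, 1, 0, -1⟩, ⟨-1, 1, 0, -1⟩, ⟨0, 0, 1, -1⟩, ⟨-1, 0, 1, -1⟩, ⟨0, 1, 1, -1⟩, ⟨-1, 1, 1, -1⟩]

theorem mem_unitsL {x : Hz} : x ∈ unitsL ↔ IsUnit x := by
  rw [hz_unit]
  constructor
  · intro h
    have key : ∀ y ∈ unitsL, y.N = 1 := by
      unfold unitsL Hz.N
      decide
    exact key x h
  · intro h
    obtain ⟨a, b, c, d⟩ := x
    have h4 := Rd_four ⟨a, b, c, d⟩
    rw [h] at h4
    simp only at h4
    have q1 := sq_nonneg (2 * a - d)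
    have q2 := sq_nonneg (2 * b + d)
    have q3 := sq_nonneg (2 * c + d)
    have q4 := sq_nonneg d
    have d1 : d ≤ 2 := by nlinarith
    have d2 : -2 ≤ d := by nlinarith
    unfold unitsL
    interval_cases d
    · have e1 : 2 * a - -2 = 0 := pow_eq_zero_iff (two_ne_zero) |>.1 (by linarith)
      have e2 : 2 * b + -2 = 0 := pow_eq_zero_iff (two_ne_zero) |>.1 (by linarith)
      have e3 : 2 * c + -2 = 0 := pow_eq_zero_iff (two_ne_zero) |>.1 (by linarith)
      have a1 : a = -1 := by omega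
      have b1 : b = 1 := by omega
      have c1 : c = 1 := by omega
      subst a1 b1 c1
      decide
    · have a1 : a ≤ 0 := by nlinarith
      have a2 : -1 ≤ a := by nlinarith
      have b1 : b ≤ 1 := by nlinarith
      have b2 : 0 ≤ b := by nlinarith
      have c1 : c ≤ 1 := by nlinarith
      have c2 : 0 ≤ c := by nlinarith
      interval_cases a <;> interval_cases b <;> interval_cases c <;> first | decide | (exfalso; omega)
    · have a1 : a ≤ 1 := by nlinarith
      have a2 : -1 ≤ a := by nlinarith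
      have b1 : b ≤ 1 := by nlinarith
      have b2 : -1 ≤ b := by nlinarith
      have c1 : c ≤ 1 := by nlinarith
      have c2 : -1 ≤ c := by nlinarith
      interval_cases a <;> interval_cases b <;> interval_cases c <;> first | decide | (exfalso; omega)
    · have a1 : a ≤ 1 := by nlinarith
      have a2 : 0 ≤ a := by nlinarith
      have b1 : b ≤ 0 := by nlinarith
      have b2 : -1 ≤ b := by nlinarith
      have c1 : c ≤ 0 := by nlinarith
      have c2 : -1 ≤ c := by nlinarith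
      interval_cases a <;> interval_cases b <;> interval_cases c <;> first | decide | (exfalso; omega)
    · have e1 : 2 * a - 2 = 0 := pow_eq_zero_iff (two_ne_zero) |>.1 (by linarith)
      have e2 : 2 * b + 2 = 0 := pow_eq_zero_iff (two_ne_zero) |>.1 (by linarith)
      have e3 : 2 * c + 2 = 0 := pow_eq_zero_iff (two_ne_zero) |>.1 (by linarith)
      have a1 : a = 1 := by omega
      have b1 : b = -1 := by omega
      have c1 : c = -1 := by omega
      subst a1 b1 c1
      decide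

theorem red_unit {x : Hz} (h : IsUnit x) : IsUnit (red x) := h.map red

theorem red_inv {x : Hz} (h : IsUnit x) : red (Ring.inverse x) = Ring.inverse (red x) := by
  obtain ⟨u, rfl⟩ := h
  rw [Ring.inverse_unit]
  exact (Ring.inverse_unit (Units.map (red : Hz →* Rq) u)).symm

theorem uz_red {x : Hz} (h : UZ x) : UZ (red x) := by
  rcases h with h | h
  · exact Or.inl (by rw [h, map_zero])
  · exact Or.inr (red_unit h)

theorem eq_zero_of_red {x : Hz} (h : UZ x) (h0 : red x = 0) : x = 0 := by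
  rcases h with h | h
  · exact h
  · exact absurd h0 (red_unit h).ne_zero

theorem unit_of_red {x : Hz} (h : UZ x) (h0 : red x ≠ 0) : IsUnit x := by
  rcases h with h | h
  · exact absurd (by rw [h, map_zero]) h0
  · exact h

theorem red_star (x : Hz) : red (star x) = star (red x) := by
  have hw : (F4.w : F4) ^ 2 = F4.w + 1 := by decide
  have hs : ∀ m n : ℤ, ((m : F4) + (n : F4) * F4.w) ^ 2 = (m : F4) + (n : F4) * (F4.w + 1) := by
    intro m n
    rcases Int.even_or_odd m with hm | hm <;> rcases Int.even_or_odd n with hn | hn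
    · rw [Rd_even hm, Rd_even hn]
      decide
    · rw [Rd_even hm, Rd_odd hn]
      decide
    · rw [Rd_odd hm, Rd_even hn]
      decide
    · rw [Rd_odd hm, Rd_odd hn]
      decide
  ext
  · show ((((star x).a + (star x).b + (star x).c : ℤ) : F4) + ((star x).d : F4) * F4.w) =
      (((x.a + x.b + x.c : ℤ) : F4) + (x.d : F4) * F4.w) ^ 2
    rw [hs, Hz.star_def]
    push_cast
    linear_combination (-(x.b : F4) - x.c - x.d - x.d * F4.w) * Rd_two
  · show (((star x).b : F4) + ((star x).c : F4) * F4.w) = ((x.b : F4) + (x.c : F4) * F4.w)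
    rw [Hz.star_def]
    push_cast
    linear_combination (-(x.b : F4) - x.c * F4.w) * Rd_two

theorem red_neg' (x : Hz) : red (-x) = red x := by
  rw [map_neg]
  exact Rq.ext rfl rfl

/-- `red x` is a unit iff the norm of `x` is odd -/
theorem red_unit_iff {x : Hz} : IsUnit (red x) ↔ Odd x.N := by
  rw [rq_unit]
  have h1 : (red x).a = ((x.a + x.b + x.c : ℤ) : F4) + (x.d : F4) * F4.w := rfl
  have h2 : x.N = (x.a + x.b + x.c) ^ 2 + x.d ^ 2 + (x.a + x.b + x.c) * x.d -
      2 * (x.a * x.d + x.a * x.b + x.b * x.c + x.c * x.a) := by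
    unfold Hz.N
    ring
  rw [Ne, h1, Rd_lin, h2]
  rcases Int.even_or_odd' (x.a + x.b + x.c) with ⟨m, hm | hm⟩ <;> rcases Int.even_or_odd' x.d with ⟨n, hn | hn⟩ <;>
    rw [hm]
  · constructor
    · intro h
      exact absurd ⟨⟨m, two_mul m⟩, ⟨n, hn.trans (two_mul n)⟩⟩ h
    · rintro ⟨k, hk⟩ -
      have hn2 : x.d ^ 2 = 2 * (2 * n ^ 2) := by rw [hn]; ring
      have hk2 : 2 * (2 * m ^ 2 + 2 * n ^ 2 + m * x.d - (x.a * x.d + x.a * x.b + x.b * x.c + x.c * x.a)) = 2 * k + 1 := by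
        rw [← hk, hn2]
        ring
      omega
  · constructor
    · intro _
      refine ⟨2 * m ^ 2 + 2 * n ^ 2 + 2 * n + m * x.d - (x.a * x.d + x.a * x.b + x.b * x.c + x.c * x.a), ?_⟩
      have hn2 : x.d ^ 2 = 2 * (2 * n ^ 2 + 2 * n) + 1 := by rw [hn]; ring
      rw [hn2]
      ring
    · rintro - ⟨-, h⟩
      rw [hn] at h
      exact absurd h (Int.not_even_iff_odd.2 ⟨n, rfl⟩)
  · constructor
    · intro _
      refine ⟨2 * m ^ 2 + 2 * m + 2 * n ^ 2 + (2 * m + 1) * n - (x.a * x.d + x.a * x.b + x.b * x.c + x.c * x.a), ?_⟩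
      have hn2 : x.d ^ 2 = 2 * (2 * n ^ 2) := by rw [hn]; ring
      have hn3 : (2 * m + 1) * x.d = 2 * ((2 * m + 1) * n) := by rw [hn]; ring
      rw [hn2, hn3]
      ring
    · rintro - ⟨h, -⟩
      exact absurd h (Int.not_even_iff_odd.2 ⟨m, rfl⟩)
  · constructor
    · intro _
      refine ⟨2 * m ^ 2 + 2 * m + 2 * n ^ 2 + 2 * n + 2 * m * n + m + n + 1 -
        (x.a * x.d + x.a * x.b + x.b * x.c + x.c * x.a), ?_⟩
      have hn2 : x.d ^ 2 = 4 * n ^ 2 + 4 * n + 1 := by rw [hn]; ring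
      have hn3 : (2 * m + 1) * x.d = 4 * m * n + 2 * m + 2 * n + 1 := by rw [hn]; ring
      rw [hn2, hn3]
      ring
    · rintro - ⟨h, -⟩
      exact absurd h (Int.not_even_iff_odd.2 ⟨m, rfl⟩)

/-- `red x = 0` iff `x` is divisible by two -/
theorem red_eq_zero {x : Hz} : red x = 0 ↔ ∃ y : Hz, x = 2 * y := by
  constructor
  · intro h
    have ha : ((x.a + x.b + x.c : ℤ) : F4) + (x.d : F4) * F4.w = 0 := congrArg Rq.a h
    have hb : (x.b : F4) + (x.c : F4) * F4.w = 0 := congrArg Rq.b h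
    obtain ⟨⟨s, hs⟩, ⟨d, hd⟩⟩ := (Rd_lin _ _).1 ha
    obtain ⟨⟨b, hb⟩, ⟨c, hc⟩⟩ := (Rd_lin _ _).1 hb
    refine ⟨⟨s - b - c, b, c, d⟩, ?_⟩
    rw [two_mul]
    ext
    · show x.a = s - b - c + (s - b - c)
      omega
    · exact hb
    · exact hc
    · exact hd
  · rintro ⟨y, rfl⟩
    have h2 : (2 : Rq) = 0 := by
      rw [← one_add_one_eq_two]
      exact Rq.ext (by decide) (by decide)
    rw [map_mul, map_ofNat, h2, zero_mul]

end Pool.Agent.QUS
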