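import Pool.Agent.QUS.Rd

/-!
# QUS/Cn: connectivity and the fundamental graph

`graph_of_conn`: let `A` be as in the hypothesis; for `b ∈ S ∩ A` the vector `fv S b` is supported in `A` (outside `G` it is zero), for `b ∈ S \ A` it is zero on `A`;
so `cut A` maps `Γ` to `Γ` (`expand`).  `conn_of_graph`: if `cut A` maps `Γ` to `Γ` then `cut A (fv S b)` is `fv S b` (`b ∈ A`) or `0` (`b ∉ A`), as it has the same
coordinates on `S`; so the graph hypothesis holds for `A`.  `near_of_conn`: `A` = elements of `S` which are `Near` to `b` from the left (`∃ m, Near m x b`) and all `c ∈ G \ S` with `fv x c ≠ 0` for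
such an `x`; `A` is closed, contains `b`, so `A = G ∋ a`.
-/

set_option autoImplicit false

noncomputable section

open scoped Classical

namespace Pool.Agent.QUS

variable {H : Type} [Ring H] [Nontrivial H] {E : Type} {Γ : Submodule H (E → H)} {S G : Finset E} {a b : E}

private theorem cut_in {A : Set E} {g : E} (h : g ∈ A) (v : E → H) : cut A v g = v g := if_pos h

private theorem cut_out {A : Set E} {g : E} (h : g ∉ A) (v : E → H) : cut A v g = 0 := if_neg h

theorem graph_of_conn (hG : Sup Γ G) (hS : IsB Γ S) (hC : Conn Γ G) (A : Finset E) (hA : A ⊆ G)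
    (h : ∀ b ∈ S, ∀ e ∈ G, fv Γ S b e ≠ 0 → (b ∈ A ↔ e ∈ A)) : A = ∅ ∨ A = G := by
  refine hC A hA fun v hv => ?_
  rw [expand hS hv, map_sum]
  refine Submodule.sum_mem _ fun c hc => ?_
  rw [map_smul]
  refine Submodule.smul_mem _ _ ?_
  by_cases hcA : c ∈ A
  · have : cut (A : Set E) (fv Γ S c) = fv Γ S c := by
      funext g
      by_cases hg : g ∈ (A : Set E)
      · exact cut_in hg _
      · rw [cut_out hg]
        by_cases hgG : g ∈ G
        · by_contra hne
          exact hg ((h c hc g hgG (Ne.symm hne)).1 hcA)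
        · exact (fv_out hG hS hc hgG).symm
    rw [this]
    exact fv_mem hS hc
  · have : cut (A : Set E) (fv Γ S c) = 0 := by
      funext g
      by_cases hg : g ∈ (A : Set E)
      · rw [cut_in hg]
        by_contra hne
        exact hcA ((h c hc g (hA hg) hne).2 hg)
      · exact cut_out hg _
    rw [this]
    exact Submodule.zero_mem _

theorem conn_of_graph (hG : Sup Γ G) (hS : IsB Γ S)
    (h : ∀ A ⊆ G, (∀ b ∈ S, ∀ e ∈ G, fv Γ S b e ≠ 0 → (b ∈ A ↔ e ∈ A)) → A = ∅ ∨ A = G) : Conn Γ G := by
  intro A hA hcut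
  refine h A hA fun b hb e he hne => ?_
  have hm := hcut _ (fv_mem hS hb)
  by_cases hbA : b ∈ A
  · have hE : fv Γ S b = cut (A : Set E) (fv Γ S b) := by
      refine fv_uniq hS hb hm ?_ ?_
      · rw [cut_in (Finset.mem_coe.2 hbA)]
        exact fv_self hS hb
      · intro s hs hsb
        by_cases hsA : s ∈ (A : Set E)
        · rw [cut_in hsA]
          exact fv_oth hS hb hs hsb
        · exact cut_out hsA _
    refine ⟨fun _ => ?_, fun _ => hbA⟩
    by_contra heA
    apply hne
    rw [congrFun hE e]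
    exact cut_out (by simpa using heA) _
  · have hE : cut (A : Set E) (fv Γ S b) = 0 := by
      refine eq_of_on hS hm (Submodule.zero_mem _) fun s hs => ?_
      by_cases hsA : s ∈ (A : Set E)
      · rw [cut_in hsA]
        refine fv_oth hS hb hs ?_
        rintro rfl
        exact hbA hsA
      · exact cut_out hsA _
    refine ⟨fun hh => absurd hh hbA, fun heA => ?_⟩
    exfalso
    apply hne
    have := congrFun hE e
    rwa [cut_in (Finset.mem_coe.2 heA)] at this

theorem near_of_conn (hG : Sup Γ G) (hS : IsB Γ S) (hC : Conn Γ G) (ha : a ∈ S) (hb : b ∈ S) : ∃ m, Near Γ S m a b := by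
  have hSG : S ⊆ G := sub_of_sup hS hG
  set A : Finset E := G.filter fun e => (e ∈ S ∧ ∃ m, Near Γ S m e b) ∨
    (e ∉ S ∧ ∃ x ∈ S, (∃ m, Near Γ S m x b) ∧ fv Γ S x e ≠ 0) with hAdef
  have hAG : A ⊆ G := Finset.filter_subset _ _
  have hbA : b ∈ A := by
    rw [hAdef, Finset.mem_filter]
    exact ⟨hSG hb, Or.inl ⟨hb, 0, Near.zero b hb⟩⟩
  have hcl : ∀ b' ∈ S, ∀ e ∈ G, fv Γ S b' e ≠ 0 → (b' ∈ A ↔ e ∈ A) := by
    intro b' hb' e he hne
    by_cases heS : e ∈ S
    · have : e = b' := by
        by_contra hh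
        exact hne (fv_oth hS hb' heS hh)
      rw [this]
    · constructor
      · intro hb'A
        rw [hAdef, Finset.mem_filter] at hb'A ⊢
        rcases hb'A.2 with h1 | h1
        · exact ⟨he, Or.inr ⟨heS, b', hb', h1.2, hne⟩⟩
        · exact absurd hb' h1.1
      · intro heA
        rw [hAdef, Finset.mem_filter] at heA ⊢
        rcases heA.2 with h1 | ⟨_, x, hx, ⟨m, hm⟩, hxe⟩
        · exact absurd h1.1 heS
        · exact ⟨hSG hb', Or.inl ⟨hb', m + 1, Near.succ m b' e x b hb' hx heS hne hxe hm⟩⟩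
  rcases graph_of_conn hG hS hC A hAG hcl with h0 | h0
  · rw [h0] at hbA
    exact absurd hbA (Finset.notMem_empty _)
  · have haA : a ∈ A := by
      rw [h0]
      exact hSG ha
    rw [hAdef, Finset.mem_filter] at haA
    rcases haA.2 with h1 | h1
    · exact h1.2
    · exact absurd ha h1.1

end Pool.Agent.QUS
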