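import Pool.Agent.QUS.Du

/-!
# QUS/Dd: duality of the hypotheses

`sup`, `ex`, `uz`: Du.  `nc`: with respect to the basis `G \ S` of the dual the entries are `fv* e b = - star (fv b e)`; `sc` of the dual block (rows `e, f`, columns `a, b`) is a unit iff `sc` of the
block (rows `a, b`, columns `e, f`) is a unit; `cX` of the dual (rows `e, f`, columns `a, b`) is `star` of `rX a b f e = (rX a b e f)⁻¹`, so commuting is preserved; entries outside `G` are
zero, so `c, e, f ∈ G`.  `ch`: the dual of `Φ` with the trivial star (`letI := starRingOfComm`).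
-/

set_option autoImplicit false

noncomputable section

open scoped Classical

namespace Pool.Agent.QUS

section

variable {H : Type} [Ring H] [Nontrivial H] [StarRing H] {E : Type} {Λ : Submodule H (E → H)} {S G : Finset E}

omit [Nontrivial H] [StarRing H] in
private theorem inv_neg' (x : H) : Ring.inverse (-x) = - Ring.inverse x := by
  by_cases h : IsUnit x
  · obtain ⟨u, rfl⟩ := h
    rw [← Units.val_neg, Ring.inverse_unit, Ring.inverse_unit, inv_neg, Units.val_neg]
  · rw [Ring.inverse_non_unit _ h, Ring.inverse_non_unit _ (fun h' => h ((IsUnit.neg_iff x).1 h')), neg_zero]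

omit [Nontrivial H] [StarRing H] in
private theorem u_row {x y z t : H} (hx : IsUnit x) (hy : IsUnit y) (h : IsUnit (t - z * Ring.inverse x * y)) :
    IsUnit (z - t * Ring.inverse y * x) := by
  have e1 : z - t * Ring.inverse y * x = -((t - z * Ring.inverse x * y) * Ring.inverse y * x) := by
    have h1 : z * Ring.inverse x * y * Ring.inverse y * x = z := by
      rw [mul_assoc (z * Ring.inverse x), Ring.mul_inverse_cancel _ hy, mul_one, mul_assoc,
        Ring.inverse_mul_cancel _ hx, mul_one]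
    rw [sub_mul, sub_mul, h1, neg_sub]
  rw [e1]
  exact ((h.mul hy.ringInverse).mul hx).neg

omit [Nontrivial H] [StarRing H] in
private theorem u_col {x y z t : H} (hx : IsUnit x) (hz : IsUnit z) (h : IsUnit (t - z * Ring.inverse x * y)) :
    IsUnit (y - x * Ring.inverse z * t) := by
  have e1 : y - x * Ring.inverse z * t = -(x * Ring.inverse z * (t - z * Ring.inverse x * y)) := by
    have h1 : x * Ring.inverse z * (z * Ring.inverse x * y) = y := by
      rw [mul_assoc, ← mul_assoc (Ring.inverse z), ← mul_assoc (Ring.inverse z), Ring.inverse_mul_cancel _ hz,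
        one_mul, ← mul_assoc, Ring.mul_inverse_cancel _ hx, one_mul]
    rw [mul_sub, h1, neg_sub]
  rw [e1]
  exact ((hx.mul hz.ringInverse).mul h).neg

/-- the columns of a unit entry of the dual lie in `S` -/
private theorem in_S {a c : E} (hS' : IsB (dl Λ G) (G \ S)) (ha : a ∈ G \ S) (hc : c ∉ G \ S)
    (hu : IsUnit (fv (dl Λ G) (G \ S) a c)) : c ∈ S := by
  by_contra h
  have hcG : c ∉ G := fun h' => hc (Finset.mem_sdiff.2 ⟨h', h⟩)
  rw [fv_out sup_dl hS' ha hcG] at hu
  exact not_isUnit_zero hu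

private theorem unit_dl {a c : E} (hG : Sup Λ G) (hS : IsB Λ S) (ha : a ∈ G \ S) (hc : c ∈ S)
    (hu : IsUnit (fv (dl Λ G) (G \ S) a c)) : IsUnit (fv Λ S c a) := by
  rw [fv_dl hG hS hc ha, IsUnit.neg_iff, isUnit_star] at hu
  exact hu

private theorem sc_dl {a b c e : E} (hG : Sup Λ G) (hS : IsB Λ S) (ha : a ∈ G \ S) (hb : b ∈ G \ S) (hc : c ∈ S)
    (he : e ∈ S) : sc (dl Λ G) (G \ S) a b c e = - star (sc Λ S c e a b) := by
  unfold sc
  rw [fv_dl hG hS hc ha, fv_dl hG hS hc hb, fv_dl hG hS he ha, fv_dl hG hS he hb, inv_neg', Ring.inverse_star]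
  simp only [star_sub, star_mul, neg_mul, mul_neg, neg_neg, mul_assoc]
  abel

private theorem cX_dl {a b c e : E} (hG : Sup Λ G) (hS : IsB Λ S) (ha : a ∈ G \ S) (hb : b ∈ G \ S) (hc : c ∈ S)
    (he : e ∈ S) : cX (dl Λ G) (G \ S) a b c e = star (rX Λ S c e b a) := by
  unfold cX rX
  rw [fv_dl hG hS hc ha, fv_dl hG hS hc hb, fv_dl hG hS he ha, fv_dl hG hS he hb, inv_neg', inv_neg',
    Ring.inverse_star, Ring.inverse_star]
  simp only [star_mul, neg_mul, mul_neg, neg_neg, mul_assoc]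

private theorem rX_dl {a b e f : E} (hG : Sup Λ G) (hS : IsB Λ S) (ha : a ∈ G \ S) (hb : b ∈ G \ S) (he : e ∈ S)
    (hf : f ∈ S) : rX (dl Λ G) (G \ S) a b e f = star (cX Λ S f e a b) := by
  unfold cX rX
  rw [fv_dl hG hS he ha, fv_dl hG hS he hb, fv_dl hG hS hf ha, fv_dl hG hS hf hb, inv_neg', inv_neg',
    Ring.inverse_star, Ring.inverse_star]
  simp only [star_mul, neg_mul, mul_neg, neg_neg, mul_assoc]

omit [StarRing H] in
private theorem sc_ne_row {a b e f : E} (hu : IsUnit (fv Λ S a e)) (h : IsUnit (sc Λ S a b e f)) : a ≠ b := by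
  rintro rfl
  unfold sc at h
  rw [Ring.mul_inverse_cancel _ hu, one_mul, sub_self] at h
  exact not_isUnit_zero h

omit [StarRing H] in
private theorem sc_ne_col {a b e f : E} (hu : IsUnit (fv Λ S a e)) (h : IsUnit (sc Λ S a b e f)) : e ≠ f := by
  rintro rfl
  unfold sc at h
  rw [mul_assoc, Ring.inverse_mul_cancel _ hu, mul_one, sub_self] at h
  exact not_isUnit_zero h

private theorem dl_form (hex : ∃ T, IsB Λ T) (hG : Sup Λ G) {S' : Finset E} (hS' : IsB (dl Λ G) S') :
    ∃ S, S' = G \ S ∧ IsB Λ S := by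
  have hSG' : S' ⊆ G := sub_of_sup hS' sup_dl
  refine ⟨G \ S', (Finset.sdiff_sdiff_eq_self hSG').symm, ?_⟩
  refine (isB_dl hG hex Finset.sdiff_subset).1 ?_
  rwa [Finset.sdiff_sdiff_eq_self hSG']

private theorem nc_dl (hG : Sup Λ G) (hex : ∃ T, IsB Λ T) (h : NC Λ) : NC (dl Λ G) := by
  constructor
  · intro S' hS' a ha b hb hab c e f hc he hf u1 u2 u3 u4 u5 u6 s1 s2 s3
    obtain ⟨S, rfl, hS⟩ := dl_form hex hG hS'
    have hcS := in_S hS' ha hc u1
    have heS := in_S hS' ha he u2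
    have hfS := in_S hS' ha hf u3
    have v1 := unit_dl hG hS ha hcS u1
    have v2 := unit_dl hG hS ha heS u2
    have v3 := unit_dl hG hS ha hfS u3
    have v4 := unit_dl hG hS hb hcS u4
    have v5 := unit_dl hG hS hb heS u5
    have v6 := unit_dl hG hS hb hfS u6
    rw [sc_dl hG hS ha hb hcS heS, IsUnit.neg_iff, isUnit_star] at s1
    rw [sc_dl hG hS ha hb hcS hfS, IsUnit.neg_iff, isUnit_star] at s2
    rw [sc_dl hG hS ha hb heS hfS, IsUnit.neg_iff, isUnit_star] at s3
    rw [cX_dl hG hS ha hb hcS heS, cX_dl hG hS ha hb hcS hfS, commute_star_star]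
    exact h.row S hS c hcS e heS f hfS (sc_ne_row v1 s1) (sc_ne_row v1 s2) (sc_ne_row v2 s3) b a
      (Finset.mem_sdiff.1 hb).2 (Finset.mem_sdiff.1 ha).2 v4 v5 v6 v1 v2 v3
      (u_row v1 v4 s1) (u_row v1 v4 s2) (u_row v2 v5 s3)
  · intro S' hS' a ha b hb c hc hab hac hbc e f he hf u1 u2 u3 u4 u5 u6 s1 s2 s3
    obtain ⟨S, rfl, hS⟩ := dl_form hex hG hS'
    have heS := in_S hS' ha he u1
    have hfS := in_S hS' ha hf u4
    have v1 := unit_dl hG hS ha heS u1
    have v2 := unit_dl hG hS hb heS u2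
    have v3 := unit_dl hG hS hc heS u3
    have v4 := unit_dl hG hS ha hfS u4
    have v5 := unit_dl hG hS hb hfS u5
    have v6 := unit_dl hG hS hc hfS u6
    rw [sc_dl hG hS ha hb heS hfS, IsUnit.neg_iff, isUnit_star] at s1
    rw [sc_dl hG hS ha hc heS hfS, IsUnit.neg_iff, isUnit_star] at s2
    rw [sc_dl hG hS hb hc heS hfS, IsUnit.neg_iff, isUnit_star] at s3
    rw [rX_dl hG hS ha hb heS hfS, rX_dl hG hS ha hc heS hfS, commute_star_star]
    exact h.col S hS f hfS e heS (sc_ne_row v1 s1).symm a b c (Finset.mem_sdiff.1 ha).2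
      (Finset.mem_sdiff.1 hb).2 (Finset.mem_sdiff.1 hc).2 v4 v5 v6 v1 v2 v3
      (u_col v1 v4 s1) (u_col v1 v4 s2) (u_col v2 v5 s3)

end

private theorem sup_of_field {E : Type} {K : Type} [Field K] {Φ : Submodule K (E → K)} {Γ : Submodule Rq (E → Rq)}
    {G : Finset E} (hG : Sup Γ G) (hex : ∃ S, IsB Γ S) (hΦ : ∀ S : Finset E, IsB Φ S ↔ IsB Γ S) : Sup Φ G := by
  intro v hv e he
  obtain ⟨S, hS⟩ := hex
  have hS1 : IsB Φ S := (hΦ S).2 hS
  have heS : e ∉ S := fun h => he (sub_of_sup hS hG h)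
  have h1 := congrFun (expand hS1 hv) e
  rw [h1, Finset.sum_apply]
  refine Finset.sum_eq_zero fun c hc => ?_
  show v c * fv Φ S c e = 0
  by_cases h0 : fv Φ S c e = 0
  · rw [h0, mul_zero]
  · have hB := piv hS1 hc heS (isUnit_iff_ne_zero.2 h0)
    exact absurd (sub_of_sup ((hΦ _).1 hB) hG (mem_pv.2 (Or.inl rfl))) he

theorem dat_dl {E : Type} {Γ : Submodule Rq (E → Rq)} {G : Finset E} (h : Dat Γ G) : Dat (dl Γ G) G := by
  obtain ⟨S₀, hS₀⟩ := h.ex
  refine ⟨sup_dl, ⟨G \ S₀, isB_dl_of h.sup hS₀⟩, ?_, nc_dl h.sup h.ex h.nc, ?_⟩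
  · intro S' hS' b hb e
    obtain ⟨S, rfl, hS⟩ := dl_form h.ex h.sup hS'
    by_cases heS : e ∈ S
    · rw [fv_dl h.sup hS heS hb]
      exact uz_neg (uz_star.2 (h.uz S hS e heS b))
    · by_cases heG : e ∈ G
      · by_cases heb : e = b
        · subst heb
          rw [fv_self hS' hb]
          exact Or.inr isUnit_one
        · rw [fv_oth hS' hb (Finset.mem_sdiff.2 ⟨heG, heS⟩) heb]
          exact Or.inl rfl
      · rw [fv_out sup_dl hS' hb heG]
        exact Or.inl rfl
  · obtain ⟨K, iK, iC, Φ, hΦ⟩ := h.ch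
    have hsup : Sup Φ G := sup_of_field h.sup h.ex hΦ
    let _ : StarRing K := starRingOfComm
    refine ⟨K, iK, iC, dl Φ G, fun S' => ?_⟩
    by_cases hSG : S' ⊆ G
    · have hS' : S' = G \ (G \ S') := (Finset.sdiff_sdiff_eq_self hSG).symm
      rw [hS', isB_dl h.sup h.ex Finset.sdiff_subset, isB_dl hsup ⟨S₀, (hΦ S₀).2 hS₀⟩ Finset.sdiff_subset]
      exact hΦ _
    · exact ⟨fun h1 => absurd (sub_of_sup h1 sup_dl) hSG, fun h1 => absurd (sub_of_sup h1 sup_dl) hSG⟩

end Pool.Agent.QUS
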