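import Pool.Agent.QUS.Rd

/-!
# QUS/Dl: deletion

`isB_del`: if `e ∉ S` and `v ∈ Λ` is supported in `{e}` then `v` vanishes on a basis avoiding `e`, so `v = 0`; hence `Λ → del Λ e` is bijective.
A basis of `del Λ e` does not contain `e` (nontrivial ring).  `fv_del`: `fv_uniq`.  `dat_del`: `sc`, `cX`, `rX` do not change for columns `≠ e`; the
entries in column `e` are zero.
-/

set_option autoImplicit false

noncomputable section

open scoped Classical

namespace Pool.Agent.QUS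

variable {H : Type} [Ring H] [Nontrivial H] {E : Type} {Λ : Submodule H (E → H)} {S G : Finset E} {b e f : E}

private theorem cut_ne (v : E → H) {g : E} (hg : g ≠ e) : cut ({e}ᶜ : Set E) v g = v g := by
  simp only [cut, LinearMap.coe_mk, AddHom.coe_mk]
  rw [if_pos]
  simpa using hg

private theorem cut_self (v : E → H) : cut ({e}ᶜ : Set E) v e = 0 := by
  simp only [cut, LinearMap.coe_mk, AddHom.coe_mk]
  rw [if_neg]
  simp

private theorem mem_del {w : E → H} : w ∈ del Λ e ↔ ∃ v ∈ Λ, cut ({e}ᶜ : Set E) v = w := by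
  unfold del
  exact Submodule.mem_map

theorem isB_del (hex : ∃ S, IsB Λ S ∧ e ∉ S) : IsB (del Λ e) S ↔ IsB Λ S ∧ e ∉ S := by
  constructor
  · rintro ⟨h1, h2⟩
    have he : e ∉ S := by
      intro he
      obtain ⟨x, hx, hx1, -⟩ := h2 e he
      obtain ⟨v, -, rfl⟩ := mem_del.1 hx
      rw [cut_self] at hx1
      exact zero_ne_one hx1
    refine ⟨⟨fun v hv h0 => ?_, fun b hb => ?_⟩, he⟩
    · have hc : cut ({e}ᶜ : Set E) v = 0 := by
        refine h1 _ (mem_del.2 ⟨v, hv, rfl⟩) fun s hs => ?_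
        rw [cut_ne v (ne_of_mem_of_not_mem hs he)]
        exact h0 s hs
      obtain ⟨S0, hS0, he0⟩ := hex
      refine hS0.1 v hv fun s hs => ?_
      have := congrFun hc s
      rw [cut_ne v (ne_of_mem_of_not_mem hs he0)] at this
      exact this
    · obtain ⟨x, hx, hx1, hx0⟩ := h2 b hb
      obtain ⟨v, hv, rfl⟩ := mem_del.1 hx
      refine ⟨v, hv, ?_, fun s hs hsb => ?_⟩
      · rw [← hx1, cut_ne v (ne_of_mem_of_not_mem hb he)]
      · have := hx0 s hs hsb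
        rw [cut_ne v (ne_of_mem_of_not_mem hs he)] at this
        exact this
  · rintro ⟨⟨h1, h2⟩, he⟩
    refine ⟨fun w hw h0 => ?_, fun b hb => ?_⟩
    · obtain ⟨v, hv, rfl⟩ := mem_del.1 hw
      have : v = 0 := by
        refine h1 v hv fun s hs => ?_
        have := h0 s hs
        rw [cut_ne v (ne_of_mem_of_not_mem hs he)] at this
        exact this
      rw [this, map_zero]
    · obtain ⟨v, hv, hv1, hv0⟩ := h2 b hb
      refine ⟨cut ({e}ᶜ : Set E) v, mem_del.2 ⟨v, hv, rfl⟩, ?_, fun s hs hsb => ?_⟩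
      · rw [cut_ne v (ne_of_mem_of_not_mem hb he)]
        exact hv1
      · rw [cut_ne v (ne_of_mem_of_not_mem hs he)]
        exact hv0 s hs hsb

theorem isB_del_of (hS : IsB Λ S) (he : e ∉ S) : IsB (del Λ e) S := (isB_del ⟨S, hS, he⟩).2 ⟨hS, he⟩

theorem fv_del (hS : IsB Λ S) (he : e ∉ S) (hb : b ∈ S) : fv (del Λ e) S b = cut {e}ᶜ (fv Λ S b) := by
  refine fv_uniq (isB_del_of hS he) hb (mem_del.2 ⟨_, fv_mem hS hb, rfl⟩) ?_ fun s hs hsb => ?_
  · rw [cut_ne _ (ne_of_mem_of_not_mem hb he)]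
    exact fv_self hS hb
  · rw [cut_ne _ (ne_of_mem_of_not_mem hs he)]
    exact fv_oth hS hb hs hsb

theorem fv_del_of_ne (hS : IsB Λ S) (he : e ∉ S) (hb : b ∈ S) {g : E} (hg : g ≠ e) : fv (del Λ e) S b g = fv Λ S b g := by
  rw [fv_del hS he hb, cut_ne _ hg]

theorem fv_del_self (hS : IsB Λ S) (he : e ∉ S) (hb : b ∈ S) : fv (del Λ e) S b e = 0 := by
  rw [fv_del hS he hb, cut_self]

theorem sup_del (h : Sup Λ G) : Sup (del Λ e) (G.erase e) := by
  intro w hw g hg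
  obtain ⟨v, hv, rfl⟩ := mem_del.1 hw
  by_cases hge : g = e
  · rw [hge, cut_self]
  · rw [cut_ne v hge]
    exact h v hv g fun hG => hg (Finset.mem_erase.2 ⟨hge, hG⟩)

theorem del_comm (Λ : Submodule H (E → H)) (e f : E) : del (del Λ e) f = del (del Λ f) e := by
  have hc : ∀ v : E → H, cut ({f}ᶜ : Set E) (cut ({e}ᶜ : Set E) v) = cut ({e}ᶜ : Set E) (cut ({f}ᶜ : Set E) v) := by
    intro v
    funext g
    by_cases h1 : g = e
    · by_cases h2 : g = f
      · subst h1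
        subst h2
        rfl
      · rw [cut_ne _ h2, h1, cut_self, cut_self]
    · by_cases h2 : g = f
      · rw [cut_ne (cut ({f}ᶜ : Set E) v) h1, h2, cut_self, cut_self]
      · rw [cut_ne _ h2, cut_ne _ h1, cut_ne _ h1, cut_ne _ h2]
  ext w
  constructor
  · intro hw
    obtain ⟨v, hv, rfl⟩ := mem_del.1 hw
    obtain ⟨u, hu, rfl⟩ := mem_del.1 hv
    rw [hc]
    exact mem_del.2 ⟨_, mem_del.2 ⟨u, hu, rfl⟩, rfl⟩
  · intro hw
    obtain ⟨v, hv, rfl⟩ := mem_del.1 hw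
    obtain ⟨u, hu, rfl⟩ := mem_del.1 hv
    rw [← hc]
    exact mem_del.2 ⟨_, mem_del.2 ⟨u, hu, rfl⟩, rfl⟩

private theorem ne_of_unit (hS : IsB Λ S) (he : e ∉ S) {a c : E} (ha : a ∈ S) (h : IsUnit (fv (del Λ e) S a c)) : c ≠ e := by
  rintro rfl
  rw [fv_del_self hS he ha] at h
  exact not_isUnit_zero h

private theorem sc_del (hS : IsB Λ S) (he : e ∉ S) {a b c f : E} (ha : a ∈ S) (hb : b ∈ S) (hc : c ≠ e) (hf : f ≠ e) :
    sc (del Λ e) S a b c f = sc Λ S a b c f := by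
  unfold sc
  rw [fv_del_of_ne hS he hb hf, fv_del_of_ne hS he hb hc, fv_del_of_ne hS he ha hc, fv_del_of_ne hS he ha hf]

private theorem cX_del (hS : IsB Λ S) (he : e ∉ S) {a b c f : E} (ha : a ∈ S) (hb : b ∈ S) (hc : c ≠ e) (hf : f ≠ e) :
    cX (del Λ e) S a b c f = cX Λ S a b c f := by
  unfold cX
  rw [fv_del_of_ne hS he ha hc, fv_del_of_ne hS he ha hf, fv_del_of_ne hS he hb hf, fv_del_of_ne hS he hb hc]

private theorem rX_del (hS : IsB Λ S) (he : e ∉ S) {a b c f : E} (ha : a ∈ S) (hb : b ∈ S) (hc : c ≠ e) (hf : f ≠ e) :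
    rX (del Λ e) S a b c f = rX Λ S a b c f := by
  unfold rX
  rw [fv_del_of_ne hS he ha hc, fv_del_of_ne hS he hb hc, fv_del_of_ne hS he hb hf, fv_del_of_ne hS he ha hf]

private theorem nc_del (h : NC Λ) (hex : ∃ S, IsB Λ S ∧ e ∉ S) : NC (del Λ e) := by
  constructor
  · intro S hS' a ha b hb hab c e' f hc he' hf u1 u2 u3 u4 u5 u6 s1 s2 s3
    obtain ⟨hS, he⟩ := (isB_del hex).1 hS'
    have n1 := ne_of_unit hS he ha u1
    have n2 := ne_of_unit hS he ha u2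
    have n3 := ne_of_unit hS he ha u3
    rw [fv_del_of_ne hS he ha n1] at u1
    rw [fv_del_of_ne hS he ha n2] at u2
    rw [fv_del_of_ne hS he ha n3] at u3
    rw [fv_del_of_ne hS he hb n1] at u4
    rw [fv_del_of_ne hS he hb n2] at u5
    rw [fv_del_of_ne hS he hb n3] at u6
    rw [sc_del hS he ha hb n1 n2] at s1
    rw [sc_del hS he ha hb n1 n3] at s2
    rw [sc_del hS he ha hb n2 n3] at s3
    rw [cX_del hS he ha hb n1 n2, cX_del hS he ha hb n1 n3]
    exact h.col S hS a ha b hb hab c e' f hc he' hf u1 u2 u3 u4 u5 u6 s1 s2 s3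
  · intro S hS' a ha b hb c hc hab hac hbc e' f he' hf u1 u2 u3 u4 u5 u6 s1 s2 s3
    obtain ⟨hS, he⟩ := (isB_del hex).1 hS'
    have n1 := ne_of_unit hS he ha u1
    have n2 := ne_of_unit hS he ha u4
    rw [fv_del_of_ne hS he ha n1] at u1
    rw [fv_del_of_ne hS he hb n1] at u2
    rw [fv_del_of_ne hS he hc n1] at u3
    rw [fv_del_of_ne hS he ha n2] at u4
    rw [fv_del_of_ne hS he hb n2] at u5
    rw [fv_del_of_ne hS he hc n2] at u6
    rw [sc_del hS he ha hb n1 n2] at s1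
    rw [sc_del hS he ha hc n1 n2] at s2
    rw [sc_del hS he hb hc n1 n2] at s3
    rw [rX_del hS he ha hb n1 n2, rX_del hS he ha hc n1 n2]
    exact h.row S hS a ha b hb c hc hab hac hbc e' f he' hf u1 u2 u3 u4 u5 u6 s1 s2 s3

private theorem ch_del (h : Ch Λ) (hex : ∃ S, IsB Λ S ∧ e ∉ S) : Ch (del Λ e) := by
  obtain ⟨K, hK, hK0, Φ, hΦ⟩ := h
  refine ⟨K, hK, hK0, del Φ e, fun S => ?_⟩
  have hex' : ∃ S, IsB Φ S ∧ e ∉ S := by
    obtain ⟨S0, h1, h2⟩ := hex
    exact ⟨S0, (hΦ S0).2 h1, h2⟩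
  rw [isB_del hex', isB_del hex, hΦ S]

theorem dat_del (h : Dat Λ G) (hex : ∃ S, IsB Λ S ∧ e ∉ S) : Dat (del Λ e) (G.erase e) := by
  refine ⟨sup_del h.sup, ?_, fun S hS' b hb g => ?_, nc_del h.nc hex, ch_del h.ch hex⟩
  · obtain ⟨S0, h1, h2⟩ := hex
    exact ⟨S0, isB_del_of h1 h2⟩
  · obtain ⟨hS, he⟩ := (isB_del hex).1 hS'
    by_cases hg : g = e
    · rw [hg, fv_del_self hS he hb]
      exact Or.inl rfl
    · rw [fv_del_of_ne hS he hb hg]
      exact h.uz S hS b hb g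

theorem right_del {E : Type} {Λ : Submodule Hz (E → Hz)} {Γ : Submodule Rq (E → Rq)} {e : E} (h : Right Λ Γ)
    (hex : ∃ S, IsB Γ S ∧ e ∉ S) : Right (del Λ e) (del Γ e) := by
  intro S hS'
  obtain ⟨hS, he⟩ := (isB_del hex).1 hS'
  obtain ⟨hL, hu⟩ := h S hS
  refine ⟨isB_del_of hL he, fun b hb g => ?_⟩
  by_cases hg : g = e
  · rw [hg, fv_del_self hL he hb, fv_del_self hS he hb, map_zero]
    exact ⟨Or.inl rfl, rfl⟩
  · rw [fv_del_of_ne hL he hb hg, fv_del_of_ne hS he hb hg]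
    exact hu b hb g

end Pool.Agent.QUS
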