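import Pool.Agent.QUS.Rd

/-!
# QUS/Du: duality

For `S ⊆ G` a basis of `Λ` (supported in `G`) the vectors `y_e` (`e ∈ G \ S`): `1` at `e`, `- star (fv Λ S b e)` at `b ∈ S`, `0` elsewhere, are in `dl Λ G`, and they are the
fundamental vectors of the basis `G \ S`: `v ∈ Λ`, `v = ∑ v b • fv S b`, so `∑ v_g star(y_g) = v_e - ∑_b v_b fv S b e = 0`; conversely `y ∈ dl` zero on `G \ S`:
pair with `fv S b`: `star (y b) = 0`.  `dl_dl`: same basis and the same fundamental vectors.
-/

set_option autoImplicit false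

noncomputable section

open scoped Classical

namespace Pool.Agent.QUS

section

variable {H : Type} [Ring H] [Nontrivial H] [StarRing H] {E : Type} {Λ : Submodule H (E → H)} {S G : Finset E} {b e : E}

theorem sup_dl : Sup (dl Λ G) G := by
  intro _ hv e he
  exact hv.1 e he

/-- the fundamental vector of the dual -/
private def yv (Λ : Submodule H (E → H)) (S : Finset E) (e : E) : E → H :=
  fun g => if g = e then 1 else if g ∈ S then - star (fv Λ S g e) else 0

omit [Nontrivial H] in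
private theorem yv_self : yv Λ S e e = 1 := by simp [yv]

omit [Nontrivial H] in
private theorem yv_in (hb : b ∈ S) (he : e ∉ S) : yv Λ S e b = - star (fv Λ S b e) := by
  have : b ≠ e := fun h => he (h ▸ hb)
  simp [yv, this, hb]

omit [Nontrivial H] in
private theorem yv_out {g : E} (h : g ≠ e) (hg : g ∉ S) : yv Λ S e g = 0 := by
  simp [yv, h, hg]

private theorem yv_mem (hG : Sup Λ G) (hS : IsB Λ S) (he : e ∈ G \ S) : yv Λ S e ∈ dl Λ G := by
  have hSG : S ⊆ G := sub_of_sup hS hG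
  have heG : e ∈ G := (Finset.mem_sdiff.1 he).1
  have heS : e ∉ S := (Finset.mem_sdiff.1 he).2
  refine ⟨fun g hg => yv_out (fun h => hg (h ▸ heG)) fun h => hg (hSG h), fun v hv => ?_⟩
  have h1 := congrFun (expand hS hv) e
  rw [Finset.sum_apply] at h1
  simp only [Pi.smul_apply, smul_eq_mul] at h1
  have hsub : insert e S ⊆ G := Finset.insert_subset heG hSG
  rw [← Finset.sum_subset hsub, Finset.sum_insert heS, yv_self, star_one, mul_one]
  · have h2 : ∑ x ∈ S, v x * star (yv Λ S e x) = ∑ x ∈ S, - (v x * fv Λ S x e) := by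
      refine Finset.sum_congr rfl fun x hx => ?_
      rw [yv_in hx heS, star_neg, star_star, mul_neg]
    rw [h2, Finset.sum_neg_distrib, ← h1]
    exact add_neg_cancel _
  · intro x _ hx
    rw [Finset.mem_insert, not_or] at hx
    rw [yv_out hx.1 hx.2, star_zero, mul_zero]

theorem isB_dl_of (hG : Sup Λ G) (hS : IsB Λ S) : IsB (dl Λ G) (G \ S) := by
  have hSG : S ⊆ G := sub_of_sup hS hG
  refine ⟨fun y hy h0 => ?_, fun e he => ⟨yv Λ S e, yv_mem hG hS he, yv_self, fun s hs hse => ?_⟩⟩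
  · funext g
    by_cases hgG : g ∈ G
    · by_cases hgS : g ∈ S
      · have h1 := hy.2 _ (fv_mem hS hgS)
        rw [Finset.sum_eq_single g, fv_self hS hgS, one_mul] at h1
        · simpa using h1
        · intro x hx hxg
          by_cases hxS : x ∈ S
          · rw [fv_oth hS hgS hxS hxg, zero_mul]
          · rw [h0 x (Finset.mem_sdiff.2 ⟨hx, hxS⟩), star_zero, mul_zero]
        · intro h
          exact absurd hgG h
      · exact h0 g (Finset.mem_sdiff.2 ⟨hgG, hgS⟩)
    · exact hy.1 g hgG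
  · exact yv_out hse (Finset.mem_sdiff.1 hs).2

private theorem fv_dl' (hG : Sup Λ G) (hS : IsB Λ S) (he : e ∈ G \ S) :
    fv (dl Λ G) (G \ S) e = yv Λ S e :=
  fv_uniq (isB_dl_of hG hS) he (yv_mem hG hS he) yv_self fun s hs hse => yv_out hse (Finset.mem_sdiff.1 hs).2

theorem fv_dl (hG : Sup Λ G) (hS : IsB Λ S) (hb : b ∈ S) (he : e ∈ G \ S) :
    fv (dl Λ G) (G \ S) e b = - star (fv Λ S b e) := by
  rw [fv_dl' hG hS he, yv_in hb (Finset.mem_sdiff.1 he).2]

theorem dl_dl (hG : Sup Λ G) (hS : IsB Λ S) : dl (dl Λ G) G = Λ := by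
  have hle : Λ ≤ dl (dl Λ G) G := by
    intro v hv
    refine ⟨hG v hv, fun y hy => ?_⟩
    have h := congrArg star (hy.2 v hv)
    rw [star_sum, star_zero] at h
    simpa using h
  refine le_antisymm (fun w hw => ?_) hle
  have hSG : S ⊆ G := sub_of_sup hS hG
  set u : E → H := ∑ c ∈ S, w c • fv Λ S c with hu
  have huΛ : u ∈ Λ := Submodule.sum_mem _ fun c hc => Λ.smul_mem _ (fv_mem hS hc)
  have hd : w - u ∈ dl (dl Λ G) G := Submodule.sub_mem _ hw (hle huΛ)
  have hS0 : ∀ s ∈ S, (w - u) s = 0 := by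
    intro s hs
    rw [Pi.sub_apply, hu, Finset.sum_apply, Finset.sum_eq_single s]
    · rw [Pi.smul_apply, smul_eq_mul, fv_self hS hs, mul_one, sub_self]
    · intro c hc hcs
      rw [Pi.smul_apply, smul_eq_mul, fv_oth hS hc hs (Ne.symm hcs), mul_zero]
    · intro h
      exact absurd hs h
  have h0 : w - u = 0 := by
    funext g
    by_cases hgG : g ∈ G
    · by_cases hgS : g ∈ S
      · exact hS0 g hgS
      · have h1 := hd.2 _ (yv_mem hG hS (Finset.mem_sdiff.2 ⟨hgG, hgS⟩))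
        rw [Finset.sum_eq_single g, yv_self, one_mul] at h1
        · exact star_eq_zero.1 h1
        · intro x hx hxg
          by_cases hxS : x ∈ S
          · rw [hS0 x hxS, star_zero, mul_zero]
          · rw [yv_out hxg hxS, zero_mul]
        · intro h
          exact absurd hgG h
    · exact hd.1 g hgG
  have : w = u := sub_eq_zero.1 h0
  rw [this]
  exact huΛ

theorem isB_dl (hG : Sup Λ G) (hex : ∃ T, IsB Λ T) (hS : S ⊆ G) : IsB (dl Λ G) (G \ S) ↔ IsB Λ S := by
  refine ⟨fun h => ?_, isB_dl_of hG⟩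
  obtain ⟨T, hT⟩ := hex
  have h1 := isB_dl_of sup_dl h
  rwa [dl_dl hG hT, Finset.sdiff_sdiff_eq_self hS] at h1

theorem uz_star {x : H} : UZ (star x) ↔ UZ x := by
  unfold UZ
  rw [star_eq_zero, isUnit_star]

end

theorem right_dl {E : Type} {Λ : Submodule Hz (E → Hz)} {Γ : Submodule Rq (E → Rq)} {G : Finset E} (hG : Sup Λ G)
    (hG' : Sup Γ G) (hex : ∃ S, IsB Γ S) (h : Right Λ Γ) : Right (dl Λ G) (dl Γ G) := by
  intro S' hS'
  have hSG' : S' ⊆ G := sub_of_sup hS' sup_dl
  obtain ⟨S, rfl, hSG⟩ : ∃ S, S' = G \ S ∧ S ⊆ G :=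
    ⟨G \ S', (Finset.sdiff_sdiff_eq_self hSG').symm, Finset.sdiff_subset⟩
  have hΓ : IsB Γ S := (isB_dl hG' hex hSG).1 hS'
  obtain ⟨hΛ, hΛ'⟩ := h S hΓ
  have hB : IsB (dl Λ G) (G \ S) := isB_dl_of hG hΛ
  refine ⟨hB, fun b hb e => ?_⟩
  by_cases heS : e ∈ S
  · obtain ⟨h1, h2⟩ := hΛ' e heS b
    rw [fv_dl hG hΛ heS hb, fv_dl hG' hΓ heS hb]
    refine ⟨uz_neg (uz_star.2 h1), ?_⟩
    rw [map_neg, red_star, h2]
  · by_cases heG : e ∈ G
    · have heB : e ∈ G \ S := Finset.mem_sdiff.2 ⟨heG, heS⟩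
      by_cases heb : e = b
      · subst heb
        rw [fv_self hB hb, fv_self hS' hb]
        exact ⟨Or.inr isUnit_one, map_one red⟩
      · rw [fv_oth hB hb heB heb, fv_oth hS' hb heB heb]
        exact ⟨Or.inl rfl, map_zero red⟩
    · rw [fv_out sup_dl hB hb heG, fv_out sup_dl hS' hb heG]
      exact ⟨Or.inl rfl, map_zero red⟩

end Pool.Agent.QUS
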