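import Mathlib

/-!
# QUS/Lf: two leaves of the same colour (graph lemma)

Finite graph `R` on the finite set `G`, connected (`hc`: no proper closed subset).  Distances from `w`: `D n` = elements of `G` at distance `n` (define `ds x` = least length of a walk inside `G` from `w`; every `x ∈ G` has one
by `hc`).  Parent `p x` (`x ≠ w`): a neighbour with `ds (p x) = ds x - 1`.  Branch: `br x = x` if `ds x = 1`, otherwise `br (p x)`.  For a neighbour `x_i` of `w` let `l_i` be an element of `{x | br x = x_i}` with `ds` maximal: it is the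
parent of nobody.  Two of `l_1, l_2, l_3` have the same colour.  `G \ {u,v}`: every other `x ≠ w` has its parent in `G \ {u, v}`, so a closed set containing `w` contains everything (induction on `ds`), and a
closed nonempty set contains `w` (walk to `w` along parents).
-/

set_option autoImplicit false

noncomputable section

open scoped Classical

namespace Pool.Agent.QUS

/-- the balls around `w` -/
private def lfB {E : Type} (G : Finset E) (R : E → E → Prop) (w : E) : ℕ → Finset E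
  | 0 => {w}
  | n + 1 => lfB G R w n ∪ G.filter (fun y => ∃ x ∈ lfB G R w n, R x y)

private theorem lfB_sub {E : Type} (G : Finset E) (R : E → E → Prop) {w : E} (hw : w ∈ G)
    (n : ℕ) : lfB G R w n ⊆ G := by
  induction n with
  | zero =>
    intro x hx
    rw [lfB, Finset.mem_singleton] at hx
    rw [hx]
    exact hw
  | succ n ih =>
    intro x hx
    rw [lfB, Finset.mem_union, Finset.mem_filter] at hx
    rcases hx with hx | hx
    · exact ih hx
    · exact hx.1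

private theorem lf_dist {E : Type} (G : Finset E) (R : E → E → Prop) (hs : ∀ x y, R x y → R y x)
    (hc : ∀ A ⊆ G, (∀ x ∈ G, ∀ y ∈ G, R x y → (x ∈ A ↔ y ∈ A)) → A = ∅ ∨ A = G)
    {w : E} (hw : w ∈ G) :
    ∃ d : E → ℕ, (∀ x ∈ G, d x = 0 → x = w) ∧ (∀ x ∈ G, R w x → d x ≤ 1) ∧
      ∀ x ∈ G, x ≠ w → ∃ y ∈ G, R y x ∧ d y < d x := by
  have hU : ∀ x ∈ G, ∃ n, x ∈ lfB G R w n := by
    have hstep : ∀ x y, y ∈ G → R x y → (∃ n, x ∈ lfB G R w n) → ∃ n, y ∈ lfB G R w n := by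
      rintro x y hy hxy ⟨n, hn⟩
      refine ⟨n + 1, ?_⟩
      rw [lfB, Finset.mem_union, Finset.mem_filter]
      exact Or.inr ⟨hy, x, hn, hxy⟩
    have h1 := hc (G.filter (fun x => ∃ n, x ∈ lfB G R w n)) (Finset.filter_subset _ _) (by
      intro x hx y hy hxy
      rw [Finset.mem_filter, Finset.mem_filter]
      constructor
      · rintro ⟨_, h⟩
        exact ⟨hy, hstep x y hy hxy h⟩
      · rintro ⟨_, h⟩
        exact ⟨hx, hstep y x hx (hs x y hxy) h⟩)
    have hwU : w ∈ G.filter (fun x => ∃ n, x ∈ lfB G R w n) := by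
      rw [Finset.mem_filter]
      exact ⟨hw, 0, by rw [lfB, Finset.mem_singleton]⟩
    rcases h1 with h1 | h1
    · rw [h1] at hwU
      exact absurd hwU (Finset.notMem_empty _)
    · intro x hx
      rw [← h1, Finset.mem_filter] at hx
      exact hx.2
  refine ⟨fun x => if h : ∃ n, x ∈ lfB G R w n then Nat.find h else 0, ?_, ?_, ?_⟩
  · intro x hx h0
    have h := hU x hx
    simp only [dif_pos h] at h0
    have h1 := Nat.find_spec h
    rw [h0, lfB, Finset.mem_singleton] at h1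
    exact h1
  · intro x hx hr
    have h := hU x hx
    simp only [dif_pos h]
    refine Nat.find_min' h ?_
    rw [lfB, Finset.mem_union, Finset.mem_filter]
    exact Or.inr ⟨hx, w, by rw [lfB, Finset.mem_singleton], hr⟩
  · intro x hx hxw
    have h := hU x hx
    have h1 := Nat.find_spec h
    simp only [dif_pos h]
    rcases hn : Nat.find h with _ | m
    · rw [hn, lfB, Finset.mem_singleton] at h1
      exact absurd h1 hxw
    · rw [hn, lfB, Finset.mem_union, Finset.mem_filter] at h1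
      have h2 : x ∉ lfB G R w m := Nat.find_min h (by rw [hn]; exact Nat.lt_succ_self m)
      rcases h1 with h1 | ⟨_, y, hy, hyx⟩
      · exact absurd h1 h2
      · have h3 : ∃ n, y ∈ lfB G R w n := ⟨m, hy⟩
        refine ⟨y, lfB_sub G R hw m hy, hyx, ?_⟩
        simp only [dif_pos h3]
        exact Nat.lt_succ_of_le (Nat.find_min' h3 hy)

/-- a leaf below `x` -/
private theorem lf_leaf {E : Type} (G : Finset E) {w : E} (d : E → ℕ) (p : E → E)
    (hp : ∀ x ∈ G, x ≠ w → p x ∈ G ∧ d (p x) < d x) (pw : p w = w) {x : E} (hx : x ∈ G)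
    (hxw : x ≠ w) : ∃ l ∈ G, (∃ k : ℕ, p^[k] l = x) ∧ l ≠ w ∧ ∀ y ∈ G, y ≠ w → p y ≠ l := by
  obtain ⟨l, hl, hmax⟩ := Finset.exists_max_image
    (G.filter (fun y => ∃ k : ℕ, p^[k] y = x)) d
    ⟨x, by rw [Finset.mem_filter]; exact ⟨hx, 0, rfl⟩⟩
  rw [Finset.mem_filter] at hl
  refine ⟨l, hl.1, hl.2, ?_, ?_⟩
  · rintro rfl
    obtain ⟨k, hk⟩ := hl.2
    rw [Function.iterate_fixed pw] at hk
    exact hxw hk.symm
  · intro y hy hyw hyl
    obtain ⟨k, hk⟩ := hl.2
    have h1 := hmax y (by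
      rw [Finset.mem_filter]
      exact ⟨hy, k + 1, by rw [Function.iterate_succ_apply, hyl, hk]⟩)
    have h2 := (hp y hy hyw).2
    rw [hyl] at h2
    omega

/-- leaves below different neighbours of the root are different -/
private theorem lf_ne {E : Type} {w : E} (p : E → E) (pw : p w = w) {x y l : E}
    (px : p x = w) (py : p y = w) (hxw : x ≠ w) (hyw : y ≠ w) (hxy : x ≠ y)
    (h1 : ∃ k : ℕ, p^[k] l = x) (h2 : ∃ k : ℕ, p^[k] l = y) : False := by
  have key : ∀ (a b : E) (j k : ℕ), p a = w → b ≠ w → a ≠ b → p^[j] l = a → p^[k] l = b →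
      j ≤ k → False := by
    intro a b j k pa hb hab hj hk hjk
    obtain ⟨m, rfl⟩ := Nat.exists_eq_add_of_le hjk
    rw [Nat.add_comm, Function.iterate_add_apply, hj] at hk
    rcases m with _ | m
    · exact hab hk
    · rw [Function.iterate_succ_apply, pa, Function.iterate_fixed pw] at hk
      exact hb hk.symm
  obtain ⟨j, hj⟩ := h1
  obtain ⟨k, hk⟩ := h2
  rcases le_total j k with h | h
  · exact key x y j k px hyw hxy hj hk h
  · exact key y x k j py hxw hxy.symm hk hj h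

/-- two leaves can be removed -/
private theorem lf_two {E : Type} (G : Finset E) (R : E → E → Prop) {w : E} (hw : w ∈ G)
    (d : E → ℕ) (p : E → E) (hp : ∀ x ∈ G, x ≠ w → p x ∈ G ∧ R (p x) x ∧ d (p x) < d x)
    {u v : E} (hu : u ≠ w) (hv : v ≠ w)
    (lu : ∀ y ∈ G, y ≠ w → p y ≠ u) (lv : ∀ y ∈ G, y ≠ w → p y ≠ v) :
    ∀ A ⊆ (G.erase u).erase v, (∀ x ∈ (G.erase u).erase v, ∀ y ∈ (G.erase u).erase v, R x y →
      (x ∈ A ↔ y ∈ A)) → A = ∅ ∨ A = (G.erase u).erase v := by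
  intro A hA hcl
  have hwG : w ∈ (G.erase u).erase v := by
    rw [Finset.mem_erase, Finset.mem_erase]
    exact ⟨hv.symm, hu.symm, hw⟩
  have key : ∀ n : ℕ, ∀ x ∈ (G.erase u).erase v, d x = n → (x ∈ A ↔ w ∈ A) := by
    intro n
    induction n using Nat.strong_induction_on with
    | _ n ih =>
      intro x hx hn
      by_cases hxw : x = w
      · rw [hxw]
      · have hxG : x ∈ G := Finset.mem_of_mem_erase (Finset.mem_of_mem_erase hx)
        obtain ⟨h1, h2, h3⟩ := hp x hxG hxw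
        have h4 : p x ∈ (G.erase u).erase v := by
          rw [Finset.mem_erase, Finset.mem_erase]
          exact ⟨lv x hxG hxw, lu x hxG hxw, h1⟩
        rw [← hcl (p x) h4 x hx h2]
        exact ih (d (p x)) (by omega) (p x) h4 rfl
  by_cases hwA : w ∈ A
  · right
    refine Finset.Subset.antisymm hA fun x hx => ?_
    exact (key (d x) x hx rfl).2 hwA
  · left
    rw [Finset.eq_empty_iff_forall_notMem]
    intro x hx
    exact hwA ((key (d x) x (hA hx) rfl).1 hx)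

theorem leaves {E : Type} (G : Finset E) (R : E → E → Prop) (hs : ∀ x y, R x y → R y x) (col : E → Prop)
    (hc : ∀ A ⊆ G, (∀ x ∈ G, ∀ y ∈ G, R x y → (x ∈ A ↔ y ∈ A)) → A = ∅ ∨ A = G)
    {w x₁ x₂ x₃ : E} (hw : w ∈ G) (h1 : x₁ ∈ G) (h2 : x₂ ∈ G) (h3 : x₃ ∈ G) (r1 : R w x₁) (r2 : R w x₂) (r3 : R w x₃)
    (n1 : x₁ ≠ w) (n2 : x₂ ≠ w) (n3 : x₃ ≠ w) (h12 : x₁ ≠ x₂) (h13 : x₁ ≠ x₃) (h23 : x₂ ≠ x₃) :
    ∃ u ∈ G, ∃ v ∈ G, u ≠ v ∧ (col u ↔ col v) ∧
      ∀ A ⊆ (G.erase u).erase v, (∀ x ∈ (G.erase u).erase v, ∀ y ∈ (G.erase u).erase v, R x y → (x ∈ A ↔ y ∈ A)) →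
        A = ∅ ∨ A = (G.erase u).erase v := by
  obtain ⟨d, hd0, hd1, hd⟩ := lf_dist G R hs hc hw
  have hex : ∀ x : E, ∃ y : E, (x = w → y = w) ∧ (x ∈ G → x ≠ w → y ∈ G ∧ R y x ∧ d y < d x) := by
    intro x
    by_cases hx : x ∈ G ∧ x ≠ w
    · obtain ⟨y, hy, hyx, hlt⟩ := hd x hx.1 hx.2
      exact ⟨y, fun h => absurd h hx.2, fun _ _ => ⟨hy, hyx, hlt⟩⟩
    · exact ⟨w, fun _ => rfl, fun h h' => absurd ⟨h, h'⟩ hx⟩
  choose p hpw hp using hex
  have pw : p w = w := hpw w rfl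
  have hp' : ∀ x ∈ G, x ≠ w → p x ∈ G ∧ d (p x) < d x :=
    fun x hx hxw => ⟨(hp x hx hxw).1, (hp x hx hxw).2.2⟩
  have pn : ∀ x ∈ G, x ≠ w → R w x → p x = w := by
    intro x hx hxw hr
    obtain ⟨h4, _, h5⟩ := hp x hx hxw
    have h6 := hd1 x hx hr
    exact hd0 _ h4 (by omega)
  obtain ⟨l₁, g1, k1, w1, q1⟩ := lf_leaf G d p hp' pw h1 n1
  obtain ⟨l₂, g2, k2, w2, q2⟩ := lf_leaf G d p hp' pw h2 n2
  obtain ⟨l₃, g3, k3, w3, q3⟩ := lf_leaf G d p hp' pw h3 n3
  have e12 : l₁ ≠ l₂ := by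
    rintro rfl
    exact lf_ne p pw (pn _ h1 n1 r1) (pn _ h2 n2 r2) n1 n2 h12 k1 k2
  have e13 : l₁ ≠ l₃ := by
    rintro rfl
    exact lf_ne p pw (pn _ h1 n1 r1) (pn _ h3 n3 r3) n1 n3 h13 k1 k3
  have e23 : l₂ ≠ l₃ := by
    rintro rfl
    exact lf_ne p pw (pn _ h2 n2 r2) (pn _ h3 n3 r3) n2 n3 h23 k2 k3
  have hcol : (col l₁ ↔ col l₂) ∨ (col l₁ ↔ col l₃) ∨ (col l₂ ↔ col l₃) := by tauto
  rcases hcol with h | h | h
  · exact ⟨l₁, g1, l₂, g2, e12, h, lf_two G R hw d p hp w1 w2 q1 q2⟩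
  · exact ⟨l₁, g1, l₃, g3, e13, h, lf_two G R hw d p hp w1 w3 q1 q3⟩
  · exact ⟨l₂, g2, l₃, g3, e23, h, lf_two G R hw d p hp w2 w3 q2 q3⟩

end Pool.Agent.QUS
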