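import Pool.Agent.QUS.Dg
import Pool.Agent.QUS.Lf
import Pool.Agent.QUS.Dl
import Pool.Agent.QUS.Du

/-!
# QUS/Ef: choice of the two elements

At a basis `S` with a vertex of degree three in the fundamental graph there are two leaves of the same colour whose
deletion does not disconnect the graph.  They are both outside `S` (first alternative) or both in `S` (second alternative, for the dual and the basis `G \ S`, which has the same graph).
-/

set_option autoImplicit false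

noncomputable section

open scoped Classical

namespace Pool.Agent.QUS

variable {E : Type} {Γ : Submodule Rq (E → Rq)} {G : Finset E}

theorem exists_ef (hG : Sup Γ G) (hex : ∃ S, IsB Γ S) (hU : ∀ S, IsB Γ S → ∀ b ∈ S, ∀ e, UZ (fv Γ S b e)) (hC : Conn Γ G)
    (h5 : 5 ≤ G.card) :
    (∃ S e f, IsB Γ S ∧ e ∈ G ∧ f ∈ G ∧ e ≠ f ∧ e ∉ S ∧ f ∉ S ∧ Conn (del (del Γ e) f) ((G.erase e).erase f)) ∨
    (∃ S e f, IsB (dl Γ G) S ∧ e ∈ G ∧ f ∈ G ∧ e ≠ f ∧ e ∉ S ∧ f ∉ S ∧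
      Conn (del (del (dl Γ G) e) f) ((G.erase e).erase f)) := by
  obtain ⟨S, hS, w, x₁, x₂, x₃, hw, h1, h2, h3, r1, r2, r3, h12, h13, h23⟩ := deg3 hG hex hU hC h5
  have hne : ∀ x y, adj Γ S x y → y ≠ x := by
    rintro x y (⟨hx, hy, -⟩ | ⟨hy, hx, -⟩) h
    · exact hy (h ▸ hx)
    · exact hx (h ▸ hy)
  have hSG : S ⊆ G := sub_of_sup hS hG
  have hc : ∀ A ⊆ G, (∀ x ∈ G, ∀ y ∈ G, adj Γ S x y → (x ∈ A ↔ y ∈ A)) → A = ∅ ∨ A = G := by
    intro A hA h
    refine graph_of_conn hG hS hC A hA fun b hb e he hbe => ?_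
    by_cases heS : e ∈ S
    · by_cases heb : e = b
      · rw [heb]
      · exact absurd (fv_oth hS hb heS heb) hbe
    · exact h b (hSG hb) e he (Or.inl ⟨hb, heS, hbe⟩)
  obtain ⟨u, hu, v, hv, huv, hcol, hA⟩ := leaves G (adj Γ S) (fun x y => adj_symm) (fun x => x ∈ S) hc hw h1 h2 h3
    r1 r2 r3 (hne _ _ r1) (hne _ _ r2) (hne _ _ r3) h12 h13 h23
  by_cases huS : u ∈ S
  · have hvS : v ∈ S := hcol.1 huS
    right
    have hB : IsB (dl Γ G) (G \ S) := isB_dl_of hG hS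
    have huT : u ∉ G \ S := fun h => (Finset.mem_sdiff.1 h).2 huS
    have hvT : v ∉ G \ S := fun h => (Finset.mem_sdiff.1 h).2 hvS
    refine ⟨G \ S, u, v, hB, hu, hv, huv, huT, hvT, ?_⟩
    have hB1 : IsB (del (dl Γ G) u) (G \ S) := isB_del_of hB huT
    have hB2 : IsB (del (del (dl Γ G) u) v) (G \ S) := isB_del_of hB1 hvT
    refine conn_of_graph (sup_del (sup_del sup_dl)) hB2 fun A hAs h => hA A hAs ?_
    have key : ∀ x ∈ (G.erase u).erase v, ∀ y ∈ (G.erase u).erase v, x ∈ S → y ∉ S → fv Γ S x y ≠ 0 →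
        (x ∈ A ↔ y ∈ A) := by
      intro x hx y hy hxS hyS hxy
      obtain ⟨hxv, hx'⟩ := Finset.mem_erase.1 hx
      obtain ⟨hxu, hxG⟩ := Finset.mem_erase.1 hx'
      have hyG : y ∈ G := Finset.mem_of_mem_erase (Finset.mem_of_mem_erase hy)
      have hyT : y ∈ G \ S := Finset.mem_sdiff.2 ⟨hyG, hyS⟩
      refine (h y hyT x hx ?_).symm
      rw [fv_del_of_ne hB1 hvT hyT hxv, fv_del_of_ne hB huT hyT hxu, fv_dl hG hS hxS hyT]
      exact neg_ne_zero.2 (star_ne_zero.2 hxy)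
    rintro x hx y hy (⟨a, b, c⟩ | ⟨a, b, c⟩)
    · exact key x hx y hy a b c
    · exact (key y hy x hx a b c).symm
  · have hvS : v ∉ S := fun h => huS (hcol.2 h)
    left
    refine ⟨S, u, v, hS, hu, hv, huv, huS, hvS, ?_⟩
    have hB1 : IsB (del Γ u) S := isB_del_of hS huS
    have hB2 : IsB (del (del Γ u) v) S := isB_del_of hB1 hvS
    refine conn_of_graph (sup_del (sup_del hG)) hB2 fun A hAs h => hA A hAs ?_
    have key : ∀ x ∈ (G.erase u).erase v, ∀ y ∈ (G.erase u).erase v, x ∈ S → y ∉ S → fv Γ S x y ≠ 0 →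
        (x ∈ A ↔ y ∈ A) := by
      intro x hx y hy hxS hyS hxy
      obtain ⟨hyv, hy'⟩ := Finset.mem_erase.1 hy
      obtain ⟨hyu, hyG⟩ := Finset.mem_erase.1 hy'
      refine h x hxS y hy ?_
      rw [fv_del_of_ne hB1 hvS hxS hyv, fv_del_of_ne hS huS hxS hyu]
      exact hxy
    rintro x hx y hy (⟨a, b, c⟩ | ⟨a, b, c⟩)
    · exact key x hx y hy a b c
    · exact (key y hy x hx a b c).symm

end Pool.Agent.QUS
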