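import Pool.Agent.QUS.Off

/-!
# QUS/Gl: gluing two columns

`Λ = {v | cut {e}ᶜ v ∈ Λ₁ ∧ cut {f}ᶜ v ∈ Λ₂}`.  For `b ∈ B` the vector `x` with `x e = fv Λ₂ B b e` and `x g = fv Λ₁ B b g` (`g ≠ e`) is in `Λ`: `cut {e}ᶜ x = fv Λ₁ B b`, `cut {f}ᶜ x = fv Λ₂ B b` (equal off `e, f` by `h`
and `fv_del`).  Injectivity: `e ≠ f`.  Then `del Λ e = Λ₁`, `del Λ f = Λ₂` (same basis `B` and same fundamental vectors).
-/

set_option autoImplicit false

noncomputable section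

open scoped Classical

namespace Pool.Agent.QUS

variable {E : Type} {Λ₁ Λ₂ : Submodule Hz (E → Hz)} {Γ : Submodule Rq (E → Rq)} {B : Finset E} {e f : E}

private theorem cut_ne {v : E → Hz} {e g : E} (h : g ≠ e) : cut ({e}ᶜ : Set E) v g = v g := by
  have h' : g ∈ ({e}ᶜ : Set E) := by simpa using h
  exact if_pos h'

private theorem cut_self {v : E → Hz} {e : E} : cut ({e}ᶜ : Set E) v e = 0 := by
  have h' : e ∉ ({e}ᶜ : Set E) := by simp
  exact if_neg h'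

/-- the fundamental vectors of a right lift of `del Γ e` vanish at `e` -/
private theorem van {Λ : Submodule Hz (E → Hz)} {b : E} (hB : IsB Γ B) (heB : e ∉ B) (h1 : Right Λ (del Γ e)) (hb : b ∈ B) :
    fv Λ B b e = 0 := by
  have hBe : IsB (del Γ e) B := isB_del_of hB heB
  have h2 := (h1 B hBe).2 b hb e
  rw [fv_del_self hB heB hb] at h2
  exact eq_zero_of_red h2.1 h2.2

theorem glue (hef : e ≠ f) (hB : IsB Γ B) (heB : e ∉ B) (hfB : f ∉ B) (h1 : Right Λ₁ (del Γ e)) (h2 : Right Λ₂ (del Γ f))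
    (h : del Λ₁ f = del Λ₂ e) : ∃ Λ : Submodule Hz (E → Hz), IsB Λ B ∧ del Λ e = Λ₁ ∧ del Λ f = Λ₂ := by
  have hB1 : IsB Λ₁ B := (h1 B (isB_del_of hB heB)).1
  have hB2 : IsB Λ₂ B := (h2 B (isB_del_of hB hfB)).1
  have v1 : ∀ b ∈ B, fv Λ₁ B b e = 0 := fun b hb => van hB heB h1 hb
  have v2 : ∀ b ∈ B, fv Λ₂ B b f = 0 := fun b hb => van hB hfB h2 hb
  have hoff : ∀ b ∈ B, ∀ g, g ≠ e → g ≠ f → fv Λ₁ B b g = fv Λ₂ B b g := by
    intro b hb g hge hgf
    rw [← fv_del_of_ne hB1 hfB hb hgf, h, fv_del_of_ne hB2 heB hb hge]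
  -- the glued vectors
  let x : E → E → Hz := fun b g => if g = e then fv Λ₂ B b e else fv Λ₁ B b g
  have xe : ∀ b, x b e = fv Λ₂ B b e := fun b => if_pos rfl
  have xg : ∀ b g, g ≠ e → x b g = fv Λ₁ B b g := fun b g hg => if_neg hg
  have c1 : ∀ b ∈ B, cut ({e}ᶜ : Set E) (x b) = fv Λ₁ B b := by
    intro b hb
    funext g
    by_cases hg : g = e
    · subst hg
      rw [cut_self, v1 b hb]
    · rw [cut_ne hg, xg b g hg]
  have c2 : ∀ b ∈ B, cut ({f}ᶜ : Set E) (x b) = fv Λ₂ B b := by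
    intro b hb
    funext g
    by_cases hg : g = f
    · subst hg
      rw [cut_self, v2 b hb]
    · rw [cut_ne hg]
      by_cases hge : g = e
      · subst hge
        exact xe b
      · rw [xg b g hge, hoff b hb g hge hg]
  let Λ : Submodule Hz (E → Hz) := Λ₁.comap (cut ({e}ᶜ : Set E)) ⊓ Λ₂.comap (cut ({f}ᶜ : Set E))
  have mem : ∀ v, v ∈ Λ ↔ cut ({e}ᶜ : Set E) v ∈ Λ₁ ∧ cut ({f}ᶜ : Set E) v ∈ Λ₂ := by
    intro v
    rw [Submodule.mem_inf, Submodule.mem_comap, Submodule.mem_comap]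
  have xm : ∀ b ∈ B, x b ∈ Λ := by
    intro b hb
    rw [mem, c1 b hb, c2 b hb]
    exact ⟨fv_mem hB1 hb, fv_mem hB2 hb⟩
  have hne : ∀ b ∈ B, b ≠ e := fun b hb hbe => heB (hbe ▸ hb)
  have hnf : ∀ b ∈ B, b ≠ f := fun b hb hbf => hfB (hbf ▸ hb)
  have hΛB : IsB Λ B := by
    refine ⟨fun v hv h0 => ?_, fun b hb => ⟨x b, xm b hb, ?_, fun s hs hsb => ?_⟩⟩
    · rw [mem] at hv
      have z1 : cut ({e}ᶜ : Set E) v = 0 := hB1.1 _ hv.1 fun s hs => by rw [cut_ne (hne s hs), h0 s hs]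
      have z2 : cut ({f}ᶜ : Set E) v = 0 := hB2.1 _ hv.2 fun s hs => by rw [cut_ne (hnf s hs), h0 s hs]
      funext g
      by_cases hg : g = e
      · subst hg
        have h3 := congrFun z2 g
        rw [cut_ne hef] at h3
        exact h3
      · have h3 := congrFun z1 g
        rw [cut_ne hg] at h3
        exact h3
    · rw [xg b b (hne b hb), fv_self hB1 hb]
    · rw [xg b s (hne s hs), fv_oth hB1 hb hs hsb]
  refine ⟨Λ, hΛB, le_antisymm ?_ ?_, le_antisymm ?_ ?_⟩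
  · rintro w ⟨v, hv, rfl⟩
    exact ((mem v).1 hv).1
  · intro v hv
    refine ⟨∑ b ∈ B, v b • x b, Submodule.sum_mem _ fun b hb => Submodule.smul_mem _ _ (xm b hb), ?_⟩
    rw [map_sum]
    conv_rhs => rw [expand hB1 hv]
    refine Finset.sum_congr rfl fun b hb => ?_
    rw [map_smul, c1 b hb]
  · rintro w ⟨v, hv, rfl⟩
    exact ((mem v).1 hv).2
  · intro v hv
    refine ⟨∑ b ∈ B, v b • x b, Submodule.sum_mem _ fun b hb => Submodule.smul_mem _ _ (xm b hb), ?_⟩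
    rw [map_sum]
    conv_rhs => rw [expand hB2 hv]
    refine Finset.sum_congr rfl fun b hb => ?_
    rw [map_smul, c2 b hb]

end Pool.Agent.QUS
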