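import Pool.Agent.QUS.Rd

/-!
# QUS/Fc1: finite facts 1: signs and the 2 x 3 block (S1)

`pm`: `x - y` is `2 z` and `N (x - y) + N (x + y) = 4`, so `N z <= 1`.
`no_both`: `N (1-q) + N (1+q) = 2 + 2 N q = 4`, but both are at most 1.
`blk5`: by hand as in qu_sign.md (S1): if `N (y - x) = 3` then `N (y - star x) = 0`.
-/

set_option autoImplicit false

noncomputable section

open scoped Classical

namespace Pool.Agent.QUS

theorem uz_iff {x : Hz} : UZ x ↔ x.N ≤ 1 := by
  have h0 := N_nonneg x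
  constructor
  · rintro (h | h)
    · rw [N_eq_zero.2 h]; norm_num
    · rw [hz_unit.1 h]
  · intro h
    rcases (by omega : x.N = 0 ∨ x.N = 1) with h1 | h1
    · exact Or.inl (N_eq_zero.1 h1)
    · exact Or.inr (hz_unit.2 h1)

/-- parallelogram law -/
private theorem Fc1_par (x y : Hz) : (x - y).N + (x + y).N = 2 * x.N + 2 * y.N := by
  rw [sub_eq_add_neg]
  simp only [Hz.N, Hz.add_a, Hz.add_b, Hz.add_c, Hz.add_d, Hz.neg_a, Hz.neg_b, Hz.neg_c, Hz.neg_d]
  ring

private theorem Fc1_N_neg (x : Hz) : (-x).N = x.N := by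
  simp only [Hz.N, Hz.neg_a, Hz.neg_b, Hz.neg_c, Hz.neg_d]
  ring

private theorem Fc1_one : (1 : Hz).N = 1 := by
  simp [Hz.N]

private theorem Fc1_two (z : Hz) : (2 * z).N = 4 * z.N := by
  rw [two_mul]
  simp only [Hz.N, Hz.add_a, Hz.add_b, Hz.add_c, Hz.add_d]
  ring

theorem pm {x y : Hz} (hx : IsUnit x) (hy : IsUnit y) (h : red x = red y) : x = y ∨ x = -y := by
  have h1 : red (x - y) = 0 := by rw [map_sub, h, sub_self]
  obtain ⟨z, hz⟩ := red_eq_zero.1 h1
  have h2 := Fc1_par x y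
  have h3 : (x - y).N = 4 * z.N := by rw [hz, Fc1_two]
  have h4 := N_nonneg z
  have h5 := N_nonneg (x + y)
  rw [hz_unit.1 hx, hz_unit.1 hy] at h2
  rcases (by omega : z.N = 0 ∨ z.N = 1) with h6 | h6
  · left
    have h7 : (x - y).N = 0 := by rw [h3, h6]; norm_num
    exact sub_eq_zero.1 (N_eq_zero.1 h7)
  · right
    have h7 : (x + y).N = 0 := by
      rw [h3, h6] at h2
      linarith
    exact eq_neg_of_add_eq_zero_left (N_eq_zero.1 h7)

theorem no_both {q : Hz} (hq : IsUnit q) (h1 : UZ (1 - q)) (h2 : UZ (1 + q)) : False := by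
  have h := Fc1_par 1 q
  rw [hz_unit.1 hq, Fc1_one] at h
  have h3 := uz_iff.1 h1
  have h4 := uz_iff.1 h2
  linarith

private theorem Fc1_sub (x y : Hz) : (x - y).N = (x.a - y.a) ^ 2 + (x.b - y.b) ^ 2 + (x.c - y.c) ^ 2 + (x.d - y.d) ^ 2 -
    (x.a - y.a) * (x.d - y.d) + (x.b - y.b) * (x.d - y.d) + (x.c - y.c) * (x.d - y.d) := by
  have h : x - y = x + -y := sub_eq_add_neg x y
  rw [h]
  simp only [Hz.N, Hz.add_a, Hz.add_b, Hz.add_c, Hz.add_d, Hz.neg_a, Hz.neg_b, Hz.neg_c, Hz.neg_d]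
  ring

/-- `|y - conj x|^2` -/
private theorem Fc1_conj (x y : Hz) : (y - star x).N =
    2 * x.N + 2 * y.N - (y - x).N - (x.N - (1 - x).N + 1) * (y.N - (1 - y).N + 1) := by
  have h1 := Fc1_sub 1 x
  have h2 := Fc1_sub 1 y
  rw [Hz.one_a, Hz.one_b, Hz.one_c, Hz.one_d] at h1 h2
  rw [h1, h2, Fc1_sub y x, Fc1_sub y (star x)]
  simp only [Hz.N, Hz.star_def]
  ring

private theorem Fc1_comm (x : Hz) : x * star x = star x * x := by
  ext <;> simp only [Hz.mul_def, Hz.star_def] <;> ring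

/-- (S1): the block `[[1,1,1],[1,x,y]]` -/
theorem blk5 {x y : Hz} (hx : IsUnit x) (hy : IsUnit y) (h1 : UZ (1 - x)) (h2 : UZ (1 - y)) (h3 : UZ (red (y - x)))
    (hc : IsUnit (red (1 - x)) → IsUnit (red (1 - y)) → IsUnit (red (y - x)) → ¬ Commute (red x) (red y)) :
    UZ (y - x) := by
  have hNx := hz_unit.1 hx
  have hNy := hz_unit.1 hy
  rcases h1 with h1 | h1
  · have hx1 : x = 1 := (sub_eq_zero.1 h1).symm
    rw [hx1, uz_iff]
    have h := uz_iff.1 h2
    have h4 : (y - 1).N = (1 - y).N := by rw [← Fc1_N_neg (1 - y), neg_sub]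
    rw [h4]; exact h
  rcases h2 with h2 | h2
  · have hy1 : y = 1 := (sub_eq_zero.1 h2).symm
    rw [hy1]; exact Or.inr h1
  have h1N := hz_unit.1 h1
  have h2N := hz_unit.1 h2
  rcases h3 with h3 | h3
  · have h4 : red y = red x := by rwa [map_sub, sub_eq_zero] at h3
    rcases pm hy hx h4 with h5 | h5
    · left; rw [h5, sub_self]
    · exfalso
      refine no_both hx (Or.inr h1) ?_
      rw [h5, sub_neg_eq_add] at h2
      exact Or.inr h2
  · have hodd := red_unit_iff.1 h3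
    have hp := Fc1_par y x
    have h0 := N_nonneg (y + x)
    rw [hNx, hNy] at hp
    rcases hodd with ⟨k, hk⟩
    by_cases hk0 : k ≤ 0
    · rw [uz_iff, hk]; linarith
    · exfalso
      have hk1 : k = 1 := by omega
      have hN3 : (y - x).N = 3 := by rw [hk, hk1]; norm_num
      have hs : (y - star x).N = 0 := by
        rw [Fc1_conj, hNx, hNy, hN3, h1N, h2N]; norm_num
      have hyx : y = star x := sub_eq_zero.1 (N_eq_zero.1 hs)
      refine hc (h1.map red) (h2.map red) h3 ?_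
      show red x * red y = red y * red x
      rw [← map_mul, ← map_mul, hyx, Fc1_comm]

end Pool.Agent.QUS
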