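import Pool.Agent.QUS.Du
import Pool.Agent.QUS.Fc1

/-!
# QUS/Rk1: rank one and corank one

`S = ∅`: `Γ = 0`, `Λ = ⊥`.  `S = {a}`: `Λ` = multiples of a vector `x` with `x a = 1`, `x g` a unit lift of `fv Γ S a g` (every unit of `Rq` is the reduction of a unit of `Hz`: `decide` over `unitsL`), `0` where it is zero.  Every basis
is `{b}` with `x b` a unit; `fv Λ {b} b = (x b)⁻¹ • x`.  Corank: `rk1` for `dl Γ G` and `right_dl`, `dl_dl`.
-/

set_option autoImplicit false

noncomputable section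

open scoped Classical

namespace Pool.Agent.QUS

variable {E : Type} {Γ : Submodule Rq (E → Rq)} {S G : Finset E}

theorem unit_lift {x : Rq} (h : IsUnit x) : ∃ y : Hz, IsUnit y ∧ red y = x := by
  obtain ⟨a, b⟩ := x
  have ha : a ≠ 0 := rq_unit.1 h
  have key : ∀ y : Hz, y.N = 1 → red y = ⟨a, b⟩ → ∃ y : Hz, IsUnit y ∧ red y = ⟨a, b⟩ :=
    fun y h1 h2 => ⟨y, hz_unit.2 h1, h2⟩
  cases a
  · exact absurd rfl ha
  · cases b
    · exact key ⟨1, 0, 0, 0⟩ (by decide) (by decide)
    · exact key ⟨0, 1, 0, 0⟩ (by decide) (by decide)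
    · exact key ⟨0, 0, 1, 0⟩ (by decide) (by decide)
    · exact key ⟨1, -1, -1, 2⟩ (by decide) (by decide)
  · cases b
    · exact key ⟨0, 0, 0, 1⟩ (by decide) (by decide)
    · exact key ⟨1, -1, 0, 1⟩ (by decide) (by decide)
    · exact key ⟨1, 0, -1, 1⟩ (by decide) (by decide)
    · exact key ⟨0, -1, -1, 1⟩ (by decide) (by decide)
  · cases b
    · exact key ⟨1, 0, 0, 1⟩ (by decide) (by decide)
    · exact key ⟨0, -1, 0, 1⟩ (by decide) (by decide)
    · exact key ⟨0, 0, -1, 1⟩ (by decide) (by decide)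
    · exact key ⟨1, -1, -1, 1⟩ (by decide) (by decide)

private theorem rk1_lift {x : Rq} (h : UZ x) :
    ∃ y : Hz, UZ y ∧ red y = x ∧ (x = 0 → y = 0) ∧ (x ≠ 0 → IsUnit y) := by
  by_cases h0 : x = 0
  · exact ⟨0, Or.inl rfl, by rw [map_zero, h0], fun _ => rfl, fun h1 => absurd h0 h1⟩
  · have hu : IsUnit x := by
      rcases h with h1 | h1
      · exact absurd h1 h0
      · exact h1
    obtain ⟨y, hy, hy'⟩ := unit_lift hu
    exact ⟨y, Or.inr hy, hy', fun h1 => absurd h1 h0, fun _ => hy⟩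

private theorem rk1_span {H : Type} [Ring H] {E : Type} {x v : E → H} :
    v ∈ Submodule.span H {x} ↔ ∃ c : H, ∀ g, v g = c * x g := by
  rw [Submodule.mem_span_singleton]
  constructor
  · rintro ⟨c, hc⟩
    exact ⟨c, fun g => by rw [← hc]; rfl⟩
  · rintro ⟨c, hc⟩
    exact ⟨c, by funext g; exact (hc g).symm⟩

/-- a submodule which contains a vector `x`, all of whose elements are multiples of `x`, `x b` a unit -/
private theorem rk1_basis {H : Type} [Ring H] {E : Type} {Λ : Submodule H (E → H)} {x : E → H} {b : E}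
    (hx : x ∈ Λ) (hm : ∀ v ∈ Λ, ∃ c : H, ∀ g, v g = c * x g) (hb : IsUnit (x b)) :
    IsB Λ {b} ∧ ∀ g, fv Λ {b} b g = Ring.inverse (x b) * x g := by
  have hB : IsB Λ {b} := by
    constructor
    · intro v hv h0
      obtain ⟨c, hc⟩ := hm v hv
      have h1 : c * x b = 0 := by
        rw [← hc b]
        exact h0 b (Finset.mem_singleton_self b)
      have h2 : c = 0 := by
        have h3 := congrArg (fun z => z * Ring.inverse (x b)) h1
        simp only [zero_mul, mul_assoc, Ring.mul_inverse_cancel _ hb, mul_one] at h3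
        exact h3
      funext g
      rw [hc g, h2, zero_mul]
      rfl
    · intro b' hb'
      rw [Finset.mem_singleton] at hb'
      subst hb'
      refine ⟨Ring.inverse (x b') • x, Λ.smul_mem _ hx, ?_, ?_⟩
      · show Ring.inverse (x b') * x b' = 1
        exact Ring.inverse_mul_cancel _ hb
      · intro s hs hsb
        exact absurd (Finset.mem_singleton.1 hs) hsb
  refine ⟨hB, fun g => ?_⟩
  have h1 : fv Λ {b} b = Ring.inverse (x b) • x := by
    refine fv_uniq hB (Finset.mem_singleton_self b) (Λ.smul_mem _ hx) ?_ ?_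
    · show Ring.inverse (x b) * x b = 1
      exact Ring.inverse_mul_cancel _ hb
    · intro s hs hsb
      exact absurd (Finset.mem_singleton.1 hs) hsb
  rw [h1]
  rfl

theorem rk1 (hG : Sup Γ G) (hU : ∀ S, IsB Γ S → ∀ b ∈ S, ∀ e, UZ (fv Γ S b e)) (hS : IsB Γ S) (h : S.card ≤ 1) :
    ∃ Λ : Submodule Hz (E → Hz), Sup Λ G ∧ Right Λ Γ := by
  rcases Nat.lt_or_ge S.card 1 with h0 | h1
  · have hS0 : S = ∅ := Finset.card_eq_zero.1 (by omega)
    subst hS0
    have hΓ : ∀ v ∈ Γ, v = 0 := fun v hv => hS.1 v hv (fun s hs => absurd hs (Finset.notMem_empty s))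
    refine ⟨⊥, ?_, ?_⟩
    · intro v hv g _
      rw [(Submodule.mem_bot Hz).1 hv]
      rfl
    · intro T hT
      have hT0 : T = ∅ := by
        rw [Finset.eq_empty_iff_forall_notMem]
        intro b hb
        obtain ⟨x, hx, hx1, _⟩ := hT.2 b hb
        rw [hΓ x hx] at hx1
        exact zero_ne_one hx1
      subst hT0
      refine ⟨⟨fun v hv _ => (Submodule.mem_bot Hz).1 hv, fun b hb => absurd hb (Finset.notMem_empty b)⟩,
        fun b hb => absurd hb (Finset.notMem_empty b)⟩
  · have hS1 : S.card = 1 := le_antisymm h h1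
    obtain ⟨a, rfl⟩ := Finset.card_eq_one.1 hS1
    have haS : a ∈ ({a} : Finset E) := Finset.mem_singleton_self a
    have hφ : ∀ g, UZ (fv Γ {a} a g) := hU _ hS a haS
    choose x hx1 hx2 hx3 hx4 using fun g => rk1_lift (hφ g)
    have hφm : ∀ v ∈ Γ, ∃ c : Rq, ∀ g, v g = c * fv Γ {a} a g := by
      intro v hv
      refine ⟨v a, fun g => ?_⟩
      have h2 := expand hS hv
      rw [Finset.sum_singleton] at h2
      exact congrFun h2 g
    have hxΛ : x ∈ Submodule.span Hz {x} := Submodule.mem_span_singleton_self x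
    refine ⟨Submodule.span Hz {x}, ?_, ?_⟩
    · intro v hv g hg
      obtain ⟨c, hc⟩ := rk1_span.1 hv
      rw [hc g, hx3 g (fv_out hG hS haS hg), mul_zero]
    · intro T hT
      have hcard : T.card = 1 := by rw [← card_eq hU hS hT, hS1]
      obtain ⟨b, rfl⟩ := Finset.card_eq_one.1 hcard
      have hbT : b ∈ ({b} : Finset E) := Finset.mem_singleton_self b
      have hne : fv Γ {a} a b ≠ 0 := by
        intro h2
        obtain ⟨c, hc⟩ := hφm _ (fv_mem hT hbT)
        have h3 := hc b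
        rw [fv_self hT hbT, h2, mul_zero] at h3
        exact one_ne_zero h3
      have hub : IsUnit (fv Γ {a} a b) := by
        rcases hφ b with h2 | h2
        · exact absurd h2 hne
        · exact h2
      have hxb : IsUnit (x b) := hx4 b hne
      obtain ⟨hB, hf⟩ := rk1_basis (Λ := Submodule.span Hz {x}) hxΛ (fun v hv => rk1_span.1 hv) hxb
      obtain ⟨_, hf'⟩ := rk1_basis (fv_mem hS haS) hφm hub
      refine ⟨hB, ?_⟩
      intro b' hb' g
      rw [Finset.mem_singleton] at hb'
      subst hb'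
      rw [hf g, hf' g]
      refine ⟨uz_mul (uz_inv (hx1 _)) (hx1 _), ?_⟩
      rw [map_mul, red_inv hxb, hx2, hx2]

theorem cork1 (hG : Sup Γ G) (hU : ∀ S, IsB Γ S → ∀ b ∈ S, ∀ e, UZ (fv Γ S b e)) (hS : IsB Γ S)
    (h : G.card ≤ S.card + 1) : ∃ Λ : Submodule Hz (E → Hz), Sup Λ G ∧ Right Λ Γ := by
  have hSG : S ⊆ G := sub_of_sup hS hG
  have hD : IsB (dl Γ G) (G \ S) := isB_dl_of hG hS
  have hcard : (G \ S).card ≤ 1 := by
    rw [Finset.card_sdiff_of_subset hSG]
    omega
  have hU' : ∀ T, IsB (dl Γ G) T → ∀ b ∈ T, ∀ e, UZ (fv (dl Γ G) T b e) := by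
    intro T hT b hb e
    have hTG : T ⊆ G := sub_of_sup hT sup_dl
    have hTT : G \ (G \ T) = T := Finset.sdiff_sdiff_eq_self hTG
    have hT' : IsB Γ (G \ T) := by
      rw [← isB_dl hG ⟨S, hS⟩ Finset.sdiff_subset, hTT]
      exact hT
    by_cases heG : e ∈ G
    · by_cases heT : e ∈ T
      · by_cases heb : e = b
        · subst heb
          rw [fv_self hT hb]
          exact Or.inr isUnit_one
        · rw [fv_oth hT hb heT heb]
          exact Or.inl rfl
      · have he' : e ∈ G \ T := Finset.mem_sdiff.2 ⟨heG, heT⟩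
        have hb' : b ∈ G \ (G \ T) := by
          rw [hTT]
          exact hb
        have h2 := fv_dl hG hT' he' hb'
        rw [hTT] at h2
        rw [h2]
        exact uz_neg (uz_star.2 (hU _ hT' e he' b))
    · rw [fv_out sup_dl hT hb heG]
      exact Or.inl rfl
  obtain ⟨Λ, hΛG, hΛ⟩ := rk1 sup_dl hU' hD hcard
  refine ⟨dl Λ G, sup_dl, ?_⟩
  have h3 := right_dl hΛG sup_dl ⟨_, hD⟩ hΛ
  rw [dl_dl hG hS] at h3
  exact h3

end Pool.Agent.QUS
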