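import Pool.Agent.QUS.Du
import Pool.Agent.QUS.Fc1
import Pool.Agent.QUS.Rk1

/-!
# QUS/Rk2: rank two, four elements

Basis `S = {a, b}`, `G \ S = {e, f}`; unit lifts `A_e, A_f, B_e, B_f` of the entries (zero where they are zero).  If all four are units choose the sign of `B_f` such that `UZ (B_f - B_e A_e⁻¹ A_f)`: with
`q = B_f⁻¹ B_e A_e⁻¹ A_f` the reduction of `1 - q` is `0` or a unit (entry of the basis `pv S a e`), so `UZ (1 - q)` or `UZ (1 + q)` (check over `unitsL`).  `Λ` = span of the two vectors.  All bases of `Γ` are reached from `S` by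
at most two pivots (`piv_ind`); invariant: the entries are right and the block (if full) has `UZ` Schur complements (`sc_row, sc_col, sc_diag`; after a pivot the new block has the entries `x⁻¹`, `x⁻¹ y`, `- z x⁻¹`, `t - z x⁻¹ y` and its Schur
complements are, up to units, entries of the old one or the old Schur complement).
-/

set_option autoImplicit false

noncomputable section

open scoped Classical

namespace Pool.Agent.QUS

variable {E : Type} {Γ : Submodule Rq (E → Rq)} {S G : Finset E}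

theorem sign_choice {q : Hz} (hq : IsUnit q) (h : UZ (red (1 - q))) : UZ (1 - q) ∨ UZ (1 + q) := by
  rw [uz_iff, uz_iff]
  have hN : q.N = 1 := hz_unit.1 hq
  have hs : (1 - q).N + (1 + q).N = 2 + 2 * q.N := by
    rw [sub_eq_add_neg]
    simp only [Hz.N, Hz.add_a, Hz.add_b, Hz.add_c, Hz.add_d, Hz.neg_a, Hz.neg_b, Hz.neg_c,
      Hz.neg_d, Hz.one_a, Hz.one_b, Hz.one_c, Hz.one_d]
    ring
  rw [hN] at hs
  by_contra hc
  push Not at hc
  have h2 : (1 - q).N = 2 := by omega
  rcases h with h | h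
  · obtain ⟨y, hy⟩ := red_eq_zero.1 h
    have h3 : (1 - q).N = (2 : Hz).N * y.N := by rw [hy, N_mul]
    have h4 : (2 : Hz).N = 4 := by
      have h5 : (2 : Hz) = 1 + 1 := one_add_one_eq_two.symm
      rw [h5]
      simp only [Hz.N, Hz.add_a, Hz.add_b, Hz.add_c, Hz.add_d, Hz.one_a, Hz.one_b, Hz.one_c,
        Hz.one_d]
      norm_num
    rw [h2, h4] at h3
    omega
  · rw [red_unit_iff, h2] at h
    exact absurd h (by decide)

/-! ### blocks -/

private def Blk (x y z t : Hz) : Prop :=
  (IsUnit x → UZ (t - z * Ring.inverse x * y)) ∧ (IsUnit y → UZ (z - t * Ring.inverse y * x)) ∧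
  (IsUnit z → UZ (y - x * Ring.inverse z * t)) ∧ (IsUnit t → UZ (x - y * Ring.inverse t * z))

private theorem blk_col {x y z t : Hz} (h : Blk x y z t) : Blk y x t z :=
  ⟨h.2.1, h.1, h.2.2.2, h.2.2.1⟩

private theorem blk_row {x y z t : Hz} (h : Blk x y z t) : Blk z t x y :=
  ⟨h.2.2.1, h.2.2.2, h.1, h.2.1⟩

private theorem blk_of {x y z t : Hz} (hy : UZ y) (hz : UZ z) (hx : IsUnit x)
    (h : UZ (t - z * Ring.inverse x * y)) : Blk x y z t :=
  ⟨fun _ => h, fun hy' => sc_row hx hy' h, fun hz' => sc_col hx hz' h,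
    fun ht => sc_diag hx ht hy hz h⟩

private theorem blk_base {x y z t : Hz} (hx : UZ x) (hy : UZ y) (hz : UZ z) (ht : UZ t)
    (h : IsUnit x → IsUnit y → IsUnit z → IsUnit t → UZ (t - z * Ring.inverse x * y)) :
    Blk x y z t := by
  rcases hx with hx | hx
  · subst hx
    refine ⟨fun h0 => absurd h0 not_isUnit_zero, fun _ => ?_, fun _ => ?_, fun _ => ?_⟩
    · rw [mul_zero, sub_zero]
      exact hz
    · rw [zero_mul, zero_mul, sub_zero]
      exact hy
    · rw [zero_sub]
      exact uz_neg (uz_mul (uz_mul hy (uz_inv ht)) hz)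
  · refine blk_of hy hz hx ?_
    rcases hy with hy | hy
    · rw [hy, mul_zero, sub_zero]
      exact ht
    rcases hz with hz | hz
    · rw [hz, zero_mul, zero_mul, sub_zero]
      exact ht
    rcases ht with ht | ht
    · rw [ht, zero_sub]
      exact uz_neg (uz_mul (uz_mul (Or.inr hz) (uz_inv (Or.inr hx))) (Or.inr hy))
    exact h hx hy hz ht

private theorem blk_zero {y t : Hz} : Blk 0 y 0 t := by
  refine ⟨fun h0 => absurd h0 not_isUnit_zero, fun _ => ?_, fun h0 => absurd h0 not_isUnit_zero,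
    fun _ => ?_⟩
  · rw [mul_zero, sub_zero]
    exact Or.inl rfl
  · rw [mul_zero, sub_zero]
    exact Or.inl rfl

/-! ### the invariant -/

private structure Inv (Λ : Submodule Hz (E → Hz)) (Γ : Submodule Rq (E → Rq)) (T : Finset E) :
    Prop where
  isB : IsB Λ T
  ent : ∀ c ∈ T, ∀ g, UZ (fv Λ T c g) ∧ red (fv Λ T c g) = fv Γ T c g
  blk : ∀ c ∈ T, ∀ d ∈ T, c ≠ d → ∀ g, g ∉ T → ∀ h, h ∉ T → g ≠ h →
    Blk (fv Λ T c g) (fv Λ T c h) (fv Λ T d g) (fv Λ T d h)

private theorem blk_out {Λ : Submodule Hz (E → Hz)} {T : Finset E} (hG : Sup Λ G)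
    (hT : IsB Λ T) {c d g h : E} (hc : c ∈ T) (hd : d ∈ T) (ho : g ∉ G ∨ h ∉ G) :
    Blk (fv Λ T c g) (fv Λ T c h) (fv Λ T d g) (fv Λ T d h) := by
  rcases ho with ho | ho
  · rw [fv_out hG hT hc ho, fv_out hG hT hd ho]
    exact blk_zero
  · rw [fv_out hG hT hc ho, fv_out hG hT hd ho]
    exact blk_col blk_zero

private theorem red_sc {Λ : Submodule Hz (E → Hz)} {T : Finset E}
    (h : ∀ c ∈ T, ∀ g, UZ (fv Λ T c g) ∧ red (fv Λ T c g) = fv Γ T c g) {c d g j : E}
    (hc : c ∈ T) (hd : d ∈ T) (hu : IsUnit (fv Λ T c g)) : red (sc Λ T c d g j) = sc Γ T c d g j := by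
  unfold sc
  rw [map_sub, map_mul, map_mul, red_inv hu, (h c hc g).2, (h c hc j).2, (h d hd g).2, (h d hd j).2]

private theorem inv_step {Λ : Submodule Hz (E → Hz)} (hG : Sup Λ G) (hG' : Sup Γ G) {T : Finset E}
    (hT : IsB Γ T) (hi : Inv Λ Γ T) (h2 : T.card = 2) (h4 : G.card = 4) {c g : E} (hc : c ∈ T)
    (hg : g ∉ T) (hu : IsUnit (fv Γ T c g)) : Inv Λ Γ (pv T c g) := by
  have hTG : T ⊆ G := sub_of_sup hT hG'
  have hgG : g ∈ G := by
    by_contra h
    rw [fv_out hG' hT hc h] at hu
    exact not_isUnit_zero hu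
  have hu' : IsUnit (fv Λ T c g) := by
    refine unit_of_red (hi.ent c hc g).1 ?_
    rw [(hi.ent c hc g).2]
    exact hu.ne_zero
  have hB' := piv hi.isB hc hg hu'
  have hnew := piv_new hi.isB hc hg hu'
  have hnewΓ := piv_new hT hc hg hu
  have hcT' : c ∉ pv T c g := by
    rw [mem_pv]
    push Not
    exact ⟨fun h => hg (h ▸ hc), fun h => absurd rfl h⟩
  have hgT' : g ∈ pv T c g := mem_pv.2 (Or.inl rfl)
  -- the entries
  have hent : ∀ c' ∈ pv T c g, ∀ j, UZ (fv Λ (pv T c g) c' j) ∧
      red (fv Λ (pv T c g) c' j) = fv Γ (pv T c g) c' j := by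
    intro c' hc' j
    rcases mem_pv.1 hc' with rfl | ⟨hcc, hcT⟩
    · rw [hnew, hnewΓ]
      simp only [Pi.smul_apply, smul_eq_mul]
      refine ⟨uz_mul (uz_inv (Or.inr hu')) (hi.ent c hc j).1, ?_⟩
      rw [map_mul, red_inv hu', (hi.ent c hc c').2, (hi.ent c hc j).2]
    · rw [piv_old_apply hi.isB hc hg hu' hcT hcc j, piv_old_apply hT hc hg hu hcT hcc j]
      refine ⟨?_, red_sc hi.ent hc hcT hu'⟩
      by_cases hjT : j ∈ T
      · by_cases hjc : j = c
        · unfold sc
          rw [hjc, fv_oth hi.isB hcT hc (Ne.symm hcc), fv_self hi.isB hc, mul_one, zero_sub]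
          exact uz_neg (uz_mul (hi.ent c' hcT g).1 (uz_inv (Or.inr hu')))
        · unfold sc
          rw [fv_oth hi.isB hc hjT hjc, mul_zero, sub_zero]
          exact (hi.ent c' hcT j).1
      · by_cases hjg : j = g
        · unfold sc
          rw [hjg, mul_assoc, Ring.inverse_mul_cancel _ hu', mul_one, sub_self]
          exact Or.inl rfl
        · exact (hi.blk c hc c' hcT (Ne.symm hcc) g hg j hjT (Ne.symm hjg)).1 hu'
  refine ⟨hB', hent, ?_⟩
  -- the block with the row `g` first and the column `c` first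
  have key : ∀ d ∈ T, d ≠ c → ∀ h, h ∉ T → h ≠ g →
      Blk (fv Λ (pv T c g) g c) (fv Λ (pv T c g) g h) (fv Λ (pv T c g) d c)
        (fv Λ (pv T c g) d h) := by
    intro d hd hdc h hh hhg
    have hd' : d ∈ pv T c g := mem_pv.2 (Or.inr ⟨hdc, hd⟩)
    have e1 : fv Λ (pv T c g) g c = Ring.inverse (fv Λ T c g) := by
      rw [hnew]
      simp only [Pi.smul_apply, smul_eq_mul]
      rw [fv_self hi.isB hc, mul_one]
    have e2 : fv Λ (pv T c g) g h = Ring.inverse (fv Λ T c g) * fv Λ T c h := by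
      rw [hnew]
      rfl
    have e3 : fv Λ (pv T c g) d c = -(fv Λ T d g * Ring.inverse (fv Λ T c g)) := by
      rw [piv_old_apply hi.isB hc hg hu' hd hdc c]
      unfold sc
      rw [fv_oth hi.isB hd hc (Ne.symm hdc), fv_self hi.isB hc, mul_one, zero_sub]
    have e4 : fv Λ (pv T c g) d h =
        fv Λ T d h - fv Λ T d g * Ring.inverse (fv Λ T c g) * fv Λ T c h :=
      piv_old_apply hi.isB hc hg hu' hd hdc h
    have hx' : IsUnit (fv Λ (pv T c g) g c) := by
      rw [e1]
      exact IsUnit.ringInverse hu'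
    refine blk_of (hent g hgT' h).1 (hent d hd' c).1 hx' ?_
    have e5 : fv Λ (pv T c g) d h - fv Λ (pv T c g) d c * Ring.inverse (fv Λ (pv T c g) g c) *
        fv Λ (pv T c g) g h = fv Λ T d h := by
      obtain ⟨u, hu2⟩ := hu'
      rw [e1, e2, e3, e4, ← hu2, Ring.inverse_unit, Ring.inverse_unit, inv_inv]
      simp only [neg_mul, sub_neg_eq_add, mul_assoc, Units.mul_inv_cancel_left]
      rw [sub_add_cancel]
    rw [e5]
    exact (hi.ent d hd h).1
  -- there is only one column besides `g` and one row besides `c`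
  have hcol : ∀ g1, g1 ∉ T → g1 ≠ g → ∀ h1, h1 ∉ T → h1 ≠ g → g1 ≠ h1 → g1 ∉ G ∨ h1 ∉ G := by
    intro g1 h1T h1g h1 h2T h2g hne
    by_contra hcon
    push Not at hcon
    have hsub : insert g1 (insert h1 (insert g T)) ⊆ G := by
      intro z hz
      simp only [Finset.mem_insert] at hz
      rcases hz with rfl | rfl | rfl | hz
      · exact hcon.1
      · exact hcon.2
      · exact hgG
      · exact hTG hz
    have hcard := Finset.card_le_card hsub
    rw [Finset.card_insert_of_notMem, Finset.card_insert_of_notMem, Finset.card_insert_of_notMem hg,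
      h2, h4] at hcard
    · omega
    · simp only [Finset.mem_insert]
      push Not
      exact ⟨h2g, h2T⟩
    · simp only [Finset.mem_insert]
      push Not
      exact ⟨hne, h1g, h1T⟩
  have hrow : ∀ c1 ∈ T, c1 ≠ c → ∀ d1 ∈ T, d1 ≠ c → c1 = d1 := by
    intro c1 h1 h1c d1 h2' h2c
    by_contra hne
    have hsub : insert c1 (insert d1 {c}) ⊆ T := by
      intro z hz
      simp only [Finset.mem_insert, Finset.mem_singleton] at hz
      rcases hz with rfl | rfl | rfl
      · exact h1
      · exact h2'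
      · exact hc
    have hcard := Finset.card_le_card hsub
    rw [Finset.card_insert_of_notMem, Finset.card_insert_of_notMem, Finset.card_singleton,
      h2] at hcard
    · omega
    · simpa using h2c
    · simp only [Finset.mem_insert, Finset.mem_singleton]
      push Not
      exact ⟨hne, h1c⟩
  -- the rows `g`, `d`
  have key2 : ∀ d ∈ T, d ≠ c → ∀ g1, g1 ∉ pv T c g → ∀ h1, h1 ∉ pv T c g → g1 ≠ h1 →
      Blk (fv Λ (pv T c g) g g1) (fv Λ (pv T c g) g h1) (fv Λ (pv T c g) d g1)
        (fv Λ (pv T c g) d h1) := by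
    intro d hd hdc g1 hg1 h1 hh1 hne
    have hd' : d ∈ pv T c g := mem_pv.2 (Or.inr ⟨hdc, hd⟩)
    rw [mem_pv] at hg1 hh1
    push Not at hg1 hh1
    by_cases hg1c : g1 = c
    · subst hg1c
      exact key d hd hdc h1 (hh1.2 (Ne.symm hne)) hh1.1
    · by_cases hh1c : h1 = c
      · subst hh1c
        exact blk_col (key d hd hdc g1 (hg1.2 hg1c) hg1.1)
      · exact blk_out hG hB' hgT' hd' (hcol g1 (hg1.2 hg1c) hg1.1 h1 (hh1.2 hh1c) hh1.1 hne)
  intro c1 hc1 d1 hd1 hcd g1 hg1 h1 hh1 hne
  rcases mem_pv.1 hc1 with rfl | ⟨hc1c, hc1T⟩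
  · rcases mem_pv.1 hd1 with rfl | ⟨hd1c, hd1T⟩
    · exact absurd rfl hcd
    · exact key2 d1 hd1T hd1c g1 hg1 h1 hh1 hne
  · rcases mem_pv.1 hd1 with rfl | ⟨hd1c, hd1T⟩
    · exact blk_row (key2 c1 hc1T hc1c g1 hg1 h1 hh1 hne)
    · exact absurd (hrow c1 hc1T hc1c d1 hd1T hd1c) hcd

/-- a lift of an entry -/
private def lft (r : Rq) : Hz := if h : IsUnit r then (unit_lift h).choose else 0

private theorem lft_uz (r : Rq) : UZ (lft r) := by
  unfold lft
  by_cases h : IsUnit r
  · rw [dif_pos h]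
    exact Or.inr (unit_lift h).choose_spec.1
  · rw [dif_neg h]
    exact Or.inl rfl

private theorem lft_red {r : Rq} (hr : UZ r) : red (lft r) = r := by
  unfold lft
  by_cases h : IsUnit r
  · rw [dif_pos h]
    exact (unit_lift h).choose_spec.2
  · rw [dif_neg h, map_zero]
    exact (hr.resolve_right h).symm

private theorem lft_zero : lft 0 = 0 := by
  unfold lft
  rw [dif_neg not_isUnit_zero]

theorem rk2 (hG : Sup Γ G) (hU : ∀ S, IsB Γ S → ∀ b ∈ S, ∀ e, UZ (fv Γ S b e)) (hS : IsB Γ S) (h : S.card = 2)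
    (h4 : G.card = 4) : ∃ Λ : Submodule Hz (E → Hz), Sup Λ G ∧ Right Λ Γ := by
  have hSG : S ⊆ G := sub_of_sup hS hG
  obtain ⟨a, b, hab, hSe⟩ := Finset.card_eq_two.1 h
  have h2 : (G \ S).card = 2 := by
    rw [Finset.card_sdiff_of_subset hSG, h, h4]
  obtain ⟨e, f, hef, hGe⟩ := Finset.card_eq_two.1 h2
  have haS : a ∈ S := by rw [hSe]; simp
  have hbS : b ∈ S := by rw [hSe]; simp
  have heS : e ∉ S := by
    have h5 : e ∈ G \ S := by rw [hGe]; simp
    exact (Finset.mem_sdiff.1 h5).2
  have hfS : f ∉ S := by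
    have h5 : f ∈ G \ S := by rw [hGe]; simp
    exact (Finset.mem_sdiff.1 h5).2
  have haf : a ≠ f := fun h5 => hfS (h5 ▸ haS)
  have hbf : b ≠ f := fun h5 => hfS (h5 ▸ hbS)
  have hbe : b ≠ e := fun h5 => heS (h5 ▸ hbS)
  have hae : a ≠ e := fun h5 => heS (h5 ▸ haS)
  -- the last entry
  obtain ⟨t, ht, htr, htb⟩ : ∃ t : Hz, UZ t ∧ red t = fv Γ S b f ∧
      (IsUnit (lft (fv Γ S a e)) → IsUnit (lft (fv Γ S a f)) → IsUnit (lft (fv Γ S b e)) →
        IsUnit t → UZ (t - lft (fv Γ S b e) * Ring.inverse (lft (fv Γ S a e)) *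
          lft (fv Γ S a f))) := by
    by_cases hall : IsUnit (lft (fv Γ S a e)) ∧ IsUnit (lft (fv Γ S a f)) ∧
        IsUnit (lft (fv Γ S b e)) ∧ IsUnit (lft (fv Γ S b f))
    · obtain ⟨hx, hy, hz, ht0⟩ := hall
      have rx := lft_red (hU S hS a haS e)
      have ry := lft_red (hU S hS a haS f)
      have rz := lft_red (hU S hS b hbS e)
      have rt := lft_red (hU S hS b hbS f)
      have hxu : IsUnit (fv Γ S a e) := by rw [← rx]; exact red_unit hx
      have hpe := hU _ (piv hS haS heS hxu) b (mem_pv.2 (Or.inr ⟨Ne.symm hab, hbS⟩)) f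
      rw [piv_old_apply hS haS heS hxu hbS (Ne.symm hab) f] at hpe
      unfold sc at hpe
      rw [← rx, ← ry, ← rz, ← rt, ← red_inv hx, ← map_mul, ← map_mul, ← map_sub] at hpe
      generalize lft (fv Γ S a e) = x at *
      generalize lft (fv Γ S a f) = y at *
      generalize lft (fv Γ S b e) = z at *
      generalize lft (fv Γ S b f) = t0 at *
      have hfac : t0 * (1 - Ring.inverse t0 * (z * Ring.inverse x * y)) =
          t0 - z * Ring.inverse x * y := by
        rw [mul_sub, mul_one, ← mul_assoc, Ring.mul_inverse_cancel _ ht0, one_mul]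
      have hfac2 : (-t0) * (1 + Ring.inverse t0 * (z * Ring.inverse x * y)) =
          -t0 - z * Ring.inverse x * y := by
        rw [mul_add, mul_one, neg_mul, ← mul_assoc, Ring.mul_inverse_cancel _ ht0, one_mul,
          sub_eq_add_neg]
      have hqu : IsUnit (Ring.inverse t0 * (z * Ring.inverse x * y)) :=
        (IsUnit.ringInverse ht0).mul ((hz.mul (IsUnit.ringInverse hx)).mul hy)
      have hred : UZ (red (1 - Ring.inverse t0 * (z * Ring.inverse x * y))) := by
        have h6 : (1 - Ring.inverse t0 * (z * Ring.inverse x * y)) =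
            Ring.inverse t0 * (t0 - z * Ring.inverse x * y) := by
          rw [← hfac, Ring.inverse_mul_cancel_left _ _ ht0]
        rw [h6, map_mul]
        exact uz_mul (Or.inr (red_unit (IsUnit.ringInverse ht0))) hpe
      rcases sign_choice hqu hred with h7 | h7
      · refine ⟨t0, Or.inr ht0, rt, fun _ _ _ _ => ?_⟩
        rw [← hfac]
        exact uz_mul (Or.inr ht0) h7
      · refine ⟨-t0, Or.inr ht0.neg, by rw [red_neg', rt], fun _ _ _ _ => ?_⟩
        rw [← hfac2]
        exact uz_mul (Or.inr ht0.neg) h7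
    · refine ⟨lft (fv Γ S b f), lft_uz _, lft_red (hU S hS b hbS f), fun h1 h2 h3 h4 => ?_⟩
      exact absurd ⟨h1, h2, h3, h4⟩ hall
  obtain ⟨A, hA⟩ : ∃ A : E → Hz, A = fun j => if j = a then 1 else lft (fv Γ S a j) := ⟨_, rfl⟩
  obtain ⟨B, hB⟩ : ∃ B : E → Hz, B = fun j => if j = b then 1 else if j = f then t else
    lft (fv Γ S b j) := ⟨_, rfl⟩
  have hAa : A a = 1 := by rw [hA]; simp
  have hAb : A b = 0 := by
    rw [hA]
    simp only [if_neg (Ne.symm hab)]
    rw [fv_oth hS haS hbS (Ne.symm hab), lft_zero]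
  have hBb : B b = 1 := by rw [hB]; simp
  have hBa : B a = 0 := by
    rw [hB]
    simp only [if_neg hab, if_neg haf]
    rw [fv_oth hS hbS haS hab, lft_zero]
  have hmem : ∀ v : E → Hz, v ∈ Submodule.span Hz {A, B} ↔ ∃ s t : Hz, s • A + t • B = v := fun v =>
    Submodule.mem_span_pair
  have hAm : A ∈ Submodule.span Hz {A, B} := Submodule.subset_span (by simp)
  have hBm : B ∈ Submodule.span Hz {A, B} := Submodule.subset_span (by simp)
  have hBS : IsB (Submodule.span Hz {A, B}) S := by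
    refine ⟨fun v hv h0 => ?_, fun c hc => ?_⟩
    · obtain ⟨s, r, rfl⟩ := (hmem v).1 hv
      have h5 := h0 a haS
      have h6 := h0 b hbS
      simp only [Pi.add_apply, Pi.smul_apply, smul_eq_mul, hAa, hBa, hAb, hBb, mul_one, mul_zero,
        add_zero, zero_add] at h5 h6
      rw [h5, h6, zero_smul, zero_smul, add_zero]
    · have hc' := hc
      rw [hSe] at hc'
      simp only [Finset.mem_insert, Finset.mem_singleton] at hc'
      rcases hc' with rfl | rfl
      · refine ⟨A, hAm, hAa, fun s hs hsc => ?_⟩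
        rw [hSe] at hs
        simp only [Finset.mem_insert, Finset.mem_singleton] at hs
        rcases hs with rfl | rfl
        · exact absurd rfl hsc
        · exact hAb
      · refine ⟨B, hBm, hBb, fun s hs hsc => ?_⟩
        rw [hSe] at hs
        simp only [Finset.mem_insert, Finset.mem_singleton] at hs
        rcases hs with rfl | rfl
        · exact hBa
        · exact absurd rfl hsc
  have hfa : fv (Submodule.span Hz {A, B}) S a = A := by
    refine fv_uniq hBS haS hAm hAa fun s hs hsc => ?_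
    rw [hSe] at hs
    simp only [Finset.mem_insert, Finset.mem_singleton] at hs
    rcases hs with rfl | rfl
    · exact absurd rfl hsc
    · exact hAb
  have hfb : fv (Submodule.span Hz {A, B}) S b = B := by
    refine fv_uniq hBS hbS hBm hBb fun s hs hsc => ?_
    rw [hSe] at hs
    simp only [Finset.mem_insert, Finset.mem_singleton] at hs
    rcases hs with rfl | rfl
    · exact hBa
    · exact absurd rfl hsc
  have hSup : Sup (Submodule.span Hz {A, B}) G := by
    intro v hv j hj
    obtain ⟨s, r, rfl⟩ := (hmem v).1 hv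
    have hja : j ≠ a := fun h5 => hj (h5 ▸ hSG haS)
    have hjb : j ≠ b := fun h5 => hj (h5 ▸ hSG hbS)
    have hjf : j ≠ f := by
      rintro rfl
      have h5 : j ∈ G \ S := by rw [hGe]; simp
      exact hj (Finset.mem_sdiff.1 h5).1
    have h5 : A j = 0 := by
      rw [hA]
      simp only [if_neg hja]
      rw [fv_out hG hS haS hj, lft_zero]
    have h6 : B j = 0 := by
      rw [hB]
      simp only [if_neg hjb, if_neg hjf]
      rw [fv_out hG hS hbS hj, lft_zero]
    simp only [Pi.add_apply, Pi.smul_apply, smul_eq_mul, h5, h6, mul_zero, add_zero]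
  have hentA : ∀ j, UZ (A j) ∧ red (A j) = fv Γ S a j := by
    intro j
    by_cases hja : j = a
    · rw [hja, hAa, map_one, fv_self hS haS]
      exact ⟨Or.inr isUnit_one, rfl⟩
    · have h5 : A j = lft (fv Γ S a j) := by
        rw [hA]
        simp only [if_neg hja]
      rw [h5]
      exact ⟨lft_uz _, lft_red (hU S hS a haS j)⟩
  have hBf : B f = t := by
    rw [hB]
    simp only [if_neg (Ne.symm hbf), if_true]
  have hentB : ∀ j, UZ (B j) ∧ red (B j) = fv Γ S b j := by
    intro j
    by_cases hjb : j = b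
    · rw [hjb, hBb, map_one, fv_self hS hbS]
      exact ⟨Or.inr isUnit_one, rfl⟩
    · by_cases hjf : j = f
      · rw [hjf, hBf]
        exact ⟨ht, htr⟩
      · have h5 : B j = lft (fv Γ S b j) := by
          rw [hB]
          simp only [if_neg hjb, if_neg hjf]
        rw [h5]
        exact ⟨lft_uz _, lft_red (hU S hS b hbS j)⟩
  have hAe : A e = lft (fv Γ S a e) := by
    rw [hA]
    simp only [if_neg (Ne.symm hae)]
  have hAf : A f = lft (fv Γ S a f) := by
    rw [hA]
    simp only [if_neg (Ne.symm haf)]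
  have hBe : B e = lft (fv Γ S b e) := by
    rw [hB]
    simp only [if_neg (Ne.symm hbe), if_neg hef]
  have hblk : Blk (A e) (A f) (B e) (B f) := by
    refine blk_base (hentA e).1 (hentA f).1 (hentB e).1 (hentB f).1 fun h1 h2 h3 h4 => ?_
    rw [hAe, hAf, hBe, hBf] at *
    exact htb h1 h2 h3 h4
  have hblk2 : ∀ g, g ∉ S → ∀ k, k ∉ S → g ≠ k → Blk (A g) (A k) (B g) (B k) := by
    intro g hg k hk hgk
    by_cases ho : g ∉ G ∨ k ∉ G
    · have h5 := blk_out hSup hBS haS hbS ho
      rw [hfa, hfb] at h5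
      exact h5
    · push Not at ho
      have h5 : g ∈ G \ S := Finset.mem_sdiff.2 ⟨ho.1, hg⟩
      have h6 : k ∈ G \ S := Finset.mem_sdiff.2 ⟨ho.2, hk⟩
      rw [hGe] at h5 h6
      simp only [Finset.mem_insert, Finset.mem_singleton] at h5 h6
      rcases h5 with rfl | rfl <;> rcases h6 with rfl | rfl
      · exact absurd rfl hgk
      · exact hblk
      · exact blk_col hblk
      · exact absurd rfl hgk
  have hinv : Inv (Submodule.span Hz {A, B}) Γ S := by
    refine ⟨hBS, fun c hc j => ?_, fun c hc d hd hcd g hg k hk hgk => ?_⟩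
    · rw [hSe] at hc
      simp only [Finset.mem_insert, Finset.mem_singleton] at hc
      rcases hc with rfl | rfl
      · rw [hfa]
        exact hentA j
      · rw [hfb]
        exact hentB j
    · rw [hSe] at hc hd
      simp only [Finset.mem_insert, Finset.mem_singleton] at hc hd
      rcases hc with rfl | rfl <;> rcases hd with rfl | rfl
      · exact absurd rfl hcd
      · rw [hfa, hfb]
        exact hblk2 g hg k hk hgk
      · rw [hfa, hfb]
        exact blk_row (hblk2 g hg k hk hgk)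
      · exact absurd rfl hcd
  refine ⟨Submodule.span Hz {A, B}, hSup, fun T hT => ?_⟩
  have hP : Inv (Submodule.span Hz {A, B}) Γ T ∧ T.card = 2 := by
    refine piv_ind hU (fun T => Inv (Submodule.span Hz {A, B}) Γ T ∧ T.card = 2) hS ⟨hinv, h⟩ ?_ hT
    intro S' hS' _ hi c hc g _ hg hu
    exact ⟨inv_step hSup hG hS' hi.1 hi.2 h4 hc hg hu, by rw [pv_card hc hg]; exact hi.2⟩
  exact ⟨hP.1.isB, hP.1.ent⟩

end Pool.Agent.QUS
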