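import Pool.Agent.QUS.Off

/-!
# QUS/Rt: from the blocks to a right lift

One of `e, f` in the basis, say `e ∈ S`, `f ∉ S`: `IsB Λ S` and the entries `≠ f` from `del Λ f`; the column `f`: `exch'` (with `B`) gives `a ∈ B \ S` with `fv Γ S e a ≠ 0`, `S₀ = pv S e a` avoids `e, f`, `S = pv S₀ a e`, so the entries are
`sc Λ S₀ a b e f` (`hb`) resp. `(fv Λ S₀ a e)⁻¹ * fv Λ S₀ a f`.  (`f ∈ S`, `e ∉ S`: the same with `sc .. f e`, use `sc_row` to get it from `hb`.)
Both in `S`: `S₁ = pv S e a` (`a ∈ B \ S`) contains only `f`, `S = pv S₁ a e`; the entry `(b, j)` is `sc Λ S₁ a b e j`; if all four entries of the block are units, pivot at `(b, j)`: `S₁' = pv S₁ b j` contains at most `f` of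
`e, f` (`j ≠ e`), so `sc Λ S₁ b a j e` is in `UZ`, and `sc_diag`.  Reductions: `red` is a ring homomorphism, `red_inv`.
-/

set_option autoImplicit false

noncomputable section

open scoped Classical

namespace Pool.Agent.QUS

variable {E : Type} {Λ : Submodule Hz (E → Hz)} {Γ : Submodule Rq (E → Rq)} {S G B : Finset E} {a b e f : E}

/-- right at the basis `S` -/
private def Rt_Good (Λ : Submodule Hz (E → Hz)) (Γ : Submodule Rq (E → Rq)) (S : Finset E) : Prop :=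
  IsB Λ S ∧ ∀ b ∈ S, ∀ g, UZ (fv Λ S b g) ∧ red (fv Λ S b g) = fv Γ S b g

private theorem Rt_ne_of_unit {x : Hz} (h : IsUnit x) : x ≠ 0 := by
  rintro rfl
  exact not_isUnit_zero h

private theorem Rt_ne_of_unit' {x : Rq} (h : IsUnit x) : x ≠ 0 := by
  rintro rfl
  exact not_isUnit_zero h

private theorem Rt_unit (hG : Rt_Good Λ Γ S) (ha : a ∈ S) (hu : IsUnit (fv Γ S a e)) : IsUnit (fv Λ S a e) := by
  have h := hG.2 a ha e
  refine unit_of_red h.1 ?_
  rw [h.2]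
  exact Rt_ne_of_unit' hu

private theorem Rt_piv (hS : IsB Γ S) (hG : Rt_Good Λ Γ S) (ha : a ∈ S) (he : e ∉ S) (hu : IsUnit (fv Γ S a e))
    (hsc : ∀ b ∈ S, b ≠ a → ∀ g, UZ (sc Λ S a b e g)) : Rt_Good Λ Γ (pv S a e) := by
  have hua : IsUnit (fv Λ S a e) := Rt_unit hG ha hu
  have hΛ : IsB Λ S := hG.1
  refine ⟨piv hΛ ha he hua, fun b hb g => ?_⟩
  rcases mem_pv.1 hb with h | h
  · subst h
    rw [piv_new hΛ ha he hua, piv_new hS ha he hu]
    simp only [Pi.smul_apply, smul_eq_mul]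
    refine ⟨uz_mul (uz_inv (Or.inr hua)) (hG.2 a ha g).1, ?_⟩
    rw [map_mul, red_inv hua, (hG.2 a ha b).2, (hG.2 a ha g).2]
  · rw [piv_old_apply hΛ ha he hua h.2 h.1 g, piv_old_apply hS ha he hu h.2 h.1 g]
    refine ⟨hsc b h.2 h.1 g, ?_⟩
    unfold sc
    rw [map_sub, map_mul, map_mul, red_inv hua, (hG.2 b h.2 g).2, (hG.2 b h.2 e).2, (hG.2 a ha e).2, (hG.2 a ha g).2]

/-- data of a pivot from `S ∋ e` to a basis avoiding `e` -/
private theorem Rt_back (hD : Dat Γ G) (hB : IsB Γ B) (heB : e ∉ B) (hS : IsB Γ S) (heS : e ∈ S) :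
    ∃ a ∈ B, a ∉ S ∧ IsB Γ (pv S e a) ∧ a ∈ pv S e a ∧ e ∉ pv S e a ∧ pv (pv S e a) a e = S ∧
      IsUnit (fv Γ (pv S e a) a e) := by
  obtain ⟨a, haB, haS, hne⟩ := exch' hS hB heS heB
  have hu : IsUnit (fv Γ S e a) := by
    rcases hD.uz S hS e heS a with h | h
    · exact absurd h hne
    · exact h
  have h1 : IsB Γ (pv S e a) := piv hS heS haS hu
  have h2 : a ∈ pv S e a := mem_pv.2 (Or.inl rfl)
  have h3 : e ∉ pv S e a := by
    intro h
    rcases mem_pv.1 h with h' | h'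
    · exact heB (h' ▸ haB)
    · exact h'.1 rfl
  have h4 : pv (pv S e a) a e = S := pv_pv heS haS
  refine ⟨a, haB, haS, h1, h2, h3, h4, ?_⟩
  apply unit_of_piv h1 h2 h3
  rw [h4]
  exact hS

/-- exactly one of the two elements in the basis -/
private theorem Rt_one (hD : Dat Γ G) (hef : e ≠ f) (hB : IsB Γ B) (heB : e ∉ B) (hfB : f ∉ B)
    (hf : Right (del Λ f) (del Γ f)) (hO : RightOff Λ Γ e f)
    (hb : ∀ S, IsB Γ S → e ∉ S → f ∉ S → ∀ a ∈ S, ∀ b ∈ S, a ≠ b → fv Λ S a e ≠ 0 → UZ (sc Λ S a b e f))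
    (hS : IsB Γ S) (heS : e ∈ S) (hfS : f ∉ S) : Rt_Good Λ Γ S := by
  obtain ⟨a, haB, haS, h1, h2, h3, h4, h5⟩ := Rt_back hD hB heB hS heS
  have hfS0 : f ∉ pv S e a := by
    intro h
    rcases mem_pv.1 h with h' | h'
    · exact hfB (h' ▸ haB)
    · exact hfS h'.2
  have hG0 : Rt_Good Λ Γ (pv S e a) := hO _ h1 h3 hfS0
  have hua : IsUnit (fv Λ (pv S e a) a e) := Rt_unit hG0 h2 h5
  have hΛS : IsB Λ S := by
    have := piv hG0.1 h2 h3 hua
    rwa [h4] at this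
  have key : Rt_Good Λ Γ (pv (pv S e a) a e) := by
    refine Rt_piv h1 hG0 h2 h3 h5 (fun b hbm hba g => ?_)
    by_cases hgf : g = f
    · subst hgf
      exact hb _ h1 h3 hfS0 a h2 b hbm (fun h => hba h.symm) (Rt_ne_of_unit hua)
    · have hbS : b ∈ S := by
        rcases mem_pv.1 hbm with h' | h'
        · exact absurd h' hba
        · exact h'.2
      have h6 := (hf S (isB_del_of hS hfS)).2 b hbS g
      rw [fv_del_of_ne hΛS hfS hbS hgf] at h6
      have h7 := piv_old_apply hG0.1 h2 h3 hua hbm hba g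
      rw [h4] at h7
      rw [← h7]
      exact h6.1
  rwa [h4] at key

private theorem Rt_swap (hO : RightOff Λ Γ e f)
    (hb : ∀ S, IsB Γ S → e ∉ S → f ∉ S → ∀ a ∈ S, ∀ b ∈ S, a ≠ b → fv Λ S a e ≠ 0 → UZ (sc Λ S a b e f)) :
    ∀ S, IsB Γ S → f ∉ S → e ∉ S → ∀ a ∈ S, ∀ b ∈ S, a ≠ b → fv Λ S a f ≠ 0 → UZ (sc Λ S a b f e) := by
  intro S hS hfS heS a ha b hbS hab hne
  by_cases h0 : fv Λ S a e = 0
  · unfold sc
    rw [h0, mul_zero, sub_zero]
    exact ((hO S hS heS hfS).2 b hbS e).1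
  · have h1 := hb S hS heS hfS a ha b hbS hab h0
    exact sc_row (off_unit hO hS heS hfS ha h0) (off_unit hO hS heS hfS ha hne) h1

theorem right_of_blocks (hD : Dat Γ G) (hef : e ≠ f) (hB : IsB Γ B) (hB' : IsB Λ B) (heB : e ∉ B) (hfB : f ∉ B)
    (he : Right (del Λ e) (del Γ e)) (hf : Right (del Λ f) (del Γ f)) (hO : RightOff Λ Γ e f)
    (hb : ∀ S, IsB Γ S → e ∉ S → f ∉ S → ∀ a ∈ S, ∀ b ∈ S, a ≠ b → fv Λ S a e ≠ 0 → UZ (sc Λ S a b e f)) :
    Right Λ Γ := by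
  have hne1 : ∀ S, IsB Γ S → e ∉ S → Rt_Good Λ Γ S := by
    intro S hS heS
    by_cases hfS : f ∈ S
    · exact Rt_one hD (Ne.symm hef) hB hfB heB he (off_symm hO) (Rt_swap hO hb) hS hfS heS
    · exact hO S hS heS hfS
  intro S hS
  change Rt_Good Λ Γ S
  by_cases heS : e ∈ S
  swap
  · exact hne1 S hS heS
  by_cases hfS : f ∈ S
  swap
  · exact Rt_one hD hef hB heB hfB hf hO hb hS heS hfS
  obtain ⟨a, haB, haS, h1, h2, h3, h4, h5⟩ := Rt_back hD hB heB hS heS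
  have hG1 : Rt_Good Λ Γ (pv S e a) := hne1 _ h1 h3
  have hua : IsUnit (fv Λ (pv S e a) a e) := Rt_unit hG1 h2 h5
  have key : Rt_Good Λ Γ (pv (pv S e a) a e) := by
    refine Rt_piv h1 hG1 h2 h3 h5 (fun b hbm hba j => ?_)
    have hx := hua
    have hy := (hG1.2 a h2 j).1
    have hz := (hG1.2 b hbm e).1
    have ht := (hG1.2 b hbm j).1
    by_cases hjS : j ∈ pv S e a
    · -- the column is in the basis
      unfold sc
      by_cases hjb : j = b
      · subst hjb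
        rw [fv_self hG1.1 hbm, fv_oth hG1.1 h2 hbm hba, mul_zero, sub_zero]
        exact Or.inr isUnit_one
      · rw [fv_oth hG1.1 hbm hjS hjb, zero_sub]
        exact uz_neg (uz_mul (uz_mul hz (uz_inv (Or.inr hx))) hy)
    by_cases hje : j = e
    · subst hje
      unfold sc
      rw [mul_assoc, Ring.inverse_mul_cancel _ hx, mul_one, sub_self]
      exact Or.inl rfl
    rcases ht with ht | ht
    · unfold sc
      rw [ht, zero_sub]
      exact uz_neg (uz_mul (uz_mul hz (uz_inv (Or.inr hx))) hy)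
    have htΓ : IsUnit (fv Γ (pv S e a) b j) := by
      rw [← (hG1.2 b hbm j).2]
      exact red_unit ht
    have hS' : IsB Γ (pv (pv S e a) b j) := piv h1 hbm hjS htΓ
    have heS' : e ∉ pv (pv S e a) b j := by
      intro h
      rcases mem_pv.1 h with h' | h'
      · exact hje h'.symm
      · exact h3 h'.2
    have hG' := hne1 _ hS' heS'
    have haS' : a ∈ pv (pv S e a) b j := mem_pv.2 (Or.inr ⟨fun h => hba h.symm, h2⟩)
    have h6 := (hG'.2 a haS' e).1
    rw [piv_old_apply hG1.1 hbm hjS ht h2 (fun h => hba h.symm) e] at h6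
    exact sc_diag ht hx hz hy h6
  rwa [h4] at key

end Pool.Agent.QUS
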