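import Pool.Agent.QUS.Cn
import Pool.Agent.QUS.Dl

/-!
# QUS/Sm: direct sums

`Γ = Γ₁ ⊕ Γ₂`, `Γ₁ = Γ.map (cut A) ⊆ Γ`, `Γ₂ = Γ.map (cut Aᶜ)`.  `IsB Γ S ↔ IsB Γ₁ (S ∩ A) ∧ IsB Γ₂ (S \ A)`; a basis of `Γ₁` together with a basis of `Γ₂` is a basis of `Γ`; `fv Γ S b = fv Γ₁ (S ∩ A) b` for `b ∈ A`.
`dat_part`: all conditions (also `Ch`: `Φ.map (cut A)`; here `IsB Φ S ↔ IsB Γ S` for all `S` implies that `cut A` preserves `Φ`: for `b ∈ S ∩ A`, `e ∉ A`: `fv Φ S b e ≠ 0` iff `IsB Φ (pv S b e)` iff `fv Γ S b e ≠ 0`, which is false).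
`right_sum`: `Λ = Λ₁ ⊔ Λ₂`.
-/

set_option autoImplicit false

noncomputable section

open scoped Classical

namespace Pool.Agent.QUS

section

namespace SmAux

section

variable {H : Type} [Ring H] {E : Type} {Γ : Submodule H (E → H)} {A S S₁ : Finset E}

private theorem cut_in (A : Finset E) (v : E → H) {e : E} (he : e ∈ A) :
    cut (A : Set E) v e = v e :=
  if_pos (Finset.mem_coe.2 he)

private theorem cut_out (A : Finset E) (v : E → H) {e : E} (he : e ∉ A) :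
    cut (A : Set E) v e = 0 :=
  if_neg (fun h => he (Finset.mem_coe.1 h))

private theorem map_mem (h : ∀ v ∈ Γ, cut (A : Set E) v ∈ Γ) {w : E → H}
    (hw : w ∈ Γ.map (cut (A : Set E))) : w ∈ Γ ∧ ∀ e, e ∉ A → w e = 0 := by
  obtain ⟨v, hv, rfl⟩ := Submodule.mem_map.1 hw
  exact ⟨h v hv, fun e he => cut_out A v he⟩

private theorem mem_map_of {w : E → H} (hwΓ : w ∈ Γ)
    (hw0 : ∀ e, e ∉ A → w e = 0) : w ∈ Γ.map (cut (A : Set E)) := by
  refine Submodule.mem_map.2 ⟨w, hwΓ, ?_⟩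
  funext e
  by_cases he : e ∈ A
  · exact cut_in A w he
  · rw [cut_out A w he, hw0 e he]

private theorem isB (h : ∀ v ∈ Γ, cut (A : Set E) v ∈ Γ) (hS : IsB Γ S) :
    IsB (Γ.map (cut (A : Set E))) (S ∩ A) := by
  constructor
  · intro w hw h0
    obtain ⟨hwΓ, hw0⟩ := map_mem h hw
    apply hS.1 w hwΓ
    intro s hs
    by_cases hsA : s ∈ A
    · exact h0 s (Finset.mem_inter.2 ⟨hs, hsA⟩)
    · exact hw0 s hsA
  · intro b hb
    obtain ⟨hbS, hbA⟩ := Finset.mem_inter.1 hb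
    obtain ⟨x, hx, hxb, hx0⟩ := hS.2 b hbS
    refine ⟨cut (A : Set E) x, Submodule.mem_map_of_mem hx, ?_, ?_⟩
    · rw [cut_in A x hbA, hxb]
    · intro s hs hsb
      obtain ⟨hsS, hsA⟩ := Finset.mem_inter.1 hs
      rw [cut_in A x hsA, hx0 s hsS hsb]

private theorem fv_in (h : ∀ v ∈ Γ, cut (A : Set E) v ∈ Γ) (hS : IsB Γ S) {b : E} (hb : b ∈ S)
    (hbA : b ∈ A) : cut (A : Set E) (fv Γ S b) = fv Γ S b := by
  symm
  apply fv_uniq hS hb (h _ (fv_mem hS hb))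
  · rw [cut_in A _ hbA, fv_self hS hb]
  · intro s hs hsb
    by_cases hsA : s ∈ A
    · rw [cut_in A _ hsA, fv_oth hS hb hs hsb]
    · exact cut_out A _ hsA

private theorem fv_zero (h : ∀ v ∈ Γ, cut (A : Set E) v ∈ Γ) (hS : IsB Γ S) {b : E} (hb : b ∈ S)
    (hbA : b ∈ A) {e : E} (he : e ∉ A) : fv Γ S b e = 0 := by
  rw [← fv_in h hS hb hbA]
  exact cut_out A _ he

private theorem fv_out (h : ∀ v ∈ Γ, cut (A : Set E) v ∈ Γ) (hS : IsB Γ S) {b : E} (hb : b ∈ S)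
    (hbA : b ∉ A) {e : E} (he : e ∈ A) : fv Γ S b e = 0 := by
  have h1 : cut (A : Set E) (fv Γ S b) = 0 := by
    apply hS.1 _ (h _ (fv_mem hS hb))
    intro s hs
    by_cases hsA : s ∈ A
    · rw [cut_in A _ hsA, fv_oth hS hb hs (fun h2 => hbA (h2 ▸ hsA))]
    · exact cut_out A _ hsA
  rw [← cut_in A (fv Γ S b) he, h1]
  rfl

private theorem fv_map (h : ∀ v ∈ Γ, cut (A : Set E) v ∈ Γ) (hS : IsB Γ S) {b : E} (hb : b ∈ S)
    (hbA : b ∈ A) : fv (Γ.map (cut (A : Set E))) (S ∩ A) b = fv Γ S b := by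
  apply fv_uniq (isB h hS) (Finset.mem_inter.2 ⟨hb, hbA⟩)
  · rw [← fv_in h hS hb hbA]
    exact Submodule.mem_map_of_mem (fv_mem hS hb)
  · exact fv_self hS hb
  · intro s hs hsb
    exact fv_oth hS hb (Finset.mem_inter.1 hs).1 hsb

private theorem sub [Nontrivial H] (h1 : IsB (Γ.map (cut (A : Set E))) S₁) : S₁ ⊆ A := by
  apply sub_of_sup h1
  intro v hv e he
  obtain ⟨w, -, rfl⟩ := Submodule.mem_map.1 hv
  exact cut_out A w he

private theorem union [Nontrivial H] (h : ∀ v ∈ Γ, cut (A : Set E) v ∈ Γ) (hS : IsB Γ S)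
    (h1 : IsB (Γ.map (cut (A : Set E))) S₁) : IsB Γ (S₁ ∪ (S \ A)) := by
  have hsub := sub h1
  constructor
  · intro v hv h0
    have h2 : cut (A : Set E) v = 0 := by
      apply h1.1 _ (Submodule.mem_map_of_mem hv)
      intro s hs
      rw [cut_in A v (hsub hs)]
      exact h0 s (Finset.mem_union_left _ hs)
    apply hS.1 v hv
    intro s hs
    by_cases hsA : s ∈ A
    · rw [← cut_in A v hsA, h2]
      rfl
    · exact h0 s (Finset.mem_union_right _ (Finset.mem_sdiff.2 ⟨hs, hsA⟩))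
  · intro b hb
    rcases Finset.mem_union.1 hb with hb1 | hb2
    · obtain ⟨x, hx, hxb, hx0⟩ := h1.2 b hb1
      obtain ⟨hxΓ, hxA⟩ := map_mem h hx
      refine ⟨x, hxΓ, hxb, fun s hs hsb => ?_⟩
      rcases Finset.mem_union.1 hs with hs1 | hs2
      · exact hx0 s hs1 hsb
      · exact hxA s (Finset.mem_sdiff.1 hs2).2
    · obtain ⟨hbS, hbA⟩ := Finset.mem_sdiff.1 hb2
      refine ⟨fv Γ S b, fv_mem hS hbS, fv_self hS hbS, fun s hs hsb => ?_⟩
      rcases Finset.mem_union.1 hs with hs1 | hs2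
      · exact fv_out h hS hbS hbA (hsub hs1)
      · exact fv_oth hS hbS (Finset.mem_sdiff.1 hs2).1 hsb

private theorem union_inter (hsub : S₁ ⊆ A) : (S₁ ∪ (S \ A)) ∩ A = S₁ := by
  ext x
  rw [Finset.mem_inter, Finset.mem_union, Finset.mem_sdiff]
  constructor
  · rintro ⟨h1 | h1, h2⟩
    · exact h1
    · exact absurd h2 h1.2
  · intro h1
    exact ⟨Or.inl h1, hsub h1⟩

private theorem iff [Nontrivial H] (h : ∀ v ∈ Γ, cut (A : Set E) v ∈ Γ) (hS : IsB Γ S) (S₁ : Finset E) :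
    IsB (Γ.map (cut (A : Set E))) S₁ ↔ S₁ ⊆ A ∧ IsB Γ (S₁ ∪ (S \ A)) := by
  constructor
  · intro h1
    exact ⟨sub h1, union h hS h1⟩
  · rintro ⟨h1, h2⟩
    have h3 := isB h h2
    rwa [union_inter h1] at h3

/-- the fundamental vectors of the part are those of the whole -/
private theorem part [Nontrivial H] (h : ∀ v ∈ Γ, cut (A : Set E) v ∈ Γ) (hS : IsB Γ S)
    (h1 : IsB (Γ.map (cut (A : Set E))) S₁) {b : E} (hb : b ∈ S₁) :
    fv (Γ.map (cut (A : Set E))) S₁ b = fv Γ (S₁ ∪ (S \ A)) b := by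
  have hsub := sub h1
  have h2 := fv_map h (union h hS h1) (Finset.mem_union_left _ hb) (hsub hb)
  rwa [union_inter hsub] at h2

private theorem part_sc [Nontrivial H] (h : ∀ v ∈ Γ, cut (A : Set E) v ∈ Γ) (hS : IsB Γ S)
    (h1 : IsB (Γ.map (cut (A : Set E))) S₁) {a b : E} (ha : a ∈ S₁) (hb : b ∈ S₁) (e f : E) :
    sc (Γ.map (cut (A : Set E))) S₁ a b e f = sc Γ (S₁ ∪ (S \ A)) a b e f := by
  unfold sc
  rw [part h hS h1 ha, part h hS h1 hb]

private theorem part_cX [Nontrivial H] (h : ∀ v ∈ Γ, cut (A : Set E) v ∈ Γ) (hS : IsB Γ S)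
    (h1 : IsB (Γ.map (cut (A : Set E))) S₁) {a b : E} (ha : a ∈ S₁) (hb : b ∈ S₁) (e f : E) :
    cX (Γ.map (cut (A : Set E))) S₁ a b e f = cX Γ (S₁ ∪ (S \ A)) a b e f := by
  unfold cX
  rw [part h hS h1 ha, part h hS h1 hb]

private theorem part_rX [Nontrivial H] (h : ∀ v ∈ Γ, cut (A : Set E) v ∈ Γ) (hS : IsB Γ S)
    (h1 : IsB (Γ.map (cut (A : Set E))) S₁) {a b : E} (ha : a ∈ S₁) (hb : b ∈ S₁) (e f : E) :
    rX (Γ.map (cut (A : Set E))) S₁ a b e f = rX Γ (S₁ ∪ (S \ A)) a b e f := by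
  unfold rX
  rw [part h hS h1 ha, part h hS h1 hb]

/-- an entry which is a unit lies in `A`, outside the basis of the whole -/
private theorem part_nmem [Nontrivial H] (h : ∀ v ∈ Γ, cut (A : Set E) v ∈ Γ) (hS : IsB Γ S)
    (h1 : IsB (Γ.map (cut (A : Set E))) S₁) {b e : E} (hb : b ∈ S₁) (he : e ∉ S₁)
    (hu : IsUnit (fv (Γ.map (cut (A : Set E))) S₁ b e)) : e ∉ S₁ ∪ (S \ A) := by
  intro h2
  rcases Finset.mem_union.1 h2 with h3 | h3
  · exact he h3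
  · have h4 := (map_mem h (fv_mem h1 hb)).2 e (Finset.mem_sdiff.1 h3).2
    rw [h4] at hu
    exact not_isUnit_zero hu

private theorem nc [Nontrivial H] (h : ∀ v ∈ Γ, cut (A : Set E) v ∈ Γ) (hS : IsB Γ S) (hN : NC Γ) :
    NC (Γ.map (cut (A : Set E))) := by
  constructor
  · intro S₁ h1 a ha b hb hab c e f hc he hf u1 u2 u3 u4 u5 u6 u7 u8 u9
    have hc' := part_nmem h hS h1 ha hc u1
    have he' := part_nmem h hS h1 ha he u2
    have hf' := part_nmem h hS h1 ha hf u3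
    rw [part h hS h1 ha] at u1 u2 u3
    rw [part h hS h1 hb] at u4 u5 u6
    rw [part_sc h hS h1 ha hb] at u7 u8 u9
    rw [part_cX h hS h1 ha hb, part_cX h hS h1 ha hb]
    exact hN.col _ (union h hS h1) a (Finset.mem_union_left _ ha) b (Finset.mem_union_left _ hb)
      hab c e f hc' he' hf' u1 u2 u3 u4 u5 u6 u7 u8 u9
  · intro S₁ h1 a ha b hb c hc hab hac hbc e f he hf u1 u2 u3 u4 u5 u6 u7 u8 u9
    have he' := part_nmem h hS h1 ha he u1
    have hf' := part_nmem h hS h1 ha hf u4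
    rw [part h hS h1 ha] at u1 u4
    rw [part h hS h1 hb] at u2 u5
    rw [part h hS h1 hc] at u3 u6
    rw [part_sc h hS h1 ha hb] at u7
    rw [part_sc h hS h1 ha hc] at u8
    rw [part_sc h hS h1 hb hc] at u9
    rw [part_rX h hS h1 ha hb, part_rX h hS h1 ha hc]
    exact hN.row _ (union h hS h1) a (Finset.mem_union_left _ ha) b (Finset.mem_union_left _ hb)
      c (Finset.mem_union_left _ hc) hab hac hbc e f he' hf' u1 u2 u3 u4 u5 u6 u7 u8 u9

end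

private theorem cut_char {K E : Type} [Field K] {Φ : Submodule K (E → K)} {H : Type} [Ring H]
    [Nontrivial H] {Γ : Submodule H (E → H)} {A S : Finset E}
    (hΦ : ∀ S : Finset E, IsB Φ S ↔ IsB Γ S) (h : ∀ v ∈ Γ, cut (A : Set E) v ∈ Γ)
    (hS : IsB Γ S) : ∀ v ∈ Φ, cut (A : Set E) v ∈ Φ := by
  have hS' : IsB Φ S := (hΦ S).2 hS
  have key : ∀ b ∈ S, ∀ e, fv Γ S b e = 0 → fv Φ S b e = 0 := by
    intro b hb e he
    by_cases heS : e ∈ S
    · by_cases heb : e = b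
      · rw [heb, fv_self hS hb] at he
        exact absurd he one_ne_zero
      · exact fv_oth hS' hb heS heb
    · by_contra hne
      have h1 : IsB Φ (pv S b e) := piv hS' hb heS (isUnit_iff_ne_zero.2 hne)
      have h2 := unit_of_piv hS hb heS ((hΦ _).1 h1)
      rw [he] at h2
      exact not_isUnit_zero h2
  have hb : ∀ b ∈ S, cut (A : Set E) (fv Φ S b) ∈ Φ := by
    intro b hb
    by_cases hbA : b ∈ A
    · have h1 : cut (A : Set E) (fv Φ S b) = fv Φ S b := by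
        funext e
        by_cases he : e ∈ A
        · exact cut_in A _ he
        · rw [cut_out A _ he, key b hb e (fv_zero h hS hb hbA he)]
      rw [h1]
      exact fv_mem hS' hb
    · have h1 : cut (A : Set E) (fv Φ S b) = 0 := by
        funext e
        by_cases he : e ∈ A
        · rw [cut_in A _ he, key b hb e (fv_out h hS hb hbA he)]
          rfl
        · exact cut_out A _ he
      rw [h1]
      exact Φ.zero_mem
  intro v hv
  rw [expand hS' hv, map_sum]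
  refine Submodule.sum_mem _ fun b hbS => ?_
  rw [map_smul]
  exact Φ.smul_mem _ (hb b hbS)

end SmAux

variable {E : Type} {Γ : Submodule Rq (E → Rq)} {A G : Finset E}

theorem dat_part (hD : Dat Γ G) (hA : A ⊆ G) (h : ∀ v ∈ Γ, cut (A : Set E) v ∈ Γ) : Dat (Γ.map (cut (A : Set E))) A := by
  obtain ⟨S, hS⟩ := hD.ex
  refine ⟨?_, ⟨S ∩ A, SmAux.isB h hS⟩, ?_, SmAux.nc h hS hD.nc, ?_⟩
  · intro v hv e he
    exact (SmAux.map_mem h hv).2 e he
  · intro S₁ h1 b hb e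
    rw [SmAux.part h hS h1 hb]
    exact hD.uz _ (SmAux.union h hS h1) b (Finset.mem_union_left _ hb) e
  · obtain ⟨K, hK, hK0, Φ, hΦ⟩ := hD.ch
    have hcut := SmAux.cut_char hΦ h hS
    refine ⟨K, hK, hK0, Φ.map (cut (A : Set E)), fun S₁ => ?_⟩
    rw [SmAux.iff hcut ((hΦ S).2 hS) S₁, SmAux.iff h hS S₁, hΦ]

theorem compl_part (hG : Sup Γ G) (h : ∀ v ∈ Γ, cut (A : Set E) v ∈ Γ) : ∀ v ∈ Γ, cut ((G \ A : Finset E) : Set E) v ∈ Γ := by
  intro v hv
  have h1 : cut ((G \ A : Finset E) : Set E) v = v - cut (A : Set E) v := by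
    funext e
    rw [Pi.sub_apply]
    by_cases heA : e ∈ A
    · rw [SmAux.cut_in A v heA, SmAux.cut_out (G \ A) v (fun h2 => (Finset.mem_sdiff.1 h2).2 heA),
        sub_self]
    · rw [SmAux.cut_out A v heA, sub_zero]
      by_cases heG : e ∈ G
      · exact SmAux.cut_in (G \ A) v (Finset.mem_sdiff.2 ⟨heG, heA⟩)
      · rw [SmAux.cut_out (G \ A) v (fun h2 => heG (Finset.mem_sdiff.1 h2).1), hG v hv e heG]
  rw [h1]
  exact Γ.sub_mem hv (h v hv)

theorem right_sum {Λ₁ Λ₂ : Submodule Hz (E → Hz)} (hG : Sup Γ G) (hA : A ⊆ G) (h : ∀ v ∈ Γ, cut (A : Set E) v ∈ Γ)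
    (hex : ∃ S, IsB Γ S) (s1 : Sup Λ₁ A) (s2 : Sup Λ₂ (G \ A))
    (h1 : Right Λ₁ (Γ.map (cut (A : Set E)))) (h2 : Right Λ₂ (Γ.map (cut ((G \ A : Finset E) : Set E)))) :
    Sup (Λ₁ ⊔ Λ₂) G ∧ Right (Λ₁ ⊔ Λ₂) Γ := by
  have h' := compl_part hG h
  constructor
  · intro v hv e he
    obtain ⟨v₁, hv₁, v₂, hv₂, rfl⟩ := Submodule.mem_sup.1 hv
    rw [Pi.add_apply, s1 v₁ hv₁ e (fun h3 => he (hA h3)),
      s2 v₂ hv₂ e (fun h3 => he (Finset.mem_sdiff.1 h3).1), add_zero]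
  · intro S hS
    have hSG : S ⊆ G := sub_of_sup hS hG
    have b1 := h1 (S ∩ A) (SmAux.isB h hS)
    have b2 := h2 (S ∩ (G \ A)) (SmAux.isB h' hS)
    have c1 : ∀ v ∈ Λ₁, ∀ e, e ∈ G \ A → v e = 0 := fun v hv e he =>
      s1 v hv e (Finset.mem_sdiff.1 he).2
    have c2 : ∀ v ∈ Λ₂, ∀ e, e ∈ A → v e = 0 := fun v hv e he =>
      s2 v hv e (fun h3 => (Finset.mem_sdiff.1 h3).2 he)
    have hcase : ∀ s ∈ S, s ∈ S ∩ A ∨ s ∈ S ∩ (G \ A) := by
      intro s hs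
      by_cases hsA : s ∈ A
      · exact Or.inl (Finset.mem_inter.2 ⟨hs, hsA⟩)
      · exact Or.inr (Finset.mem_inter.2 ⟨hs, Finset.mem_sdiff.2 ⟨hSG hs, hsA⟩⟩)
    have f1 : ∀ b ∈ S ∩ A, fv Λ₁ (S ∩ A) b ∈ Λ₁ ⊔ Λ₂ ∧ fv Λ₁ (S ∩ A) b b = 1 ∧
        ∀ s ∈ S, s ≠ b → fv Λ₁ (S ∩ A) b s = 0 := by
      intro b hb
      refine ⟨Submodule.mem_sup_left (fv_mem b1.1 hb), fv_self b1.1 hb, fun s hs hsb => ?_⟩
      rcases hcase s hs with h3 | h3
      · exact fv_oth b1.1 hb h3 hsb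
      · exact c1 _ (fv_mem b1.1 hb) s (Finset.mem_inter.1 h3).2
    have f2 : ∀ b ∈ S ∩ (G \ A), fv Λ₂ (S ∩ (G \ A)) b ∈ Λ₁ ⊔ Λ₂ ∧
        fv Λ₂ (S ∩ (G \ A)) b b = 1 ∧ ∀ s ∈ S, s ≠ b → fv Λ₂ (S ∩ (G \ A)) b s = 0 := by
      intro b hb
      refine ⟨Submodule.mem_sup_right (fv_mem b2.1 hb), fv_self b2.1 hb, fun s hs hsb => ?_⟩
      rcases hcase s hs with h3 | h3
      · exact c2 _ (fv_mem b2.1 hb) s (Finset.mem_inter.1 h3).2
      · exact fv_oth b2.1 hb h3 hsb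
    have hB : IsB (Λ₁ ⊔ Λ₂) S := by
      constructor
      · intro v hv h0
        obtain ⟨v₁, hv₁, v₂, hv₂, rfl⟩ := Submodule.mem_sup.1 hv
        have z1 : v₁ = 0 := by
          apply b1.1.1 v₁ hv₁
          intro s hs
          have h3 := h0 s (Finset.mem_inter.1 hs).1
          rwa [Pi.add_apply, c2 v₂ hv₂ s (Finset.mem_inter.1 hs).2, add_zero] at h3
        have z2 : v₂ = 0 := by
          apply b2.1.1 v₂ hv₂
          intro s hs
          have h3 := h0 s (Finset.mem_inter.1 hs).1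
          rwa [Pi.add_apply, c1 v₁ hv₁ s (Finset.mem_inter.1 hs).2, zero_add] at h3
        rw [z1, z2, add_zero]
      · intro b hb
        rcases hcase b hb with h3 | h3
        · exact ⟨_, f1 b h3⟩
        · exact ⟨_, f2 b h3⟩
    refine ⟨hB, fun b hb e => ?_⟩
    rcases hcase b hb with h3 | h3
    · obtain ⟨g1, g2, g3⟩ := f1 b h3
      rw [fv_uniq hB hb g1 g2 g3, ← SmAux.fv_map h hS hb (Finset.mem_inter.1 h3).2]
      exact b1.2 b h3 e
    · obtain ⟨g1, g2, g3⟩ := f2 b h3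
      rw [fv_uniq hB hb g1 g2 g3, ← SmAux.fv_map h' hS hb (Finset.mem_inter.1 h3).2]
      exact b2.2 b h3 e

end

end Pool.Agent.QUS
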