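import Pool.Agent.QUS.Tw
import Pool.Agent.QUS.Fc1
import Pool.Agent.QUS.Cn

/-!
# QUS/Uq: uniqueness up to signs

`t S b e : ℤˣ` with `fv Λ₂ S b e = t * fv Λ₁ S b e` (`pm`; `1` if the entries are zero).  Signed paths `Ns S m a b σ`: as `Near`, with `σ` = product of `t a c * t r c` over the steps.
CLAIM K(m): for all bases `S`, signed paths of length `m` from `a` to `b` with sign `σ` and columns `c` with `fv a c ≠ 0`, `fv b c ≠ 0`: `σ = t a c * t b c`.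
`m = 0`: trivial.  `m = 1` (columns `c₁`, `c`; `a ≠ b`): otherwise `Λ₁`, `Λ₂` scaled give `q` and `-q` with `1 - q`, `1 + q` in `UZ`: `no_both`.  `m ≥ 2`: minimal counterexample over all bases, path `a - c₁ - r₁ - c₂ - r₂ ... b`.
(i) `fv r₁ c ≠ 0`: use K(1) for `a, r₁` and K(m-1) for `r₁, b`.  (ii) some later row `q` of the path (also `b`) has `fv q c₁ ≠ 0`: shortcut `a - c₁ - q ..`: the part up to `q` has sign `t a c₁ * t q c₁` (K of a smaller number, or for `q = b` K(m-1) for the rest after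
`r₁` and the first step), the shortened path is fine.  (iii) otherwise pivot at `(r₁, c₁)`: only the row `a` changes on the path, `fv' a c = fv a c`, `fv' a c₂ = - fv a c₁ (fv r₁ c₁)⁻¹ fv r₁ c₂ ≠ 0` if `fv a c₂ = 0` (if
`fv a c₂ ≠ 0` the path `a - c₂ - r₂ ...` is shorter; compare with (i)), `t' a c₂ = t a c₁ * t r₁ c₁ * t r₁ c₂`: a counterexample of length `m - 1`.  (The paths may be handled as lists of `(c, r)`.)
Then `s a` (`a ∈ S`) = sign of a path from a fixed `b₀ ∈ S` (well defined by K for closed paths; if `S = ∅` nothing to do), `s c = s a * t a c` for any `a` with `fv a c ≠ 0`; `tw_of_fv`.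
Alternative: chordless cycles as in qu_sign.md section 1.
-/

set_option autoImplicit false

noncomputable section

open scoped Classical

namespace Pool.Agent.QUS

variable {E : Type} {Λ₁ Λ₂ : Submodule Hz (E → Hz)} {Γ : Submodule Rq (E → Rq)} {G : Finset E}

/-- the sign -/
private def Uq_t (Λ₁ Λ₂ : Submodule Hz (E → Hz)) (S : Finset E) (b e : E) : ℤˣ :=
  if fv Λ₂ S b e = fv Λ₁ S b e then 1 else -1

private theorem Uq_red_ne {x : Hz} (h : IsUnit x) : red x ≠ 0 := by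
  intro h0
  have h1 := rq_unit.1 (h.map red)
  have h2 : red x = 0 := h0
  rw [show (red x).a = 0 by rw [h2]; rfl] at h1
  exact h1 rfl

private theorem Uq_unit {Λ : Submodule Hz (E → Hz)} (h : Right Λ Γ) {S : Finset E} (hS : IsB Γ S) {b e : E}
    (hb : b ∈ S) (hne : fv Λ S b e ≠ 0) : IsUnit (fv Λ S b e) := by
  rcases ((h S hS).2 b hb e).1 with h0 | h0
  · exact absurd h0 hne
  · exact h0

private theorem Uq_unitG {Λ : Submodule Hz (E → Hz)} (h : Right Λ Γ) {S : Finset E} (hS : IsB Γ S) {b e : E}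
    (hb : b ∈ S) (hne : fv Λ S b e ≠ 0) : IsUnit (fv Γ S b e) := by
  rw [← ((h S hS).2 b hb e).2]
  exact (Uq_unit h hS hb hne).map red

private theorem Uq_ne_iff {Λ : Submodule Hz (E → Hz)} (h : Right Λ Γ) {S : Finset E} (hS : IsB Γ S) {b e : E}
    (hb : b ∈ S) : fv Λ S b e ≠ 0 ↔ fv Γ S b e ≠ 0 := by
  constructor
  · intro hne
    rw [← ((h S hS).2 b hb e).2]
    exact Uq_red_ne (Uq_unit h hS hb hne)
  · intro hne h0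
    apply hne
    rw [← ((h S hS).2 b hb e).2, h0, map_zero]

private theorem Uq_spec (h1 : Right Λ₁ Γ) (h2 : Right Λ₂ Γ) {S : Finset E} (hS : IsB Γ S) {b : E} (hb : b ∈ S)
    (e : E) : fv Λ₂ S b e = ((Uq_t Λ₁ Λ₂ S b e : ℤ) : Hz) * fv Λ₁ S b e := by
  unfold Uq_t
  by_cases h : fv Λ₂ S b e = fv Λ₁ S b e
  · rw [if_pos h, Units.val_one, Int.cast_one, one_mul, h]
  · rw [if_neg h, Units.val_neg, Units.val_one, Int.cast_neg, Int.cast_one, neg_one_mul]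
    by_cases hz : fv Λ₁ S b e = 0
    · exfalso
      apply h
      rw [hz]
      by_contra hz2
      exact ((Uq_ne_iff h1 hS hb).2 ((Uq_ne_iff h2 hS hb).1 hz2)) hz
    · have hz2 := (Uq_ne_iff h2 hS hb).2 ((Uq_ne_iff h1 hS hb).1 hz)
      rcases pm (Uq_unit h2 hS hb hz2) (Uq_unit h1 hS hb hz)
        (((h2 S hS).2 b hb e).2.trans ((h1 S hS).2 b hb e).2.symm) with h3 | h3
      · exact absurd h3 h
      · exact h3

private theorem Uq_t_eq {S : Finset E} {b e : E} (hne : fv Λ₁ S b e ≠ 0) {u : ℤˣ}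
    (h : fv Λ₂ S b e = ((u : ℤ) : Hz) * fv Λ₁ S b e) : Uq_t Λ₁ Λ₂ S b e = u := by
  unfold Uq_t
  rcases Int.units_eq_one_or u with hu | hu
  · rw [hu, Units.val_one, Int.cast_one, one_mul] at h
    rw [if_pos h, hu]
  · rw [hu, Units.val_neg, Units.val_one, Int.cast_neg, Int.cast_one, neg_one_mul] at h
    rw [if_neg, hu]
    intro h'
    rw [h] at h'
    apply hne
    have ha := congrArg Hz.a h'
    have hb := congrArg Hz.b h'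
    have hc := congrArg Hz.c h'
    have hd := congrArg Hz.d h'
    simp only [Hz.neg_a, Hz.neg_b, Hz.neg_c, Hz.neg_d] at ha hb hc hd
    ext
    · rw [Hz.zero_a]; omega
    · rw [Hz.zero_b]; omega
    · rw [Hz.zero_c]; omega
    · rw [Hz.zero_d]; omega

private theorem Uq_inv_neg {x : Hz} (hx : IsUnit x) : Ring.inverse (-x) = -Ring.inverse x := by
  obtain ⟨X, rfl⟩ := hx
  rw [Ring.inverse_unit, ← Units.val_neg, Ring.inverse_unit]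
  rw [show (-X)⁻¹ = -X⁻¹ by rw [inv_eq_iff_mul_eq_one]; simp, Units.val_neg]

private theorem Uq_bad {x y z w : Hz} (hx : IsUnit x) (hy : IsUnit y) (hz : IsUnit z) (hw : IsUnit w)
    (h1 : UZ (w - z * Ring.inverse x * y)) (h2 : UZ (w + z * Ring.inverse x * y)) : False := by
  have hi : IsUnit (Ring.inverse x) := by
    obtain ⟨X, rfl⟩ := hx
    rw [Ring.inverse_unit]
    exact Units.isUnit _
  have hwi : IsUnit (Ring.inverse w) := by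
    obtain ⟨W, rfl⟩ := hw
    rw [Ring.inverse_unit]
    exact Units.isUnit _
  have hww := Ring.inverse_mul_cancel _ hw
  refine no_both (q := Ring.inverse w * (z * Ring.inverse x * y)) (hwi.mul ((hz.mul hi).mul hy)) ?_ ?_
  · have := uz_mul (Or.inr hwi) h1
    rwa [mul_sub, hww] at this
  · have := uz_mul (Or.inr hwi) h2
    rwa [mul_add, hww] at this

private theorem Uq_K1 (h1 : Right Λ₁ Γ) (h2 : Right Λ₂ Γ) {S : Finset E} (hS : IsB Γ S) {a b c d : E}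
    (ha : a ∈ S) (hb : b ∈ S) (hc : c ∉ S) (hac : fv Λ₁ S a c ≠ 0) (had : fv Λ₁ S a d ≠ 0)
    (hbc : fv Λ₁ S b c ≠ 0) (hbd : fv Λ₁ S b d ≠ 0) :
    Uq_t Λ₁ Λ₂ S a c * Uq_t Λ₁ Λ₂ S b c = Uq_t Λ₁ Λ₂ S a d * Uq_t Λ₁ Λ₂ S b d := by
  by_cases hab : b = a
  · rw [hab, Int.units_mul_self, Int.units_mul_self]
  have hac2 := (Uq_ne_iff h2 hS ha).2 ((Uq_ne_iff h1 hS ha).1 hac)
  have hS' := piv hS ha hc (Uq_unitG h1 hS ha hac)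
  have hb' : b ∈ pv S a c := mem_pv.2 (Or.inr ⟨hab, hb⟩)
  have e1 := ((h1 _ hS').2 b hb' d).1
  have e2 := ((h2 _ hS').2 b hb' d).1
  rw [piv_old_apply (h1 S hS).1 ha hc (Uq_unit h1 hS ha hac) hb hab] at e1
  rw [piv_old_apply (h2 S hS).1 ha hc (Uq_unit h2 hS ha hac2) hb hab] at e2
  unfold sc at e1 e2
  rw [Uq_spec h1 h2 hS ha c, Uq_spec h1 h2 hS ha d, Uq_spec h1 h2 hS hb c, Uq_spec h1 h2 hS hb d] at e2
  have ux := Uq_unit h1 hS ha hac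
  have uy := Uq_unit h1 hS ha had
  have uz := Uq_unit h1 hS hb hbc
  have uw := Uq_unit h1 hS hb hbd
  have hbad : ∀ {p : Hz}, p = fv Λ₁ S b d + fv Λ₁ S b c * Ring.inverse (fv Λ₁ S a c) * fv Λ₁ S a d → UZ p → False := by
    intro p hp h
    rw [hp] at h
    exact Uq_bad ux uy uz uw e1 h
  have hbad' : ∀ {p : Hz}, p = -(fv Λ₁ S b d + fv Λ₁ S b c * Ring.inverse (fv Λ₁ S a c) * fv Λ₁ S a d) → UZ p →
      False := by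
    intro p hp h
    refine hbad (p := -p) ?_ (uz_neg h)
    rw [hp, neg_neg]
  have hin := Uq_inv_neg ux
  rcases Int.units_eq_one_or (Uq_t Λ₁ Λ₂ S a c) with h3 | h3 <;>
  rcases Int.units_eq_one_or (Uq_t Λ₁ Λ₂ S a d) with h4 | h4 <;>
  rcases Int.units_eq_one_or (Uq_t Λ₁ Λ₂ S b c) with h5 | h5 <;>
  rcases Int.units_eq_one_or (Uq_t Λ₁ Λ₂ S b d) with h6 | h6 <;>
  rw [h3, h4, h5, h6] at e2 <;>
  rw [h3, h4, h5, h6] <;>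
  simp only [Units.val_neg, Units.val_one, Int.cast_neg, Int.cast_one, one_mul, neg_one_mul, hin, neg_mul, mul_neg,
    neg_neg, sub_neg_eq_add, mul_one] at e2 ⊢ <;>
  first
    | (exfalso; exact hbad rfl e2)
    | (exfalso; exact hbad' (by abel) e2)

/-- signed paths, all rows but the first have the property `Q` -/
private inductive Uq_Ns (Λ₁ Λ₂ : Submodule Hz (E → Hz)) (S : Finset E) (Q : E → Prop) : ℕ → E → E → ℤˣ → Prop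
  | zero (a : E) : a ∈ S → Uq_Ns Λ₁ Λ₂ S Q 0 a a 1
  | succ (m : ℕ) (a c r b : E) (σ : ℤˣ) : a ∈ S → r ∈ S → c ∉ S → fv Λ₁ S a c ≠ 0 → fv Λ₁ S r c ≠ 0 → Q r →
      Uq_Ns Λ₁ Λ₂ S Q m r b σ → Uq_Ns Λ₁ Λ₂ S Q (m + 1) a b (Uq_t Λ₁ Λ₂ S a c * Uq_t Λ₁ Λ₂ S r c * σ)

private abbrev Uq_P (Λ₁ Λ₂ : Submodule Hz (E → Hz)) (S : Finset E) : ℕ → E → E → ℤˣ → Prop :=
  Uq_Ns Λ₁ Λ₂ S (fun _ => True)

private theorem Uq_start {S : Finset E} {Q : E → Prop} {m : ℕ} {a b : E} {σ : ℤˣ} (h : Uq_Ns Λ₁ Λ₂ S Q m a b σ) :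
    a ∈ S := by
  cases h with
  | zero _ ha => exact ha
  | succ _ _ _ _ _ _ ha _ _ _ _ _ _ => exact ha

private theorem Uq_end {S : Finset E} {Q : E → Prop} {m : ℕ} {a b : E} {σ : ℤˣ} (h : Uq_Ns Λ₁ Λ₂ S Q m a b σ) :
    b ∈ S := by
  induction h with
  | zero _ ha => exact ha
  | succ _ _ _ _ _ _ _ _ _ _ _ _ _ ih => exact ih

private theorem Uq_endQ {S : Finset E} {Q : E → Prop} {m : ℕ} {a b : E} {σ : ℤˣ} (h : Uq_Ns Λ₁ Λ₂ S Q m a b σ)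
    (hQ : Q a) : Q b := by
  induction h with
  | zero _ _ => exact hQ
  | succ _ _ _ _ _ _ _ _ _ _ _ hq _ ih => exact ih hq

private theorem Uq_weak {S : Finset E} {Q : E → Prop} {m : ℕ} {a b : E} {σ : ℤˣ} (h : Uq_Ns Λ₁ Λ₂ S Q m a b σ) :
    Uq_P Λ₁ Λ₂ S m a b σ := by
  induction h with
  | zero a ha => exact Uq_Ns.zero a ha
  | succ m a c r b σ ha hr hc h1 h2 _ _ ih => exact Uq_Ns.succ m a c r b σ ha hr hc h1 h2 trivial ih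

private theorem Uq_split {S : Finset E} (Q : E → Prop) {m : ℕ} {a b : E} {σ : ℤˣ} (h : Uq_P Λ₁ Λ₂ S m a b σ) :
    Uq_Ns Λ₁ Λ₂ S Q m a b σ ∨ ∃ k l q τ τ', 1 ≤ k ∧ k + l = m ∧ Uq_P Λ₁ Λ₂ S k a q τ ∧ Uq_P Λ₁ Λ₂ S l q b τ' ∧
      σ = τ * τ' ∧ ¬Q q := by
  induction h with
  | zero a ha => exact Or.inl (Uq_Ns.zero a ha)
  | succ m a c r b σ ha hr hc h1 h2 _ h3 ih =>
    by_cases hq : Q r
    · rcases ih with ih | ⟨k, l, q, τ, τ', hk, hkl, hp, hp', hs, hnq⟩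
      · exact Or.inl (Uq_Ns.succ m a c r b σ ha hr hc h1 h2 hq ih)
      · refine Or.inr ⟨k + 1, l, q, _, τ', by omega, by omega, Uq_Ns.succ k a c r q τ ha hr hc h1 h2 trivial hp, hp', ?_, hnq⟩
        rw [hs, mul_assoc]
        simp only [mul_assoc]
    · refine Or.inr ⟨0 + 1, m, r, _, σ, by omega, by omega,
        Uq_Ns.succ 0 a c r r 1 ha hr hc h1 h2 trivial (Uq_Ns.zero r hr), h3, ?_, hq⟩
      rw [mul_one]

private theorem Uq_append {S : Finset E} {m n : ℕ} {a b c : E} {σ τ : ℤˣ} (h : Uq_P Λ₁ Λ₂ S m a b σ)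
    (h' : Uq_P Λ₁ Λ₂ S n b c τ) : ∃ k, Uq_P Λ₁ Λ₂ S k a c (σ * τ) := by
  induction h with
  | zero a ha => exact ⟨n, by rw [one_mul]; exact h'⟩
  | succ m a d r b σ ha hr hd h1 h2 _ _ ih =>
    obtain ⟨k, hk⟩ := ih h'
    refine ⟨k + 1, ?_⟩
    rw [mul_assoc (Uq_t Λ₁ Λ₂ S a d * Uq_t Λ₁ Λ₂ S r d)]
    exact Uq_Ns.succ k a d r c _ ha hr hd h1 h2 trivial hk

private theorem Uq_rev {S : Finset E} {m : ℕ} {a b : E} {σ : ℤˣ} (h : Uq_P Λ₁ Λ₂ S m a b σ) :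
    ∃ k, Uq_P Λ₁ Λ₂ S k b a σ := by
  induction h with
  | zero a ha => exact ⟨0, Uq_Ns.zero a ha⟩
  | succ m a d r b σ ha hr hd h1 h2 _ _ ih =>
    obtain ⟨k, hk⟩ := ih
    have h3 : Uq_P Λ₁ Λ₂ S (0 + 1) r a (Uq_t Λ₁ Λ₂ S r d * Uq_t Λ₁ Λ₂ S a d * 1) :=
      Uq_Ns.succ 0 r d a a 1 hr ha hd h2 h1 trivial (Uq_Ns.zero a ha)
    obtain ⟨l, hl⟩ := Uq_append hk h3
    refine ⟨l, ?_⟩
    have : Uq_t Λ₁ Λ₂ S a d * Uq_t Λ₁ Λ₂ S r d * σ = σ * (Uq_t Λ₁ Λ₂ S r d * Uq_t Λ₁ Λ₂ S a d * 1) := by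
      rw [mul_one, mul_comm σ, mul_comm (Uq_t Λ₁ Λ₂ S a d)]
    rw [this]
    exact hl

private theorem Uq_sq (u : ℤˣ) : u * u = 1 := Int.units_mul_self u

private theorem Uq_alg1 (p q r s v w : ℤˣ) (h1 : p * q = r * s) (h2 : v = s * w) : p * q * v = r * w := by
  rw [h1, h2, mul_assoc, ← mul_assoc s s w, Uq_sq, one_mul]

/-- rows which vanish in the column of the pivot do not change -/
private theorem Uq_same {Λ : Submodule Hz (E → Hz)} {S : Finset E} (hS : IsB Λ S) {r c x : E} (hr : r ∈ S) (hc : c ∉ S)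
    (hu : IsUnit (fv Λ S r c)) (hx : x ∈ S) (hxr : x ≠ r) (h0 : fv Λ S x c = 0) (f : E) :
    fv Λ (pv S r c) x f = fv Λ S x f := by
  rw [piv_old_apply hS hr hc hu hx hxr]
  unfold sc
  rw [h0, zero_mul, zero_mul, sub_zero]

private theorem Uq_K (h1 : Right Λ₁ Γ) (h2 : Right Λ₂ Γ) : ∀ (m : ℕ) (S : Finset E), IsB Γ S → ∀ (a b : E) (σ : ℤˣ),
    Uq_P Λ₁ Λ₂ S m a b σ → ∀ c, c ∉ S → fv Λ₁ S a c ≠ 0 → fv Λ₁ S b c ≠ 0 →
    σ = Uq_t Λ₁ Λ₂ S a c * Uq_t Λ₁ Λ₂ S b c := by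
  intro m
  induction m using Nat.strong_induction_on with
  | _ m ih =>
  intro S hS a b σ hP c hcS hac hbc
  cases hP with
  | zero _ ha => rw [Uq_sq]
  | succ m' _ c₁ r₁ _ σ₁ ha hr₁ hc₁ hac₁ hrc₁ _ hP₁ =>
  by_cases hr₁c : fv Λ₁ S r₁ c ≠ 0
  · have e1 := Uq_K1 h1 h2 hS ha hr₁ hc₁ hac₁ hac hrc₁ hr₁c
    have e2 := ih m' (by omega) S hS r₁ b σ₁ hP₁ c hcS hr₁c hbc
    exact Uq_alg1 _ _ _ _ _ _ e1 e2
  have hr₁c0 : fv Λ₁ S r₁ c = 0 := by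
    by_contra h
    exact hr₁c h
  rcases Uq_split (fun q => fv Λ₁ S q c₁ = 0) hP₁ with hQ | ⟨k, l, q, τ, τ', hk, hkl, hp, hp', hs, hnq⟩
  swap
  · have hq := Uq_end hp
    have e1 := ih k (by omega) S hS r₁ q τ hp c₁ hc₁ hrc₁ hnq
    have hp2 := Uq_Ns.succ l a c₁ q b τ' ha hq hc₁ hac₁ hnq trivial hp'
    have e2 := ih (l + 1) (by omega) S hS a b _ hp2 c hcS hac hbc
    rw [← e2, hs, e1]
    have := Uq_sq (Uq_t Λ₁ Λ₂ S r₁ c₁)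
    calc Uq_t Λ₁ Λ₂ S a c₁ * Uq_t Λ₁ Λ₂ S r₁ c₁ * (Uq_t Λ₁ Λ₂ S r₁ c₁ * Uq_t Λ₁ Λ₂ S q c₁ * τ')
        = Uq_t Λ₁ Λ₂ S a c₁ * (Uq_t Λ₁ Λ₂ S r₁ c₁ * Uq_t Λ₁ Λ₂ S r₁ c₁) * Uq_t Λ₁ Λ₂ S q c₁ * τ' := by
          simp only [mul_assoc]
      _ = _ := by rw [this, mul_one]
  -- all later rows vanish in the column `c₁`
  cases hQ with
  | zero _ hr => exact absurd hr₁c0 hbc
  | succ m'' _ c₂ r₂ _ σ₂ _ hr₂ hc₂ hr₁c₂ hr₂c₂ hQ₂ hP₂ =>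
  have hQ₂' : fv Λ₁ S r₂ c₁ = 0 := hQ₂
  have hb := Uq_end hP₂
  have hbQ : fv Λ₁ S b c₁ = 0 := Uq_endQ (Q := fun q => fv Λ₁ S q c₁ = 0) hP₂ hQ₂'
  by_cases hac₂ : fv Λ₁ S a c₂ ≠ 0
  · have e1 := Uq_K1 h1 h2 hS ha hr₁ hc₁ hac₁ hac₂ hrc₁ hr₁c₂
    have hp2 := Uq_Ns.succ m'' a c₂ r₂ b σ₂ ha hr₂ hc₂ hac₂ hr₂c₂ trivial (Uq_weak hP₂)
    have e2 := ih (m'' + 1) (by omega) S hS a b _ hp2 c hcS hac hbc
    rw [← e2, e1]
    have := Uq_sq (Uq_t Λ₁ Λ₂ S r₁ c₂)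
    calc Uq_t Λ₁ Λ₂ S a c₂ * Uq_t Λ₁ Λ₂ S r₁ c₂ * (Uq_t Λ₁ Λ₂ S r₁ c₂ * Uq_t Λ₁ Λ₂ S r₂ c₂ * σ₂)
        = Uq_t Λ₁ Λ₂ S a c₂ * (Uq_t Λ₁ Λ₂ S r₁ c₂ * Uq_t Λ₁ Λ₂ S r₁ c₂) * Uq_t Λ₁ Λ₂ S r₂ c₂ * σ₂ := by
          simp only [mul_assoc]
      _ = _ := by rw [this, mul_one]
  have hac₂0 : fv Λ₁ S a c₂ = 0 := by
    by_contra h
    exact hac₂ h
  -- the pivot
  have hu1 := Uq_unit h1 hS hr₁ hrc₁
  have hrc₁' := (Uq_ne_iff h2 hS hr₁).2 ((Uq_ne_iff h1 hS hr₁).1 hrc₁)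
  have hu2 := Uq_unit h2 hS hr₁ hrc₁'
  have hS' := piv hS hr₁ hc₁ (Uq_unitG h1 hS hr₁ hrc₁)
  have hne : ∀ {x : E}, fv Λ₁ S x c₁ = 0 → x ≠ r₁ := by
    intro x hx hxr
    rw [hxr] at hx
    exact hrc₁ hx
  have hz2 : ∀ {x f : E}, x ∈ S → fv Λ₁ S x f = 0 → fv Λ₂ S x f = 0 := by
    intro x f hx h0
    by_contra h
    exact ((Uq_ne_iff h1 hS hx).2 ((Uq_ne_iff h2 hS hx).1 h)) h0
  have hs1 : ∀ {x : E}, x ∈ S → fv Λ₁ S x c₁ = 0 → ∀ f, fv Λ₁ (pv S r₁ c₁) x f = fv Λ₁ S x f := by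
    intro x hx h0 f
    exact Uq_same (h1 S hS).1 hr₁ hc₁ hu1 hx (hne h0) h0 f
  have hs2 : ∀ {x : E}, x ∈ S → fv Λ₁ S x c₁ = 0 → ∀ f, fv Λ₂ (pv S r₁ c₁) x f = fv Λ₂ S x f := by
    intro x hx h0 f
    exact Uq_same (h2 S hS).1 hr₁ hc₁ hu2 hx (hne h0) (hz2 hx h0) f
  have hst : ∀ {x : E}, x ∈ S → fv Λ₁ S x c₁ = 0 → ∀ f, Uq_t Λ₁ Λ₂ (pv S r₁ c₁) x f = Uq_t Λ₁ Λ₂ S x f := by
    intro x hx h0 f
    unfold Uq_t
    rw [hs1 hx h0, hs2 hx h0]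
  have hcc : ∀ {x f : E}, f ∉ S → fv Λ₁ S x c₁ = 0 → fv Λ₁ S x f ≠ 0 → f ∉ pv S r₁ c₁ := by
    intro x f hf h0 hxf hm
    rcases mem_pv.1 hm with h | ⟨_, h⟩
    · rw [h] at hxf
      exact hxf h0
    · exact hf h
  have hpm : ∀ {x : E}, x ∈ S → fv Λ₁ S x c₁ = 0 → x ∈ pv S r₁ c₁ := fun hx h0 => mem_pv.2 (Or.inr ⟨hne h0, hx⟩)
  have htr : ∀ {n : ℕ} {x y : E} {τ : ℤˣ}, Uq_Ns Λ₁ Λ₂ S (fun q => fv Λ₁ S q c₁ = 0) n x y τ → fv Λ₁ S x c₁ = 0 →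
      Uq_P Λ₁ Λ₂ (pv S r₁ c₁) n x y τ := by
    intro n x y τ h
    induction h with
    | zero x hx => exact fun h0 => Uq_Ns.zero x (hpm hx h0)
    | succ n x d r y τ hx hr hd hxd hrd hq _ ih' =>
      intro h0
      have hq' : fv Λ₁ S r c₁ = 0 := hq
      rw [← hst hx h0 d, ← hst hr hq' d]
      exact Uq_Ns.succ n x d r y τ (hpm hx h0) (hpm hr hq') (hcc hd h0 hxd) (by rw [hs1 hx h0]; exact hxd)
        (by rw [hs1 hr hq']; exact hrd) trivial (ih' hq')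
  -- the row `a`
  have har : a ≠ r₁ := by
    intro h
    rw [h] at hac
    exact hac hr₁c0
  have ha' : a ∈ pv S r₁ c₁ := mem_pv.2 (Or.inr ⟨har, ha⟩)
  have hc' : c ∉ pv S r₁ c₁ := hcc hcS hbQ hbc
  have hc₂' : c₂ ∉ pv S r₁ c₁ := hcc hc₂ hQ₂' hr₂c₂
  have a1c : fv Λ₁ (pv S r₁ c₁) a c = fv Λ₁ S a c := by
    rw [piv_old_apply (h1 S hS).1 hr₁ hc₁ hu1 ha har]
    unfold sc
    rw [hr₁c0, mul_zero, sub_zero]
  have a2c : fv Λ₂ (pv S r₁ c₁) a c = fv Λ₂ S a c := by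
    rw [piv_old_apply (h2 S hS).1 hr₁ hc₁ hu2 ha har]
    unfold sc
    rw [hz2 hr₁ hr₁c0, mul_zero, sub_zero]
  have atc : Uq_t Λ₁ Λ₂ (pv S r₁ c₁) a c = Uq_t Λ₁ Λ₂ S a c := by
    unfold Uq_t
    rw [a1c, a2c]
  have a1d : fv Λ₁ (pv S r₁ c₁) a c₂ = -(fv Λ₁ S a c₁ * Ring.inverse (fv Λ₁ S r₁ c₁) * fv Λ₁ S r₁ c₂) := by
    rw [piv_old_apply (h1 S hS).1 hr₁ hc₁ hu1 ha har]
    unfold sc
    rw [hac₂0, zero_sub]
  have a2d : fv Λ₂ (pv S r₁ c₁) a c₂ = -(fv Λ₂ S a c₁ * Ring.inverse (fv Λ₂ S r₁ c₁) * fv Λ₂ S r₁ c₂) := by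
    rw [piv_old_apply (h2 S hS).1 hr₁ hc₁ hu2 ha har]
    unfold sc
    rw [hz2 ha hac₂0, zero_sub]
  have hinv : Ring.inverse (fv Λ₂ S r₁ c₁) = ((Uq_t Λ₁ Λ₂ S r₁ c₁ : ℤ) : Hz) * Ring.inverse (fv Λ₁ S r₁ c₁) := by
    rw [Uq_spec h1 h2 hS hr₁ c₁]
    rcases Int.units_eq_one_or (Uq_t Λ₁ Λ₂ S r₁ c₁) with h | h
    · rw [h, Units.val_one, Int.cast_one, one_mul, one_mul]
    · rw [h, Units.val_neg, Units.val_one, Int.cast_neg, Int.cast_one, neg_one_mul, neg_one_mul, Uq_inv_neg hu1]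
  have ux := Uq_unit h1 hS ha hac₁
  have uy := Uq_unit h1 hS hr₁ hr₁c₂
  have hi : IsUnit (Ring.inverse (fv Λ₁ S r₁ c₁)) := by
    obtain ⟨X, hX⟩ := hu1
    rw [← hX, Ring.inverse_unit]
    exact Units.isUnit _
  have a1ne : fv Λ₁ (pv S r₁ c₁) a c₂ ≠ 0 := by
    rw [a1d]
    intro h
    have h3 := ((ux.mul hi).mul uy).neg
    rw [h] at h3
    have h4 := hz_unit.1 h3
    rw [N_eq_zero.2 rfl] at h4
    exact absurd h4 (by norm_num)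
  have atd : Uq_t Λ₁ Λ₂ (pv S r₁ c₁) a c₂ = Uq_t Λ₁ Λ₂ S a c₁ * Uq_t Λ₁ Λ₂ S r₁ c₁ * Uq_t Λ₁ Λ₂ S r₁ c₂ := by
    refine Uq_t_eq a1ne ?_
    rw [a2d, a1d, hinv, Uq_spec h1 h2 hS ha c₁, Uq_spec h1 h2 hS hr₁ c₂]
    rcases Int.units_eq_one_or (Uq_t Λ₁ Λ₂ S a c₁) with h3 | h3 <;>
    rcases Int.units_eq_one_or (Uq_t Λ₁ Λ₂ S r₁ c₁) with h4 | h4 <;>
    rcases Int.units_eq_one_or (Uq_t Λ₁ Λ₂ S r₁ c₂) with h5 | h5 <;>
    rw [h3, h4, h5] <;> simp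
  have hp2 := Uq_Ns.succ (Q := fun _ => True) m'' a c₂ r₂ b σ₂ ha' (hpm hr₂ hQ₂') hc₂' a1ne
    (by rw [hs1 hr₂ hQ₂']; exact hr₂c₂) trivial (htr hP₂ hQ₂')
  have e2 := ih (m'' + 1) (by omega) (pv S r₁ c₁) hS' a b _ hp2 c hc' (by rw [a1c]; exact hac)
    (by rw [hs1 hb hbQ]; exact hbc)
  rw [atc, hst hb hbQ, atd, hst hr₂ hQ₂'] at e2
  rw [← e2]
  simp only [mul_assoc]

private theorem Uq_closed (h1 : Right Λ₁ Γ) (h2 : Right Λ₂ Γ) {S : Finset E} (hS : IsB Γ S) {m : ℕ} {a : E} {σ : ℤˣ}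
    (h : Uq_P Λ₁ Λ₂ S m a a σ) : σ = 1 := by
  cases h with
  | zero _ _ => rfl
  | succ m' _ c r _ σ' ha hr hc hac hrc _ hP =>
    rw [Uq_K h1 h2 m' S hS r a σ' hP c hc hrc hac]
    have e1 := Uq_sq (Uq_t Λ₁ Λ₂ S a c)
    have e2 := Uq_sq (Uq_t Λ₁ Λ₂ S r c)
    calc Uq_t Λ₁ Λ₂ S a c * Uq_t Λ₁ Λ₂ S r c * (Uq_t Λ₁ Λ₂ S r c * Uq_t Λ₁ Λ₂ S a c)
        = Uq_t Λ₁ Λ₂ S a c * (Uq_t Λ₁ Λ₂ S r c * Uq_t Λ₁ Λ₂ S r c) * Uq_t Λ₁ Λ₂ S a c := by simp only [mul_assoc]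
      _ = 1 := by rw [e2, mul_one, e1]

private theorem Uq_wd (h1 : Right Λ₁ Γ) (h2 : Right Λ₂ Γ) {S : Finset E} (hS : IsB Γ S) {m n : ℕ} {a b : E} {σ τ : ℤˣ}
    (h : Uq_P Λ₁ Λ₂ S m a b σ) (h' : Uq_P Λ₁ Λ₂ S n a b τ) : σ = τ := by
  obtain ⟨k, hk⟩ := Uq_rev h
  obtain ⟨l, hl⟩ := Uq_append hk h'
  have h3 := Uq_closed h1 h2 hS hl
  calc σ = σ * 1 := (mul_one _).symm
    _ = σ * (σ * τ) := by rw [h3]
    _ = τ := by rw [← mul_assoc, Uq_sq, one_mul]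

private theorem Uq_near (h1 : Right Λ₁ Γ) {S : Finset E} (hS : IsB Γ S) {m : ℕ} {a b : E} (h : Near Γ S m a b) :
    ∃ σ, Uq_P Λ₁ Λ₂ S m a b σ := by
  induction h with
  | zero a ha => exact ⟨1, Uq_Ns.zero a ha⟩
  | succ m a c r b ha hr hc hac hrc _ ih =>
    obtain ⟨σ, hσ⟩ := ih
    exact ⟨_, Uq_Ns.succ m a c r b σ ha hr hc ((Uq_ne_iff h1 hS ha).2 hac) ((Uq_ne_iff h1 hS hr).2 hrc) trivial hσ⟩

theorem uniq (hG : Sup Γ G) (hex : ∃ S, IsB Γ S) (hU : ∀ S, IsB Γ S → ∀ b ∈ S, ∀ e, UZ (fv Γ S b e)) (hC : Conn Γ G)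
    (h1 : Right Λ₁ Γ) (h2 : Right Λ₂ Γ) : ∃ s : E → ℤˣ, Λ₂ = tw Λ₁ s := by
  obtain ⟨S, hS⟩ := hex
  have _ := hU
  rcases S.eq_empty_or_nonempty with h0 | ⟨b₀, hb₀⟩
  · refine ⟨fun _ => 1, tw_of_fv (h1 S hS).1 (h2 S hS).1 ?_⟩
    intro b hb
    rw [h0] at hb
    exact absurd hb (Finset.notMem_empty b)
  have hpath : ∀ a, a ∈ S → ∃ σ : ℤˣ, ∃ m, Uq_P Λ₁ Λ₂ S m a b₀ σ := by
    intro a ha
    obtain ⟨m, hm⟩ := near_of_conn hG hS hC ha hb₀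
    obtain ⟨σ, hσ⟩ := Uq_near (Λ₂ := Λ₂) h1 hS hm
    exact ⟨σ, m, hσ⟩
  choose! f hf using hpath
  let s : E → ℤˣ := fun g => if g ∈ S then f g else
    if h : ∃ a ∈ S, fv Λ₁ S a g ≠ 0 then f h.choose * Uq_t Λ₁ Λ₂ S h.choose g else 1
  refine ⟨s, tw_of_fv (h1 S hS).1 (h2 S hS).1 ?_⟩
  intro b hb g
  have hsb : s b = f b := if_pos hb
  by_cases hg : g ∈ S
  · by_cases hgb : g = b
    · rw [hgb, Uq_sq, fv_self (h2 S hS).1 hb, fv_self (h1 S hS).1 hb]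
      simp
    · rw [fv_oth (h2 S hS).1 hb hg hgb, fv_oth (h1 S hS).1 hb hg hgb, mul_zero]
  · by_cases hz : fv Λ₁ S b g = 0
    · rw [Uq_spec h1 h2 hS hb g, hz, mul_zero, mul_zero]
    · have hE : ∃ a ∈ S, fv Λ₁ S a g ≠ 0 := ⟨b, hb, hz⟩
      have hsg : s g = f hE.choose * Uq_t Λ₁ Λ₂ S hE.choose g := by
        show (if g ∈ S then f g else if h : ∃ a ∈ S, fv Λ₁ S a g ≠ 0 then f h.choose * Uq_t Λ₁ Λ₂ S h.choose g else 1) = _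
        rw [if_neg hg, dif_pos hE]
      obtain ⟨ha, hag⟩ := hE.choose_spec
      obtain ⟨m, hm⟩ := hf _ ha
      obtain ⟨n, hn⟩ := hf _ hb
      have hp := Uq_Ns.succ (Q := fun _ => True) m b g hE.choose b₀ _ hb ha hg hz hag trivial hm
      have e1 := Uq_wd h1 h2 hS hn hp
      have e2 : s b * s g = Uq_t Λ₁ Λ₂ S b g := by
        rw [hsb, hsg, e1]
        have e3 := Uq_sq (f hE.choose)
        have e4 := Uq_sq (Uq_t Λ₁ Λ₂ S hE.choose g)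
        calc Uq_t Λ₁ Λ₂ S b g * Uq_t Λ₁ Λ₂ S hE.choose g * f hE.choose * (f hE.choose * Uq_t Λ₁ Λ₂ S hE.choose g)
            = Uq_t Λ₁ Λ₂ S b g * (Uq_t Λ₁ Λ₂ S hE.choose g * ((f hE.choose * f hE.choose) *
                Uq_t Λ₁ Λ₂ S hE.choose g)) := by simp only [mul_assoc]
          _ = _ := by rw [e3, one_mul, e4, mul_one]
      rw [e2]
      exact Uq_spec h1 h2 hS hb g

end Pool.Agent.QUS
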