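import Pool.Agent.QUS.W3
import Pool.Agent.QUS.Rt
import Pool.Agent.QUS.Uq
import Pool.Agent.QUS.Gl
import Pool.Agent.QUS.Ef
import Pool.Agent.QUS.Rk2
import Pool.Agent.QUS.Sm
import Pool.Agent.QUS.Dd

/-!
# QUS/Main: the sign theorem

Induction on `G.card`.
-/

set_option autoImplicit false

noncomputable section

open scoped Classical

namespace Pool.Agent.QUS

variable {E : Type}

theorem sup_of_right {Λ : Submodule Hz (E → Hz)} {Γ : Submodule Rq (E → Rq)} {G : Finset E} (hG : Sup Γ G)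
    (hex : ∃ S, IsB Γ S) (h : Right Λ Γ) : Sup Λ G := by
  obtain ⟨S, hS⟩ := hex
  intro v hv e he
  rw [expand (h S hS).1 hv]
  rw [Finset.sum_apply]
  refine Finset.sum_eq_zero fun b hb => ?_
  have h1 := (h S hS).2 b hb e
  rw [fv_out hG hS hb he] at h1
  rw [Pi.smul_apply, eq_zero_of_red h1.1 h1.2, smul_zero]

/-- the case in which two columns can be removed -/
private theorem step {Γ : Submodule Rq (E → Rq)} {G : Finset E} (hD : Dat Γ G)
    (ih : ∀ (Γ' : Submodule Rq (E → Rq)) (G' : Finset E), G'.card < G.card → Dat Γ' G' →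
      ∃ Λ : Submodule Hz (E → Hz), Sup Λ G' ∧ Right Λ Γ')
    {S : Finset E} {e f : E} (hS : IsB Γ S) (heG : e ∈ G) (hfG : f ∈ G) (hef : e ≠ f) (he : e ∉ S) (hf : f ∉ S)
    (hC : Conn (del (del Γ e) f) ((G.erase e).erase f)) : ∃ Λ : Submodule Hz (E → Hz), Sup Λ G ∧ Right Λ Γ := by
  have de := dat_del hD ⟨S, hS, he⟩
  have df := dat_del hD ⟨S, hS, hf⟩
  obtain ⟨Λ₁, -, h1⟩ := ih (del Γ e) (G.erase e) (Finset.card_erase_lt_of_mem heG) de
  obtain ⟨Λ₂, -, h2⟩ := ih (del Γ f) (G.erase f) (Finset.card_erase_lt_of_mem hfG) df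
  have hSe : IsB (del Γ e) S := isB_del_of hS he
  have hSf : IsB (del Γ f) S := isB_del_of hS hf
  have h1' : Right (del Λ₁ f) (del (del Γ e) f) := right_del h1 ⟨S, hSe, hf⟩
  have h2' : Right (del Λ₂ e) (del (del Γ e) f) := by
    rw [del_comm Γ e f]
    exact right_del h2 ⟨S, hSf, he⟩
  have def' := dat_del de (e := f) ⟨S, hSe, hf⟩
  obtain ⟨s, hs⟩ := uniq def'.sup def'.ex def'.uz hC h1' h2'
  obtain ⟨Λ, hΛ, hΛ1, hΛ2⟩ := glue (Λ₁ := tw Λ₁ s) (Λ₂ := Λ₂) hef hS he hf (right_tw h1) h2 (by rw [del_tw, hs])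
  have re : Right (del Λ e) (del Γ e) := by
    rw [hΛ1]
    exact right_tw h1
  have rf : Right (del Λ f) (del Γ f) := by
    rw [hΛ2]
    exact h2
  have hO : RightOff Λ Γ e f := off_of_del hef hΛ he hf re rf
  have hR : Right Λ Γ := right_of_blocks hD hef hS hΛ he hf re rf hO
    fun S' hS' he' hf' a ha b hb hab hA => blocks hD hO hef hC hS' he' hf' ha hb hab hA
  exact ⟨Λ, sup_of_right hD.sup hD.ex hR, hR⟩

/-- THEOREM S: every datum has a right lift to the Hurwitz integers. -/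
theorem sgn_lift : ∀ (n : ℕ) (Γ : Submodule Rq (E → Rq)) (G : Finset E), G.card = n → Dat Γ G →
    ∃ Λ : Submodule Hz (E → Hz), Sup Λ G ∧ Right Λ Γ := by
  intro n
  induction n using Nat.strong_induction_on with
  | _ n ih =>
    intro Γ G hn hD
    have ih' : ∀ (Γ' : Submodule Rq (E → Rq)) (G' : Finset E), G'.card < G.card → Dat Γ' G' →
        ∃ Λ : Submodule Hz (E → Hz), Sup Λ G' ∧ Right Λ Γ' := fun Γ' G' h hD' =>
      ih G'.card (by omega) Γ' G' rfl hD'
    by_cases hC : Conn Γ G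
    · by_cases h5 : 5 ≤ G.card
      · rcases exists_ef hD.sup hD.ex hD.uz hC h5 with ⟨S, e, f, hS, heG, hfG, hef, he, hf, hC'⟩ |
          ⟨S, e, f, hS, heG, hfG, hef, he, hf, hC'⟩
        · exact step hD ih' hS heG hfG hef he hf hC'
        · obtain ⟨Λ, hs, hR⟩ := step (dat_dl hD) ih' hS heG hfG hef he hf hC'
          obtain ⟨T, hT⟩ := hD.ex
          refine ⟨dl Λ G, sup_dl, ?_⟩
          have h1 := right_dl hs sup_dl (dat_dl hD).ex hR
          rwa [dl_dl hD.sup hT] at h1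
      · obtain ⟨S, hS⟩ := hD.ex
        have hSG := sub_of_sup hS hD.sup
        have hcard := Finset.card_le_card hSG
        by_cases h1 : S.card ≤ 1
        · exact rk1 hD.sup hD.uz hS h1
        · by_cases h2 : G.card ≤ S.card + 1
          · exact cork1 hD.sup hD.uz hS h2
          · exact rk2 hD.sup hD.uz hS (by omega) (by omega)
    · unfold Conn at hC
      push Not at hC
      obtain ⟨A, hA, h, h0, h1⟩ := hC
      have hA1 : A.card < G.card := Finset.card_lt_card (Finset.ssubset_iff_subset_ne.2 ⟨hA, h1⟩)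
      have hA2 : (G \ A).card < G.card := by
        rw [Finset.card_sdiff_of_subset hA]
        have := Finset.card_pos.2 h0
        omega
      obtain ⟨Λ₁, s1, r1⟩ := ih' _ A hA1 (dat_part hD hA h)
      obtain ⟨Λ₂, s2, r2⟩ := ih' _ (G \ A) hA2 (dat_part hD Finset.sdiff_subset (compl_part hD.sup h))
      exact ⟨Λ₁ ⊔ Λ₂, right_sum hD.sup hA h hD.ex s1 s2 r1 r2⟩

end Pool.Agent.QUS
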