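import Pool.Agent.FRM.Defs2

/-!
# QUS: the lift of signs (layer C of (Q4), MP_f270bf_lc; paper proof /team-store/qu_sign.md). Definitions

`Λ` is always a LEFT submodule of `E → H`, `H` a (noncommutative) ring.  `IsB Λ S`: the projection of `Λ` to the coordinates in `S` is
bijective; `fv Λ S b` (`b ∈ S`) is the fundamental vector: `1` at `b`, `0` on the rest of `S`.  The matrix with respect to the basis `S` has the
entries `fv Λ S b e`.  No minors as types: deletion of `e` = `del Λ e` sets the coordinate `e` to zero, `Sup Λ G` = everything is supported in `G`.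
`Rq = O/2O` (16 elements `a + bε`, `a b : F4`, `ε a = a² ε`), `Hz = O` (Hurwitz integers `a + b i + c j + d ω`, `ω = (-1+i+j+k)/2`).
-/

set_option autoImplicit false

noncomputable section

open scoped Classical

namespace Pool.Agent.QUS

section Gen

variable {H : Type} [Ring H] {E : Type}

/-- `0` or a unit -/
def UZ (x : H) : Prop := x = 0 ∨ IsUnit x

/-- `S` is a basis of `Λ`: the projection to the coordinates in `S` is bijective -/
def IsB (Λ : Submodule H (E → H)) (S : Finset E) : Prop :=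
  (∀ v ∈ Λ, (∀ s ∈ S, v s = 0) → v = 0) ∧ ∀ b ∈ S, ∃ x ∈ Λ, x b = 1 ∧ ∀ s ∈ S, s ≠ b → x s = 0

/-- the fundamental vector of `b ∈ S` -/
def fv (Λ : Submodule H (E → H)) (S : Finset E) (b : E) : E → H :=
  if h : ∃ x ∈ Λ, x b = 1 ∧ ∀ s ∈ S, s ≠ b → x s = 0 then h.choose else 0

/-- restriction of a vector to the coordinates in `A` -/
def cut (A : Set E) : (E → H) →ₗ[H] (E → H) where
  toFun v g := if g ∈ A then v g else 0
  map_add' v w := by
    funext g
    by_cases h : g ∈ A <;> simp [h]
  map_smul' a v := by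
    funext g
    by_cases h : g ∈ A <;> simp [h]

/-- deletion of `e`: the coordinate `e` becomes zero -/
def del (Λ : Submodule H (E → H)) (e : E) : Submodule H (E → H) := Λ.map (cut {e}ᶜ)

/-- all vectors are supported in `G` -/
def Sup (Λ : Submodule H (E → H)) (G : Finset E) : Prop := ∀ v ∈ Λ, ∀ e, e ∉ G → v e = 0

/-- connected (not a direct sum), on the ground set `G` -/
def Conn (Λ : Submodule H (E → H)) (G : Finset E) : Prop :=
  ∀ A : Finset E, A ⊆ G → (∀ v ∈ Λ, cut (A : Set E) v ∈ Λ) → A = ∅ ∨ A = G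

/-- paths between elements of the basis `S` in the fundamental graph: `a - c - r - ... - b` -/
inductive Near (Λ : Submodule H (E → H)) (S : Finset E) : ℕ → E → E → Prop
  | zero (a : E) : a ∈ S → Near Λ S 0 a a
  | succ (m : ℕ) (a c r b : E) : a ∈ S → r ∈ S → c ∉ S → fv Λ S a c ≠ 0 → fv Λ S r c ≠ 0 → Near Λ S m r b →
      Near Λ S (m + 1) a b

/-- the Schur complement of the entry `(a,e)` in the block with the rows `a, b` and the columns `e, f` -/
def sc (Λ : Submodule H (E → H)) (S : Finset E) (a b e f : E) : H :=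
  fv Λ S b f - fv Λ S b e * Ring.inverse (fv Λ S a e) * fv Λ S a f

/-- the cross ratio of the columns `c, e` in the rows `a, b` (conjugated by a unit which depends only on `c` when the matrix is scaled) -/
def cX (Λ : Submodule H (E → H)) (S : Finset E) (a b c e : E) : H :=
  Ring.inverse (fv Λ S a c) * fv Λ S a e * Ring.inverse (fv Λ S b e) * fv Λ S b c

/-- the cross ratio of the rows `a, b` in the columns `e, f` (conjugated by a unit which depends only on `a` when the matrix is scaled) -/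
def rX (Λ : Submodule H (E → H)) (S : Finset E) (a b e f : E) : H :=
  fv Λ S a e * Ring.inverse (fv Λ S b e) * fv Λ S b f * Ring.inverse (fv Λ S a f)

/-- noncommutative on every `U_{2,5}`-minor (2 x 3 block) and on every `U_{3,5}`-minor (3 x 2 block) -/
structure NC (Λ : Submodule H (E → H)) : Prop where
  col : ∀ S, IsB Λ S → ∀ a ∈ S, ∀ b ∈ S, a ≠ b → ∀ c e f, c ∉ S → e ∉ S → f ∉ S →
    IsUnit (fv Λ S a c) → IsUnit (fv Λ S a e) → IsUnit (fv Λ S a f) →
    IsUnit (fv Λ S b c) → IsUnit (fv Λ S b e) → IsUnit (fv Λ S b f) →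
    IsUnit (sc Λ S a b c e) → IsUnit (sc Λ S a b c f) → IsUnit (sc Λ S a b e f) →
    ¬ Commute (cX Λ S a b c e) (cX Λ S a b c f)
  row : ∀ S, IsB Λ S → ∀ a ∈ S, ∀ b ∈ S, ∀ c ∈ S, a ≠ b → a ≠ c → b ≠ c → ∀ e f, e ∉ S → f ∉ S →
    IsUnit (fv Λ S a e) → IsUnit (fv Λ S b e) → IsUnit (fv Λ S c e) →
    IsUnit (fv Λ S a f) → IsUnit (fv Λ S b f) → IsUnit (fv Λ S c f) →
    IsUnit (sc Λ S a b e f) → IsUnit (sc Λ S a c e f) → IsUnit (sc Λ S b c e f) →
    ¬ Commute (rX Λ S a b e f) (rX Λ S a c e f)

/-- the matroid of `Λ` is representable over a field of characteristic zero (this excludes the Fano plane and its dual) -/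
def Ch (Λ : Submodule H (E → H)) : Prop :=
  ∃ (K : Type) (_ : Field K) (_ : CharZero K) (Φ : Submodule K (E → K)), ∀ S : Finset E, IsB Φ S ↔ IsB Λ S

/-- the hypotheses of the sign theorem: all entries with respect to all bases are zero or units, noncommutative, characteristic zero -/
structure Dat (Γ : Submodule H (E → H)) (G : Finset E) : Prop where
  sup : Sup Γ G
  ex : ∃ S, IsB Γ S
  uz : ∀ S, IsB Γ S → ∀ b ∈ S, ∀ e, UZ (fv Γ S b e)
  nc : NC Γ
  ch : Ch Γ

/-- the dual on the ground set `G` (again a left submodule) -/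
def dl [StarRing H] (Λ : Submodule H (E → H)) (G : Finset E) : Submodule H (E → H) where
  carrier := {y | (∀ e, e ∉ G → y e = 0) ∧ ∀ v ∈ Λ, ∑ e ∈ G, v e * star (y e) = 0}
  add_mem' := by
    rintro y z ⟨hy, hy'⟩ ⟨hz, hz'⟩
    refine ⟨fun e he => by simp [hy e he, hz e he], fun v hv => ?_⟩
    have h := congrArg₂ (· + ·) (hy' v hv) (hz' v hv)
    simpa [Finset.sum_add_distrib, mul_add] using h
  zero_mem' := ⟨fun e he => rfl, fun v hv => by simp⟩
  smul_mem' := by
    rintro a y ⟨hy, hy'⟩
    refine ⟨fun e he => by simp [hy e he], fun v hv => ?_⟩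
    have h := congrArg (· * star a) (hy' v hv)
    simp only [zero_mul, Finset.sum_mul] at h
    simpa [mul_assoc] using h

/-- change of the signs of the coordinates -/
def sg (s : E → ℤˣ) : (E → H) →ₗ[H] (E → H) where
  toFun v g := ((s g : ℤ) : H) * v g
  map_add' v w := by
    funext g
    simp [mul_add]
  map_smul' a v := by
    funext g
    simp only [Pi.smul_apply, smul_eq_mul, RingHom.id_apply]
    rw [← mul_assoc, ← mul_assoc, Int.cast_comm]

def tw (Λ : Submodule H (E → H)) (s : E → ℤˣ) : Submodule H (E → H) := Λ.map (sg s)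

end Gen

open Pool.Agent.FRM

/-! ### `R = O / 2 O` -/

/-- `a + b ε` with `ε a = a² ε`, `ε² = 0` -/
@[ext] structure Rq : Type where
  a : F4
  b : F4
  deriving DecidableEq

namespace Rq

instance : Zero Rq := ⟨⟨0, 0⟩⟩
instance : One Rq := ⟨⟨1, 0⟩⟩
instance : Add Rq := ⟨fun x y => ⟨x.a + y.a, x.b + y.b⟩⟩
instance : Neg Rq := ⟨fun x => x⟩
instance : Mul Rq := ⟨fun x y => ⟨x.a * y.a, x.a * y.b + x.b * y.a ^ 2⟩⟩

@[simp] theorem zero_a : (0 : Rq).a = 0 := rfl
@[simp] theorem zero_b : (0 : Rq).b = 0 := rfl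
@[simp] theorem one_a : (1 : Rq).a = 1 := rfl
@[simp] theorem one_b : (1 : Rq).b = 0 := rfl
@[simp] theorem add_a (x y : Rq) : (x + y).a = x.a + y.a := rfl
@[simp] theorem add_b (x y : Rq) : (x + y).b = x.b + y.b := rfl
@[simp] theorem neg_a (x : Rq) : (-x).a = x.a := rfl
@[simp] theorem neg_b (x : Rq) : (-x).b = x.b := rfl
@[simp] theorem mul_a (x y : Rq) : (x * y).a = x.a * y.a := rfl
@[simp] theorem mul_b (x y : Rq) : (x * y).b = x.a * y.b + x.b * y.a ^ 2 := rfl

private theorem f2 : ∀ x : F4, x + x = 0 := by decide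

private theorem sqa : ∀ x y : F4, (x + y) ^ 2 = x ^ 2 + y ^ 2 := by decide

instance : Ring Rq where
  add_assoc x y z := by ext <;> simp [add_assoc]
  zero_add x := by ext <;> simp
  add_zero x := by ext <;> simp
  add_comm x y := by ext <;> simp [add_comm]
  nsmul := nsmulRec
  zsmul := zsmulRec
  neg_add_cancel x := by ext <;> simp [f2]
  left_distrib x y z := by
    ext
    · simp [mul_add]
    · simp only [mul_b, add_b, add_a, sqa]
      ring
  right_distrib x y z := by
    ext
    · simp [add_mul]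
    · simp only [mul_b, add_b, add_a]
      ring
  zero_mul x := by ext <;> simp
  mul_zero x := by ext <;> simp
  mul_assoc x y z := by
    ext
    · simp [mul_assoc]
    · simp only [mul_b, mul_a]
      ring
  one_mul x := by ext <;> simp
  mul_one x := by ext <;> simp

instance : Star Rq := ⟨fun x => ⟨x.a ^ 2, x.b⟩⟩

@[simp] theorem star_a (x : Rq) : (star x).a = x.a ^ 2 := rfl
@[simp] theorem star_b (x : Rq) : (star x).b = x.b := rfl

private theorem p4 : ∀ x : F4, (x ^ 2) ^ 2 = x := by decide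

instance : StarRing Rq where
  star_involutive x := by
    ext
    · simp [p4]
    · simp
  star_mul x y := by
    ext
    · simp only [star_a, mul_a]
      ring
    · simp only [star_b, star_a, mul_b, p4]
      ring
  star_add x y := by
    ext
    · simp [sqa]
    · simp

end Rq

/-! ### Hurwitz integers -/

/-- `a + b i + c j + d ω`, `ω = (-1 + i + j + k) / 2` -/
@[ext] structure Hz : Type where
  a : ℤ
  b : ℤ
  c : ℤ
  d : ℤ
  deriving DecidableEq

namespace Hz

instance : Zero Hz := ⟨⟨0, 0, 0, 0⟩⟩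
instance : One Hz := ⟨⟨1, 0, 0, 0⟩⟩
instance : Add Hz := ⟨fun x y => ⟨x.a + y.a, x.b + y.b, x.c + y.c, x.d + y.d⟩⟩
instance : Neg Hz := ⟨fun x => ⟨-x.a, -x.b, -x.c, -x.d⟩⟩
instance : Mul Hz := ⟨fun x y =>
  ⟨x.a * y.a - x.b * y.b - x.c * y.c - x.d * y.d + x.b * y.c - x.c * y.b - x.d * y.b - x.c * y.d,
   x.a * y.b + x.b * y.a - x.b * y.c - x.b * y.d + x.c * y.b + x.c * y.d - x.d * y.c,
   x.a * y.c + x.c * y.a - x.b * y.c + x.c * y.b - x.b * y.d - x.d * y.c + x.d * y.b,
   x.a * y.d + x.d * y.a - x.d * y.d + 2 * (x.b * y.c - x.c * y.b) + x.b * y.d - x.d * y.b + x.d * y.c - x.c * y.d⟩⟩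

@[simp] theorem zero_a : (0 : Hz).a = 0 := rfl
@[simp] theorem zero_b : (0 : Hz).b = 0 := rfl
@[simp] theorem zero_c : (0 : Hz).c = 0 := rfl
@[simp] theorem zero_d : (0 : Hz).d = 0 := rfl
@[simp] theorem one_a : (1 : Hz).a = 1 := rfl
@[simp] theorem one_b : (1 : Hz).b = 0 := rfl
@[simp] theorem one_c : (1 : Hz).c = 0 := rfl
@[simp] theorem one_d : (1 : Hz).d = 0 := rfl
@[simp] theorem add_a (x y : Hz) : (x + y).a = x.a + y.a := rfl
@[simp] theorem add_b (x y : Hz) : (x + y).b = x.b + y.b := rfl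
@[simp] theorem add_c (x y : Hz) : (x + y).c = x.c + y.c := rfl
@[simp] theorem add_d (x y : Hz) : (x + y).d = x.d + y.d := rfl
@[simp] theorem neg_a (x : Hz) : (-x).a = -x.a := rfl
@[simp] theorem neg_b (x : Hz) : (-x).b = -x.b := rfl
@[simp] theorem neg_c (x : Hz) : (-x).c = -x.c := rfl
@[simp] theorem neg_d (x : Hz) : (-x).d = -x.d := rfl

theorem mul_def (x y : Hz) : x * y =
  ⟨x.a * y.a - x.b * y.b - x.c * y.c - x.d * y.d + x.b * y.c - x.c * y.b - x.d * y.b - x.c * y.d,
   x.a * y.b + x.b * y.a - x.b * y.c - x.b * y.d + x.c * y.b + x.c * y.d - x.d * y.c,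
   x.a * y.c + x.c * y.a - x.b * y.c + x.c * y.b - x.b * y.d - x.d * y.c + x.d * y.b,
   x.a * y.d + x.d * y.a - x.d * y.d + 2 * (x.b * y.c - x.c * y.b) + x.b * y.d - x.d * y.b + x.d * y.c - x.c * y.d⟩ :=
  rfl

instance : Ring Hz where
  add_assoc x y z := by ext <;> simp [add_assoc]
  zero_add x := by ext <;> simp
  add_zero x := by ext <;> simp
  add_comm x y := by ext <;> simp [add_comm]
  nsmul := nsmulRec
  zsmul := zsmulRec
  neg_add_cancel x := by ext <;> simp
  left_distrib x y z := by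
    ext <;> simp only [mul_def, add_a, add_b, add_c, add_d] <;> ring
  right_distrib x y z := by
    ext <;> simp only [mul_def, add_a, add_b, add_c, add_d] <;> ring
  zero_mul x := by ext <;> simp [mul_def]
  mul_zero x := by ext <;> simp [mul_def]
  mul_assoc x y z := by
    ext <;> simp only [mul_def] <;> ring
  one_mul x := by ext <;> simp [mul_def]
  mul_one x := by ext <;> simp [mul_def]

instance : Star Hz := ⟨fun x => ⟨x.a - x.d, -x.b, -x.c, -x.d⟩⟩

theorem star_def (x : Hz) : star x = ⟨x.a - x.d, -x.b, -x.c, -x.d⟩ := rfl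

instance : StarRing Hz where
  star_involutive x := by
    ext <;> simp [star_def]
  star_mul x y := by
    ext <;> simp only [star_def, mul_def] <;> ring
  star_add x y := by
    ext <;> simp only [star_def, add_a, add_b, add_c, add_d] <;> ring

/-- the norm -/
def N (x : Hz) : ℤ := x.a ^ 2 + x.b ^ 2 + x.c ^ 2 + x.d ^ 2 - x.a * x.d + x.b * x.d + x.c * x.d

end Hz

/-- reduction modulo two: `i ↦ 1 + ε`, `j ↦ 1 + w ε`, `ω ↦ w` -/
def red : Hz →+* Rq where
  toFun x := ⟨((x.a + x.b + x.c : ℤ) : F4) + (x.d : F4) * F4.w, (x.b : F4) + (x.c : F4) * F4.w⟩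
  map_zero' := by
    ext <;> simp
  map_one' := by
    ext <;> simp
  map_add' x y := by
    ext
    · simp only [Hz.add_a, Hz.add_b, Hz.add_c, Hz.add_d, Rq.add_a]
      push_cast
      ring
    · simp only [Hz.add_b, Hz.add_c, Rq.add_b]
      push_cast
      ring
  map_mul' x y := by
    have h2 : (2 : F4) = 0 := by decide
    have hw : (F4.w : F4) ^ 2 = F4.w + 1 := by decide
    have hi : ∀ n : ℤ, (n : F4) = 0 ∨ (n : F4) = 1 := by
      intro n
      rcases Int.even_or_odd' n with ⟨k, h | h⟩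
      · left
        rw [h]
        push_cast
        rw [h2, zero_mul]
      · right
        rw [h]
        push_cast
        rw [h2, zero_mul, zero_add]
    have hs : ∀ m n : ℤ, ((m : F4) + (n : F4) * F4.w) ^ 2 = (m : F4) + (n : F4) * (F4.w + 1) := by
      intro m n
      rcases hi m with h | h <;> rcases hi n with h' | h' <;> rw [h, h'] <;> decide
    ext
    · simp only [Hz.mul_def, Rq.mul_a]
      push_cast
      linear_combination (-(x.b : F4) * y.b - x.c * y.c - x.d * y.d - x.b * y.c - x.b * y.d - x.d * y.c +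
        F4.w * (-(x.d : F4) * y.d + x.b * y.c - x.c * y.b - x.d * y.b - x.c * y.d)) * h2 - (x.d : F4) * y.d * hw
    · simp only [Hz.mul_def, Rq.mul_b]
      rw [hs]
      push_cast
      linear_combination (-(x.b : F4) * y.c - x.b * y.d - x.d * y.c - x.b * y.b +
        F4.w * (-(x.b : F4) * y.c - x.b * y.d - x.d * y.c - x.c * y.c - x.c * y.d)) * h2 -
          ((x.d : F4) * y.c + x.c * y.d) * hw

/-- the embedding of the Hurwitz integers into the rational quaternions -/
def emb : Hz →+* Hq where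
  toFun x := ⟨x.a - x.d / 2, x.b + x.d / 2, x.c + x.d / 2, x.d / 2⟩
  map_zero' := by
    ext <;> simp <;> rfl
  map_one' := by
    ext <;> simp <;> rfl
  map_add' x y := by
    ext <;> simp <;> ring
  map_mul' x y := by
    ext <;> simp [Hz.mul_def] <;> ring

section Right

variable {E : Type}

/-- `Λ` is a right lift of `Γ`: with respect to every basis of `Γ` all entries of `Λ` are `0` or units and reduce to the entries of `Γ` -/
def Right (Λ : Submodule Hz (E → Hz)) (Γ : Submodule Rq (E → Rq)) : Prop :=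
  ∀ S, IsB Γ S → IsB Λ S ∧ ∀ b ∈ S, ∀ e, UZ (fv Λ S b e) ∧ red (fv Λ S b e) = fv Γ S b e

end Right

end Pool.Agent.QUS
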