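import Pool.Agent.QUS.Cn

/-!
# QUS/Dg: a basis whose fundamental graph has a vertex of degree three

`adj Γ S x y`: `x ∈ S`, `y ∉ S`, `fv x y ≠ 0` or vice versa.  (1) Path of five vertices: if at some basis there are distinct `v₁ .. v₅` with `v_i` adjacent to `v_{i+1}`, then some basis has a vertex of degree three.  Case `v₁, v₃, v₅ ∈ S`
(columns `v₂, v₄`): if `fv v₁ v₄ ≠ 0`, the column `v₄` has the neighbours `v₁, v₃, v₅`; otherwise pivot at `(v₃, v₂)`: at `pv S v₃ v₂` the column `v₄` has the neighbours `v₂` (row), `v₁` (`fv' v₁ v₄ = - fv v₁ v₂ (fv v₃ v₂)⁻¹ fv v₃ v₄`), and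
`v₅` if `fv v₅ v₂ = 0` (if `fv v₅ v₂ ≠ 0` the column `v₂` has the neighbours `v₁, v₃, v₅` at `S`).  Case `v₂, v₄ ∈ S` (columns `v₁, v₃, v₅`): if `fv v₂ v₅ ≠ 0` or `fv v₄ v₁ ≠ 0` degree three at `S`; otherwise pivot at `(v₂, v₃)`: the row `v₄` has the
neighbours `v₂`, `v₁`, `v₅`.  (2) In a connected graph with at least five vertices and all degrees at most two there is a path with five vertices: start with an edge, enlarge a path at its ends as long as possible (inner vertices are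
saturated; `graph_of_conn` for the set of the vertices of the path: an edge leaves it, at an end).
-/

set_option autoImplicit false

noncomputable section

open scoped Classical

namespace Pool.Agent.QUS

variable {E : Type} {Γ : Submodule Rq (E → Rq)} {G : Finset E}

/-- adjacency in the fundamental graph of the basis `S` -/
def adj (Γ : Submodule Rq (E → Rq)) (S : Finset E) (x y : E) : Prop :=
  (x ∈ S ∧ y ∉ S ∧ fv Γ S x y ≠ 0) ∨ (y ∈ S ∧ x ∉ S ∧ fv Γ S y x ≠ 0)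

theorem adj_symm {S : Finset E} {x y : E} (h : adj Γ S x y) : adj Γ S y x := h.symm

private theorem qdg_leave {S : Finset E} (hG : Sup Γ G) (hS : IsB Γ S) (hC : Conn Γ G) (A : Finset E) (hA : A ⊆ G)
    (hne : A.Nonempty) (hcard : A.card < G.card) : ∃ x ∈ A, ∃ y ∈ G, y ∉ A ∧ adj Γ S x y := by
  by_contra hcon
  push Not at hcon
  have hSG : S ⊆ G := sub_of_sup hS hG
  have key : ∀ b ∈ S, ∀ e ∈ G, fv Γ S b e ≠ 0 → (b ∈ A ↔ e ∈ A) := by
    intro b hb e he hbe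
    by_cases heS : e ∈ S
    · have h1 : e = b := by
        by_contra h2
        exact hbe (fv_oth hS hb heS h2)
      rw [h1]
    · constructor
      · intro hbA
        by_contra heA
        exact hcon b hbA e he heA (Or.inl ⟨hb, heS, hbe⟩)
      · intro heA
        by_contra hbA
        exact hcon e heA b (hSG hb) hbA (Or.inr ⟨hb, heS, hbe⟩)
  rcases graph_of_conn hG hS hC A hA key with h | h
  · rw [h] at hne
    exact Finset.not_nonempty_empty hne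
  · rw [h] at hcard
    exact lt_irrefl _ hcard

private theorem qdg_unit (hU : ∀ S, IsB Γ S → ∀ b ∈ S, ∀ e, UZ (fv Γ S b e)) {S : Finset E} (hS : IsB Γ S) {b : E} (hb : b ∈ S)
    {e : E} (h : fv Γ S b e ≠ 0) : IsUnit (fv Γ S b e) :=
  (hU S hS b hb e).resolve_left h

private theorem qdg_mem {S : Finset E} {x y : E} (h : adj Γ S x y) (hx : x ∈ S) : y ∉ S ∧ fv Γ S x y ≠ 0 := by
  rcases h with h | h
  · exact ⟨h.2.1, h.2.2⟩
  · exact absurd hx h.2.1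

private theorem qdg_mem' {S : Finset E} {x y : E} (h : adj Γ S x y) (hx : x ∉ S) : y ∈ S ∧ fv Γ S y x ≠ 0 := by
  rcases h with h | h
  · exact absurd h.1 hx
  · exact ⟨h.1, h.2.2⟩

private theorem qdg_path (hU : ∀ S, IsB Γ S → ∀ b ∈ S, ∀ e, UZ (fv Γ S b e))
    (hno : ∀ S, IsB Γ S → ∀ w x₁ x₂ x₃ : E, w ∈ G → x₁ ∈ G → x₂ ∈ G → x₃ ∈ G → adj Γ S w x₁ → adj Γ S w x₂ →
      adj Γ S w x₃ → x₁ ≠ x₂ → x₁ ≠ x₃ → x₂ ≠ x₃ → False)
    {S : Finset E} (hS : IsB Γ S) {v₁ v₂ v₃ v₄ v₅ : E} (h1 : v₁ ∈ G) (h2 : v₂ ∈ G) (h3 : v₃ ∈ G) (h4 : v₄ ∈ G) (h5 : v₅ ∈ G)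
    (h12 : v₁ ≠ v₂) (h13 : v₁ ≠ v₃) (h14 : v₁ ≠ v₄) (h15 : v₁ ≠ v₅) (h23 : v₂ ≠ v₃) (h24 : v₂ ≠ v₄) (h25 : v₂ ≠ v₅)
    (h34 : v₃ ≠ v₄) (h35 : v₃ ≠ v₅) (h45 : v₄ ≠ v₅) (a12 : adj Γ S v₁ v₂) (a23 : adj Γ S v₂ v₃) (a34 : adj Γ S v₃ v₄)
    (a45 : adj Γ S v₄ v₅) : False := by
  by_cases hv3 : v₃ ∈ S
  · obtain ⟨hv2, f32⟩ := qdg_mem (adj_symm a23) hv3
    obtain ⟨hv4, f34⟩ := qdg_mem a34 hv3
    obtain ⟨hv1, f12⟩ := qdg_mem' (adj_symm a12) hv2
    obtain ⟨hv5, f54⟩ := qdg_mem' a45 hv4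
    by_cases f14 : fv Γ S v₁ v₄ = 0
    · by_cases f52 : fv Γ S v₅ v₂ = 0
      · have u32 := qdg_unit hU hS hv3 f32
        have hS' := piv hS hv3 hv2 u32
        have m2 : v₂ ∈ pv S v₃ v₂ := mem_pv.2 (Or.inl rfl)
        have m1 : v₁ ∈ pv S v₃ v₂ := mem_pv.2 (Or.inr ⟨h13, hv1⟩)
        have m5 : v₅ ∈ pv S v₃ v₂ := mem_pv.2 (Or.inr ⟨h35.symm, hv5⟩)
        have m4 : v₄ ∉ pv S v₃ v₂ := by
          intro h
          rcases mem_pv.1 h with h | h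
          · exact h24 h.symm
          · exact hv4 h.2
        have u34 := qdg_unit hU hS hv3 f34
        have u12 := qdg_unit hU hS hv1 f12
        refine hno _ hS' v₄ v₂ v₁ v₅ h4 h2 h1 h5 (Or.inr ⟨m2, m4, ?_⟩) (Or.inr ⟨m1, m4, ?_⟩) (Or.inr ⟨m5, m4, ?_⟩) h12.symm h25 h15
        · rw [piv_new hS hv3 hv2 u32]
          exact (u32.ringInverse.mul u34).ne_zero
        · rw [piv_old_apply hS hv3 hv2 u32 hv1 h13, sc, f14, zero_sub]
          exact ((u12.mul u32.ringInverse).mul u34).neg.ne_zero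
        · rw [piv_old_apply hS hv3 hv2 u32 hv5 h35.symm, sc, f52, zero_mul, zero_mul, sub_zero]
          exact f54
      · exact hno S hS v₂ v₁ v₃ v₅ h2 h1 h3 h5 (Or.inr ⟨hv1, hv2, f12⟩) (Or.inr ⟨hv3, hv2, f32⟩) (Or.inr ⟨hv5, hv2, f52⟩)
          h13 h15 h35
    · exact hno S hS v₄ v₁ v₃ v₅ h4 h1 h3 h5 (Or.inr ⟨hv1, hv4, f14⟩) (Or.inr ⟨hv3, hv4, f34⟩) (Or.inr ⟨hv5, hv4, f54⟩)
        h13 h15 h35
  · obtain ⟨hv2, f23⟩ := qdg_mem' (adj_symm a23) hv3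
    obtain ⟨hv4, f43⟩ := qdg_mem' a34 hv3
    obtain ⟨hv1, f21⟩ := qdg_mem (adj_symm a12) hv2
    obtain ⟨hv5, f45⟩ := qdg_mem a45 hv4
    by_cases f25 : fv Γ S v₂ v₅ = 0
    · by_cases f41 : fv Γ S v₄ v₁ = 0
      · have u23 := qdg_unit hU hS hv2 f23
        have hS' := piv hS hv2 hv3 u23
        have m4 : v₄ ∈ pv S v₂ v₃ := mem_pv.2 (Or.inr ⟨h24.symm, hv4⟩)
        have m2 : v₂ ∉ pv S v₂ v₃ := by
          intro h
          rcases mem_pv.1 h with h | h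
          · exact h23 h
          · exact h.1 rfl
        have m1 : v₁ ∉ pv S v₂ v₃ := by
          intro h
          rcases mem_pv.1 h with h | h
          · exact h13 h
          · exact hv1 h.2
        have m5 : v₅ ∉ pv S v₂ v₃ := by
          intro h
          rcases mem_pv.1 h with h | h
          · exact h35 h.symm
          · exact hv5 h.2
        have u43 := qdg_unit hU hS hv4 f43
        have u21 := qdg_unit hU hS hv2 f21
        refine hno _ hS' v₄ v₂ v₁ v₅ h4 h2 h1 h5 (Or.inl ⟨m4, m2, ?_⟩) (Or.inl ⟨m4, m1, ?_⟩) (Or.inl ⟨m4, m5, ?_⟩) h12.symm h25 h15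
        · rw [piv_old_apply hS hv2 hv3 u23 hv4 h24.symm, sc, fv_oth hS hv4 hv2 h24, fv_self hS hv2, mul_one, zero_sub]
          exact (u43.mul u23.ringInverse).neg.ne_zero
        · rw [piv_old_apply hS hv2 hv3 u23 hv4 h24.symm, sc, f41, zero_sub]
          exact ((u43.mul u23.ringInverse).mul u21).neg.ne_zero
        · rw [piv_old_apply hS hv2 hv3 u23 hv4 h24.symm, sc, f25, mul_zero, sub_zero]
          exact f45
      · exact hno S hS v₄ v₃ v₅ v₁ h4 h3 h5 h1 (Or.inl ⟨hv4, hv3, f43⟩) (Or.inl ⟨hv4, hv5, f45⟩) (Or.inl ⟨hv4, hv1, f41⟩)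
          h35 h13.symm h15.symm
    · exact hno S hS v₂ v₁ v₃ v₅ h2 h1 h3 h5 (Or.inl ⟨hv2, hv1, f21⟩) (Or.inl ⟨hv2, hv3, f23⟩) (Or.inl ⟨hv2, hv5, f25⟩)
        h13 h15 h35

theorem deg3 (hG : Sup Γ G) (hex : ∃ S, IsB Γ S) (hU : ∀ S, IsB Γ S → ∀ b ∈ S, ∀ e, UZ (fv Γ S b e)) (hC : Conn Γ G)
    (h5 : 5 ≤ G.card) : ∃ S, IsB Γ S ∧ ∃ w x₁ x₂ x₃ : E, w ∈ G ∧ x₁ ∈ G ∧ x₂ ∈ G ∧ x₃ ∈ G ∧ adj Γ S w x₁ ∧ adj Γ S w x₂ ∧
      adj Γ S w x₃ ∧ x₁ ≠ x₂ ∧ x₁ ≠ x₃ ∧ x₂ ≠ x₃ := by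
  obtain ⟨S, hS⟩ := hex
  by_contra hcon
  have hno : ∀ S, IsB Γ S → ∀ w x₁ x₂ x₃ : E, w ∈ G → x₁ ∈ G → x₂ ∈ G → x₃ ∈ G → adj Γ S w x₁ → adj Γ S w x₂ →
      adj Γ S w x₃ → x₁ ≠ x₂ → x₁ ≠ x₃ → x₂ ≠ x₃ → False := by
    intro S hS w x₁ x₂ x₃ hw h1 h2 h3 a1 a2 a3 n1 n2 n3
    exact hcon ⟨S, hS, w, x₁, x₂, x₃, hw, h1, h2, h3, a1, a2, a3, n1, n2, n3⟩
  have p1 : ∃ a ∈ G, True := by
    have : G.Nonempty := by
      rw [← Finset.card_pos]
      omega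
    obtain ⟨a, ha⟩ := this
    exact ⟨a, ha, trivial⟩
  have p2 : ∃ a b : E, a ∈ G ∧ b ∈ G ∧ a ≠ b ∧ adj Γ S a b := by
    obtain ⟨a, ha, -⟩ := p1
    obtain ⟨x, hx, y, hy, hyA, had⟩ := qdg_leave hG hS hC {a} (by simpa using ha) ⟨a, by simp⟩ (by simp; omega)
    simp only [Finset.mem_singleton] at hx hyA
    subst hx
    exact ⟨x, y, ha, hy, fun h => hyA h.symm, had⟩
  have p3 : ∃ a b c : E, a ∈ G ∧ b ∈ G ∧ c ∈ G ∧ a ≠ b ∧ a ≠ c ∧ b ≠ c ∧ adj Γ S a b ∧ adj Γ S b c := by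
    obtain ⟨a, b, ha, hb, hab, had⟩ := p2
    have hle : ({a, b} : Finset E).card ≤ 2 := Finset.card_le_two
    obtain ⟨x, hx, y, hy, hyA, hxy⟩ := qdg_leave hG hS hC {a, b}
      (by
        intro z hz
        simp only [Finset.mem_insert, Finset.mem_singleton] at hz
        rcases hz with rfl | rfl <;> assumption) ⟨a, by simp⟩ (by omega)
    simp only [Finset.mem_insert, Finset.mem_singleton, not_or] at hx hyA
    obtain ⟨ya, yb⟩ := hyA
    rcases hx with rfl | rfl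
    · exact ⟨y, x, b, hy, ha, hb, ya, yb, hab, adj_symm hxy, had⟩
    · exact ⟨a, x, y, ha, hb, hy, hab, fun h => ya h.symm, fun h => yb h.symm, had, hxy⟩
  have p4 : ∃ a b c d : E, a ∈ G ∧ b ∈ G ∧ c ∈ G ∧ d ∈ G ∧ a ≠ b ∧ a ≠ c ∧ a ≠ d ∧ b ≠ c ∧ b ≠ d ∧ c ≠ d ∧
      adj Γ S a b ∧ adj Γ S b c ∧ adj Γ S c d := by
    obtain ⟨a, b, c, ha, hb, hc, hab, hac, hbc, had, hbd⟩ := p3
    have hle : ({a, b, c} : Finset E).card ≤ 3 := Finset.card_le_three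
    obtain ⟨x, hx, y, hy, hyA, hxy⟩ := qdg_leave hG hS hC {a, b, c}
      (by
        intro z hz
        simp only [Finset.mem_insert, Finset.mem_singleton] at hz
        rcases hz with rfl | rfl | rfl <;> assumption) ⟨a, by simp⟩ (by omega)
    simp only [Finset.mem_insert, Finset.mem_singleton, not_or] at hx hyA
    obtain ⟨ya, yb, yc⟩ := hyA
    rcases hx with rfl | rfl | rfl
    · exact ⟨y, x, b, c, hy, ha, hb, hc, ya, yb, yc, hab, hac, hbc, adj_symm hxy, had, hbd⟩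
    · exact absurd (hno S hS x a c y hb ha hc hy (adj_symm had) hbd hxy hac (fun h => ya h.symm) (fun h => yc h.symm)) id
    · exact ⟨a, b, x, y, ha, hb, hc, hy, hab, hac, fun h => ya h.symm, hbc, fun h => yb h.symm, fun h => yc h.symm,
        had, hbd, hxy⟩
  obtain ⟨a, b, c, d, ha, hb, hc, hd, hab, hac, had, hbc, hbd, hcd, e1, e2, e3⟩ := p4
  have hle : ({a, b, c, d} : Finset E).card ≤ 4 := Finset.card_le_four
  obtain ⟨x, hx, y, hy, hyA, hxy⟩ := qdg_leave hG hS hC {a, b, c, d}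
    (by
      intro z hz
      simp only [Finset.mem_insert, Finset.mem_singleton] at hz
      rcases hz with rfl | rfl | rfl | rfl <;> assumption) ⟨a, by simp⟩ (by omega)
  simp only [Finset.mem_insert, Finset.mem_singleton, not_or] at hx hyA
  obtain ⟨ya, yb, yc, yd⟩ := hyA
  rcases hx with rfl | rfl | rfl | rfl
  · exact qdg_path hU hno hS hy ha hb hc hd ya yb yc yd hab hac had hbc hbd hcd (adj_symm hxy) e1 e2 e3
  · exact hno S hS x a c y hb ha hc hy (adj_symm e1) e2 hxy hac (fun h => ya h.symm) (fun h => yc h.symm)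
  · exact hno S hS x b d y hc hb hd hy (adj_symm e2) e3 hxy hbd (fun h => yb h.symm) (fun h => yd h.symm)
  · exact qdg_path hU hno hS ha hb hc hd hy hab hac had (fun h => ya h.symm) hbc hbd (fun h => yb h.symm) hcd
      (fun h => yc h.symm) (fun h => yd h.symm) e1 e2 e3 hxy

end Pool.Agent.QUS
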