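import Pool.Agent.QUS.Rd

/-!
# QUS/Fc2: finite fact 2: the 3 x 4 block (S2)

Columns `c1 = (1,-1,0)`, `c2 = (0,1,-1)`, `e = (1,p,q)`, `f = (1,s,t)`.  Kernel `decide` over the list of the pairs `(p,q)` of units with `N (1+p)`, `N (p+q)`,
`N (1+p+q) <= 1` (49 pairs): for all pairs of such pairs with the conditions `m1 .. m4` either `N (t - q) <= 2` or `p, q, s, t` commute (and `N (t-q) = 3`,
`s <> p`, `t <> q * p⁻¹ * s`).  Inverse of a unit = `star`.  `N (t - q) = 2` contradicts `hr`.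
-/

set_option autoImplicit false

noncomputable section

open scoped Classical

namespace Pool.Agent.QUS

/-- sum -/
private def Fc2_ad (x y : Hz) : Hz := ⟨x.a + y.a, x.b + y.b, x.c + y.c, x.d + y.d⟩

/-- difference -/
private def Fc2_sb (x y : Hz) : Hz := ⟨x.a + -y.a, x.b + -y.b, x.c + -y.c, x.d + -y.d⟩

/-- product -/
private def Fc2_ml (x y : Hz) : Hz :=
  ⟨x.a * y.a - x.b * y.b - x.c * y.c - x.d * y.d + x.b * y.c - x.c * y.b - x.d * y.b - x.c * y.d,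
   x.a * y.b + x.b * y.a - x.b * y.c - x.b * y.d + x.c * y.b + x.c * y.d - x.d * y.c,
   x.a * y.c + x.c * y.a - x.b * y.c + x.c * y.b - x.b * y.d - x.d * y.c + x.d * y.b,
   x.a * y.d + x.d * y.a - x.d * y.d + 2 * (x.b * y.c - x.c * y.b) + x.b * y.d - x.d * y.b + x.d * y.c - x.c * y.d⟩

/-- conjugate -/
private def Fc2_st (x : Hz) : Hz := ⟨x.a - x.d, -x.b, -x.c, -x.d⟩

/-- norm -/
private def Fc2_nm (x : Hz) : ℤ :=
  x.a * x.a + x.b * x.b + x.c * x.c + x.d * x.d - x.a * x.d + x.b * x.d + x.c * x.d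

/-- the norm is at most one -/
private def Fc2_sm (x : Hz) : Bool := Int.ble' (Fc2_nm x) 1

/-- equality -/
private def Fc2_eq (x y : Hz) : Bool :=
  Int.beq' x.a y.a && (Int.beq' x.b y.b && (Int.beq' x.c y.c && Int.beq' x.d y.d))

private def Fc2_pair (x : Hz × Hz) : Bool :=
  Fc2_sm (Fc2_ad ⟨1, 0, 0, 0⟩ x.1) && (Fc2_sm (Fc2_ad x.1 x.2) && Fc2_sm (Fc2_ad (Fc2_ad ⟨1, 0, 0, 0⟩ x.1) x.2))

/-- the 49 pairs -/
private def Fc2_L : List (Hz × Hz) := (unitsL.product unitsL).filter Fc2_pair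

private def Fc2_T (x y : Hz × Hz) : Bool :=
  !(Fc2_sm (Fc2_sb y.1 x.1)) ||
  (!(Fc2_sm (Fc2_sb (Fc2_ad y.1 y.2) (Fc2_ad x.1 x.2))) ||
  (!(Fc2_sm (Fc2_sb y.2 (Fc2_ml (Fc2_ml x.2 (Fc2_st x.1)) y.1))) ||
  (!(Fc2_sm (Fc2_sb y.2 (Fc2_ml (Fc2_ml x.2 (Fc2_st (Fc2_ad ⟨1, 0, 0, 0⟩ x.1))) (Fc2_ad ⟨1, 0, 0, 0⟩ y.1)))) ||
  (Fc2_sm (Fc2_sb y.2 x.2) ||
  (Int.beq' (Fc2_nm (Fc2_sb y.2 x.2)) 2 ||
  (Int.beq' (Fc2_nm (Fc2_sb y.2 x.2)) 3 &&
    (!(Fc2_eq y.1 x.1) && (!(Fc2_eq y.2 (Fc2_ml (Fc2_ml x.2 (Fc2_st x.1)) y.1)) &&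
      Fc2_eq (Fc2_ml (Fc2_ml (Fc2_st x.1) y.1) (Fc2_ml (Fc2_st x.2) y.2))
        (Fc2_ml (Fc2_ml (Fc2_st x.2) y.2) (Fc2_ml (Fc2_st x.1) y.1))))))))))

private theorem Fc2_len : Fc2_L.length = 49 := by decide +kernel

private theorem Fc2_all : (Fc2_L.all fun x => Fc2_L.all fun y => Fc2_T x y) = true := by
  decide +kernel

private theorem Fc2_nm' (x : Hz) : Fc2_nm x = x.N := by
  unfold Fc2_nm Hz.N
  ring

private theorem Fc2_uz {x : Hz} : UZ x ↔ x.N ≤ 1 := by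
  have h0 := N_nonneg x
  constructor
  · rintro (h | h)
    · rw [N_eq_zero.2 h]; norm_num
    · rw [hz_unit.1 h]
  · intro h
    rcases (by omega : x.N = 0 ∨ x.N = 1) with h1 | h1
    · exact Or.inl (N_eq_zero.1 h1)
    · exact Or.inr (hz_unit.2 h1)

private theorem Fc2_sm' {x : Hz} : Fc2_sm x = true ↔ UZ x := by
  unfold Fc2_sm
  rw [Int.ble'_eq_true, Fc2_nm', Fc2_uz]

private theorem Fc2_ad' (x y : Hz) : Fc2_ad x y = x + y := rfl

private theorem Fc2_sb' (x y : Hz) : Fc2_sb x y = x - y := by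
  rw [sub_eq_add_neg]
  rfl

private theorem Fc2_ml' (x y : Hz) : Fc2_ml x y = x * y := rfl

private theorem Fc2_st' (x : Hz) : Fc2_st x = star x := rfl

private theorem Fc2_eq' {x y : Hz} : Fc2_eq x y = true ↔ x = y := by
  unfold Fc2_eq
  rw [Bool.and_eq_true, Bool.and_eq_true, Bool.and_eq_true, Int.beq'_eq, Int.beq'_eq, Int.beq'_eq,
    Int.beq'_eq]
  constructor
  · rintro ⟨h1, h2, h3, h4⟩
    exact Hz.ext h1 h2 h3 h4
  · rintro rfl
    exact ⟨rfl, rfl, rfl, rfl⟩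

private theorem Fc2_one : (⟨1, 0, 0, 0⟩ : Hz) = 1 := rfl

private theorem Fc2_inv {x : Hz} (hx : IsUnit x) : Ring.inverse x = star x := by
  have h1 : x * star x = 1 := by
    rw [mul_star_self', hz_unit.1 hx, Int.cast_one]
  calc Ring.inverse x = Ring.inverse x * (x * star x) := by rw [h1, mul_one]
    _ = star x := by rw [← mul_assoc, Ring.inverse_mul_cancel x hx, one_mul]

private theorem Fc2_mem {p q : Hz} (hp : IsUnit p) (hq : IsUnit q) (h1 : UZ (1 + p)) (h2 : UZ (p + q))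
    (h3 : UZ (1 + p + q)) : (p, q) ∈ Fc2_L := by
  unfold Fc2_L
  rw [List.mem_filter]
  refine ⟨List.mem_product.2 ⟨mem_unitsL.2 hp, mem_unitsL.2 hq⟩, ?_⟩
  unfold Fc2_pair
  rw [Bool.and_eq_true, Bool.and_eq_true, Fc2_sm', Fc2_sm', Fc2_sm', Fc2_one]
  exact ⟨h1, h2, h3⟩

private theorem Fc2_fact {p q s t : Hz} (hp : IsUnit p) (hq : IsUnit q) (hs : IsUnit s) (ht : IsUnit t)
    (h1 : UZ (1 + p)) (h2 : UZ (p + q)) (h3 : UZ (1 + p + q)) (h1' : UZ (1 + s)) (h2' : UZ (s + t)) (h3' : UZ (1 + s + t))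
    (m1 : UZ (s - p)) (m2 : UZ (t - q * star p * s)) (m3 : 1 + p ≠ 0 → UZ (t - q * star (1 + p) * (1 + s)))
    (m4 : UZ (s + t - (p + q))) :
    UZ (t - q) ∨ (t - q).N = 2 ∨ ((t - q).N = 3 ∧ s ≠ p ∧ t ≠ q * star p * s ∧
      (star p * s) * (star q * t) = (star q * t) * (star p * s)) := by
  have h := Fc2_all
  rw [List.all_eq_true] at h
  have h4 := h _ (Fc2_mem hp hq h1 h2 h3)
  rw [List.all_eq_true] at h4
  have h5 := h4 _ (Fc2_mem hs ht h1' h2' h3')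
  unfold Fc2_T at h5
  simp only [Fc2_ad', Fc2_sb', Fc2_ml', Fc2_st', Fc2_one, Bool.or_eq_true, Bool.and_eq_true,
    Bool.not_eq_true', ← Bool.not_eq_true, Fc2_sm', Fc2_eq', Int.beq'_eq, Fc2_nm'] at h5
  rcases h5 with h5 | h5 | h5 | h5 | h5 | h5 | h5
  · exact absurd m1 h5
  · exact absurd m4 h5
  · exact absurd m2 h5
  · by_cases h6 : 1 + p = 0
    · exfalso
      apply h5
      rw [h6, star_zero, mul_zero, zero_mul, sub_zero]
      exact Or.inr ht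
    · exact absurd (m3 h6) h5
  · exact Or.inl h5
  · exact Or.inr (Or.inl h5)
  · exact Or.inr (Or.inr h5)

/-- (S2) with nonzero middle row -/
theorem blk7 {p q s t : Hz} (hp : IsUnit p) (hq : IsUnit q) (hs : IsUnit s) (ht : IsUnit t)
    (h1 : UZ (1 + p)) (h2 : UZ (p + q)) (h3 : UZ (1 + p + q)) (h1' : UZ (1 + s)) (h2' : UZ (s + t)) (h3' : UZ (1 + s + t))
    (m1 : UZ (s - p)) (m2 : UZ (t - q * Ring.inverse p * s)) (m3 : 1 + p ≠ 0 → UZ (t - q * Ring.inverse (1 + p) * (1 + s)))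
    (m4 : UZ (s + t - (p + q))) (hr : UZ (red (t - q)))
    (hc : IsUnit (red (s - p)) → IsUnit (red (t - q)) → IsUnit (red (t - q * Ring.inverse p * s)) →
      ¬ Commute (red (Ring.inverse p * s)) (red (Ring.inverse q * t))) :
    UZ (t - q) := by
  rw [Fc2_inv hp] at m2 hc
  rw [Fc2_inv hq] at hc
  have m3' : 1 + p ≠ 0 → UZ (t - q * star (1 + p) * (1 + s)) := by
    intro h
    have h4 : IsUnit (1 + p) := by
      rcases h1 with h5 | h5
      · exact absurd h5 h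
      · exact h5
    rw [← Fc2_inv h4]
    exact m3 h
  rcases Fc2_fact hp hq hs ht h1 h2 h3 h1' h2' h3' m1 m2 m3' m4 with h | h | ⟨h, h5, h6, h7⟩
  · exact h
  · exfalso
    rcases hr with h4 | h4
    · obtain ⟨y, hy⟩ := red_eq_zero.1 h4
      have h8 : (2 : Hz).N = 4 := by
        rw [← one_add_one_eq_two]
        rfl
      rw [hy, N_mul, h8] at h
      omega
    · have h8 := red_unit_iff.1 h4
      rw [h] at h8
      exact absurd h8 (by decide)
  · exfalso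
    have u1 : IsUnit (s - p) := by
      rcases m1 with h4 | h4
      · exact absurd (sub_eq_zero.1 h4) h5
      · exact h4
    have u2 : IsUnit (t - q * star p * s) := by
      rcases m2 with h4 | h4
      · exact absurd (sub_eq_zero.1 h4) h6
      · exact h4
    have u3 : IsUnit (red (t - q)) := by
      rw [red_unit_iff, h]
      decide
    refine hc (red_unit u1) u3 (red_unit u2) ?_
    show red (star p * s) * red (star q * t) = red (star q * t) * red (star p * s)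
    rw [← map_mul, ← map_mul, h7]

end Pool.Agent.QUS
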