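import Pool.Agent.QUS.Rd
import Pool.Agent.FRM.Qdt

/-!
# QUS/Mt: the quaternionic matrix and its determinants

`A i j = emb (fv Λ B (b_i) j)`, `B = {b_0 < .. < b_{r-1}}`.  (1) `dC` is multiplicative; a pivot multiplies the rows by an invertible matrix whose `dC` is `normSq` of the pivot entry = 1, so `dC (A_S)` computed from the basis `B'` instead of `B` is the same;
by `piv_ind` (from `B` to `S`) it is `dC 1 = 1` for a basis `S` (columns up to order: `dC_perm`).  Simplest: for every `S` of cardinality `r` the number `dC (A'_S)` does not depend on the basis `B'` used for the rows (one pivot at a time: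
`A'' = P A'`, `P` = elementary matrices, `dC P = 1` because `normSq` of a unit is `1`); if `S` is a basis take `B' = S`; if not take a basis `B'` with `(B' ∩ S).card` maximal: for `b ∈ B' \ S` the row `fv Λ B' b` vanishes on `S` (an entry
`e ∈ S \ B'` with `fv b e ≠ 0` would give the better basis `pv B' b e`), so `dC = 0` (`dC_zero_row`).
-/

set_option autoImplicit false

noncomputable section

open scoped Classical

namespace Pool.Agent.QUS

open Pool.Agent.FRM

/-- `f` enumerates `S` -/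
private def Mt_En {n r : ℕ} (f : Fin r → Fin n) (S : Finset (Fin n)) : Prop :=
  Function.Injective f ∧ ∀ x, x ∈ S ↔ ∃ i, f i = x

/-- the matrix of the fundamental vectors -/
private def Mt_A {n r : ℕ} (Λ : Submodule Hz (Fin n → Hz)) (B : Finset (Fin n)) (f : Fin r → Fin n) :
    Matrix (Fin r) (Fin n) Hq := fun i j => emb (fv Λ B (f i) j)

private theorem Mt_order {n r : ℕ} (S : Finset (Fin n)) (hS : S.card = r) : Mt_En (S.orderEmbOfFin hS) S := by
  refine ⟨(S.orderEmbOfFin hS).injective, fun x => ?_⟩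
  have h := Finset.range_orderEmbOfFin S hS
  rw [← Finset.mem_coe, ← h, Set.mem_range]

private theorem Mt_mem {n r : ℕ} {f : Fin r → Fin n} {S : Finset (Fin n)} (h : Mt_En f S) (i : Fin r) : f i ∈ S :=
  (h.2 _).2 ⟨i, rfl⟩

private theorem Mt_card {n r : ℕ} {f : Fin r → Fin n} {S : Finset (Fin n)} (h : Mt_En f S) : S.card = r := by
  have h1 : S = Finset.univ.map ⟨f, h.1⟩ := by
    ext x
    rw [h.2 x]
    simp
  rw [h1, Finset.card_map, Finset.card_univ, Fintype.card_fin]

private theorem Mt_perm {n r : ℕ} {f g : Fin r → Fin n} {S : Finset (Fin n)} (hf : Mt_En f S) (hg : Mt_En g S)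
    (A : Matrix (Fin r) (Fin n) Hq) : dC (A.submatrix id f) = dC (A.submatrix id g) := by
  have h1 : ∀ i, ∃ j, g j = f i := fun i => (hg.2 _).1 (Mt_mem hf i)
  choose σ hσ using h1
  have hinj : Function.Injective σ := fun i j h => hf.1 (by rw [← hσ i, ← hσ j, h])
  let e : Equiv.Perm (Fin r) := Equiv.ofBijective σ (Finite.injective_iff_bijective.1 hinj)
  have h2 := (dC_perm (A.submatrix id g) e).1
  rw [← h2]
  congr 1
  ext1 i j
  show A i (f j) = A i (g (σ j))
  rw [hσ]

private theorem Mt_mul {n r : ℕ} {Λ : Submodule Hz (Fin n → Hz)} {B B' : Finset (Fin n)} (hB : IsB Λ B)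
    (hB' : IsB Λ B') {f g : Fin r → Fin n} (hf : Mt_En f B) (hg : Mt_En g B') (h : Fin r → Fin n) :
    (Mt_A Λ B f).submatrix id h = (Mt_A Λ B f).submatrix id g * (Mt_A Λ B' g).submatrix id h := by
  ext1 i l
  rw [Matrix.mul_apply]
  have h1 := congrFun (expand hB' (fv_mem hB (Mt_mem hf i))) (h l)
  show emb (fv Λ B (f i) (h l)) = ∑ m, emb (fv Λ B (f i) (g m)) * emb (fv Λ B' (g m) (h l))
  have h2 : B' = Finset.univ.map ⟨g, hg.1⟩ := by
    ext x
    rw [hg.2 x]
    simp
  have h3 : ∑ c ∈ B', fv Λ B (f i) c * fv Λ B' c (h l) =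
      ∑ m, fv Λ B (f i) (g m) * fv Λ B' (g m) (h l) := by
    conv_lhs => rw [show (∑ c ∈ B', fv Λ B (f i) c * fv Λ B' c (h l)) =
      ∑ c ∈ Finset.univ.map ⟨g, hg.1⟩, fv Λ B (f i) c * fv Λ B' c (h l) from by rw [← h2]]
    rw [Finset.sum_map]
    rfl
  rw [h1, Finset.sum_apply]
  simp only [Pi.smul_apply, smul_eq_mul]
  rw [h3, map_sum]
  refine Finset.sum_congr rfl fun m _ => ?_
  rw [map_mul]

private theorem Mt_one {n r : ℕ} {Λ : Submodule Hz (Fin n → Hz)} {B : Finset (Fin n)} (hB : IsB Λ B)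
    {f : Fin r → Fin n} (hf : Mt_En f B) : (Mt_A Λ B f).submatrix id f = 1 := by
  ext1 i j
  show emb (fv Λ B (f i) (f j)) = (1 : Matrix (Fin r) (Fin r) Hq) i j
  by_cases hij : i = j
  · subst hij
    rw [fv_self hB (Mt_mem hf i), map_one, Matrix.one_apply_eq]
  · rw [fv_oth hB (Mt_mem hf i) (Mt_mem hf j) (fun h => hij (hf.1 h.symm)), map_zero, Matrix.one_apply_ne hij]

private theorem Mt_norm (x : Hz) : Quaternion.normSq (emb x) = (x.N : ℚ) := by
  rw [Quaternion.normSq_def']
  show (x.a - x.d / 2 : ℚ) ^ 2 + (x.b + x.d / 2) ^ 2 + (x.c + x.d / 2) ^ 2 + (x.d / 2) ^ 2 = (x.N : ℚ)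
  unfold Hz.N
  push_cast
  ring

private theorem Mt_piv {n r : ℕ} {Λ : Submodule Hz (Fin n → Hz)} {B : Finset (Fin n)} (hB : IsB Λ B)
    {f : Fin r → Fin n} (hf : Mt_En f B) (j : Fin r) {e : Fin n} (he : e ∉ B) (hu : IsUnit (fv Λ B (f j) e)) :
    Mt_En (Function.update f j e) (pv B (f j) e) ∧ dC ((Mt_A Λ B f).submatrix id (Function.update f j e)) = 1 := by
  have hne : ∀ i, f i ≠ e := fun i h => he (h ▸ Mt_mem hf i)
  refine ⟨⟨?_, fun x => ?_⟩, ?_⟩
  · intro i l h
    by_cases hi : i = j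
    · by_cases hl : l = j
      · rw [hi, hl]
      · rw [hi, Function.update_self, Function.update_of_ne hl] at h
        exact absurd h.symm (hne l)
    · by_cases hl : l = j
      · rw [hl, Function.update_self, Function.update_of_ne hi] at h
        exact absurd h (hne i)
      · rw [Function.update_of_ne hi, Function.update_of_ne hl] at h
        exact hf.1 h
  · rw [mem_pv]
    constructor
    · rintro (h | ⟨h1, h2⟩)
      · exact ⟨j, by rw [Function.update_self, h]⟩
      · obtain ⟨i, rfl⟩ := (hf.2 x).1 h2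
        have hij : i ≠ j := fun h => h1 (by rw [h])
        exact ⟨i, by rw [Function.update_of_ne hij]⟩
    · rintro ⟨i, hi⟩
      by_cases hij : i = j
      · left
        rw [← hi, hij, Function.update_self]
      · right
        rw [Function.update_of_ne hij] at hi
        exact ⟨fun h => hij (hf.1 (hi.trans h)), hi ▸ Mt_mem hf i⟩
  · have h1 : (Mt_A Λ B f).submatrix id (Function.update f j e) =
        (1 : Matrix (Fin r) (Fin r) Hq).updateCol j
          (fun i => ∑ k, (1 : Matrix (Fin r) (Fin r) Hq) i k * emb (fv Λ B (f k) e)) := by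
      ext1 i l
      by_cases hl : l = j
      · subst hl
        rw [Matrix.updateCol_self]
        show emb (fv Λ B (f i) (Function.update f l e l)) = _
        rw [Function.update_self, Finset.sum_eq_single i]
        · rw [Matrix.one_apply_eq, one_mul]
        · intro k _ hk
          rw [Matrix.one_apply_ne hk.symm, zero_mul]
        · intro h
          exact absurd (Finset.mem_univ i) h
      · rw [Matrix.updateCol_ne hl, ← Mt_one hB hf]
        show emb (fv Λ B (f i) (Function.update f j e l)) = emb (fv Λ B (f i) (f l))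
        rw [Function.update_of_ne hl]
    rw [h1, dC_updateCol, dC_one]
    rw [Mt_norm, hz_unit.1 hu, Int.cast_one]

private theorem Mt_unit {n : ℕ} {Λ : Submodule Hz (Fin n → Hz)} {Γ : Submodule Rq (Fin n → Rq)} (h : Right Λ Γ)
    {S : Finset (Fin n)} (hS : IsB Γ S) {b e : Fin n} (hb : b ∈ S) (hu : IsUnit (fv Γ S b e)) :
    IsUnit (fv Λ S b e) := by
  obtain ⟨h1, h2⟩ := (h S hS).2 b hb e
  rcases h1 with h1 | h1
  · rw [h1, map_zero] at h2
    rw [← h2] at hu
    exact absurd hu not_isUnit_zero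
  · exact h1

private theorem Mt_bases {n r : ℕ} {Λ : Submodule Hz (Fin n → Hz)} {Γ : Submodule Rq (Fin n → Rq)}
    (hU : ∀ S, IsB Γ S → ∀ b ∈ S, ∀ e, UZ (fv Γ S b e)) (h : Right Λ Γ) {B : Finset (Fin n)} (hB : IsB Γ B)
    {f : Fin r → Fin n} (hf : Mt_En f B) {T : Finset (Fin n)} (hT : IsB Γ T) :
    ∃ g : Fin r → Fin n, Mt_En g T ∧ dC ((Mt_A Λ B f).submatrix id g) = 1 := by
  refine piv_ind (Λ := Γ) hU (fun T => ∃ g : Fin r → Fin n, Mt_En g T ∧
    dC ((Mt_A Λ B f).submatrix id g) = 1) hB ⟨f, hf, ?_⟩ ?_ hT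
  · rw [Mt_one (h B hB).1 hf, dC_one]
  · rintro S' hS' _ ⟨g, hg, hd⟩ b hb e _ heS hu
    obtain ⟨j, rfl⟩ := (hg.2 b).1 hb
    obtain ⟨h1, h2⟩ := Mt_piv (h S' hS').1 hg j heS (Mt_unit h hS' hb hu)
    refine ⟨_, h1, ?_⟩
    rw [Mt_mul (h B hB).1 (h S' hS').1 hf hg, dC_mul, hd, h2, one_mul]

theorem exists_mat {n r : ℕ} {Λ : Submodule Hz (Fin n → Hz)} {Γ : Submodule Rq (Fin n → Rq)}
    (hU : ∀ S, IsB Γ S → ∀ b ∈ S, ∀ e, UZ (fv Γ S b e)) (h : Right Λ Γ) {B : Finset (Fin n)} (hB : IsB Γ B) (hr : B.card = r) :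
    ∃ A : Matrix (Fin r) (Fin n) Hq, (∀ i j, A i j = emb (fv Λ B (B.orderEmbOfFin hr i) j)) ∧
      ∀ (S : Finset (Fin n)) (hS : S.card = r), dC (A.submatrix id (S.orderEmbOfFin hS)) = if IsB Γ S then 1 else 0 := by
  have hf := Mt_order B hr
  refine ⟨Mt_A Λ B (B.orderEmbOfFin hr), fun i j => rfl, fun S hS => ?_⟩
  by_cases hb : IsB Γ S
  · rw [if_pos hb]
    obtain ⟨g, hg, hd⟩ := Mt_bases hU h hB hf hb
    rw [Mt_perm (Mt_order S hS) hg, hd]
  · rw [if_neg hb]
    obtain ⟨B', hB', hmax⟩ := Finset.exists_max_image (Finset.univ.filter fun T : Finset (Fin n) => IsB Γ T)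
      (fun T => (T ∩ S).card) ⟨B, Finset.mem_filter.2 ⟨Finset.mem_univ _, hB⟩⟩
    have hB'' : IsB Γ B' := (Finset.mem_filter.1 hB').2
    obtain ⟨g, hg, hd⟩ := Mt_bases hU h hB hf hB''
    have hcard : B'.card = S.card := by rw [Mt_card hg, hS]
    have hex : ∃ b ∈ B', b ∉ S := by
      by_contra hcon
      push Not at hcon
      have h1 : B' = S := Finset.eq_of_subset_of_card_le hcon hcard.ge
      exact hb (h1 ▸ hB'')
    obtain ⟨b, hbB, hbS⟩ := hex
    obtain ⟨j, rfl⟩ := (hg.2 b).1 hbB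
    rw [Mt_mul (h B hB).1 (h B' hB'').1 hf hg, dC_mul]
    have h0 : dC ((Mt_A Λ B' g).submatrix id (S.orderEmbOfFin hS)) = 0 := by
      refine dC_zero_row _ j fun l => ?_
      show emb (fv Λ B' (g j) (S.orderEmbOfFin hS l)) = 0
      set e := S.orderEmbOfFin hS l with he
      have heS : e ∈ S := Mt_mem (Mt_order S hS) l
      have hz : fv Λ B' (g j) e = 0 := by
        by_cases heB : e ∈ B'
        · exact fv_oth (h B' hB'').1 hbB heB fun h' => hbS (h' ▸ heS)
        · by_contra hne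
          obtain ⟨h1, h2⟩ := (h B' hB'').2 (g j) hbB e
          have hu : IsUnit (fv Λ B' (g j) e) := h1.resolve_left hne
          have hu' : IsUnit (fv Γ B' (g j) e) := by
            rw [← h2]
            exact red_unit hu
          have hp : IsB Γ (pv B' (g j) e) := piv hB'' hbB heB hu'
          have hle := hmax _ (Finset.mem_filter.2 ⟨Finset.mem_univ _, hp⟩)
          have hlt : (B' ∩ S).card < (pv B' (g j) e ∩ S).card := by
            apply Finset.card_lt_card
            rw [Finset.ssubset_iff_of_subset]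
            · refine ⟨e, Finset.mem_inter.2 ⟨mem_pv.2 (Or.inl rfl), heS⟩, fun h' => heB (Finset.mem_inter.1 h').1⟩
            · intro x hx
              obtain ⟨hx1, hx2⟩ := Finset.mem_inter.1 hx
              refine Finset.mem_inter.2 ⟨mem_pv.2 (Or.inr ⟨fun h' => hbS (h' ▸ hx2), hx1⟩), hx2⟩
          exact absurd hle (not_le.2 hlt)
      rw [hz, map_zero]
    rw [h0, mul_zero]

end Pool.Agent.QUS
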