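import Pool.Agent.QUS.Bas

/-!
# QUS/Np: paths and pivots

Induction on the path `p = q_0 - c_1 - q_1 - ... - b`.  If `fv r c_j ≠ 0` for a column of the path then `Near k' r b` for some `k' ≤ k` (go from `r` through `c_j`), and `q_j = r` is impossible for
the same reason.  So all columns of the path are zero in the row `r`, hence `≠ c`, and the entries of the path do not change (`piv_old`: the second term has the factor `fv r c_j = 0`).
-/

set_option autoImplicit false

noncomputable section

open scoped Classical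

namespace Pool.Agent.QUS

variable {H : Type} [Ring H] [Nontrivial H] {E : Type} {Γ : Submodule H (E → H)} {S : Finset E} {p r c b : E} {k : ℕ}

theorem near_piv (hS : IsB Γ S) (hr : r ∈ S) (hc : c ∉ S) (hu : IsUnit (fv Γ S r c)) (hn : Near Γ S k p b)
    (h : ∀ k' ≤ k, ¬ Near Γ S k' r b) : Near Γ (pv S r c) k p b := by
  induction hn with
  | zero a ha =>
    refine Near.zero a (mem_pv.2 (Or.inr ⟨fun h' => ?_, ha⟩))
    exact h 0 le_rfl (h' ▸ Near.zero a ha)
  | succ m a c' r' b ha hr' hc' h1 h2 hn' ih =>
    have h0 : fv Γ S r c' = 0 := by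
      by_contra h3
      exact h (m + 1) le_rfl (Near.succ m r c' r' b hr hr' hc' h3 h2 hn')
    have har : a ≠ r := fun h' => h1 (by rw [h', h0])
    have hr'r : r' ≠ r := fun h' => h2 (by rw [h', h0])
    have hcc : c' ≠ c := fun h' => hu.ne_zero (by rw [← h', h0])
    have key : ∀ x ∈ S, x ≠ r → fv Γ (pv S r c) x c' = fv Γ S x c' := by
      intro x hx hxr
      rw [piv_old_apply hS hr hc hu hx hxr, sc, h0, mul_zero, sub_zero]
    refine Near.succ m a c' r' b (mem_pv.2 (Or.inr ⟨har, ha⟩)) (mem_pv.2 (Or.inr ⟨hr'r, hr'⟩)) ?_ ?_ ?_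
      (ih fun k' hk' => h k' (le_trans hk' (Nat.le_succ m)))
    · intro h'
      rcases mem_pv.1 h' with h' | h'
      · exact hcc h'
      · exact hc' h'.2
    · rw [key a ha har]
      exact h1
    · rw [key r' hr' hr'r]
      exact h2

end Pool.Agent.QUS
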