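import Pool.Agent.QUS.Dl

/-!
# QUS/Off: lifts which are right off two columns

`RightOff`: right at all bases avoiding `e` and `f`.  `off_sc`: `sc Λ S a b g h` (`g ∉ {e, f}`) is the entry `fv (pv S a g) b h` at a basis avoiding `e, f`.
`off_of_del`: `IsB Γ S`, `e, f ∉ S`: `S` is a basis of `del Γ e`, so of `del Λ e`, so of `Λ` (`isB_del` with `hB`); entries `g ≠ e` from `del Λ e`, entries `g ≠ f` from `del Λ f`.
-/

set_option autoImplicit false

noncomputable section

open scoped Classical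

namespace Pool.Agent.QUS

variable {E : Type} {Λ : Submodule Hz (E → Hz)} {Γ : Submodule Rq (E → Rq)} {S G : Finset E} {e f : E}

/-- right at all bases which avoid `e` and `f` -/
def RightOff (Λ : Submodule Hz (E → Hz)) (Γ : Submodule Rq (E → Rq)) (e f : E) : Prop :=
  ∀ S, IsB Γ S → e ∉ S → f ∉ S → IsB Λ S ∧ ∀ b ∈ S, ∀ g, UZ (fv Λ S b g) ∧ red (fv Λ S b g) = fv Γ S b g

theorem off_symm (h : RightOff Λ Γ e f) : RightOff Λ Γ f e := fun S hS he hf => h S hS hf he

theorem off_of_del (hef : e ≠ f) {B : Finset E} (hB : IsB Λ B) (heB : e ∉ B) (hfB : f ∉ B) (he : Right (del Λ e) (del Γ e))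
    (hf : Right (del Λ f) (del Γ f)) : RightOff Λ Γ e f := by
  intro S hS heS hfS
  have h1 := he S (isB_del_of hS heS)
  have h2 := hf S (isB_del_of hS hfS)
  have hS' : IsB Λ S := ((isB_del ⟨B, hB, heB⟩).1 h1.1).1
  refine ⟨hS', fun b hb g => ?_⟩
  by_cases hge : g = e
  · have hgf : g ≠ f := by
      rw [hge]
      exact hef
    have h3 := h2.2 b hb g
    rw [fv_del_of_ne hS' hfS hb hgf, fv_del_of_ne hS hfS hb hgf] at h3
    exact h3
  · have h3 := h1.2 b hb g
    rw [fv_del_of_ne hS' heS hb hge, fv_del_of_ne hS heS hb hge] at h3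
    exact h3

/-- blocks with a pivot column different from `e, f` are right -/
theorem off_sc (hO : RightOff Λ Γ e f) (hS : IsB Γ S) (heS : e ∉ S) (hfS : f ∉ S) {a b g : E} (ha : a ∈ S) (hb : b ∈ S)
    (hab : a ≠ b) (hg : g ∉ S) (hge : g ≠ e) (hgf : g ≠ f) (hu : fv Λ S a g ≠ 0) (h : E) :
    UZ (sc Λ S a b g h) ∧ red (sc Λ S a b g h) = sc Γ S a b g h := by
  obtain ⟨hΛ, h1⟩ := hO S hS heS hfS
  have hua : IsUnit (fv Λ S a g) := by
    rcases (h1 a ha g).1 with h2 | h2
    · exact absurd h2 hu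
    · exact h2
  have hub : IsUnit (fv Γ S a g) := by
    rw [← (h1 a ha g).2]
    exact red_unit hua
  have hT : IsB Γ (pv S a g) := piv hS ha hg hub
  have heT : e ∉ pv S a g := by
    intro h2
    rcases mem_pv.1 h2 with h3 | h3
    · exact hge h3.symm
    · exact heS h3.2
  have hfT : f ∉ pv S a g := by
    intro h2
    rcases mem_pv.1 h2 with h3 | h3
    · exact hgf h3.symm
    · exact hfS h3.2
  have hbT : b ∈ pv S a g := mem_pv.2 (Or.inr ⟨fun h2 => hab h2.symm, hb⟩)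
  have h4 := (hO (pv S a g) hT heT hfT).2 b hbT h
  rw [piv_old_apply hΛ ha hg hua hb (fun h2 => hab h2.symm) h,
    piv_old_apply hS ha hg hub hb (fun h2 => hab h2.symm) h] at h4
  exact h4

/-- the reduction of any block is zero or a unit -/
theorem off_red (hD : Dat Γ G) (hO : RightOff Λ Γ e f) (hS : IsB Γ S) (heS : e ∉ S) (hfS : f ∉ S) {a b g : E} (ha : a ∈ S)
    (hb : b ∈ S) (hab : a ≠ b) (hg : g ∉ S) (hu : fv Λ S a g ≠ 0) (h : E) :
    red (sc Λ S a b g h) = sc Γ S a b g h ∧ UZ (sc Γ S a b g h) := by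
  obtain ⟨hΛ, h1⟩ := hO S hS heS hfS
  have hua : IsUnit (fv Λ S a g) := by
    rcases (h1 a ha g).1 with h2 | h2
    · exact absurd h2 hu
    · exact h2
  have hub : IsUnit (fv Γ S a g) := by
    rw [← (h1 a ha g).2]
    exact red_unit hua
  constructor
  · unfold sc
    rw [map_sub, map_mul, map_mul, red_inv hua, (h1 b hb h).2, (h1 b hb g).2, (h1 a ha g).2,
      (h1 a ha h).2]
  · have hT : IsB Γ (pv S a g) := piv hS ha hg hub
    have hbT : b ∈ pv S a g := mem_pv.2 (Or.inr ⟨fun h2 => hab h2.symm, hb⟩)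
    have h4 := hD.uz (pv S a g) hT b hbT h
    rw [piv_old_apply hS ha hg hub hb (fun h2 => hab h2.symm) h] at h4
    exact h4

theorem off_zero (hO : RightOff Λ Γ e f) (hS : IsB Γ S) (heS : e ∉ S) (hfS : f ∉ S) {b g : E} (hb : b ∈ S) :
    fv Λ S b g = 0 ↔ fv Γ S b g = 0 := by
  have h1 := (hO S hS heS hfS).2 b hb g
  constructor
  · intro h2
    rw [← h1.2, h2, map_zero]
  · intro h2
    exact eq_zero_of_red h1.1 (h1.2.trans h2)

theorem off_unit (hO : RightOff Λ Γ e f) (hS : IsB Γ S) (heS : e ∉ S) (hfS : f ∉ S) {b g : E} (hb : b ∈ S)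
    (h : fv Λ S b g ≠ 0) : IsUnit (fv Λ S b g) := by
  rcases ((hO S hS heS hfS).2 b hb g).1 with h1 | h1
  · exact absurd h1 h
  · exact h1

end Pool.Agent.QUS
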