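import Pool.Agent.QUS.Dl

/-!
# QUS/Tw: change of signs

`sg s` is an involution; `fv (tw Λ s) S b = (s b) • sg s (fv Λ S b)`.
-/

set_option autoImplicit false

noncomputable section

open scoped Classical

namespace Pool.Agent.QUS

variable {E : Type} {Λ : Submodule Hz (E → Hz)} {Γ : Submodule Rq (E → Rq)} {S : Finset E} {b e : E} {s : E → ℤˣ}

private theorem usq (u : ℤˣ) (x : Hz) : ((u : ℤ) : Hz) * (((u : ℤ) : Hz) * x) = x := by
  rcases Int.units_eq_one_or u with h | h <;> rw [h] <;> simp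

private theorem sg_ap (v : E → Hz) (g : E) : sg s v g = ((s g : ℤ) : Hz) * v g := rfl

private theorem sg_sg (v : E → Hz) : sg s (sg s v) = v := by
  funext g
  rw [sg_ap, sg_ap, usq]

private theorem mem_tw {Λ : Submodule Hz (E → Hz)} {v : E → Hz} : v ∈ tw Λ s ↔ sg s v ∈ Λ := by
  constructor
  · rintro ⟨w, hw, rfl⟩
    rw [sg_sg]
    exact hw
  · intro h
    exact ⟨sg s v, h, sg_sg v⟩

private theorem tw_tw {Λ : Submodule Hz (E → Hz)} : tw (tw Λ s) s = Λ := by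
  ext v
  rw [mem_tw, mem_tw, sg_sg]

private theorem vec_mem {Λ : Submodule Hz (E → Hz)} {x : E → Hz} (hx : x ∈ Λ) (b : E) :
    (fun g => (((s b * s g : ℤˣ) : ℤ) : Hz) * x g) ∈ tw Λ s := by
  have h : (fun g => (((s b * s g : ℤˣ) : ℤ) : Hz) * x g) = ((s b : ℤ) : Hz) • sg s x := by
    funext g
    rw [Pi.smul_apply, smul_eq_mul, sg_ap, Units.val_mul, Int.cast_mul, mul_assoc]
  rw [h]
  exact (tw Λ s).smul_mem _ (mem_tw.2 (by rw [sg_sg]; exact hx))

private theorem vec_self {x : E → Hz} (h1 : x b = 1) : (((s b * s b : ℤˣ) : ℤ) : Hz) * x b = 1 := by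
  rw [h1, mul_one, Units.val_mul, Int.cast_mul, ← mul_one (((s b : ℤ) : Hz) * ((s b : ℤ) : Hz)), mul_assoc, usq]

private theorem isB_tw' {Λ : Submodule Hz (E → Hz)} (h : IsB Λ S) : IsB (tw Λ s) S := by
  refine ⟨fun v hv h0 => ?_, fun b hb => ?_⟩
  · have h1 := h.1 _ (mem_tw.1 hv) (fun t ht => by rw [sg_ap, h0 t ht, mul_zero])
    rw [← sg_sg (s := s) v, h1, map_zero]
  · obtain ⟨x, hx, h1, h0⟩ := h.2 b hb
    exact ⟨_, vec_mem hx b, vec_self h1, fun t ht htb => by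
      show (((s b * s t : ℤˣ) : ℤ) : Hz) * x t = 0
      rw [h0 t ht htb, mul_zero]⟩

theorem isB_tw : IsB (tw Λ s) S ↔ IsB Λ S := by
  refine ⟨fun h => ?_, isB_tw'⟩
  have h' := isB_tw' (s := s) h
  rwa [tw_tw] at h'

theorem fv_tw (hS : IsB Λ S) (hb : b ∈ S) (g : E) : fv (tw Λ s) S b g = ((s b * s g : ℤˣ) : ℤ) * fv Λ S b g := by
  have h := fv_uniq (isB_tw' (s := s) hS) hb (vec_mem (s := s) (fv_mem hS hb) b) (vec_self (fv_self hS hb))
    (fun t ht htb => by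
      show (((s b * s t : ℤˣ) : ℤ) : Hz) * fv Λ S b t = 0
      rw [fv_oth hS hb ht htb, mul_zero])
  rw [h]

theorem right_tw (h : Right Λ Γ) : Right (tw Λ s) Γ := by
  intro T hT
  obtain ⟨h1, h2⟩ := h T hT
  refine ⟨isB_tw' h1, fun b hb g => ?_⟩
  obtain ⟨h3, h4⟩ := h2 b hb g
  rw [fv_tw h1 hb]
  rcases Int.units_eq_one_or (s b * s g) with hu | hu
  · rw [hu, Units.val_one, Int.cast_one, one_mul]
    exact ⟨h3, h4⟩
  · rw [hu, Units.val_neg, Units.val_one, Int.cast_neg, Int.cast_one, neg_one_mul]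
    refine ⟨uz_neg h3, ?_⟩
    rw [map_neg, h4]
    rfl

theorem del_tw : del (tw Λ s) e = tw (del Λ e) s := by
  unfold del tw
  rw [← Submodule.map_comp, ← Submodule.map_comp]
  congr 1
  ext1 v
  funext g
  simp only [LinearMap.comp_apply, cut, sg, LinearMap.coe_mk, AddHom.coe_mk]
  split_ifs
  · rfl
  · rw [mul_zero]

private theorem le_of_fv {A B : Submodule Hz (E → Hz)} (hA : IsB A S) (hB : IsB B S)
    (h : ∀ b ∈ S, fv A S b = fv B S b) : A ≤ B := by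
  intro v hv
  rw [expand hA hv]
  refine B.sum_mem fun c hc => B.smul_mem _ ?_
  rw [h c hc]
  exact fv_mem hB hc

theorem tw_of_fv {Λ₁ Λ₂ : Submodule Hz (E → Hz)} (h1 : IsB Λ₁ S) (h2 : IsB Λ₂ S)
    (h : ∀ b ∈ S, ∀ g, fv Λ₂ S b g = ((s b * s g : ℤˣ) : ℤ) * fv Λ₁ S b g) : Λ₂ = tw Λ₁ s := by
  have h3 : ∀ b ∈ S, fv Λ₂ S b = fv (tw Λ₁ s) S b := by
    intro b hb
    funext g
    rw [h b hb g, fv_tw h1 hb]
  exact le_antisymm (le_of_fv h2 (isB_tw' h1) h3) (le_of_fv (isB_tw' h1) h2 fun b hb => (h3 b hb).symm)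

end Pool.Agent.QUS
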