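import Pool.Agent.QUS.Off
import Pool.Agent.QUS.Fc1

/-!
# QUS/W1: (S1): a wrong block has no common column

If `fv Λ S a f`, `fv Λ S b e` or `fv Λ S b f` is zero the Schur complement is trivially in `UZ`.  Otherwise scale: `x = (A_c⁻¹ A_e)⁻¹ ..`: with rows `a, b` and columns `c, e, f` put
`x = (B_c⁻¹ B_e) (A_c⁻¹ A_e)⁻¹` conjugated suitably, e.g. `x = A_c * B_c⁻¹ * B_e * A_e⁻¹`, `y = A_c * B_c⁻¹ * B_f * A_f⁻¹` (block `[[1,1,1],[1,x,y]]` after left scaling of the rows by `A_c⁻¹`,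
`B_c⁻¹`, conjugation by `A_c`, and right scaling of the columns `e, f`).  `off_sc` with pivot `(a,c)` gives `UZ (1 - x)`, `UZ (1 - y)`, `sc Λ S a b e f = B_c A_c⁻¹ (y - x) A_f`,
`NC.col` gives `hc` of `blk5` (`cX a b c e`, `cX a b c f` are `A_c⁻¹ x⁻¹ A_c`, `A_c⁻¹ y⁻¹ A_c` up to this conjugation; commuting is invariant under inverses and conjugation).
-/

set_option autoImplicit false

noncomputable section

open scoped Classical

namespace Pool.Agent.QUS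

variable {E : Type} {Λ : Submodule Hz (E → Hz)} {Γ : Submodule Rq (E → Rq)} {S G : Finset E} {a b c e f : E}

private theorem W1_uz_unit {x : Hz} (hx : IsUnit x) : UZ x := Or.inr hx

private theorem W1_iso {H : Type} [Ring H] {u v : H} (x : H) (hu : IsUnit u) (hv : IsUnit v) (h : IsUnit (u * x * v)) :
    IsUnit x := by
  obtain ⟨p, rfl⟩ := hu
  obtain ⟨q, rfl⟩ := hv
  have h2 : x = (↑p⁻¹ : H) * ((p : H) * x * (q : H)) * (↑q⁻¹ : H) := by
    simp [mul_assoc]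
  rw [h2]
  exact (p⁻¹.isUnit.mul h).mul q⁻¹.isUnit

private theorem W1_grp {G K : Type} [Group G] [Group K] (φ : G →* K) (p q r p' q' r' : G)
    (h : Commute (φ (p * p'⁻¹ * q' * q⁻¹)) (φ (p * p'⁻¹ * r' * r⁻¹))) :
    Commute ((φ p)⁻¹ * φ q * (φ q')⁻¹ * φ p') ((φ p)⁻¹ * φ r * (φ r')⁻¹ * φ p') := by
  have h7 := h.inv_inv.eq
  have a1 : (φ p)⁻¹ * φ q * (φ q')⁻¹ * φ p' = (φ p)⁻¹ * (φ (p * p'⁻¹ * q' * q⁻¹))⁻¹ * φ p := by
    simp only [map_mul, map_inv]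
    group
  have a2 : (φ p)⁻¹ * φ r * (φ r')⁻¹ * φ p' = (φ p)⁻¹ * (φ (p * p'⁻¹ * r' * r⁻¹))⁻¹ * φ p := by
    simp only [map_mul, map_inv]
    group
  rw [a1, a2]
  generalize (φ (p * p'⁻¹ * q' * q⁻¹))⁻¹ = x at h7
  generalize (φ (p * p'⁻¹ * r' * r⁻¹))⁻¹ = y at h7
  generalize φ p = s
  show s⁻¹ * x * s * (s⁻¹ * y * s) = s⁻¹ * y * s * (s⁻¹ * x * s)
  calc s⁻¹ * x * s * (s⁻¹ * y * s) = s⁻¹ * (x * y) * s := by group
    _ = s⁻¹ * (y * x) * s := by rw [h7]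
    _ = s⁻¹ * y * s * (s⁻¹ * x * s) := by group

theorem s1 (hD : Dat Γ G) (hO : RightOff Λ Γ e f) (hS : IsB Γ S) (heS : e ∉ S) (hfS : f ∉ S) (ha : a ∈ S) (hb : b ∈ S)
    (hab : a ≠ b) (hc : c ∉ S) (hce : c ≠ e) (hcf : c ≠ f) (h1 : fv Λ S a c ≠ 0) (h2 : fv Λ S b c ≠ 0)
    (h3 : fv Λ S a e ≠ 0) : UZ (sc Λ S a b e f) := by
  have hL := hO S hS heS hfS
  have zf : ∀ {b' : E}, b' ∈ S → ∀ g, fv Λ S b' g ≠ 0 → IsUnit (fv Λ S b' g) := fun hb' g h =>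
    off_unit hO hS heS hfS hb' h
  have rf : ∀ {b' : E}, b' ∈ S → ∀ g, fv Γ S b' g = red (fv Λ S b' g) := fun hb' g => ((hL.2 _ hb' g).2).symm
  by_cases hAf : fv Λ S a f = 0
  · unfold sc
    rw [hAf, mul_zero, sub_zero]
    exact (hL.2 b hb f).1
  by_cases hBe : fv Λ S b e = 0
  · unfold sc
    rw [hBe, zero_mul, zero_mul, sub_zero]
    exact (hL.2 b hb f).1
  by_cases hBf : fv Λ S b f = 0
  · unfold sc
    rw [hBf, zero_sub]
    exact uz_neg (uz_mul (uz_mul (hL.2 b hb e).1 (uz_inv (hL.2 a ha e).1)) (hL.2 a ha f).1)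
  obtain ⟨p, hp⟩ := zf ha c h1
  obtain ⟨q, hq⟩ := zf ha e h3
  obtain ⟨r, hr⟩ := zf ha f hAf
  obtain ⟨p', hp'⟩ := zf hb c h2
  obtain ⟨q', hq'⟩ := zf hb e hBe
  obtain ⟨r', hr'⟩ := zf hb f hBf
  obtain ⟨k1, k1'⟩ := off_sc hO hS heS hfS ha hb hab hc hce hcf h1 e
  obtain ⟨k2, k2'⟩ := off_sc hO hS heS hfS ha hb hab hc hce hcf h1 f
  obtain ⟨k3, k4⟩ := off_red hD hO hS heS hfS ha hb hab heS h3 f
  have e1 : sc Λ S a b c e = (q' : Hz) - (p' : Hz) * (↑p⁻¹ : Hz) * (q : Hz) := by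
    unfold sc
    rw [← hp, ← hq, ← hp', ← hq', Ring.inverse_unit]
  have e2 : sc Λ S a b c f = (r' : Hz) - (p' : Hz) * (↑p⁻¹ : Hz) * (r : Hz) := by
    unfold sc
    rw [← hp, ← hr, ← hp', ← hr', Ring.inverse_unit]
  have e3 : sc Λ S a b e f = (r' : Hz) - (q' : Hz) * (↑q⁻¹ : Hz) * (r : Hz) := by
    unfold sc
    rw [← hq, ← hr, ← hq', ← hr', Ring.inverse_unit]
  set X : Hzˣ := p * p'⁻¹ * q' * q⁻¹ with hX
  set Y : Hzˣ := p * p'⁻¹ * r' * r⁻¹ with hY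
  have f1 : (1 - (X : Hz)) = -(((p * p'⁻¹ : Hzˣ) : Hz) * sc Λ S a b c e * (↑q⁻¹ : Hz)) := by
    rw [e1, hX]
    push_cast
    simp only [mul_sub, sub_mul, mul_assoc, Units.mul_inv, Units.inv_mul_cancel_left, mul_one, neg_sub, Units.mul_inv]
  have f2 : (1 - (Y : Hz)) = -(((p * p'⁻¹ : Hzˣ) : Hz) * sc Λ S a b c f * (↑r⁻¹ : Hz)) := by
    rw [e2, hY]
    push_cast
    simp only [mul_sub, sub_mul, mul_assoc, Units.mul_inv, Units.inv_mul_cancel_left, mul_one, neg_sub, Units.mul_inv]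
  have f3 : ((Y : Hz) - (X : Hz)) = ((p * p'⁻¹ : Hzˣ) : Hz) * sc Λ S a b e f * (↑r⁻¹ : Hz) := by
    rw [e3, hX, hY]
    push_cast
    simp only [mul_sub, sub_mul, mul_assoc, Units.mul_inv, mul_one]
  have g3 : sc Λ S a b e f = ((p' * p⁻¹ : Hzˣ) : Hz) * ((Y : Hz) - (X : Hz)) * (r : Hz) := by
    rw [f3]
    push_cast
    simp only [mul_assoc, Units.inv_mul_cancel_left, Units.mul_inv_cancel_left, Units.inv_mul, mul_one]
  rw [g3]
  refine uz_mul (uz_mul (W1_uz_unit (Units.isUnit _)) ?_) (W1_uz_unit r.isUnit)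
  refine blk5 X.isUnit Y.isUnit ?_ ?_ ?_ ?_
  · rw [f1]
    exact uz_neg (uz_mul (uz_mul (W1_uz_unit (Units.isUnit _)) k1) (W1_uz_unit (Units.isUnit _)))
  · rw [f2]
    exact uz_neg (uz_mul (uz_mul (W1_uz_unit (Units.isUnit _)) k2) (W1_uz_unit (Units.isUnit _)))
  · rw [f3, map_mul, map_mul, k3]
    exact uz_mul (uz_mul (Or.inr ((Units.isUnit _).map red)) k4) (Or.inr ((Units.isUnit _).map red))
  · intro u1 u2 u3 hcom
    rw [f1, map_neg, map_mul, map_mul, k1'] at u1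
    rw [f2, map_neg, map_mul, map_mul, k2'] at u2
    rw [f3, map_mul, map_mul, k3] at u3
    have v1 := W1_iso _ ((Units.isUnit _).map red) ((Units.isUnit _).map red) (IsUnit.neg_iff _ |>.1 u1)
    have v2 := W1_iso _ ((Units.isUnit _).map red) ((Units.isUnit _).map red) (IsUnit.neg_iff _ |>.1 u2)
    have v3 := W1_iso _ ((Units.isUnit _).map red) ((Units.isUnit _).map red) u3
    have m1 : fv Γ S a c = ((Units.map (red : Hz →* Rq) p : Rqˣ) : Rq) := by rw [rf ha c, ← hp]; rfl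
    have m2 : fv Γ S a e = ((Units.map (red : Hz →* Rq) q : Rqˣ) : Rq) := by rw [rf ha e, ← hq]; rfl
    have m3 : fv Γ S a f = ((Units.map (red : Hz →* Rq) r : Rqˣ) : Rq) := by rw [rf ha f, ← hr]; rfl
    have m4 : fv Γ S b c = ((Units.map (red : Hz →* Rq) p' : Rqˣ) : Rq) := by rw [rf hb c, ← hp']; rfl
    have m5 : fv Γ S b e = ((Units.map (red : Hz →* Rq) q' : Rqˣ) : Rq) := by rw [rf hb e, ← hq']; rfl
    have m6 : fv Γ S b f = ((Units.map (red : Hz →* Rq) r' : Rqˣ) : Rq) := by rw [rf hb f, ← hr']; rfl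
    refine hD.nc.col S hS a ha b hb hab c e f hc heS hfS ?_ ?_ ?_ ?_ ?_ ?_ v1 v2 v3 ?_
    · rw [m1]; exact Units.isUnit _
    · rw [m2]; exact Units.isUnit _
    · rw [m3]; exact Units.isUnit _
    · rw [m4]; exact Units.isUnit _
    · rw [m5]; exact Units.isUnit _
    · rw [m6]; exact Units.isUnit _
    · have hcom' : Commute (Units.map (red : Hz →* Rq) X) (Units.map (red : Hz →* Rq) Y) := by
        apply Units.ext
        exact hcom
      rw [hX, hY] at hcom'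
      have hh := W1_grp (Units.map (red : Hz →* Rq)) p q r p' q' r' hcom'
      have h8 := congrArg Units.val hh.eq
      simp only [Units.val_mul] at h8
      unfold cX
      rw [m1, m2, m3, m4, m5, m6, Ring.inverse_unit, Ring.inverse_unit, Ring.inverse_unit]
      exact h8

end Pool.Agent.QUS
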