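import Pool.Agent.QUS.Off

/-!
# QUS/W2f: (S2), exclusion of the Fano plane

`fv Γ S x g ≠ 0` iff `IsB Γ (pv S x g)` iff `IsB Φ (pv S x g)` iff `fv Φ S x g ≠ 0` (`Ch`, `piv`, `unit_of_piv`, `Dat.uz`); the same at the bases `pv S a c₁`, `pv S b c₂`, `pv (pv S a c₁) b c₂`.
With `k = R1 A1⁻¹`, `l = R2 B2⁻¹` the middle coordinates of `e` at the bases `S`, `pv S a c₁`, `pv S b c₂`, `pv (pv S a c₁) b c₂` are `R`, `R - k A`, `R - l B`, `R - k A - l B` (and the same for `f`).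
Over the field `K`: `R = 0`, `k A + l B = 0`, `R' = k A' = l B'`: `A B' - B A' = -2 (l/k) B B' ≠ 0`, so `pv (pv S a e) b f` is a basis of `Φ`, hence of `Γ`, hence `sc Γ S a b e f ≠ 0`;
over `Rq`: `A = -k⁻¹ l B`, `A' = k⁻¹ l B'`: `sc = B' - B A⁻¹ A' = 2 B' = 0`.
-/

set_option autoImplicit false

noncomputable section

open scoped Classical

namespace Pool.Agent.QUS

variable {E : Type} {Γ : Submodule Rq (E → Rq)} {S G : Finset E} {a r b c₁ c₂ e f : E}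

private theorem W2f_nz {H : Type} [Ring H] [Nontrivial H] {Λ : Submodule H (E → H)} {S : Finset E} {b e : E}
    (hU : ∀ S, IsB Λ S → ∀ b ∈ S, ∀ e, UZ (fv Λ S b e)) (hS : IsB Λ S) (hb : b ∈ S) (he : e ∉ S) :
    fv Λ S b e ≠ 0 ↔ IsB Λ (pv S b e) := by
  constructor
  · intro h
    exact piv hS hb he ((hU S hS b hb e).resolve_left h)
  · intro h
    exact (unit_of_piv hS hb he h).ne_zero

private theorem W2f_comp {H : Type} [Ring H] [Nontrivial H] {Λ : Submodule H (E → H)} {S : Finset E}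
    {a r b c₁ c₂ : E} (hS : IsB Λ S) (ha : a ∈ S) (hr : r ∈ S) (hb : b ∈ S) (hab : a ≠ b) (har : a ≠ r)
    (hc₁ : c₁ ∉ S) (hu : IsUnit (fv Λ S a c₁)) (hB1 : fv Λ S b c₁ = 0) (hA2 : fv Λ S a c₂ = 0) (e : E) :
    sc Λ (pv S a c₁) b r c₂ e = fv Λ S r e - fv Λ S r c₁ * Ring.inverse (fv Λ S a c₁) * fv Λ S a e -
      fv Λ S r c₂ * Ring.inverse (fv Λ S b c₂) * fv Λ S b e := by
  unfold sc
  rw [piv_old_apply hS ha hc₁ hu hr har.symm, piv_old_apply hS ha hc₁ hu hr har.symm,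
    piv_old_apply hS ha hc₁ hu hb hab.symm, piv_old_apply hS ha hc₁ hu hb hab.symm]
  simp only [sc, hB1, hA2, zero_mul, mul_zero, sub_zero]

private theorem W2f_two (x : Rq) : x + x = 0 := by
  have h : -x = x := rfl
  nth_rewrite 2 [← h]
  exact add_neg_cancel x

theorem fano (hD : Dat Γ G) (hS : IsB Γ S) (heS : e ∉ S) (hfS : f ∉ S) (hef : e ≠ f)
    (ha : a ∈ S) (hr : r ∈ S) (hb : b ∈ S) (hab : a ≠ b) (har : a ≠ r) (hrb : r ≠ b)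
    (hc₁ : c₁ ∉ S) (hc₂ : c₂ ∉ S) (h1e : c₁ ≠ e) (h1f : c₁ ≠ f) (h2e : c₂ ≠ e) (h2f : c₂ ≠ f)
    (hA1 : fv Γ S a c₁ ≠ 0) (hR1 : fv Γ S r c₁ ≠ 0) (hB1 : fv Γ S b c₁ = 0) (hA2 : fv Γ S a c₂ = 0)
    (hR2 : fv Γ S r c₂ ≠ 0) (hB2 : fv Γ S b c₂ ≠ 0) (hAe : fv Γ S a e ≠ 0) (hBe : fv Γ S b e ≠ 0) (hAf : fv Γ S a f ≠ 0)
    (hBf : fv Γ S b f ≠ 0)
    (hR : fv Γ S r e = 0) (hRe : sc Γ (pv S a c₁) b r c₂ e = 0) (hRf1 : sc Γ S a r c₁ f = 0) (hRf2 : sc Γ S b r c₂ f = 0) :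
    False := by
  obtain ⟨K, iK, iC, Φ, hΦ⟩ := hD.ch
  have hUK : ∀ S, IsB Φ S → ∀ b ∈ S, ∀ e, UZ (fv Φ S b e) := by
    intro S _ b _ e
    by_cases h : fv Φ S b e = 0
    · exact Or.inl h
    · exact Or.inr (isUnit_iff_ne_zero.2 h)
  have same : ∀ {T : Finset E} {x y : E}, IsB Γ T → x ∈ T → y ∉ T → (fv Γ T x y ≠ 0 ↔ fv Φ T x y ≠ 0) := by
    intro T x y hT hx hy
    rw [W2f_nz hD.uz hT hx hy, W2f_nz hUK ((hΦ T).2 hT) hx hy, hΦ]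
  have same0 : ∀ {T : Finset E} {x y : E}, IsB Γ T → x ∈ T → y ∉ T → fv Γ T x y = 0 → fv Φ T x y = 0 := by
    intro T x y hT hx hy h
    by_contra h'
    exact (same hT hx hy).2 h' h
  have hc : c₁ ≠ c₂ := by
    intro h
    rw [h] at hA1
    exact hA1 hA2
  have hSK : IsB Φ S := (hΦ S).2 hS
  have uA1 : IsUnit (fv Γ S a c₁) := (hD.uz S hS a ha c₁).resolve_left hA1
  have uB2 : IsUnit (fv Γ S b c₂) := (hD.uz S hS b hb c₂).resolve_left hB2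
  have uR2 : IsUnit (fv Γ S r c₂) := (hD.uz S hS r hr c₂).resolve_left hR2
  have uAe : IsUnit (fv Γ S a e) := (hD.uz S hS a ha e).resolve_left hAe
  have hT : IsB Γ (pv S a c₁) := piv hS ha hc₁ uA1
  have hT2 : IsB Γ (pv S b c₂) := piv hS hb hc₂ uB2
  have hTe : IsB Γ (pv S a e) := piv hS ha heS uAe
  have hrT : r ∈ pv S a c₁ := mem_pv.2 (Or.inr ⟨har.symm, hr⟩)
  have hbT : b ∈ pv S a c₁ := mem_pv.2 (Or.inr ⟨hab.symm, hb⟩)
  have hc₂T : c₂ ∉ pv S a c₁ := by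
    rw [mem_pv]
    rintro (h | ⟨_, h⟩)
    · exact hc h.symm
    · exact hc₂ h
  have heT : e ∉ pv S a c₁ := by
    rw [mem_pv]
    rintro (h | ⟨_, h⟩)
    · exact h1e h.symm
    · exact heS h
  have hfT : f ∉ pv S a c₁ := by
    rw [mem_pv]
    rintro (h | ⟨_, h⟩)
    · exact h1f h.symm
    · exact hfS h
  have hrT2 : r ∈ pv S b c₂ := mem_pv.2 (Or.inr ⟨hrb, hr⟩)
  have hfT2 : f ∉ pv S b c₂ := by
    rw [mem_pv]
    rintro (h | ⟨_, h⟩)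
    · exact h2f h.symm
    · exact hfS h
  have hbTe : b ∈ pv S a e := mem_pv.2 (Or.inr ⟨hab.symm, hb⟩)
  have hfTe : f ∉ pv S a e := by
    rw [mem_pv]
    rintro (h | ⟨_, h⟩)
    · exact hef h.symm
    · exact hfS h
  have eB2 : fv Γ (pv S a c₁) b c₂ = fv Γ S b c₂ := by
    rw [piv_old_apply hS ha hc₁ uA1 hb hab.symm]
    simp only [sc, hB1, zero_mul, sub_zero]
  have uB2' : IsUnit (fv Γ (pv S a c₁) b c₂) := by rw [eB2]; exact uB2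
  have hT3 : IsB Γ (pv (pv S a c₁) b c₂) := piv hT hbT hc₂T uB2'
  have hrT3 : r ∈ pv (pv S a c₁) b c₂ := mem_pv.2 (Or.inr ⟨hrb, hrT⟩)
  have heT3 : e ∉ pv (pv S a c₁) b c₂ := by
    rw [mem_pv]
    rintro (h | ⟨_, h⟩)
    · exact h2e h.symm
    · exact heT h
  have kA1 : fv Φ S a c₁ ≠ 0 := (same hS ha hc₁).1 hA1
  have kR1 : fv Φ S r c₁ ≠ 0 := (same hS hr hc₁).1 hR1
  have kB1 : fv Φ S b c₁ = 0 := same0 hS hb hc₁ hB1
  have kA2 : fv Φ S a c₂ = 0 := same0 hS ha hc₂ hA2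
  have kR2 : fv Φ S r c₂ ≠ 0 := (same hS hr hc₂).1 hR2
  have kB2 : fv Φ S b c₂ ≠ 0 := (same hS hb hc₂).1 hB2
  have kAe : fv Φ S a e ≠ 0 := (same hS ha heS).1 hAe
  have kAf : fv Φ S a f ≠ 0 := (same hS ha hfS).1 hAf
  have kR : fv Φ S r e = 0 := same0 hS hr heS hR
  have vA1 : IsUnit (fv Φ S a c₁) := isUnit_iff_ne_zero.2 kA1
  have vB2 : IsUnit (fv Φ S b c₂) := isUnit_iff_ne_zero.2 kB2
  have vAe : IsUnit (fv Φ S a e) := isUnit_iff_ne_zero.2 kAe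
  have kB2' : IsUnit (fv Φ (pv S a c₁) b c₂) := isUnit_iff_ne_zero.2 ((same hT hbT hc₂T).1 uB2'.ne_zero)
  have kRe : sc Φ (pv S a c₁) b r c₂ e = 0 := by
    rw [← piv_old_apply ((hΦ _).2 hT) hbT hc₂T kB2' hrT hrb]
    apply same0 hT3 hrT3 heT3
    rw [piv_old_apply hT hbT hc₂T uB2' hrT hrb]
    exact hRe
  have kRf1 : sc Φ S a r c₁ f = 0 := by
    rw [← piv_old_apply hSK ha hc₁ vA1 hr har.symm]
    apply same0 hT hrT hfT
    rw [piv_old_apply hS ha hc₁ uA1 hr har.symm]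
    exact hRf1
  have kRf2 : sc Φ S b r c₂ f = 0 := by
    rw [← piv_old_apply hSK hb hc₂ vB2 hr hrb]
    apply same0 hT2 hrT2 hfT2
    rw [piv_old_apply hS hb hc₂ uB2 hr hrb]
    exact hRf2
  have key : sc Φ S a b e f ≠ 0 := by
    rw [W2f_comp hSK ha hr hb hab har hc₁ vA1 kB1 kA2, kR] at kRe
    unfold sc at kRf1 kRf2 ⊢
    simp only [Ring.inverse_eq_inv'] at kRe kRf1 kRf2 ⊢
    set A1 := fv Φ S a c₁
    set R1 := fv Φ S r c₁
    set R2 := fv Φ S r c₂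
    set B2 := fv Φ S b c₂
    set A := fv Φ S a e
    set B := fv Φ S b e
    set A' := fv Φ S a f
    set B' := fv Φ S b f
    set R' := fv Φ S r f
    intro h0
    have h1 : (R2 * B2⁻¹) * (B' - B * A⁻¹ * A') = 2 * (R1 * A1⁻¹) * A' := by
      have hAA : A * A⁻¹ = 1 := mul_inv_cancel₀ kAe
      linear_combination (A⁻¹ * A') * kRe + kRf1 - kRf2 + R1 * A1⁻¹ * A' * hAA
    rw [h0, mul_zero] at h1
    have h2 : (2 : K) * (R1 * A1⁻¹) * A' ≠ 0 :=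
      mul_ne_zero (mul_ne_zero two_ne_zero (mul_ne_zero kR1 (inv_ne_zero kA1))) kAf
    exact h2 h1.symm
  have key2 : sc Γ S a b e f ≠ 0 := by
    rw [← piv_old_apply hS ha heS uAe hb hab.symm]
    rw [← piv_old_apply hSK ha heS vAe hb hab.symm] at key
    exact (same hTe hbTe hfTe).2 key
  apply key2
  rw [W2f_comp hS ha hr hb hab har hc₁ uA1 hB1 hA2, hR] at hRe
  have uL : IsUnit (fv Γ S r c₂ * Ring.inverse (fv Γ S b c₂)) := uR2.mul (isUnit_ringInverse.2 uB2)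
  unfold sc at hRf1 hRf2 ⊢
  rw [zero_sub, sub_eq_zero] at hRe
  rw [sub_eq_zero] at hRf1 hRf2
  have h1 : (fv Γ S r c₂ * Ring.inverse (fv Γ S b c₂)) *
      (fv Γ S b f - fv Γ S b e * Ring.inverse (fv Γ S a e) * fv Γ S a f) = 0 := by
    rw [mul_sub, ← hRf2, hRf1, ← mul_assoc, ← mul_assoc, ← hRe, neg_mul, neg_mul, sub_neg_eq_add,
      mul_assoc _ (fv Γ S a e), Ring.mul_inverse_cancel _ uAe, mul_one]
    exact W2f_two _
  exact uL.mul_right_eq_zero.1 h1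

end Pool.Agent.QUS
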