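import Pool.Agent.QUS.W2a
import Pool.Agent.QUS.W2f

/-!
# QUS/W2: (S2): a wrong block has no path of length two

If one of `A, A', B, B'` (rows `a, b`, columns `e, f`) is zero: trivial.  The middle coordinates of `e` at the four bases `S`, `pv S a c₁`, `pv S b c₂`, `pv (pv S a c₁) b c₂` are `R, R - kA, R - lB,
R - kA - lB` (`k, l` units): two neighbouring ones are not both zero; same for `f`.  If at one of the four bases both middle coordinates are nonzero, apply `s2a` there (at `pv S a c₁` the roles of `a` and `c₁` are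
exchanged: rows `c₁, r, b`, columns `a, c₂`; the row `c₁` is `A1⁻¹ •` row `a`, row `b` is unchanged, so `sc` is the same; at `pv S b c₂`: rows `a, r, c₂`, columns `c₁, b`, `sc` is multiplied by `B2⁻¹`).
Otherwise the zeros of `e` and `f` cover the four bases: `e` is zero at `S` and at the fourth, `f` at the second and the third, or vice versa: `fano` (for `(e,f)` or `(f,e)`, in the second case for `f, e`).
-/

set_option autoImplicit false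

noncomputable section

open scoped Classical

namespace Pool.Agent.QUS

variable {E : Type} {Λ : Submodule Hz (E → Hz)} {Γ : Submodule Rq (E → Rq)} {S G : Finset E} {a r b c₁ c₂ e f : E}

/-- the configuration -/
private structure W2_Cfg (Λ : Submodule Hz (E → Hz)) (Γ : Submodule Rq (E → Rq)) (S : Finset E) (a r b c₁ c₂ e f : E) : Prop where
  hS : IsB Γ S
  heS : e ∉ S
  hfS : f ∉ S
  ha : a ∈ S
  hr : r ∈ S
  hb : b ∈ S
  hab : a ≠ b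
  har : a ≠ r
  hrb : r ≠ b
  hc₁ : c₁ ∉ S
  hc₂ : c₂ ∉ S
  h1e : c₁ ≠ e
  h1f : c₁ ≠ f
  h2e : c₂ ≠ e
  h2f : c₂ ≠ f
  hA1 : fv Λ S a c₁ ≠ 0
  hR1 : fv Λ S r c₁ ≠ 0
  hB1 : fv Λ S b c₁ = 0
  hA2 : fv Λ S a c₂ = 0
  hR2 : fv Λ S r c₂ ≠ 0
  hB2 : fv Λ S b c₂ ≠ 0
  hAe : fv Λ S a e ≠ 0

private theorem W2_c {Λ : Submodule Hz (E → Hz)} {Γ : Submodule Rq (E → Rq)} (h : W2_Cfg Λ Γ S a r b c₁ c₂ e f) : c₁ ≠ c₂ := by
  intro h2
  apply h.hA1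
  rw [h2]
  exact h.hA2

private theorem W2_mul_ne {x y : Hz} (hx : IsUnit x) (hy : y ≠ 0) : x * y ≠ 0 := by
  intro h
  exact hy (hx.mul_right_eq_zero.1 h)

/-- the pivot at `(a, c₁)` -/
private theorem W2_cfg1 (hO : RightOff Λ Γ e f) (h : W2_Cfg Λ Γ S a r b c₁ c₂ e f) :
    W2_Cfg Λ Γ (pv S a c₁) c₁ r b a c₂ e f ∧ sc Λ (pv S a c₁) c₁ b e f = sc Λ S a b e f ∧
      (∀ g, fv Λ (pv S a c₁) r g = fv Λ S r g - fv Λ S r c₁ * Ring.inverse (fv Λ S a c₁) * fv Λ S a g) ∧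
      (∀ g, fv Λ (pv S a c₁) b g = fv Λ S b g) := by
  have hL := (hO S h.hS h.heS h.hfS).1
  have uA1 : IsUnit (fv Λ S a c₁) := off_unit hO h.hS h.heS h.hfS h.ha h.hA1
  have uR1 : IsUnit (fv Λ S r c₁) := off_unit hO h.hS h.heS h.hfS h.hr h.hR1
  have uAe : IsUnit (fv Λ S a e) := off_unit hO h.hS h.heS h.hfS h.ha h.hAe
  have vA1 : IsUnit (fv Γ S a c₁) := by
    rw [← ((hO S h.hS h.heS h.hfS).2 a h.ha c₁).2]
    exact red_unit uA1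
  have hT : IsB Γ (pv S a c₁) := piv h.hS h.ha h.hc₁ vA1
  have hc := W2_c h
  have hacs : a ≠ c₁ := fun h2 => h.hc₁ (h2 ▸ h.ha)
  have heT : e ∉ pv S a c₁ := by
    rw [mem_pv]
    rintro (h2 | ⟨_, h2⟩)
    · exact h.h1e h2.symm
    · exact h.heS h2
  have hfT : f ∉ pv S a c₁ := by
    rw [mem_pv]
    rintro (h2 | ⟨_, h2⟩)
    · exact h.h1f h2.symm
    · exact h.hfS h2
  have haT : a ∉ pv S a c₁ := by
    rw [mem_pv]
    rintro (h2 | ⟨h2, _⟩)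
    · exact hacs h2
    · exact h2 rfl
  have hc2T : c₂ ∉ pv S a c₁ := by
    rw [mem_pv]
    rintro (h2 | ⟨_, h2⟩)
    · exact hc h2.symm
    · exact h.hc₂ h2
  have new : ∀ g, fv Λ (pv S a c₁) c₁ g = Ring.inverse (fv Λ S a c₁) * fv Λ S a g := by
    intro g
    rw [piv_new hL h.ha h.hc₁ uA1]
    rfl
  have fr : ∀ g, fv Λ (pv S a c₁) r g = fv Λ S r g - fv Λ S r c₁ * Ring.inverse (fv Λ S a c₁) * fv Λ S a g := by
    intro g
    rw [piv_old_apply hL h.ha h.hc₁ uA1 h.hr h.har.symm]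
    rfl
  have fb : ∀ g, fv Λ (pv S a c₁) b g = fv Λ S b g := by
    intro g
    rw [piv_old_apply hL h.ha h.hc₁ uA1 h.hb h.hab.symm]
    unfold sc
    rw [h.hB1, zero_mul, zero_mul, sub_zero]
  have saa : fv Λ S a a = 1 := fv_self hL h.ha
  have sra : fv Λ S r a = 0 := fv_oth hL h.hr h.ha h.har
  have sba : fv Λ S b a = 0 := fv_oth hL h.hb h.ha h.hab
  have uI : IsUnit (Ring.inverse (fv Λ S a c₁)) := isUnit_ringInverse.2 uA1
  refine ⟨⟨hT, heT, hfT, mem_pv.2 (Or.inl rfl), mem_pv.2 (Or.inr ⟨h.har.symm, h.hr⟩), mem_pv.2 (Or.inr ⟨h.hab.symm, h.hb⟩),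
    fun h2 => h.hc₁ (h2 ▸ h.hb), fun h2 => h.hc₁ (h2 ▸ h.hr), h.hrb, haT, hc2T, fun h2 => h.heS (h2 ▸ h.ha),
    fun h2 => h.hfS (h2 ▸ h.ha), h.h2e, h.h2f, ?_, ?_, ?_, ?_, ?_, ?_, ?_⟩, ?_, fr, fb⟩
  · rw [new, saa, mul_one]
    exact uI.ne_zero
  · rw [fr, sra, saa, mul_one, zero_sub]
    exact (uR1.mul uI).neg.ne_zero
  · rw [fb, sba]
  · rw [new, h.hA2, mul_zero]
  · rw [fr, h.hA2, mul_zero, sub_zero]
    exact h.hR2
  · rw [fb]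
    exact h.hB2
  · rw [new]
    exact W2_mul_ne uI h.hAe
  · unfold sc
    rw [fb, fb, new, new]
    obtain ⟨p, hp⟩ := uA1
    obtain ⟨q, hq⟩ := uAe
    rw [← hp, ← hq, Ring.inverse_unit, Ring.inverse_unit, ← Units.val_mul, Ring.inverse_unit]
    rw [mul_inv_rev, inv_inv]
    push_cast
    simp only [mul_assoc, Units.mul_inv_cancel_left]

/-- the pivot at `(b, c₂)` -/
private theorem W2_cfg2 (hO : RightOff Λ Γ e f) (h : W2_Cfg Λ Γ S a r b c₁ c₂ e f) :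
    W2_Cfg Λ Γ (pv S b c₂) a r c₂ c₁ b e f ∧
      sc Λ (pv S b c₂) a c₂ e f = Ring.inverse (fv Λ S b c₂) * sc Λ S a b e f ∧
      (∀ g, fv Λ (pv S b c₂) r g = fv Λ S r g - fv Λ S r c₂ * Ring.inverse (fv Λ S b c₂) * fv Λ S b g) := by
  have hL := (hO S h.hS h.heS h.hfS).1
  have uB2 : IsUnit (fv Λ S b c₂) := off_unit hO h.hS h.heS h.hfS h.hb h.hB2
  have uR2 : IsUnit (fv Λ S r c₂) := off_unit hO h.hS h.heS h.hfS h.hr h.hR2
  have vB2 : IsUnit (fv Γ S b c₂) := by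
    rw [← ((hO S h.hS h.heS h.hfS).2 b h.hb c₂).2]
    exact red_unit uB2
  have hT : IsB Γ (pv S b c₂) := piv h.hS h.hb h.hc₂ vB2
  have hc := W2_c h
  have hbcs : b ≠ c₂ := fun h2 => h.hc₂ (h2 ▸ h.hb)
  have heT : e ∉ pv S b c₂ := by
    rw [mem_pv]
    rintro (h2 | ⟨_, h2⟩)
    · exact h.h2e h2.symm
    · exact h.heS h2
  have hfT : f ∉ pv S b c₂ := by
    rw [mem_pv]
    rintro (h2 | ⟨_, h2⟩)
    · exact h.h2f h2.symm
    · exact h.hfS h2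
  have hbT : b ∉ pv S b c₂ := by
    rw [mem_pv]
    rintro (h2 | ⟨h2, _⟩)
    · exact hbcs h2
    · exact h2 rfl
  have hc1T : c₁ ∉ pv S b c₂ := by
    rw [mem_pv]
    rintro (h2 | ⟨_, h2⟩)
    · exact hc h2
    · exact h.hc₁ h2
  have new : ∀ g, fv Λ (pv S b c₂) c₂ g = Ring.inverse (fv Λ S b c₂) * fv Λ S b g := by
    intro g
    rw [piv_new hL h.hb h.hc₂ uB2]
    rfl
  have fr : ∀ g, fv Λ (pv S b c₂) r g = fv Λ S r g - fv Λ S r c₂ * Ring.inverse (fv Λ S b c₂) * fv Λ S b g := by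
    intro g
    rw [piv_old_apply hL h.hb h.hc₂ uB2 h.hr h.hrb]
    rfl
  have fa : ∀ g, fv Λ (pv S b c₂) a g = fv Λ S a g := by
    intro g
    rw [piv_old_apply hL h.hb h.hc₂ uB2 h.ha h.hab]
    unfold sc
    rw [h.hA2, zero_mul, zero_mul, sub_zero]
  have sbb : fv Λ S b b = 1 := fv_self hL h.hb
  have srb : fv Λ S r b = 0 := fv_oth hL h.hr h.hb h.hrb.symm
  have sab : fv Λ S a b = 0 := fv_oth hL h.ha h.hb h.hab.symm
  have uI : IsUnit (Ring.inverse (fv Λ S b c₂)) := isUnit_ringInverse.2 uB2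
  refine ⟨⟨hT, heT, hfT, mem_pv.2 (Or.inr ⟨h.hab, h.ha⟩), mem_pv.2 (Or.inr ⟨h.hrb, h.hr⟩), mem_pv.2 (Or.inl rfl),
    fun h2 => h.hc₂ (h2 ▸ h.ha), h.har, fun h2 => h.hc₂ (h2 ▸ h.hr), hc1T, hbT, h.h1e, h.h1f,
    fun h2 => h.heS (h2 ▸ h.hb), fun h2 => h.hfS (h2 ▸ h.hb), ?_, ?_, ?_, ?_, ?_, ?_, ?_⟩, ?_, fr⟩
  · rw [fa]
    exact h.hA1
  · rw [fr, h.hB1, mul_zero, sub_zero]
    exact h.hR1
  · rw [new, h.hB1, mul_zero]
  · rw [fa, sab]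
  · rw [fr, srb, sbb, mul_one, zero_sub]
    exact (uR2.mul uI).neg.ne_zero
  · rw [new, sbb, mul_one]
    exact uI.ne_zero
  · rw [fa]
    exact h.hAe
  · unfold sc
    rw [fa, fa, new, new, mul_sub]
    simp only [mul_assoc]

private theorem W2_s2a (hD : Dat Γ G) (hO : RightOff Λ Γ e f) (hef : e ≠ f) (h : W2_Cfg Λ Γ S a r b c₁ c₂ e f)
    (h1 : fv Λ S r e ≠ 0) (h2 : fv Λ S r f ≠ 0) : UZ (sc Λ S a b e f) :=
  s2a hD hO h.hS h.heS h.hfS hef h.ha h.hr h.hb h.hab h.har h.hrb h.hc₁ h.hc₂ h.h1e h.h1f h.h2e h.h2f h.hA1 h.hR1 h.hB1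
    h.hA2 h.hR2 h.hB2 h1 h2 h.hAe

theorem s2 (hD : Dat Γ G) (hO : RightOff Λ Γ e f) (hS : IsB Γ S) (heS : e ∉ S) (hfS : f ∉ S) (hef : e ≠ f)
    (ha : a ∈ S) (hr : r ∈ S) (hb : b ∈ S) (hab : a ≠ b) (har : a ≠ r) (hrb : r ≠ b)
    (hc₁ : c₁ ∉ S) (hc₂ : c₂ ∉ S) (h1e : c₁ ≠ e) (h1f : c₁ ≠ f) (h2e : c₂ ≠ e) (h2f : c₂ ≠ f)
    (hA1 : fv Λ S a c₁ ≠ 0) (hR1 : fv Λ S r c₁ ≠ 0) (hB1 : fv Λ S b c₁ = 0) (hA2 : fv Λ S a c₂ = 0)
    (hR2 : fv Λ S r c₂ ≠ 0) (hB2 : fv Λ S b c₂ ≠ 0) (hAe : fv Λ S a e ≠ 0) : UZ (sc Λ S a b e f) := by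
  have hL := hO S hS heS hfS
  by_cases hAf : fv Λ S a f = 0
  · unfold sc
    rw [hAf, mul_zero, sub_zero]
    exact (hL.2 b hb f).1
  by_cases hBe : fv Λ S b e = 0
  · unfold sc
    rw [hBe, zero_mul, zero_mul, sub_zero]
    exact (hL.2 b hb f).1
  by_cases hBf : fv Λ S b f = 0
  · unfold sc
    rw [hBf, zero_sub]
    exact uz_neg (uz_mul (uz_mul (hL.2 b hb e).1 (uz_inv (hL.2 a ha e).1)) (hL.2 a ha f).1)
  have C : W2_Cfg Λ Γ S a r b c₁ c₂ e f := ⟨hS, heS, hfS, ha, hr, hb, hab, har, hrb, hc₁, hc₂, h1e, h1f, h2e, h2f, hA1,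
    hR1, hB1, hA2, hR2, hB2, hAe⟩
  have uA1 : IsUnit (fv Λ S a c₁) := off_unit hO hS heS hfS ha hA1
  have uR1 : IsUnit (fv Λ S r c₁) := off_unit hO hS heS hfS hr hR1
  have uR2 : IsUnit (fv Λ S r c₂) := off_unit hO hS heS hfS hr hR2
  have uB2 : IsUnit (fv Λ S b c₂) := off_unit hO hS heS hfS hb hB2
  have uk : IsUnit (fv Λ S r c₁ * Ring.inverse (fv Λ S a c₁)) := uR1.mul (isUnit_ringInverse.2 uA1)
  have ul : IsUnit (fv Λ S r c₂ * Ring.inverse (fv Λ S b c₂)) := uR2.mul (isUnit_ringInverse.2 uB2)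
  obtain ⟨C1, e1, m1, b1⟩ := W2_cfg1 hO C
  obtain ⟨C2, e2, m2⟩ := W2_cfg2 hO C
  obtain ⟨C3, e3, m3⟩ := W2_cfg2 hO C1
  have m3' : ∀ g, fv Λ (pv (pv S a c₁) b c₂) r g = fv Λ S r g - fv Λ S r c₁ * Ring.inverse (fv Λ S a c₁) * fv Λ S a g -
      fv Λ S r c₂ * Ring.inverse (fv Λ S b c₂) * fv Λ S b g := by
    intro g
    rw [m3, m1, m1, b1, b1, hA2, mul_zero, sub_zero]
  -- the four bases
  by_cases p0 : fv Λ S r e ≠ 0 ∧ fv Λ S r f ≠ 0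
  · exact W2_s2a hD hO hef C p0.1 p0.2
  by_cases p1 : fv Λ (pv S a c₁) r e ≠ 0 ∧ fv Λ (pv S a c₁) r f ≠ 0
  · rw [← e1]
    exact W2_s2a hD hO hef C1 p1.1 p1.2
  by_cases p2 : fv Λ (pv S b c₂) r e ≠ 0 ∧ fv Λ (pv S b c₂) r f ≠ 0
  · have h4 := W2_s2a hD hO hef C2 p2.1 p2.2
    rw [e2] at h4
    have h5 := uz_mul (Or.inr uB2) h4
    rw [← mul_assoc, Ring.mul_inverse_cancel _ uB2, one_mul] at h5
    exact h5
  by_cases p3 : fv Λ (pv (pv S a c₁) b c₂) r e ≠ 0 ∧ fv Λ (pv (pv S a c₁) b c₂) r f ≠ 0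
  · have h4 := W2_s2a hD hO hef C3 p3.1 p3.2
    rw [e3, b1, e1] at h4
    have h5 := uz_mul (Or.inr uB2) h4
    rw [← mul_assoc, Ring.mul_inverse_cancel _ uB2, one_mul] at h5
    exact h5
  exfalso
  -- neighbouring middle coordinates are not both zero
  have n01 : ∀ g, fv Λ S a g ≠ 0 → fv Λ S r g = 0 → fv Λ (pv S a c₁) r g ≠ 0 := by
    intro g hg h0 h1
    rw [m1, h0, zero_sub, neg_eq_zero] at h1
    exact hg (uk.mul_right_eq_zero.1 h1)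
  have n02 : ∀ g, fv Λ S b g ≠ 0 → fv Λ S r g = 0 → fv Λ (pv S b c₂) r g ≠ 0 := by
    intro g hg h0 h1
    rw [m2, h0, zero_sub, neg_eq_zero] at h1
    exact hg (ul.mul_right_eq_zero.1 h1)
  have n13 : ∀ g, fv Λ S b g ≠ 0 → fv Λ (pv S a c₁) r g = 0 → fv Λ (pv (pv S a c₁) b c₂) r g ≠ 0 := by
    intro g hg h0 h1
    rw [m3', ← m1, h0, zero_sub, neg_eq_zero] at h1
    exact hg (ul.mul_right_eq_zero.1 h1)
  have n23 : ∀ g, fv Λ S a g ≠ 0 → fv Λ (pv S b c₂) r g = 0 → fv Λ (pv (pv S a c₁) b c₂) r g ≠ 0 := by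
    intro g hg h0 h1
    rw [m3', sub_right_comm, ← m2, h0, zero_sub, neg_eq_zero] at h1
    exact hg (uk.mul_right_eq_zero.1 h1)
  -- transfer to the reduction
  have tz : ∀ {T : Finset E} {x g : E}, IsB Γ T → e ∉ T → f ∉ T → x ∈ T → (fv Λ T x g = 0 ↔ fv Γ T x g = 0) :=
    fun hT h4 h5 hx => off_zero hO hT h4 h5 hx
  have vA1 : IsUnit (fv Γ S a c₁) := by
    rw [← (hL.2 a ha c₁).2]
    exact red_unit uA1
  have vB2 : IsUnit (fv Γ S b c₂) := by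
    rw [← (hL.2 b hb c₂).2]
    exact red_unit uB2
  have g1 : ∀ g, fv Λ (pv S a c₁) r g = 0 → sc Γ S a r c₁ g = 0 := by
    intro g h0
    rw [← piv_old_apply hS ha hc₁ vA1 hr har.symm]
    exact (tz C1.hS C1.heS C1.hfS C1.hr).1 h0
  have g2 : ∀ g, fv Λ (pv S b c₂) r g = 0 → sc Γ S b r c₂ g = 0 := by
    intro g h0
    rw [← piv_old_apply hS hb hc₂ vB2 hr hrb]
    exact (tz C2.hS C2.heS C2.hfS C2.hr).1 h0
  have g3 : ∀ g, fv Λ (pv (pv S a c₁) b c₂) r g = 0 → sc Γ (pv S a c₁) b r c₂ g = 0 := by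
    intro g h0
    have vB2' : IsUnit (fv Γ (pv S a c₁) b c₂) := by
      rw [← ((hO _ C1.hS C1.heS C1.hfS).2 b C1.hb c₂).2]
      exact red_unit (off_unit hO C1.hS C1.heS C1.hfS C1.hb C1.hB2)
    rw [← piv_old_apply C1.hS C1.hb C1.hc₂ vB2' C1.hr C1.hrb]
    exact (tz C3.hS C3.heS C3.hfS C3.hr).1 h0
  have kA1 : fv Γ S a c₁ ≠ 0 := fun h0 => hA1 ((tz hS heS hfS ha).2 h0)
  have kR1 : fv Γ S r c₁ ≠ 0 := fun h0 => hR1 ((tz hS heS hfS hr).2 h0)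
  have kR2 : fv Γ S r c₂ ≠ 0 := fun h0 => hR2 ((tz hS heS hfS hr).2 h0)
  have kB2 : fv Γ S b c₂ ≠ 0 := fun h0 => hB2 ((tz hS heS hfS hb).2 h0)
  have kB1 : fv Γ S b c₁ = 0 := (tz hS heS hfS hb).1 hB1
  have kA2 : fv Γ S a c₂ = 0 := (tz hS heS hfS ha).1 hA2
  have kAe : fv Γ S a e ≠ 0 := fun h0 => hAe ((tz hS heS hfS ha).2 h0)
  have kAf : fv Γ S a f ≠ 0 := fun h0 => hAf ((tz hS heS hfS ha).2 h0)
  have kBe : fv Γ S b e ≠ 0 := fun h0 => hBe ((tz hS heS hfS hb).2 h0)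
  have kBf : fv Γ S b f ≠ 0 := fun h0 => hBf ((tz hS heS hfS hb).2 h0)
  have or0 : fv Λ S r e = 0 ∨ fv Λ S r f = 0 := by
    by_contra hh
    exact p0 (not_or.1 hh)
  have or1 : fv Λ (pv S a c₁) r e = 0 ∨ fv Λ (pv S a c₁) r f = 0 := by
    by_contra hh
    exact p1 (not_or.1 hh)
  have or2 : fv Λ (pv S b c₂) r e = 0 ∨ fv Λ (pv S b c₂) r f = 0 := by
    by_contra hh
    exact p2 (not_or.1 hh)
  have or3 : fv Λ (pv (pv S a c₁) b c₂) r e = 0 ∨ fv Λ (pv (pv S a c₁) b c₂) r f = 0 := by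
    by_contra hh
    exact p3 (not_or.1 hh)
  rcases or0 with z0 | z0
  · have z1 : fv Λ (pv S a c₁) r f = 0 := or1.resolve_left (n01 e hAe z0)
    have z2 : fv Λ (pv S b c₂) r f = 0 := or2.resolve_left (n02 e hBe z0)
    have z3 : fv Λ (pv (pv S a c₁) b c₂) r e = 0 := or3.resolve_right (n13 f hBf z1)
    exact fano hD hS heS hfS hef ha hr hb hab har hrb hc₁ hc₂ h1e h1f h2e h2f kA1 kR1 kB1 kA2 kR2 kB2 kAe kBe kAf kBf
      ((tz hS heS hfS hr).1 z0) (g3 e z3) (g1 f z1) (g2 f z2)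
  · have z1 : fv Λ (pv S a c₁) r e = 0 := or1.resolve_right (n01 f hAf z0)
    have z2 : fv Λ (pv S b c₂) r e = 0 := or2.resolve_right (n02 f hBf z0)
    have z3 : fv Λ (pv (pv S a c₁) b c₂) r f = 0 := or3.resolve_left (n13 e hBe z1)
    exact fano hD hS hfS heS hef.symm ha hr hb hab har hrb hc₁ hc₂ h1f h1e h2f h2e kA1 kR1 kB1 kA2 kR2 kB2 kAf kBf kAe kBe
      ((tz hS heS hfS hr).1 z0) (g3 f z3) (g1 e z1) (g2 e z2)

end Pool.Agent.QUS
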