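import Pool.Agent.QUS.W1
import Pool.Agent.QUS.Fc2

/-!
# QUS/W2a: (S2), the case of a nonzero middle row

Rows `a, r, b`, columns `c1 = (A1, R1, 0)`, `c2 = (0, R2, B2)`, `e = (A, R, B)`, `f = (A', R', B')` (all these entries units, else trivial).  Normalise: multiply the row `a` from the left by `A1⁻¹`, `r` by
`-R1⁻¹`, `b` by `R1⁻¹ R2 B2⁻¹`, columns `e`, `f` from the right by `(A1⁻¹ A)⁻¹`, `(A1⁻¹ A')⁻¹`: `p = -R1⁻¹ R (A1⁻¹ A)⁻¹`, `q = R1⁻¹ R2 B2⁻¹ B (A1⁻¹ A)⁻¹`, `s`, `t` similarly with `R', B', A'`.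
`off_sc` with pivots `(r,c1)`, `(r,c2)` and once more `(b,c2)` at `pv S r c1` give `h1, h2, h3, h1', h2', h3'`; `s1` gives `m1` (rows `a,r`, column `c1`), `m2` (rows `r,b`, column `c2`), `m3` (basis `pv S r c1`, rows `a,b`, column
`c2`), `m4` (basis `pv S r c2`, rows `a,b`, column `c1`); `off_red` gives `hr`; `NC.row` (rows `a,r,b`) gives `hc`; the conclusion `UZ (t - q)` is `UZ (sc Λ S a b e f)` up to units.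
-/

set_option autoImplicit false

noncomputable section

open scoped Classical

namespace Pool.Agent.QUS

section Alg

variable {H : Type} [Ring H]

private theorem w2a_uz {z w : H} (x y : Hˣ) (h : UZ z) (e : w = x * z * y) : UZ w := by
  rw [e]
  exact uz_mul (uz_mul (Or.inr x.isUnit) h) (Or.inr y.isUnit)

private theorem w2a_iu {x z y : H} (hx : IsUnit x) (hy : IsUnit y) (h : IsUnit (x * z * y)) :
    IsUnit z := by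
  obtain ⟨x, rfl⟩ := hx
  obtain ⟨y, rfl⟩ := hy
  have h1 : z = (x⁻¹ : Hˣ) * (x * z * y) * (y⁻¹ : Hˣ) := by
    simp [mul_assoc]
  rw [h1]
  exact ((x⁻¹).isUnit.mul h).mul (y⁻¹).isUnit

private theorem w2a_1 (A1 R1 A R : Hˣ) : 1 + -((R1⁻¹ : Hˣ) * (R : H) * (A⁻¹ : Hˣ) * A1) =
    (A1⁻¹ : Hˣ) * ((A : H) - A1 * (R1⁻¹ : Hˣ) * R) * (A⁻¹ * A1 : Hˣ) := by
  simp [mul_sub, sub_mul, mul_assoc, sub_eq_add_neg, add_mul, mul_add]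

private theorem w2a_2 (A1 R1 R2 B2 A R B : Hˣ) : -((R1⁻¹ : Hˣ) * (R : H) * (A⁻¹ : Hˣ) * A1) +
      (R1⁻¹ : Hˣ) * (R2 : H) * (B2⁻¹ : Hˣ) * B * (A⁻¹ : Hˣ) * A1 =
    (R1⁻¹ * R2 * B2⁻¹ : Hˣ) * ((B : H) - B2 * (R2⁻¹ : Hˣ) * R) * (A⁻¹ * A1 : Hˣ) := by
  rw [add_comm]
  simp [mul_sub, sub_mul, mul_assoc, sub_eq_add_neg, add_mul, mul_add]

private theorem w2a_3 (A1 R1 R2 B2 A R B : Hˣ) : 1 + -((R1⁻¹ : Hˣ) * (R : H) * (A⁻¹ : Hˣ) * A1) +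
      (R1⁻¹ : Hˣ) * (R2 : H) * (B2⁻¹ : Hˣ) * B * (A⁻¹ : Hˣ) * A1 =
    (A1⁻¹ : Hˣ) * (((A : H) - A1 * (R1⁻¹ : Hˣ) * R) + A1 * (R1⁻¹ : Hˣ) * R2 * (B2⁻¹ : Hˣ) * B) *
      (A⁻¹ * A1 : Hˣ) := by
  simp [mul_sub, sub_mul, mul_assoc, sub_eq_add_neg, add_mul, mul_add]

private theorem w2a_m1 (A1 R1 A R A' R' : Hˣ) : -((R1⁻¹ : Hˣ) * (R' : H) * (A'⁻¹ : Hˣ) * A1) -
      -((R1⁻¹ : Hˣ) * (R : H) * (A⁻¹ : Hˣ) * A1) =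
    (-R1⁻¹ : Hˣ) * ((R' : H) - R * (A⁻¹ : Hˣ) * A') * (A'⁻¹ * A1 : Hˣ) := by
  simp [mul_sub, sub_mul, mul_assoc, sub_eq_add_neg, add_mul, mul_add]

private theorem w2a_m2 (A1 R1 R2 B2 R B A A' R' B' : Hˣ) :
    (R1⁻¹ : Hˣ) * (R2 : H) * (B2⁻¹ : Hˣ) * B' * (A'⁻¹ : Hˣ) * A1 -
      (R1⁻¹ : Hˣ) * (R2 : H) * (B2⁻¹ : Hˣ) * B * (A⁻¹ : Hˣ) * A1 *
        ((-(R1⁻¹ * R * A⁻¹ * A1))⁻¹ : Hˣ) * -((R1⁻¹ : Hˣ) * (R' : H) * (A'⁻¹ : Hˣ) * A1) =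
    (R1⁻¹ * R2 * B2⁻¹ : Hˣ) * ((B' : H) - B * (R⁻¹ : Hˣ) * R') * (A'⁻¹ * A1 : Hˣ) := by
  simp [mul_sub, sub_mul, mul_assoc, sub_eq_add_neg, add_mul, mul_add]

private theorem w2a_m3 (A1 R1 R2 B2 B A A' B' X : Hˣ) (x Y : H)
    (hX : (X : H) = (A1⁻¹ : Hˣ) * x * (A⁻¹ * A1 : Hˣ)) (hx : IsUnit x) :
    (R1⁻¹ : Hˣ) * (R2 : H) * (B2⁻¹ : Hˣ) * B' * (A'⁻¹ : Hˣ) * A1 -
      (R1⁻¹ : Hˣ) * (R2 : H) * (B2⁻¹ : Hˣ) * B * (A⁻¹ : Hˣ) * A1 * (X⁻¹ : Hˣ) *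
        ((A1⁻¹ : Hˣ) * Y * (A'⁻¹ * A1 : Hˣ)) =
    (R1⁻¹ * R2 * B2⁻¹ : Hˣ) * ((B' : H) - B * Ring.inverse x * Y) * (A'⁻¹ * A1 : Hˣ) := by
  obtain ⟨x, rfl⟩ := hx
  have h1 : X = A1⁻¹ * x * (A⁻¹ * A1) := by
    apply Units.ext
    rw [hX]
    simp
  rw [h1, Ring.inverse_unit]
  simp [mul_sub, sub_mul, mul_assoc, sub_eq_add_neg, add_mul, mul_add]

private theorem w2a_m3' (A1 R1 R2 B2 B A A' B' X p q s t : Hˣ) (x Y : H) (eX : (X : H) = 1 + p)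
    (hX : (X : H) = (A1⁻¹ : Hˣ) * x * (A⁻¹ * A1 : Hˣ)) (hx : IsUnit x)
    (hs : 1 + (s : H) = (A1⁻¹ : Hˣ) * Y * (A'⁻¹ * A1 : Hˣ))
    (hq : (q : H) = (R1⁻¹ : Hˣ) * (R2 : H) * (B2⁻¹ : Hˣ) * B * (A⁻¹ : Hˣ) * A1)
    (ht : (t : H) = (R1⁻¹ : Hˣ) * (R2 : H) * (B2⁻¹ : Hˣ) * B' * (A'⁻¹ : Hˣ) * A1) :
    (t : H) - q * Ring.inverse (1 + (p : H)) * (1 + s) =
    (R1⁻¹ * R2 * B2⁻¹ : Hˣ) * ((B' : H) - B * Ring.inverse x * Y) * (A'⁻¹ * A1 : Hˣ) := by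
  rw [← eX, Ring.inverse_unit, ht, hq, hs]
  exact w2a_m3 A1 R1 R2 B2 B A A' B' X x Y hX hx

private theorem w2a_m4 (A1 R1 R2 B2 A R B A' R' B' : Hˣ) :
    -((R1⁻¹ : Hˣ) * (R' : H) * (A'⁻¹ : Hˣ) * A1) + (R1⁻¹ : Hˣ) * (R2 : H) * (B2⁻¹ : Hˣ) * B' * (A'⁻¹ : Hˣ) * A1 -
      (-((R1⁻¹ : Hˣ) * (R : H) * (A⁻¹ : Hˣ) * A1) + (R1⁻¹ : Hˣ) * (R2 : H) * (B2⁻¹ : Hˣ) * B * (A⁻¹ : Hˣ) * A1) =
    (R1⁻¹ * R2 * B2⁻¹ : Hˣ) * (((B' : H) - B2 * (R2⁻¹ : Hˣ) * R') - (B - B2 * (R2⁻¹ : Hˣ) * R) *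
      (A⁻¹ : Hˣ) * A') * (A'⁻¹ * A1 : Hˣ) := by
  simp [mul_sub, sub_mul, mul_assoc, sub_eq_add_neg, add_mul, mul_add]
  abel

private theorem w2a_tq (A1 R1 R2 B2 A B A' B' : Hˣ) :
    (R1⁻¹ : Hˣ) * (R2 : H) * (B2⁻¹ : Hˣ) * B' * (A'⁻¹ : Hˣ) * A1 -
      (R1⁻¹ : Hˣ) * (R2 : H) * (B2⁻¹ : Hˣ) * B * (A⁻¹ : Hˣ) * A1 =
    (R1⁻¹ * R2 * B2⁻¹ : Hˣ) * ((B' : H) - B * (A⁻¹ : Hˣ) * A') * (A'⁻¹ * A1 : Hˣ) := by
  simp [mul_sub, sub_mul, mul_assoc, sub_eq_add_neg, add_mul, mul_add]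

private theorem w2a_sc (A1 R1 R2 B2 A B A' B' : Hˣ) : (B' : H) - B * (A⁻¹ : Hˣ) * A' =
    (B2 * R2⁻¹ * R1 : Hˣ) * ((R1⁻¹ : Hˣ) * (R2 : H) * (B2⁻¹ : Hˣ) * B' * (A'⁻¹ : Hˣ) * A1 -
      (R1⁻¹ : Hˣ) * (R2 : H) * (B2⁻¹ : Hˣ) * B * (A⁻¹ : Hˣ) * A1) * (A1⁻¹ * A' : Hˣ) := by
  simp [mul_sub, sub_mul, mul_assoc, sub_eq_add_neg, add_mul, mul_add]

private theorem w2a_c1 (A1 R1 R A A' R' : Hˣ) :
    (((-(R1⁻¹ * R * A⁻¹ * A1))⁻¹ : Hˣ) : H) * -((R1⁻¹ : Hˣ) * (R' : H) * (A'⁻¹ : Hˣ) * A1) =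
      (A1⁻¹ : Hˣ) * ((A : H) * (R⁻¹ : Hˣ) * R' * (A'⁻¹ : Hˣ)) * A1 := by
  simp [mul_assoc]

private theorem w2a_c2 (A1 R1 R2 B2 B A A' B' : Hˣ) :
    (((R1⁻¹ * R2 * B2⁻¹ * B * A⁻¹ * A1)⁻¹ : Hˣ) : H) *
        ((R1⁻¹ : Hˣ) * (R2 : H) * (B2⁻¹ : Hˣ) * B' * (A'⁻¹ : Hˣ) * A1) =
      (A1⁻¹ : Hˣ) * ((A : H) * (B⁻¹ : Hˣ) * B' * (A'⁻¹ : Hˣ)) * A1 := by
  simp [mul_assoc]

private theorem w2a_comm {x y u v a a' : H} (h1 : a * a' = 1) (hx : u = a' * x * a)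
    (hy : v = a' * y * a) (h : Commute u v) : Commute x y := by
  have k : ∀ z : H, a * (a' * z * a) * a' = z := by
    intro z
    rw [mul_assoc a' z a, ← mul_assoc a a' (z * a), h1, one_mul, mul_assoc z a a', h1, mul_one]
  have e1 : x * y = a * (u * v) * a' := by
    rw [hx, hy]
    have : a' * x * a * (a' * y * a) = a' * (x * y) * a := by
      rw [mul_assoc (a' * x) a, ← mul_assoc a (a' * y) a, ← mul_assoc a a' y, h1, one_mul]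
      simp only [mul_assoc]
    rw [this, k]
  have e2 : y * x = a * (v * u) * a' := by
    rw [hx, hy]
    have : a' * y * a * (a' * x * a) = a' * (y * x) * a := by
      rw [mul_assoc (a' * y) a, ← mul_assoc a (a' * x) a, ← mul_assoc a a' x, h1, one_mul]
      simp only [mul_assoc]
    rw [this, k]
  have e3 : u * v = v * u := h
  show x * y = y * x
  rw [e1, e2, e3]

private theorem w2a_main {K : Type} [Ring K] [Nontrivial H] (red : H →+* K)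
    (blk : ∀ p q s t : Hˣ, UZ (1 + (p : H)) → UZ ((p : H) + q) → UZ (1 + (p : H) + q) →
      UZ (1 + (s : H)) → UZ ((s : H) + t) → UZ (1 + (s : H) + t) → UZ ((s : H) - p) →
      UZ ((t : H) - q * Ring.inverse (p : H) * s) →
      (1 + (p : H) ≠ 0 → UZ ((t : H) - q * Ring.inverse (1 + (p : H)) * (1 + s))) →
      UZ ((s : H) + t - (p + q)) → UZ (red ((t : H) - q)) →
      (IsUnit (red ((s : H) - p)) → IsUnit (red ((t : H) - q)) →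
        IsUnit (red ((t : H) - q * Ring.inverse (p : H) * s)) →
        ¬ Commute (red (Ring.inverse (p : H) * s)) (red (Ring.inverse (q : H) * t))) →
      UZ ((t : H) - q)) (A1 R1 R2 B2 A R B A' R' B' : Hˣ)
    (K1 : UZ ((A : H) - A1 * (R1⁻¹ : Hˣ) * R)) (K1' : UZ ((A' : H) - A1 * (R1⁻¹ : Hˣ) * R'))
    (K2 : UZ ((B : H) - B2 * (R2⁻¹ : Hˣ) * R)) (K2' : UZ ((B' : H) - B2 * (R2⁻¹ : Hˣ) * R'))
    (K3 : UZ (((A : H) - A1 * (R1⁻¹ : Hˣ) * R) + A1 * (R1⁻¹ : Hˣ) * R2 * (B2⁻¹ : Hˣ) * B))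
    (K3' : UZ (((A' : H) - A1 * (R1⁻¹ : Hˣ) * R') + A1 * (R1⁻¹ : Hˣ) * R2 * (B2⁻¹ : Hˣ) * B'))
    (M1 : UZ ((R' : H) - R * (A⁻¹ : Hˣ) * A')) (M2 : UZ ((B' : H) - B * (R⁻¹ : Hˣ) * R'))
    (M3 : (A : H) - A1 * (R1⁻¹ : Hˣ) * R ≠ 0 → UZ ((B' : H) -
      B * Ring.inverse ((A : H) - A1 * (R1⁻¹ : Hˣ) * R) * (A' - A1 * (R1⁻¹ : Hˣ) * R')))
    (M4 : UZ (((B' : H) - B2 * (R2⁻¹ : Hˣ) * R') - (B - B2 * (R2⁻¹ : Hˣ) * R) * (A⁻¹ : Hˣ) * A'))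
    (hr : UZ (red ((B' : H) - B * (A⁻¹ : Hˣ) * A')))
    (hc : IsUnit (red ((R' : H) - R * (A⁻¹ : Hˣ) * A')) → IsUnit (red ((B' : H) - B * (A⁻¹ : Hˣ) * A')) →
      IsUnit (red ((B' : H) - B * (R⁻¹ : Hˣ) * R')) →
      ¬ Commute (red ((A : H) * (R⁻¹ : Hˣ) * R' * (A'⁻¹ : Hˣ)))
        (red ((A : H) * (B⁻¹ : Hˣ) * B' * (A'⁻¹ : Hˣ)))) :
    UZ ((B' : H) - B * (A⁻¹ : Hˣ) * A') := by
  obtain ⟨p, hp⟩ : ∃ p : Hˣ, p = -(R1⁻¹ * R * A⁻¹ * A1) := ⟨_, rfl⟩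
  obtain ⟨q, hq⟩ : ∃ q : Hˣ, q = R1⁻¹ * R2 * B2⁻¹ * B * A⁻¹ * A1 := ⟨_, rfl⟩
  obtain ⟨s, hs⟩ : ∃ s : Hˣ, s = -(R1⁻¹ * R' * A'⁻¹ * A1) := ⟨_, rfl⟩
  obtain ⟨t, ht⟩ : ∃ t : Hˣ, t = R1⁻¹ * R2 * B2⁻¹ * B' * A'⁻¹ * A1 := ⟨_, rfl⟩
  have ep : (p : H) = -((R1⁻¹ : Hˣ) * (R : H) * (A⁻¹ : Hˣ) * A1) := by
    rw [hp]
    simp
  have eq : (q : H) = (R1⁻¹ : Hˣ) * (R2 : H) * (B2⁻¹ : Hˣ) * B * (A⁻¹ : Hˣ) * A1 := by
    rw [hq]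
    simp
  have es : (s : H) = -((R1⁻¹ : Hˣ) * (R' : H) * (A'⁻¹ : Hˣ) * A1) := by
    rw [hs]
    simp
  have et : (t : H) = (R1⁻¹ : Hˣ) * (R2 : H) * (B2⁻¹ : Hˣ) * B' * (A'⁻¹ : Hˣ) * A1 := by
    rw [ht]
    simp
  have D1 : 1 + (p : H) = (A1⁻¹ : Hˣ) * ((A : H) - A1 * (R1⁻¹ : Hˣ) * R) * (A⁻¹ * A1 : Hˣ) := by
    rw [ep]
    exact w2a_1 A1 R1 A R
  have D1' : 1 + (s : H) = (A1⁻¹ : Hˣ) * ((A' : H) - A1 * (R1⁻¹ : Hˣ) * R') * (A'⁻¹ * A1 : Hˣ) := by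
    rw [es]
    exact w2a_1 A1 R1 A' R'
  have D2 : (p : H) + q = (R1⁻¹ * R2 * B2⁻¹ : Hˣ) * ((B : H) - B2 * (R2⁻¹ : Hˣ) * R) *
      (A⁻¹ * A1 : Hˣ) := by
    rw [ep, eq]
    exact w2a_2 A1 R1 R2 B2 A R B
  have D2' : (s : H) + t = (R1⁻¹ * R2 * B2⁻¹ : Hˣ) * ((B' : H) - B2 * (R2⁻¹ : Hˣ) * R') *
      (A'⁻¹ * A1 : Hˣ) := by
    rw [es, et]
    exact w2a_2 A1 R1 R2 B2 A' R' B'
  have D3 : 1 + (p : H) + q = (A1⁻¹ : Hˣ) * (((A : H) - A1 * (R1⁻¹ : Hˣ) * R) +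
      A1 * (R1⁻¹ : Hˣ) * R2 * (B2⁻¹ : Hˣ) * B) * (A⁻¹ * A1 : Hˣ) := by
    rw [ep, eq]
    exact w2a_3 A1 R1 R2 B2 A R B
  have D3' : 1 + (s : H) + t = (A1⁻¹ : Hˣ) * (((A' : H) - A1 * (R1⁻¹ : Hˣ) * R') +
      A1 * (R1⁻¹ : Hˣ) * R2 * (B2⁻¹ : Hˣ) * B') * (A'⁻¹ * A1 : Hˣ) := by
    rw [es, et]
    exact w2a_3 A1 R1 R2 B2 A' R' B'
  have h1 : UZ (1 + (p : H)) := w2a_uz _ _ K1 D1
  have h1' : UZ (1 + (s : H)) := w2a_uz _ _ K1' D1'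
  have h2 : UZ ((p : H) + q) := w2a_uz _ _ K2 D2
  have h2' : UZ ((s : H) + t) := w2a_uz _ _ K2' D2'
  have h3 : UZ (1 + (p : H) + q) := w2a_uz _ _ K3 D3
  have h3' : UZ (1 + (s : H) + t) := w2a_uz _ _ K3' D3'
  have E1 : (s : H) - p = (-R1⁻¹ : Hˣ) * ((R' : H) - R * (A⁻¹ : Hˣ) * A') * (A'⁻¹ * A1 : Hˣ) := by
    rw [ep, es]
    exact w2a_m1 A1 R1 A R A' R'
  have E2 : (t : H) - q * Ring.inverse (p : H) * s = (R1⁻¹ * R2 * B2⁻¹ : Hˣ) *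
      ((B' : H) - B * (R⁻¹ : Hˣ) * R') * (A'⁻¹ * A1 : Hˣ) := by
    rw [Ring.inverse_unit, et, eq, es, hp]
    exact w2a_m2 A1 R1 R2 B2 R B A A' R' B'
  have E3 : (t : H) - q = (R1⁻¹ * R2 * B2⁻¹ : Hˣ) * ((B' : H) - B * (A⁻¹ : Hˣ) * A') *
      (A'⁻¹ * A1 : Hˣ) := by
    rw [et, eq]
    exact w2a_tq A1 R1 R2 B2 A B A' B'
  have m1 : UZ ((s : H) - p) := w2a_uz _ _ M1 E1
  have m2 : UZ ((t : H) - q * Ring.inverse (p : H) * s) := w2a_uz _ _ M2 E2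
  have D4 : (s : H) + t - (p + q) = (R1⁻¹ * R2 * B2⁻¹ : Hˣ) * (((B' : H) - B2 * (R2⁻¹ : Hˣ) * R') -
      (B - B2 * (R2⁻¹ : Hˣ) * R) * (A⁻¹ : Hˣ) * A') * (A'⁻¹ * A1 : Hˣ) := by
    rw [ep, eq, es, et]
    exact w2a_m4 A1 R1 R2 B2 A R B A' R' B'
  have m4 : UZ ((s : H) + t - (p + q)) := w2a_uz _ _ M4 D4
  have m3 : 1 + (p : H) ≠ 0 → UZ ((t : H) - q * Ring.inverse (1 + (p : H)) * (1 + s)) := by
    intro hne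
    obtain ⟨X, eX⟩ := h1.resolve_left hne
    have e1 : (X : H) = (A1⁻¹ : Hˣ) * ((A : H) - A1 * (R1⁻¹ : Hˣ) * R) * (A⁻¹ * A1 : Hˣ) :=
      eX.trans D1
    have hx : IsUnit ((A : H) - A1 * (R1⁻¹ : Hˣ) * R) :=
      w2a_iu (Units.isUnit _) (Units.isUnit _) (e1 ▸ X.isUnit)
    have M := M3 hx.ne_zero
    exact w2a_uz (R1⁻¹ * R2 * B2⁻¹) (A'⁻¹ * A1) M
      (w2a_m3' A1 R1 R2 B2 B A A' B' X p q s t _ _ eX e1 hx D1' eq et)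
  have hr' : UZ (red ((t : H) - q)) := by
    rw [E3, map_mul, map_mul]
    exact uz_mul (uz_mul (Or.inr ((Units.isUnit _).map red)) hr) (Or.inr ((Units.isUnit _).map red))
  have hc' : IsUnit (red ((s : H) - p)) → IsUnit (red ((t : H) - q)) →
      IsUnit (red ((t : H) - q * Ring.inverse (p : H) * s)) →
      ¬ Commute (red (Ring.inverse (p : H) * s)) (red (Ring.inverse (q : H) * t)) := by
    intro u1 u2 u3 hcom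
    rw [E1, map_mul, map_mul] at u1
    rw [E3, map_mul, map_mul] at u2
    rw [E2, map_mul, map_mul] at u3
    refine hc (w2a_iu ((Units.isUnit _).map red) ((Units.isUnit _).map red) u1)
      (w2a_iu ((Units.isUnit _).map red) ((Units.isUnit _).map red) u2)
      (w2a_iu ((Units.isUnit _).map red) ((Units.isUnit _).map red) u3) ?_
    have hA : red (A1 : H) * red ((A1⁻¹ : Hˣ) : H) = 1 := by
      rw [← map_mul, Units.mul_inv, map_one]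
    have F1 : Ring.inverse (p : H) * s = (A1⁻¹ : Hˣ) * ((A : H) * (R⁻¹ : Hˣ) * R' * (A'⁻¹ : Hˣ)) * A1 := by
      rw [Ring.inverse_unit, es, hp]
      exact w2a_c1 A1 R1 R A A' R'
    have F2 : Ring.inverse (q : H) * t = (A1⁻¹ : Hˣ) * ((A : H) * (B⁻¹ : Hˣ) * B' * (A'⁻¹ : Hˣ)) * A1 := by
      rw [Ring.inverse_unit, et, hq]
      exact w2a_c2 A1 R1 R2 B2 B A A' B'
    have G1 : red (Ring.inverse (p : H) * s) = red ((A1⁻¹ : Hˣ) : H) *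
        red ((A : H) * (R⁻¹ : Hˣ) * R' * (A'⁻¹ : Hˣ)) * red (A1 : H) := by
      rw [F1, ← map_mul, ← map_mul]
    have G2 : red (Ring.inverse (q : H) * t) = red ((A1⁻¹ : Hˣ) : H) *
        red ((A : H) * (B⁻¹ : Hˣ) * B' * (A'⁻¹ : Hˣ)) * red (A1 : H) := by
      rw [F2, ← map_mul, ← map_mul]
    exact w2a_comm hA G1 G2 hcom
  have key : UZ ((t : H) - q) :=
    blk p q s t h1 h2 h3 h1' h2' h3' m1 m2 m3 m4 hr' hc'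
  have D5 : (B' : H) - B * (A⁻¹ : Hˣ) * A' = (B2 * R2⁻¹ * R1 : Hˣ) * ((t : H) - q) *
      (A1⁻¹ * A' : Hˣ) := by
    rw [et, eq]
    exact w2a_sc A1 R1 R2 B2 A B A' B'
  exact w2a_uz _ _ key D5

end Alg

variable {E : Type} {Λ : Submodule Hz (E → Hz)} {Γ : Submodule Rq (E → Rq)} {S G : Finset E} {a r b c₁ c₂ e f : E}

theorem s2a (hD : Dat Γ G) (hO : RightOff Λ Γ e f) (hS : IsB Γ S) (heS : e ∉ S) (hfS : f ∉ S) (hef : e ≠ f)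
    (ha : a ∈ S) (hr : r ∈ S) (hb : b ∈ S) (hab : a ≠ b) (har : a ≠ r) (hrb : r ≠ b)
    (hc₁ : c₁ ∉ S) (hc₂ : c₂ ∉ S) (h1e : c₁ ≠ e) (h1f : c₁ ≠ f) (h2e : c₂ ≠ e) (h2f : c₂ ≠ f)
    (hA1 : fv Λ S a c₁ ≠ 0) (hR1 : fv Λ S r c₁ ≠ 0) (hB1 : fv Λ S b c₁ = 0) (hA2 : fv Λ S a c₂ = 0)
    (hR2 : fv Λ S r c₂ ≠ 0) (hB2 : fv Λ S b c₂ ≠ 0) (hRe : fv Λ S r e ≠ 0) (hRf : fv Λ S r f ≠ 0)
    (hAe : fv Λ S a e ≠ 0) : UZ (sc Λ S a b e f) := by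
  have hΛ := (hO S hS heS hfS).1
  have hz : ∀ x ∈ S, ∀ g, UZ (fv Λ S x g) := fun x hx g => ((hO S hS heS hfS).2 x hx g).1
  have hrd : ∀ x ∈ S, ∀ g, red (fv Λ S x g) = fv Γ S x g := fun x hx g => ((hO S hS heS hfS).2 x hx g).2
  by_cases hBe : fv Λ S b e = 0
  · unfold sc
    rw [hBe, zero_mul, zero_mul, sub_zero]
    exact hz b hb f
  by_cases hAf : fv Λ S a f = 0
  · unfold sc
    rw [hAf, mul_zero, sub_zero]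
    exact hz b hb f
  by_cases hBf : fv Λ S b f = 0
  · unfold sc
    rw [hBf, zero_sub]
    exact uz_neg (uz_mul (uz_mul (hz b hb e) (uz_inv (hz a ha e))) (hz a ha f))
  obtain ⟨A1, eA1⟩ := off_unit hO hS heS hfS ha hA1
  obtain ⟨R1, eR1⟩ := off_unit hO hS heS hfS hr hR1
  obtain ⟨R2, eR2⟩ := off_unit hO hS heS hfS hr hR2
  obtain ⟨B2, eB2⟩ := off_unit hO hS heS hfS hb hB2
  obtain ⟨A, eA⟩ := off_unit hO hS heS hfS ha hAe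
  obtain ⟨R, eR⟩ := off_unit hO hS heS hfS hr hRe
  obtain ⟨B, eB⟩ := off_unit hO hS heS hfS hb hBe
  obtain ⟨A', eA'⟩ := off_unit hO hS heS hfS ha hAf
  obtain ⟨R', eR'⟩ := off_unit hO hS heS hfS hr hRf
  obtain ⟨B', eB'⟩ := off_unit hO hS heS hfS hb hBf
  have hcc : c₂ ≠ c₁ := by
    rintro rfl
    exact hB2 hB1
  have uR1 : IsUnit (fv Λ S r c₁) := ⟨R1, eR1⟩
  have uR2 : IsUnit (fv Λ S r c₂) := ⟨R2, eR2⟩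
  have gR1 : IsUnit (fv Γ S r c₁) := by
    rw [← hrd r hr]
    exact red_unit uR1
  have gR2 : IsUnit (fv Γ S r c₂) := by
    rw [← hrd r hr]
    exact red_unit uR2
  have hS1 : IsB Γ (pv S r c₁) := piv hS hr hc₁ gR1
  have hS2 : IsB Γ (pv S r c₂) := piv hS hr hc₂ gR2
  have heS1 : e ∉ pv S r c₁ := by
    rw [mem_pv]
    rintro (h | h)
    · exact h1e h.symm
    · exact heS h.2
  have hfS1 : f ∉ pv S r c₁ := by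
    rw [mem_pv]
    rintro (h | h)
    · exact h1f h.symm
    · exact hfS h.2
  have heS2 : e ∉ pv S r c₂ := by
    rw [mem_pv]
    rintro (h | h)
    · exact h2e h.symm
    · exact heS h.2
  have hfS2 : f ∉ pv S r c₂ := by
    rw [mem_pv]
    rintro (h | h)
    · exact h2f h.symm
    · exact hfS h.2
  have haS1 : a ∈ pv S r c₁ := mem_pv.2 (Or.inr ⟨har, ha⟩)
  have hbS1 : b ∈ pv S r c₁ := mem_pv.2 (Or.inr ⟨fun h => hrb h.symm, hb⟩)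
  have haS2 : a ∈ pv S r c₂ := mem_pv.2 (Or.inr ⟨har, ha⟩)
  have hbS2 : b ∈ pv S r c₂ := mem_pv.2 (Or.inr ⟨fun h => hrb h.symm, hb⟩)
  have hc2S1 : c₂ ∉ pv S r c₁ := by
    rw [mem_pv]
    rintro (h | h)
    · exact hcc h
    · exact hc₂ h.2
  have hc1S2 : c₁ ∉ pv S r c₂ := by
    rw [mem_pv]
    rintro (h | h)
    · exact hcc h.symm
    · exact hc₁ h.2
  have P1a : ∀ g, fv Λ (pv S r c₁) a g = fv Λ S a g - A1 * (R1⁻¹ : Hzˣ) * fv Λ S r g := by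
    intro g
    rw [piv_old_apply hΛ hr hc₁ uR1 ha har g]
    unfold sc
    rw [← eR1, ← eA1, Ring.inverse_unit]
  have P1b : ∀ g, fv Λ (pv S r c₁) b g = fv Λ S b g := by
    intro g
    rw [piv_old_apply hΛ hr hc₁ uR1 hb (fun h => hrb h.symm) g]
    unfold sc
    rw [hB1, zero_mul, zero_mul, sub_zero]
  have P2a : ∀ g, fv Λ (pv S r c₂) a g = fv Λ S a g := by
    intro g
    rw [piv_old_apply hΛ hr hc₂ uR2 ha har g]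
    unfold sc
    rw [hA2, zero_mul, zero_mul, sub_zero]
  have P2b : ∀ g, fv Λ (pv S r c₂) b g = fv Λ S b g - B2 * (R2⁻¹ : Hzˣ) * fv Λ S r g := by
    intro g
    rw [piv_old_apply hΛ hr hc₂ uR2 hb (fun h => hrb h.symm) g]
    unfold sc
    rw [← eR2, ← eB2, Ring.inverse_unit]
  have P1ac2 : fv Λ (pv S r c₁) a c₂ = -(A1 * (R1⁻¹ : Hzˣ) * R2) := by
    rw [P1a, hA2, ← eR2, zero_sub]
  have P1bc2 : fv Λ (pv S r c₁) b c₂ = B2 := by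
    rw [P1b, eB2]
  have P2bc1 : fv Λ (pv S r c₂) b c₁ = -(B2 * (R2⁻¹ : Hzˣ) * R1) := by
    rw [P2b, hB1, ← eR1, zero_sub]
  have nz : ∀ x : Hzˣ, (x : Hz) ≠ 0 := fun x => x.ne_zero
  have H1 : ∀ g, UZ (fv Λ S a g - A1 * (R1⁻¹ : Hzˣ) * fv Λ S r g) := by
    intro g
    have h := (off_sc hO hS heS hfS hr ha (fun h => har h.symm) hc₁ h1e h1f hR1 g).1
    unfold sc at h
    rwa [← eR1, ← eA1, Ring.inverse_unit] at h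
  have H2 : ∀ g, UZ (fv Λ S b g - B2 * (R2⁻¹ : Hzˣ) * fv Λ S r g) := by
    intro g
    have h := (off_sc hO hS heS hfS hr hb hrb hc₂ h2e h2f hR2 g).1
    unfold sc at h
    rwa [← eR2, ← eB2, Ring.inverse_unit] at h
  have H3 : ∀ g, UZ ((fv Λ S a g - A1 * (R1⁻¹ : Hzˣ) * fv Λ S r g) + A1 * (R1⁻¹ : Hzˣ) * R2 *
      (B2⁻¹ : Hzˣ) * fv Λ S b g) := by
    intro g
    have hu : fv Λ (pv S r c₁) b c₂ ≠ 0 := by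
      rw [P1bc2]
      exact nz B2
    have h := (off_sc hO hS1 heS1 hfS1 hbS1 haS1 (fun h => hab h.symm) hc2S1 h2e h2f hu g).1
    unfold sc at h
    rwa [P1a, P1ac2, P1bc2, P1b, Ring.inverse_unit, neg_mul, neg_mul, sub_neg_eq_add] at h
  have K1 := H1 e
  have K1' := H1 f
  have K2 := H2 e
  have K2' := H2 f
  have K3 := H3 e
  have K3' := H3 f
  rw [← eA, ← eR] at K1
  rw [← eA', ← eR'] at K1'
  rw [← eB, ← eR] at K2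
  rw [← eB', ← eR'] at K2'
  rw [← eA, ← eR, ← eB] at K3
  rw [← eA', ← eR', ← eB'] at K3'
  have M1 := s1 hD hO hS heS hfS ha hr har hc₁ h1e h1f hA1 hR1 hAe
  have M2 := s1 hD hO hS heS hfS hr hb hrb hc₂ h2e h2f hR2 hB2 hRe
  have M4 : UZ (sc Λ (pv S r c₂) a b e f) := by
    refine s1 hD hO hS2 heS2 hfS2 haS2 hbS2 hab hc1S2 h1e h1f ?_ ?_ ?_
    · rw [P2a]
      exact hA1
    · rw [P2bc1]
      exact neg_ne_zero.2 (nz (B2 * R2⁻¹ * R1))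
    · rw [P2a]
      exact hAe
  have M3 : (A : Hz) - A1 * (R1⁻¹ : Hzˣ) * R ≠ 0 → UZ (sc Λ (pv S r c₁) a b e f) := by
    intro hne
    refine s1 hD hO hS1 heS1 hfS1 haS1 hbS1 hab hc2S1 h2e h2f ?_ ?_ ?_
    · rw [P1ac2]
      exact neg_ne_zero.2 (nz (A1 * R1⁻¹ * R2))
    · rw [P1bc2]
      exact nz B2
    · rw [P1a, ← eA, ← eR]
      exact hne
  unfold sc at M1 M2 M3 M4
  rw [← eA, ← eR, ← eR', ← eA', Ring.inverse_unit] at M1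
  rw [← eB, ← eB', ← eR, ← eR', Ring.inverse_unit] at M2
  rw [P1a, P1a, P1b, P1b, ← eA, ← eR, ← eR', ← eA', ← eB, ← eB'] at M3
  rw [P2b, P2b, P2a, P2a, ← eA, ← eR, ← eR', ← eA', ← eB, ← eB', Ring.inverse_unit] at M4
  have hred := off_red hD hO hS heS hfS ha hb hab heS hAe f
  have hred2 := off_red hD hO hS heS hfS ha hr har heS hAe f
  have hred3 := off_red hD hO hS heS hfS hr hb hrb heS hRe f
  have esc : sc Λ S a b e f = (B' : Hz) - B * (A⁻¹ : Hzˣ) * A' := by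
    unfold sc
    rw [← eA, ← eA', ← eB, ← eB', Ring.inverse_unit]
  have esc2 : sc Λ S a r e f = (R' : Hz) - R * (A⁻¹ : Hzˣ) * A' := by
    unfold sc
    rw [← eA, ← eA', ← eR, ← eR', Ring.inverse_unit]
  have esc3 : sc Λ S r b e f = (B' : Hz) - B * (R⁻¹ : Hzˣ) * R' := by
    unfold sc
    rw [← eB, ← eB', ← eR, ← eR', Ring.inverse_unit]
  have hr' : UZ (red ((B' : Hz) - B * (A⁻¹ : Hzˣ) * A')) := by
    rw [← esc, hred.1]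
    exact hred.2
  rw [esc]
  refine w2a_main red (fun p q s t => blk7 p.isUnit q.isUnit s.isUnit t.isUnit) A1 R1 R2 B2 A R B A' R' B'
    K1 K1' K2 K2' K3 K3' M1 M2 M3 M4 hr' ?_
  intro v1 v2 v3
  rw [← esc2, hred2.1] at v1
  rw [← esc, hred.1] at v2
  rw [← esc3, hred3.1] at v3
  have gu : ∀ x ∈ S, ∀ g, fv Λ S x g ≠ 0 → IsUnit (fv Γ S x g) := by
    intro x hx g h
    rw [← hrd x hx]
    exact red_unit (off_unit hO hS heS hfS hx h)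
  have r1 : rX Γ S a r e f = red ((A : Hz) * (R⁻¹ : Hzˣ) * R' * (A'⁻¹ : Hzˣ)) := by
    unfold rX
    rw [← hrd a ha, ← hrd r hr, ← hrd r hr, ← hrd a ha, ← eA, ← eR, ← eR', ← eA',
      ← red_inv (Units.isUnit _), ← red_inv (Units.isUnit _), Ring.inverse_unit, Ring.inverse_unit,
      map_mul, map_mul, map_mul]
  have r2 : rX Γ S a b e f = red ((A : Hz) * (B⁻¹ : Hzˣ) * B' * (A'⁻¹ : Hzˣ)) := by
    unfold rX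
    rw [← hrd a ha, ← hrd b hb, ← hrd b hb, ← hrd a ha, ← eA, ← eB, ← eB', ← eA',
      ← red_inv (Units.isUnit _), ← red_inv (Units.isUnit _), Ring.inverse_unit, Ring.inverse_unit,
      map_mul, map_mul, map_mul]
  rw [← r1, ← r2]
  exact hD.nc.row S hS a ha r hr b hb har hab hrb e f heS hfS (gu a ha e hAe) (gu r hr e hRe)
    (gu b hb e hBe) (gu a ha f hAf) (gu r hr f hRf) (gu b hb f hBf) v1 v2 v3

end Pool.Agent.QUS
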