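import Pool.Agent.QUS.W2
import Pool.Agent.QUS.Np
import Pool.Agent.QUS.Cn

/-!
# QUS/W3: (S3): all blocks are right

`Γ' = del (del Γ e) f`; `fv Γ' S b g = fv Γ S b g` for `g ≠ e, f` and `0` for `g = e, f`.  Take `m` minimal such that there are a basis `S` of `Γ` avoiding `e, f`, `a ≠ b` in `S` with `Near Γ' S m a b` and a wrong block
`(a,b;e,f)` at `S` (some `m` exists by `near_of_conn`).  `m = 0`: `a = b`.  `m = 1`: `s1`.  `m = 2`: path `a - c₁ - r - c₂ - b`; by minimality `fv b c₁ = 0`, `fv a c₂ = 0`, `r ≠ a, b`: `s2`.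
`m ≥ 3`: `a - c₁ - r₁ - c₂ - r₂ - ... - b`.  By minimality: `fv a c₂ = 0`, `fv b c₂ = 0`, `fv r₂ c₁ = 0`, `¬ Near k' r₁ b` for `k' ≤ m - 2`, `r₁ ≠ a, b`.  Pivot at `(r₁, c₂)`: `S' = pv S r₁ c₂`; the rows `a`, `b` do not change, so the
block is wrong at `S'`; `fv' r₂ c₁ ≠ 0`, `fv' a c₁ = fv a c₁ ≠ 0`, and `Near (m-2) r₂ b` persists (`near_piv` for `Γ'`): `Near (m-1) a b` at `S'`, contradiction.
-/

set_option autoImplicit false

noncomputable section

open scoped Classical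

namespace Pool.Agent.QUS

variable {E : Type} {Λ : Submodule Hz (E → Hz)} {Γ : Submodule Rq (E → Rq)} {S G : Finset E} {a b e f : E}

private theorem W3_fv (hS : IsB Γ S) (heS : e ∉ S) (hfS : f ∉ S) (hb : b ∈ S) {g : E} (hge : g ≠ e) (hgf : g ≠ f) :
    fv (del (del Γ e) f) S b g = fv Γ S b g := by
  rw [fv_del_of_ne (isB_del_of hS heS) hfS hb hgf, fv_del_of_ne hS heS hb hge]

private theorem W3_ne (hS : IsB Γ S) (heS : e ∉ S) (hfS : f ∉ S) (hb : b ∈ S) {g : E}
    (h : fv (del (del Γ e) f) S b g ≠ 0) : g ≠ e ∧ g ≠ f := by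
  have hgf : g ≠ f := by
    intro hh
    apply h
    rw [hh]
    exact fv_del_self (isB_del_of hS heS) hfS hb
  refine ⟨fun hh => ?_, hgf⟩
  apply h
  rw [fv_del_of_ne (isB_del_of hS heS) hfS hb hgf, hh]
  exact fv_del_self hS heS hb

private theorem W3_start {Δ : Submodule Rq (E → Rq)} {T : Finset E} {m : ℕ} {x y : E} (h : Near Δ T m x y) : x ∈ T := by
  cases h with
  | zero _ h => exact h
  | succ m _ c r _ h1 h2 h3 h4 h5 h6 => exact h1

private theorem W3_zero {Δ : Submodule Rq (E → Rq)} {T : Finset E} {x y : E} (h : Near Δ T 0 x y) : x = y := by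
  cases h with
  | zero _ h => rfl

private theorem W3_succ {Δ : Submodule Rq (E → Rq)} {T : Finset E} {m : ℕ} {x y : E} (h : Near Δ T (m + 1) x y) :
    ∃ c r, x ∈ T ∧ r ∈ T ∧ c ∉ T ∧ fv Δ T x c ≠ 0 ∧ fv Δ T r c ≠ 0 ∧ Near Δ T m r y := by
  cases h with
  | succ m _ c r _ h1 h2 h3 h4 h5 h6 => exact ⟨c, r, h1, h2, h3, h4, h5, h6⟩

/-- a row with a zero in the pivot column does not change -/
private theorem W3_row {H : Type} [Ring H] {Δ : Submodule H (E → H)} {T : Finset E} (hT : IsB Δ T) {r c x : E} (hr : r ∈ T)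
    (hc : c ∉ T) (hu : IsUnit (fv Δ T r c)) (hx : x ∈ T) (hxr : x ≠ r) (h0 : fv Δ T x c = 0) :
    fv Δ (pv T r c) x = fv Δ T x := by
  rw [piv_old hT hr hc hu hx hxr, h0, zero_mul, zero_smul, sub_zero]

private theorem W3_main (hD : Dat Γ G) (hO : RightOff Λ Γ e f) (hef : e ≠ f) :
    ∀ (m : ℕ) (S : Finset E) (a b : E), IsB Γ S → e ∉ S → f ∉ S → a ∈ S → b ∈ S → a ≠ b →
      Near (del (del Γ e) f) S m a b → fv Λ S a e ≠ 0 → UZ (sc Λ S a b e f) := by
  intro m
  induction m using Nat.strong_induction_on with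
  | _ m ih =>
    intro S a b hS heS hfS ha hb hab hN hAe
    have hS' : IsB (del (del Γ e) f) S := isB_del_of (isB_del_of hS heS) hfS
    -- transfer of nonvanishing
    have tr : ∀ {x g : E}, x ∈ S → fv (del (del Γ e) f) S x g ≠ 0 → fv Γ S x g ≠ 0 ∧ fv Λ S x g ≠ 0 ∧ g ≠ e ∧ g ≠ f := by
      intro x g hx h
      obtain ⟨h1, h2⟩ := W3_ne hS heS hfS hx h
      rw [W3_fv hS heS hfS hx h1 h2] at h
      exact ⟨h, fun h3 => h ((off_zero hO hS heS hfS hx).1 h3), h1, h2⟩
    match m, ih, hN with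
    | 0, _, hN => exact absurd (W3_zero hN) hab
    | 1, _, hN =>
      obtain ⟨c, r, -, hr, hc, h1, h2, h3⟩ := W3_succ hN
      have hrb : r = b := W3_zero h3
      rw [hrb] at h2
      obtain ⟨-, h1', hce, hcf⟩ := tr ha h1
      obtain ⟨-, h2', -, -⟩ := tr hb h2
      exact s1 hD hO hS heS hfS ha hb hab hc hce hcf h1' h2' hAe
    | 2, ih, hN =>
      obtain ⟨c₁, r, -, hr, hc₁, h1, h2, h3⟩ := W3_succ hN
      obtain ⟨c₂, r', -, hr', hc₂, h4, h5, h6⟩ := W3_succ h3
      have hrb : r' = b := W3_zero h6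
      rw [hrb] at h5
      obtain ⟨-, k1, n1e, n1f⟩ := tr ha h1
      obtain ⟨-, k2, -, -⟩ := tr hr h2
      obtain ⟨-, k4, n2e, n2f⟩ := tr hr h4
      obtain ⟨-, k5, -, -⟩ := tr hb h5
      by_cases z1 : fv (del (del Γ e) f) S b c₁ = 0
      · by_cases z2 : fv (del (del Γ e) f) S a c₂ = 0
        · have har : a ≠ r := by
            rintro rfl
            exact h4 z2
          have hrb' : r ≠ b := by
            rintro rfl
            exact h2 z1
          have z1' : fv Λ S b c₁ = 0 := by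
            rw [off_zero hO hS heS hfS hb, ← W3_fv hS heS hfS hb n1e n1f]
            exact z1
          have z2' : fv Λ S a c₂ = 0 := by
            rw [off_zero hO hS heS hfS ha, ← W3_fv hS heS hfS ha n2e n2f]
            exact z2
          exact s2 hD hO hS heS hfS hef ha hr hb hab har hrb' hc₁ hc₂ n1e n1f n2e n2f k1 k2 z1' z2' k4 k5 hAe
        · exact ih 1 (by norm_num) S a b hS heS hfS ha hb hab
            (Near.succ 0 a c₂ b b ha hb hc₂ z2 h5 (Near.zero b hb)) hAe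
      · exact ih 1 (by norm_num) S a b hS heS hfS ha hb hab
          (Near.succ 0 a c₁ b b ha hb hc₁ h1 z1 (Near.zero b hb)) hAe
    | k + 3, ih, hN =>
      obtain ⟨c₁, r₁, -, hr₁, hc₁, h1, h2, h3⟩ := W3_succ hN
      obtain ⟨c₂, r₂, -, hr₂, hc₂, h4, h5, h6⟩ := W3_succ h3
      obtain ⟨l1, k1, n1e, n1f⟩ := tr ha h1
      obtain ⟨l2, k2, -, -⟩ := tr hr₁ h2
      obtain ⟨l4, k4, n2e, n2f⟩ := tr hr₁ h4
      obtain ⟨l5, k5, -, -⟩ := tr hr₂ h5
      by_cases z1 : fv (del (del Γ e) f) S a c₂ = 0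
      swap
      · exact ih (k + 2) (by omega) S a b hS heS hfS ha hb hab
          (Near.succ (k + 1) a c₂ r₂ b ha hr₂ hc₂ z1 h5 h6) hAe
      by_cases z2 : fv (del (del Γ e) f) S b c₂ = 0
      swap
      · exact ih 2 (by omega) S a b hS heS hfS ha hb hab
          (Near.succ 1 a c₁ r₁ b ha hr₁ hc₁ h1 h2 (Near.succ 0 r₁ c₂ b b hr₁ hb hc₂ h4 z2 (Near.zero b hb))) hAe
      by_cases z3 : fv (del (del Γ e) f) S r₂ c₁ = 0
      swap
      · exact ih (k + 2) (by omega) S a b hS heS hfS ha hb hab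
          (Near.succ (k + 1) a c₁ r₂ b ha hr₂ hc₁ h1 z3 h6) hAe
      by_cases hnn : ∀ k' ≤ k + 1, ¬ Near (del (del Γ e) f) S k' r₁ b
      swap
      · push Not at hnn
        obtain ⟨k', hk', hn'⟩ := hnn
        exact ih (k' + 1) (by omega) S a b hS heS hfS ha hb hab
          (Near.succ k' a c₁ r₁ b ha hr₁ hc₁ h1 h2 hn') hAe
      have har : a ≠ r₁ := by
        rintro rfl
        exact h4 z1
      have hbr : b ≠ r₁ := by
        rintro rfl
        exact h4 z2
      have hrr : r₂ ≠ r₁ := by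
        rintro rfl
        exact hnn (k + 1) le_rfl h6
      have hcc : c₁ ≠ c₂ := by
        rintro rfl
        exact h1 z1
      -- the pivot
      have hu' : IsUnit (fv (del (del Γ e) f) S r₁ c₂) := by
        rw [W3_fv hS heS hfS hr₁ n2e n2f]
        rcases hD.uz S hS r₁ hr₁ c₂ with h | h
        · exact absurd h l4
        · exact h
      have hu : IsUnit (fv Γ S r₁ c₂) := by
        rw [← W3_fv hS heS hfS hr₁ n2e n2f]
        exact hu'
      have huΛ : IsUnit (fv Λ S r₁ c₂) := off_unit hO hS heS hfS hr₁ k4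
      have hΛ : IsB Λ S := (hO S hS heS hfS).1
      have hT : IsB Γ (pv S r₁ c₂) := piv hS hr₁ hc₂ hu
      have heT : e ∉ pv S r₁ c₂ := by
        intro h
        rcases mem_pv.1 h with h | h
        · exact n2e h.symm
        · exact heS h.2
      have hfT : f ∉ pv S r₁ c₂ := by
        intro h
        rcases mem_pv.1 h with h | h
        · exact n2f h.symm
        · exact hfS h.2
      have haT : a ∈ pv S r₁ c₂ := mem_pv.2 (Or.inr ⟨har, ha⟩)
      have hbT : b ∈ pv S r₁ c₂ := mem_pv.2 (Or.inr ⟨hbr, hb⟩)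
      have hr₂T : r₂ ∈ pv S r₁ c₂ := mem_pv.2 (Or.inr ⟨hrr, hr₂⟩)
      have hc₁T : c₁ ∉ pv S r₁ c₂ := by
        intro h
        rcases mem_pv.1 h with h | h
        · exact hcc h
        · exact hc₁ h.2
      have zaΛ : fv Λ S a c₂ = 0 := by
        rw [off_zero hO hS heS hfS ha, ← W3_fv hS heS hfS ha n2e n2f]
        exact z1
      have zbΛ : fv Λ S b c₂ = 0 := by
        rw [off_zero hO hS heS hfS hb, ← W3_fv hS heS hfS hb n2e n2f]
        exact z2
      have ra : fv Λ (pv S r₁ c₂) a = fv Λ S a := W3_row hΛ hr₁ hc₂ huΛ ha har zaΛ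
      have rb : fv Λ (pv S r₁ c₂) b = fv Λ S b := W3_row hΛ hr₁ hc₂ huΛ hb hbr zbΛ
      have hsc : sc Λ (pv S r₁ c₂) a b e f = sc Λ S a b e f := by
        unfold sc
        rw [ra, rb]
      have ra' : fv (del (del Γ e) f) (pv S r₁ c₂) a = fv (del (del Γ e) f) S a :=
        W3_row hS' hr₁ hc₂ hu' ha har z1
      have hN' : Near (del (del Γ e) f) (pv S r₁ c₂) (k + 1) r₂ b := near_piv hS' hr₁ hc₂ hu' h6 hnn
      have hne : fv (del (del Γ e) f) (pv S r₁ c₂) r₂ c₁ ≠ 0 := by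
        rw [piv_old_apply hS' hr₁ hc₂ hu' hr₂ hrr c₁]
        unfold sc
        rw [z3, zero_sub, neg_ne_zero]
        have v5 : IsUnit (fv (del (del Γ e) f) S r₂ c₂) := by
          rw [W3_fv hS heS hfS hr₂ n2e n2f]
          rcases hD.uz S hS r₂ hr₂ c₂ with h | h
          · exact absurd h l5
          · exact h
        have v2 : IsUnit (fv (del (del Γ e) f) S r₁ c₁) := by
          rw [W3_fv hS heS hfS hr₁ n1e n1f]
          rcases hD.uz S hS r₁ hr₁ c₁ with h | h
          · exact absurd h l2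
          · exact h
        exact ((v5.mul hu'.ringInverse).mul v2).ne_zero
      have hNN : Near (del (del Γ e) f) (pv S r₁ c₂) (k + 2) a b := by
        refine Near.succ (k + 1) a c₁ r₂ b haT hr₂T hc₁T ?_ hne hN'
        rw [ra']
        exact h1
      rw [← hsc]
      refine ih (k + 2) (by omega) (pv S r₁ c₂) a b hT heT hfT haT hbT hab hNN ?_
      rw [ra]
      exact hAe

theorem blocks (hD : Dat Γ G) (hO : RightOff Λ Γ e f) (hef : e ≠ f)
    (hC : Conn (del (del Γ e) f) ((G.erase e).erase f)) (hS : IsB Γ S) (heS : e ∉ S) (hfS : f ∉ S) (ha : a ∈ S) (hb : b ∈ S)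
    (hab : a ≠ b) (hAe : fv Λ S a e ≠ 0) : UZ (sc Λ S a b e f) := by
  have hS' : IsB (del (del Γ e) f) S := isB_del_of (isB_del_of hS heS) hfS
  obtain ⟨m, hm⟩ := near_of_conn (sup_del (sup_del hD.sup)) hS' hC ha hb
  exact W3_main hD hO hef m S a b hS heS hfS ha hb hab hm hAe

end Pool.Agent.QUS
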